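import Pool.Agent.Helper576.Assembly

namespace Pool.Agent.Helper576.LpMult

open Finset Complex Filter Topology MeasureTheory

theorem integrable_Fej (M : ℕ) (a : ℤ → ℂ) : Integrable (fun x => Fej M a x) μT := by
  unfold Fej
  exact integrable_finsetSum _ fun n _ => (integrable_ee n).const_mul _

theorem fc_Fej (M : ℕ) (a : ℤ → ℂ) (n : ℤ) :
    fourierCoeff (fun x => Fej M a x) n = (cf M n : ℂ) * a n := by
  classical
  unfold Fej
  rw [fc_sum _ _ (fun n _ => (integrable_ee n).const_mul _)]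
  simp only [fc_const_mul, fc_ee]
  by_cases hn : n ∈ Icc (-(M : ℤ)) M
  · rw [sum_eq_single n]
    · simp
    · intro k _ hk
      rw [if_neg (fun h => hk h.symm), mul_zero]
    · intro h; exact absurd hn h
  · rw [sum_eq_zero]
    · have : cf M n = 0 := by
        apply cf_eq_zero
        rw [mem_Icc] at hn
        by_contra hcon
        push Not at hcon
        apply hn
        have := abs_le.mp hcon.le
        exact this
      rw [this]; simp
    · intro k hk
      have : n ≠ k := fun h => hn (h ▸ hk)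
      rw [if_neg this, mul_zero]

theorem integrable_gap (M : ℕ) (fh : ℤ → ℂ) (S : Finset UnitAddCircle) (b : UnitAddCircle → ℂ) :
    Integrable (gap M fh S b) μT := by
  unfold gap
  refine (integrable_Fej M fh).add (integrable_finsetSum _ fun t _ => Integrable.const_mul ?_ _)
  exact (integrable_s0_sub t).sub (integrable_translate (integrable_Fej M _) t)

theorem fc_gap (M : ℕ) (fh : ℤ → ℂ) (S : Finset UnitAddCircle) (b : UnitAddCircle → ℂ) (n : ℤ) :
    fourierCoeff (gap M fh S b) n = (cf M n : ℂ) * fh n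
      + (∑ t ∈ S, b t * ee (-n) t) * (fourierCoeff s0 n - (cf M n : ℂ) * fourierCoeff s0 n) := by
  have hI : ∀ t ∈ S, Integrable (fun x => b t * (s0 (x - t) - Fej M (fourierCoeff s0) (x - t))) μT :=
    fun t _ => ((integrable_s0_sub t).sub (integrable_translate (integrable_Fej M _) t)).const_mul _
  have h1 : gap M fh S b = fun x => Fej M fh x
      + ∑ t ∈ S, b t * (s0 (x - t) - Fej M (fourierCoeff s0) (x - t)) := rfl
  rw [h1, fc_add (integrable_Fej M fh) (integrable_finsetSum _ hI), fc_Fej, fc_sum _ _ hI, sum_mul]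
  congr 1
  apply sum_congr rfl; intro t _
  rw [fc_const_mul, fc_sub (integrable_s0_sub t) (integrable_translate (integrable_Fej M _) t),
    fc_translate, fc_translate (fun x => Fej M (fourierCoeff s0) x), fc_Fej]
  ring

theorem prop_E {p : ℝ} (hp : 1 < p) {f : UnitAddCircle → ℂ} (hf : Integrable f μT) {Cf : ℝ}
    (hCf : 0 ≤ Cf) (hMB : MB p Cf (fourierCoeff f)) {c : ℂ} {J : Finset UnitAddCircle}
    {a : UnitAddCircle → ℂ} {ε : ℝ} (hε : 0 < ε) (h : ∀ᵐ x ∂μT, ‖f x - stp c J a x‖ ≤ ε)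
    {Cs : ℝ} (hCs : 0 ≤ Cs) (hs : MB p Cs (fourierCoeff s0)) :
    ∃ (M : ℕ) (S : Finset UnitAddCircle) (b : UnitAddCircle → ℂ),
      (∀ᵐ x ∂μT, ‖f x - gap M (fourierCoeff f) S b x‖ ≤ 8 * ε) ∧
      MB p (Cf + 8 * Cs * Cf + 1) (fourierCoeff (gap M (fourierCoeff f) S b)) := by
  classical
  have hp1 : 1 ≤ p := hp.le
  have hp0 : 0 < p := by linarith
  set A : ℝ := ∑ t ∈ J, ‖a t‖ with hA
  have hA0 : 0 ≤ A := sum_nonneg fun _ _ => norm_nonneg _
  set η0 : ℝ := min (1 / 2) (ε / (2 * (A + 1))) with hη0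
  have hη0pos : 0 < η0 := by rw [hη0]; apply lt_min (by norm_num) (by positivity)
  have hη0lt : η0 < 1 := lt_of_le_of_lt (min_le_left _ _) (by norm_num)
  have hη0A : 2 * η0 * A ≤ ε := by
    have h1 : η0 ≤ ε / (2 * (A + 1)) := min_le_right _ _
    have : η0 * (2 * (A + 1)) ≤ ε := by
      rw [le_div_iff₀ (by positivity)] at h1; exact h1
    nlinarith
  obtain ⟨S, u, U, hU, hU0, h0S, hu0, hJS, huJ, hunn, hule⟩ := exists_posdef J hη0pos hη0lt
  obtain ⟨δ, M0, hM0, hjump⟩ := jump_detect hf hε h S hJS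
  set D : UnitAddCircle → ℂ := fun t => Fej M0 (fourierCoeff f) (t + (δ : UnitAddCircle))
      - Fej M0 (fourierCoeff f) (t - (δ : UnitAddCircle)) with hD
  set b : UnitAddCircle → ℂ := fun t => (u t : ℂ) ^ 2 * D t with hb
  set a' : UnitAddCircle → ℂ := fun t => if t ∈ J then a t else 0 with ha'
  have hjump' : ∀ t ∈ S, ‖D t - a' t‖ ≤ 4 * ε := by
    intro t ht
    have h1 := hjump t ht
    rw [sum_ite_eq'] at h1
    exact h1
  have hba : ∀ t ∈ S, ‖a' t - b t‖ ≤ 5 * ε := by
    intro t ht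
    have h1 : a' t - b t = (1 - (u t : ℂ) ^ 2) * a' t - (u t : ℂ) ^ 2 * (D t - a' t) := by
      simp only [hb]; ring
    have h2 : ‖(u t : ℂ) ^ 2 * (D t - a' t)‖ ≤ 4 * ε := by
      rw [norm_mul, norm_pow, Complex.norm_real, Real.norm_of_nonneg (hunn t)]
      have : u t ^ 2 ≤ 1 := pow_le_one₀ (hunn t) (hule t)
      calc _ ≤ 1 * (4 * ε) := mul_le_mul this (hjump' t ht) (norm_nonneg _) (by norm_num)
        _ = _ := one_mul _
    have h3 : ‖(1 - (u t : ℂ) ^ 2) * a' t‖ ≤ ε := by
      by_cases htJ : t ∈ J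
      · have h4 : a' t = a t := by simp only [ha', if_pos htJ]
        rw [h4, norm_mul]
        have h5 : (1 - (u t : ℂ) ^ 2) = ((1 - u t ^ 2 : ℝ) : ℂ) := by push_cast; rfl
        have h6 : 0 ≤ 1 - u t ^ 2 := by
          have : u t ^ 2 ≤ 1 := pow_le_one₀ (hunn t) (hule t)
          linarith
        rw [h5, Complex.norm_real, Real.norm_of_nonneg h6]
        have h7 : 1 - u t ^ 2 ≤ 2 * η0 := by
          have h8 := huJ t htJ
          nlinarith [hunn t, hule t]
        have h8 : ‖a t‖ ≤ A := single_le_sum (f := fun t => ‖a t‖) (fun _ _ => norm_nonneg _) htJ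
        calc _ ≤ 2 * η0 * A := mul_le_mul h7 h8 (norm_nonneg _) (by positivity)
          _ ≤ ε := hη0A
      · have h4 : a' t = 0 := by simp only [ha', if_neg htJ]
        rw [h4, mul_zero, norm_zero]; exact hε.le
    rw [h1]
    refine (norm_sub_le _ _).trans ?_
    linarith
  obtain ⟨L, hL, hLK⟩ := exists_L hU h0S hu0
  -- the trigonometric polynomial D
  set fh2 : ℤ → ℂ := fun n => ee n (δ : UnitAddCircle) * ((cf M0 n : ℂ) * fourierCoeff f n)
      + (-(ee n (-(δ : UnitAddCircle)) * ((cf M0 n : ℂ) * fourierCoeff f n))) with hfh2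
  have hDeq : ∀ t, D t = ∑ m ∈ Icc (-(M0 : ℤ)) M0, fh2 m * ee m t := by
    intro t
    simp only [hD, hfh2, Fej]
    rw [← sum_sub_distrib]
    apply sum_congr rfl; intro m _
    rw [sub_eq_add_neg t, ee_add_right, ee_add_right]
    ring
  have hfh2MB : MB p (Cf + Cf) fh2 := by
    have h1 := MB.fejer hp1 hMB hCf M0 hM0
    have h2 := h1.mod (fun n => ee n (δ : UnitAddCircle)) (fun m n => ee_sub_left m n _)
      (fun n => norm_ee n _)
    have h3 := h1.mod (fun n => ee n (-(δ : UnitAddCircle))) (fun m n => ee_sub_left m n _)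
      (fun n => norm_ee n _)
    exact MB.add hp1 hCf hCf h2 h3.neg
  have hfh2z : ∀ m : ℤ, (M0 : ℤ) < |m| → fh2 m = 0 := by
    intro m hm
    simp only [hfh2]
    rw [cf_eq_zero M0 m hm.le]; simp
  have htk := transfer hp1 hU hU0 h0S hu0 hL hLK hCs (by linarith) hs hfh2MB hfh2z
  set K' : ℝ := 2 * Cs * (Cf + Cf) with hK'
  have hK'0 : 0 ≤ K' := by positivity
  set κ : ℤ → ℂ := fun n => (L : ℂ)⁻¹ * ∑ i ∈ range L, (L : ℂ)⁻¹ * ∑ j ∈ range L,
    fourierCoeff s0 (n + i - j) with hκ
  set B : ℤ → ℂ := fun n => ∑ t ∈ S, b t * ee (-n) t with hB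
  set G : ℤ → ℂ := tk S u L M0 (fourierCoeff s0) fh2 with hG
  have hGeq : ∀ n, G n = B n * κ n := by
    intro n
    simp only [hG, tk, hB, hκ, hb]
    congr 1
    apply sum_congr rfl; intro t _
    rw [hDeq t]
  set ω : ℤ → ℂ := fun n => B n * (fourierCoeff s0 n - κ n) with hω
  have hωs : Summable (fun n => ‖ω n‖) := by
    have h1 := (summable_avg_diff hL).mul_left (∑ t ∈ S, ‖b t‖)
    refine Summable.of_nonneg_of_le (fun n => norm_nonneg _) (fun n => ?_) h1
    simp only [hω]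
    rw [norm_mul]
    apply mul_le_mul_of_nonneg_right _ (norm_nonneg _)
    simp only [hB]
    refine (norm_sum_le _ _).trans (le_of_eq (sum_congr rfl fun t _ => ?_))
    rw [norm_mul, norm_ee, mul_one]
  obtain ⟨δ1, hδ1, hsep⟩ := exists_sep S
  set η2 : ℝ := 1 / (5 * ((S.card : ℝ) + 1)) with hη2
  have hη2pos : 0 < η2 := by positivity
  have hη2S : (S.card : ℝ) * η2 ≤ 1 / 5 := by
    rw [hη2, mul_one_div, div_le_div_iff₀ (by positivity) (by norm_num)]
    linarith
  obtain ⟨M, ⟨hM1, hM2⟩, hM3⟩ := (((Fej_s0_unif (by linarith : 0 < δ1 / 2) hη2pos).and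
    (MB_tail hp1 hωs one_pos)).and (eventually_gt_atTop 0)).exists
  refine ⟨M, S, b, ?_, ?_⟩
  · filter_upwards [h] with x hx
    set w : UnitAddCircle → ℂ := fun t => s0 (x - t) - Fej M (fourierCoeff s0) (x - t) with hw
    have hw1 : ∀ t ∈ S, ‖w t‖ ≤ 1 := by
      intro t _
      rw [hw]; beta_reduce
      rw [norm_sub_rev]; exact Fej_s0_bound hM3 _
    have hw2 : ∀ t ∈ S, δ1 / 2 ≤ ‖x - t‖ → ‖w t‖ ≤ η2 := by
      intro t _ hd
      rw [hw]; beta_reduce
      rw [norm_sub_rev]; exact hM1 _ hd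
    have h1 := sum_one_large hη2pos.le hsep x hw1 hw2
    have h2 := Fej_diff hf hM3 c J a h x
    have e1 : ∑ t ∈ J, a t * w t = ∑ t ∈ S, a' t * w t := by
      have h3 : ∑ t ∈ J, a t * w t = ∑ t ∈ J, a' t * w t := by
        apply sum_congr rfl; intro t ht
        simp only [ha', if_pos ht]
      rw [h3]
      apply sum_subset hJS
      intro t _ ht
      simp only [ha', if_neg ht, zero_mul]
    have e2 : f x - gap M (fourierCoeff f) S b x
        = (f x - stp c J a x) - (Fej M (fourierCoeff f) x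
            - (c + ∑ t ∈ J, a t * Fej M (fourierCoeff s0) (x - t)))
          + ∑ t ∈ S, (a' t - b t) * w t := by
      have h4 : ∑ t ∈ S, (a' t - b t) * w t = ∑ t ∈ J, a t * w t - ∑ t ∈ S, b t * w t := by
        rw [e1, ← sum_sub_distrib]
        exact sum_congr rfl fun t _ => by ring
      rw [h4]
      unfold gap stp
      have h5 : ∑ t ∈ J, a t * w t = ∑ t ∈ J, a t * s0 (x - t)
          - ∑ t ∈ J, a t * Fej M (fourierCoeff s0) (x - t) := by
        rw [← sum_sub_distrib]
        exact sum_congr rfl fun t _ => by simp only [hw]; ring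
      rw [h5]
      simp only [hw]
      ring
    rw [e2]
    have h6 : ‖∑ t ∈ S, (a' t - b t) * w t‖ ≤ 6 * ε := by
      calc _ ≤ ∑ t ∈ S, 5 * ε * ‖w t‖ := by
            refine (norm_sum_le _ _).trans (sum_le_sum fun t ht => ?_)
            rw [norm_mul]
            exact mul_le_mul_of_nonneg_right (hba t ht) (norm_nonneg _)
        _ = 5 * ε * ∑ t ∈ S, ‖w t‖ := by rw [mul_sum]
        _ ≤ 5 * ε * (1 + 1 / 5) := by
            apply mul_le_mul_of_nonneg_left _ (by positivity)
            linarith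
        _ = 6 * ε := by ring
    calc _ ≤ ‖f x - stp c J a x‖ + ‖Fej M (fourierCoeff f) x
            - (c + ∑ t ∈ J, a t * Fej M (fourierCoeff s0) (x - t))‖ + ‖∑ t ∈ S, (a' t - b t) * w t‖ :=
          (norm_add_le _ _).trans (by gcongr; exact norm_sub_le _ _)
      _ ≤ ε + ε + 6 * ε := by gcongr
      _ = 8 * ε := by ring
  · have h1 := MB.fejer hp1 hMB hCf M hM3
    have h2 := MB.add hp1 hK'0 hK'0 htk (MB.fejer hp1 htk hK'0 M hM3).neg
    have h3 := MB.add hp1 (by positivity) zero_le_one (MB.add hp1 hCf (by positivity) h1 h2) hM2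
    have e : fourierCoeff (gap M (fourierCoeff f) S b)
        = fun n => (((cf M n : ℂ) * fourierCoeff f n) + (G n + -((cf M n : ℂ) * G n)))
          + (ω n - (cf M n : ℂ) * ω n) := by
      ext n
      rw [fc_gap, hGeq n]
      simp only [hω]
      change _ + B n * _ = _
      ring
    rw [e]
    have e2 : Cf + 8 * Cs * Cf + 1 = Cf + (K' + K') + 1 := by rw [hK']; ring
    rw [e2]
    exact h3

end Pool.Agent.Helper576.LpMult
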