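import Pool.Agent.Helper576.LpDefs
import Pool.Agent.Helper576.PropE

namespace Pool.Agent.Helper576.LpMult

open Finset Complex Filter Topology MeasureTheory LpDefs

/-- the covering map -/
def cov (x : ℝ) : UnitAddCircle := (x : UnitAddCircle)

theorem cov_surj (y : UnitAddCircle) : ∃ x ∈ Set.Ico (0 : ℝ) 1, cov x = y := by
  obtain ⟨r, hr, hx, _⟩ := exists_rep y
  exact ⟨r, hr, hx⟩

theorem cov_eq_iff {x y : ℝ} : cov x = cov y ↔ ∃ k : ℤ, x = y + k := by
  unfold cov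
  have h : ((x : UnitAddCircle) = (y : UnitAddCircle)) ↔ ((x - y : ℝ) : UnitAddCircle) = 0 := by
    rw [AddCircle.coe_sub, sub_eq_zero]
  rw [h, AddCircle.coe_eq_zero_iff]
  constructor
  · rintro ⟨k, hk⟩
    refine ⟨k, ?_⟩
    have : (k : ℝ) = x - y := by simpa using hk
    rw [this]; ring
  · rintro ⟨k, hk⟩
    refine ⟨k, ?_⟩
    rw [hk]; simp

theorem isArc_def (A : Set UnitAddCircle) :
    IsArc A ↔ ∃ I : Set ℝ, I.OrdConnected ∧ A = cov '' I := Iff.rfl

theorem isArc_univ_of {I : Set ℝ} (hI : I.OrdConnected) {x y : ℝ} (hx : x ∈ I) (hy : y ∈ I)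
    (hxy : x + 1 ≤ y) : cov '' I = Set.univ := by
  apply Set.eq_univ_of_forall
  intro z
  obtain ⟨r, hr, rfl⟩ := cov_surj z
  -- choose the representative in [x, x+1)
  refine ⟨r + ⌈x - r⌉, ?_, ?_⟩
  · apply hI.out hx hy
    have h1 := Int.le_ceil (x - r)
    have h2 := Int.ceil_lt_add_one (x - r)
    constructor
    · linarith
    · linarith
  · rw [cov_eq_iff]
    exact ⟨⌈x - r⌉, rfl⟩

/-- every arc is the image of a bounded interval -/
theorem IsArc.bounded {A : Set UnitAddCircle} (hA : IsArc A) :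
    ∃ (I : Set ℝ) (m : ℕ), I.OrdConnected ∧ I ⊆ Set.Icc (-(m : ℝ)) m ∧ A = cov '' I := by
  obtain ⟨I, hI, rfl⟩ := hA
  change ∃ (I' : Set ℝ) (m : ℕ), I'.OrdConnected ∧ I' ⊆ Set.Icc (-(m : ℝ)) m ∧ cov '' I = cov '' I'
  by_cases h : ∃ x ∈ I, ∃ y ∈ I, x + 1 ≤ y
  · obtain ⟨x, hx, y, hy, hxy⟩ := h
    refine ⟨Set.Icc 0 1, 1, Set.ordConnected_Icc, ?_, ?_⟩
    · intro z hz
      simp only [Nat.cast_one]
      exact ⟨by linarith [hz.1], hz.2⟩
    · rw [isArc_univ_of hI hx hy hxy, isArc_univ_of Set.ordConnected_Icc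
        (x := (0 : ℝ)) (y := 1) ⟨le_rfl, zero_le_one⟩ ⟨zero_le_one, le_rfl⟩ (by norm_num)]
  · push Not at h
    by_cases hne : I.Nonempty
    · obtain ⟨x, hx⟩ := hne
      obtain ⟨m, hm⟩ := exists_nat_gt (|x| + 1)
      refine ⟨I, m, hI, ?_, rfl⟩
      intro y hy
      have h1 := h x hx y hy
      have h2 := h y hy x hx
      have h3 := abs_lt.mp (lt_of_lt_of_le (by linarith : |x| < m) le_rfl)
      have h4 := le_abs_self x
      have h5 := neg_abs_le x
      constructor <;> linarith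
    · rw [Set.not_nonempty_iff_eq_empty] at hne
      refine ⟨∅, 0, Set.ordConnected_empty, Set.empty_subset _, ?_⟩
      rw [hne]

theorem IsArcUnion.of_isArc {A : Set UnitAddCircle} (hA : IsArc A) : IsArcUnion A :=
  ⟨{A}, Set.finite_singleton A, by simpa using hA, by simp⟩

theorem IsArcUnion.empty : IsArcUnion ∅ := ⟨∅, Set.finite_empty, by simp, by simp⟩

theorem IsArcUnion.union {A B : Set UnitAddCircle} (hA : IsArcUnion A) (hB : IsArcUnion B) :
    IsArcUnion (A ∪ B) := by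
  obtain ⟨𝒜, h1, h2, rfl⟩ := hA
  obtain ⟨ℬ, h3, h4, rfl⟩ := hB
  refine ⟨𝒜 ∪ ℬ, h1.union h3, ?_, ?_⟩
  · rintro C (hC | hC)
    · exact h2 C hC
    · exact h4 C hC
  · rw [Set.sUnion_union]

theorem IsArcUnion.biUnion {ι : Type*} (s : Finset ι) (A : ι → Set UnitAddCircle)
    (h : ∀ i ∈ s, IsArcUnion (A i)) : IsArcUnion (⋃ i ∈ s, A i) := by
  classical
  induction s using Finset.induction_on with
  | empty => simpa using IsArcUnion.empty
  | insert i s _ ih =>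
    rw [Finset.set_biUnion_insert]
    exact IsArcUnion.union (h i (mem_insert_self _ _)) (ih fun j hj => h j (mem_insert_of_mem hj))

theorem ordConnected_shift {I : Set ℝ} (hI : I.OrdConnected) (r : ℝ) :
    ((fun x => x + r) '' I).OrdConnected := by
  constructor
  rintro _ ⟨x, hx, rfl⟩ _ ⟨y, hy, rfl⟩ z hz
  refine ⟨z - r, hI.out hx hy ⟨by linarith [hz.1], by linarith [hz.2]⟩, by ring⟩

theorem IsArc.inter {A B : Set UnitAddCircle} (hA : IsArc A) (hB : IsArc B) :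
    IsArcUnion (A ∩ B) := by
  obtain ⟨I, m, hI, hIm, rfl⟩ := IsArc.bounded hA
  obtain ⟨I', m', hI', hIm', rfl⟩ := IsArc.bounded hB
  have h : cov '' I ∩ cov '' I' = ⋃ k ∈ Finset.Icc (-(m + m' : ℤ)) (m + m'),
      cov '' (I ∩ (fun x => x + ((k : ℤ) : ℝ)) '' I') := by
    ext z
    simp only [Set.mem_iUnion]
    constructor
    · rintro ⟨⟨x, hx, rfl⟩, ⟨y, hy, hxy⟩⟩
      obtain ⟨k, hk⟩ := cov_eq_iff.mp hxy.symm
      have h1 := hIm hx
      have h2 := hIm' hy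
      have h3 : -((m : ℝ) + m') ≤ k := by
        have := h1.1; have := h2.2; linarith
      have h4 : (k : ℝ) ≤ (m : ℝ) + m' := by
        have := h1.2; have := h2.1; linarith
      refine ⟨k, ?_, x, ⟨hx, y, hy, hk.symm⟩, rfl⟩
      rw [Finset.mem_Icc]
      constructor
      · have : ((-(m + m' : ℤ) : ℤ) : ℝ) ≤ (k : ℝ) := by push_cast; linarith
        exact_mod_cast this
      · have : (k : ℝ) ≤ (((m + m' : ℤ)) : ℝ) := by push_cast; linarith
        exact_mod_cast this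
    · rintro ⟨k, _, x, ⟨hx, y, hy, hk⟩, rfl⟩
      refine ⟨⟨x, hx, rfl⟩, ⟨y, hy, ?_⟩⟩
      rw [cov_eq_iff]
      refine ⟨-k, ?_⟩
      simp only at hk
      rw [← hk]; push_cast; ring
  rw [h]
  apply IsArcUnion.biUnion
  intro k _
  apply IsArcUnion.of_isArc
  exact ⟨_, hI.inter (ordConnected_shift hI' _), rfl⟩

theorem IsArcUnion.inter {A B : Set UnitAddCircle} (hA : IsArcUnion A) (hB : IsArcUnion B) :
    IsArcUnion (A ∩ B) := by
  classical
  obtain ⟨𝒜, h1, h2, rfl⟩ := hA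
  obtain ⟨ℬ, h3, h4, rfl⟩ := hB
  have h : ⋃₀ 𝒜 ∩ ⋃₀ ℬ = ⋃ x ∈ h1.toFinset ×ˢ h3.toFinset, x.1 ∩ x.2 := by
    ext z
    simp only [Set.mem_inter_iff, Set.mem_sUnion, Set.mem_iUnion, Finset.mem_product,
      Set.Finite.mem_toFinset]
    constructor
    · rintro ⟨⟨C, hC, hz⟩, ⟨D, hD, hz'⟩⟩
      exact ⟨(C, D), ⟨hC, hD⟩, hz, hz'⟩
    · rintro ⟨x, ⟨hC, hD⟩, hz, hz'⟩
      exact ⟨⟨x.1, hC, hz⟩, ⟨x.2, hD, hz'⟩⟩
  rw [h]
  apply IsArcUnion.biUnion
  intro x hx
  rw [Finset.mem_product, Set.Finite.mem_toFinset, Set.Finite.mem_toFinset] at hx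
  exact IsArc.inter (h2 _ hx.1) (h4 _ hx.2)

theorem PCzero.add {g g' : UnitAddCircle → ℂ} (hg : g ∈ PCzero) (hg' : g' ∈ PCzero) :
    (fun x => g x + g' x) ∈ PCzero := by
  classical
  obtain ⟨h1, h2⟩ := hg
  obtain ⟨h3, h4⟩ := hg'
  refine ⟨?_, ?_⟩
  · apply ((h1.prod h3).image (fun x : ℂ × ℂ => x.1 + x.2)).subset
    rintro _ ⟨x, rfl⟩
    exact ⟨(g x, g' x), ⟨⟨x, rfl⟩, ⟨x, rfl⟩⟩, rfl⟩
  · intro z
    have h : (fun x => g x + g' x) ⁻¹' {z} = ⋃ w ∈ h1.toFinset, (g ⁻¹' {w} ∩ g' ⁻¹' {z - w}) := by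
      ext x
      simp only [Set.mem_preimage, Set.mem_singleton_iff, Set.mem_iUnion, Set.mem_inter_iff,
        Set.Finite.mem_toFinset]
      constructor
      · intro h
        exact ⟨g x, ⟨x, rfl⟩, rfl, by rw [← h]; ring⟩
      · rintro ⟨w, _, h5, h6⟩
        rw [h5, h6]; ring
    rw [h]
    apply IsArcUnion.biUnion
    intro w _
    exact IsArcUnion.inter (h2 w) (h4 _)

theorem PCzero.const (c : ℂ) : (fun _ : UnitAddCircle => c) ∈ PCzero := by
  refine ⟨?_, ?_⟩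
  · apply (Set.finite_singleton c).subset
    rintro _ ⟨x, rfl⟩; rfl
  · intro z
    by_cases h : c = z
    · have : (fun _ : UnitAddCircle => c) ⁻¹' {z} = Set.univ := by
        ext x; simp [h]
      rw [this]
      apply IsArcUnion.of_isArc
      refine ⟨Set.univ, Set.ordConnected_univ, ?_⟩
      symm
      exact isArc_univ_of Set.ordConnected_univ (x := (0 : ℝ)) (y := 1) trivial trivial (by norm_num)
    · have : (fun _ : UnitAddCircle => c) ⁻¹' {z} = ∅ := by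
        ext x; simp [h]
      rw [this]
      exact IsArcUnion.empty

theorem PCzero.const_mul {g : UnitAddCircle → ℂ} (hg : g ∈ PCzero) (c : ℂ) :
    (fun x => c * g x) ∈ PCzero := by
  by_cases hc : c = 0
  · subst hc
    simpa using PCzero.const 0
  obtain ⟨h1, h2⟩ := hg
  refine ⟨?_, ?_⟩
  · apply (h1.image (fun w => c * w)).subset
    rintro _ ⟨x, rfl⟩
    exact ⟨g x, ⟨x, rfl⟩, rfl⟩
  · intro z
    have : (fun x => c * g x) ⁻¹' {z} = g ⁻¹' {z / c} := by
      ext x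
      simp only [Set.mem_preimage, Set.mem_singleton_iff]
      rw [eq_div_iff hc, mul_comm]
    rw [this]
    exact h2 _

theorem IsArcUnion.translate {E : Set UnitAddCircle} (hE : IsArcUnion E) (t : UnitAddCircle) :
    IsArcUnion ((fun x => x - t) ⁻¹' E) := by
  obtain ⟨𝒜, h1, h2, rfl⟩ := hE
  refine ⟨(fun A => (fun x => x - t) ⁻¹' A) '' 𝒜, h1.image _, ?_, ?_⟩
  · rintro _ ⟨A, hA, rfl⟩
    obtain ⟨I, hI, rfl⟩ := h2 A hA
    obtain ⟨r, _, hr⟩ := cov_surj t
    refine ⟨(fun x => x + r) '' I, ordConnected_shift hI r, ?_⟩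
    ext z
    simp only [Set.mem_preimage, Set.mem_image]
    constructor
    · rintro ⟨x, hx, hxz⟩
      refine ⟨x + r, ⟨x, hx, rfl⟩, ?_⟩
      have h3 : ((x + r : ℝ) : UnitAddCircle) = (x : UnitAddCircle) + cov r := by
        rw [AddCircle.coe_add]; rfl
      rw [h3, hr, hxz]; abel
    · rintro ⟨_, ⟨x, hx, rfl⟩, hxz⟩
      refine ⟨x, hx, ?_⟩
      have h3 : ((x + r : ℝ) : UnitAddCircle) = (x : UnitAddCircle) + cov r := by
        rw [AddCircle.coe_add]; rfl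
      rw [← hxz, h3, hr]; abel
  · rw [Set.preimage_sUnion, Set.sUnion_image]

theorem PCzero.translate {g : UnitAddCircle → ℂ} (hg : g ∈ PCzero) (t : UnitAddCircle) :
    (fun x => g (x - t)) ∈ PCzero := by
  obtain ⟨h1, h2⟩ := hg
  refine ⟨?_, ?_⟩
  · apply h1.subset
    rintro _ ⟨x, rfl⟩
    exact ⟨x - t, rfl⟩
  · intro z
    exact IsArcUnion.translate (h2 z) t

theorem PCzero.sum {ι : Type*} (s : Finset ι) (g : ι → UnitAddCircle → ℂ)
    (h : ∀ i ∈ s, g i ∈ PCzero) : (fun x => ∑ i ∈ s, g i x) ∈ PCzero := by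
  classical
  induction s using Finset.induction_on with
  | empty => simpa using PCzero.const 0
  | insert i s hi ih =>
    simp only [sum_insert hi]
    exact PCzero.add (h i (mem_insert_self _ _)) (ih fun j hj => h j (mem_insert_of_mem hj))

/-- functions constant on the arcs `[j/N, (j+1)/N)` -/
theorem PCzero.of_grid {N : ℕ} (hN : 0 < N) (g : UnitAddCircle → ℂ) (c : ℕ → ℂ)
    (h : ∀ j < N, ∀ x : ℝ, (j : ℝ) / N ≤ x → x < ((j : ℝ) + 1) / N → g (cov x) = c j) :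
    g ∈ PCzero := by
  classical
  have hNR : (0 : ℝ) < N := by exact_mod_cast hN
  have hex : ∀ y : UnitAddCircle, ∃ j < N, ∃ x : ℝ, (j : ℝ) / N ≤ x ∧ x < ((j : ℝ) + 1) / N ∧ cov x = y := by
    intro y
    obtain ⟨x, hx, rfl⟩ := cov_surj y
    refine ⟨⌊N * x⌋₊, ?_, x, ?_, ?_, rfl⟩
    · rw [Nat.floor_lt (by have := hx.1; positivity)]
      calc (N : ℝ) * x < N * 1 := mul_lt_mul_of_pos_left hx.2 hNR
        _ = N := mul_one _
    · rw [div_le_iff₀ hNR]
      calc _ ≤ (N : ℝ) * x := Nat.floor_le (by have := hx.1; positivity)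
        _ = _ := mul_comm _ _
    · rw [lt_div_iff₀ hNR]
      have := Nat.lt_floor_add_one ((N : ℝ) * x)
      calc x * N = N * x := mul_comm _ _
        _ < _ := this
  refine ⟨?_, ?_⟩
  · apply ((Finset.range N).finite_toSet.image c).subset
    rintro _ ⟨y, rfl⟩
    obtain ⟨j, hj, x, h1, h2, rfl⟩ := hex y
    refine ⟨j, ?_, (h j hj x h1 h2).symm⟩
    simpa using hj
  · intro z
    have h3 : g ⁻¹' {z} = ⋃ j ∈ (range N).filter (fun j => c j = z),
        cov '' (Set.Ico ((j : ℝ) / N) (((j : ℝ) + 1) / N)) := by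
      ext y
      simp only [Set.mem_preimage, Set.mem_singleton_iff, Set.mem_iUnion, Finset.mem_filter,
        Finset.mem_range]
      constructor
      · intro hy
        obtain ⟨j, hj, x, h1, h2, rfl⟩ := hex y
        refine ⟨j, ⟨hj, ?_⟩, x, ⟨h1, h2⟩, rfl⟩
        rw [← h j hj x h1 h2]; exact hy
      · rintro ⟨j, ⟨hj, hc⟩, x, ⟨h1, h2⟩, rfl⟩
        rw [h j hj x h1 h2, hc]
    rw [h3]
    apply IsArcUnion.biUnion
    intro j _
    apply IsArcUnion.of_isArc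
    exact ⟨_, Set.ordConnected_Ico, rfl⟩

end Pool.Agent.Helper576.LpMult
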