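import Pool.Agent.Helper576.Circle4

namespace Pool.Agent.Helper576.LpMult

open Finset Complex Filter Topology MeasureTheory

/-- sum with at most one large term -/
theorem sum_one_large {S : Finset UnitAddCircle} {w : UnitAddCircle → ℝ} {η : ℝ} (hη : 0 ≤ η)
    {δ : ℝ} (hsep : ∀ t ∈ S, ∀ τ ∈ S, t ≠ τ → δ ≤ ‖t - τ‖) (x : UnitAddCircle)
    (h1 : ∀ t ∈ S, w t ≤ 1) (h2 : ∀ t ∈ S, δ / 2 ≤ ‖x - t‖ → w t ≤ η) :
    ∑ t ∈ S, w t ≤ 1 + S.card * η := by
  classical
  by_cases h : ∃ t0 ∈ S, ‖x - t0‖ < δ / 2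
  · obtain ⟨t0, ht0, hlt⟩ := h
    rw [← add_sum_erase S w ht0]
    have h3 : ∑ t ∈ S.erase t0, w t ≤ ∑ t ∈ S.erase t0, η := by
      apply sum_le_sum
      intro t ht
      rw [mem_erase] at ht
      apply h2 t ht.2
      by_contra hcon
      push Not at hcon
      have h4 := hsep t ht.2 t0 ht0 ht.1
      have h5 : t - t0 = (x - t0) - (x - t) := by abel
      rw [h5] at h4
      have h6 := norm_sub_le (x - t0) (x - t)
      linarith
    rw [sum_const, nsmul_eq_mul] at h3
    have h4 : ((S.erase t0).card : ℝ) ≤ S.card := by exact_mod_cast card_erase_le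
    have h5 := h1 t0 ht0
    have h6 : ((S.erase t0).card : ℝ) * η ≤ S.card * η := mul_le_mul_of_nonneg_right h4 hη
    linarith
  · push Not at h
    have h3 : ∑ t ∈ S, w t ≤ ∑ t ∈ S, η := sum_le_sum fun t ht => h2 t ht (h t ht)
    rw [sum_const, nsmul_eq_mul] at h3
    linarith

theorem norm_coe_eq {δ : ℝ} (h0 : 0 ≤ δ) (h1 : δ ≤ 1 / 2) : ‖(δ : UnitAddCircle)‖ = δ := by
  have := (AddCircle.norm_coe_eq_abs_iff (1 : ℝ) (x := δ) one_ne_zero).mpr (by
    rw [abs_of_nonneg h0, abs_one]; linarith)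
  rw [this, abs_of_nonneg h0]

/-- The approximating function: trigonometric polynomial plus sawtooth functions. -/
noncomputable def gap (M : ℕ) (fh : ℤ → ℂ) (S : Finset UnitAddCircle) (b : UnitAddCircle → ℂ)
    (x : UnitAddCircle) : ℂ :=
  Fej M fh x + ∑ t ∈ S, b t * (s0 (x - t) - Fej M (fourierCoeff s0) (x - t))

/-- jumps are detected by Fejer means -/
theorem jump_detect {f : UnitAddCircle → ℂ} (hf : Integrable f μT) {c : ℂ} {J : Finset UnitAddCircle}
    {a : UnitAddCircle → ℂ} {ε : ℝ} (hε : 0 < ε)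
    (h : ∀ᵐ x ∂μT, ‖f x - stp c J a x‖ ≤ ε) (S : Finset UnitAddCircle) (hJS : J ⊆ S) :
    ∃ (δ : ℝ) (M : ℕ), 0 < M ∧ ∀ t ∈ S, ‖(Fej M (fourierCoeff f) (t + (δ : UnitAddCircle))
      - Fej M (fourierCoeff f) (t - (δ : UnitAddCircle))) - (∑ τ ∈ J, if τ = t then a τ else 0)‖ ≤ 4 * ε := by
  classical
  obtain ⟨δ0, hδ0, hsep⟩ := exists_sep S
  set A : ℝ := ∑ t ∈ J, ‖a t‖ with hA
  have hA0 : 0 ≤ A := sum_nonneg fun _ _ => norm_nonneg _
  set δ : ℝ := min (δ0 / 2) (min (ε / (2 * (A + 1))) (1 / 4)) with hδ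
  have hδpos : 0 < δ := by
    rw [hδ]; apply lt_min (by linarith); apply lt_min (by positivity) (by norm_num)
  have hδ1 : δ ≤ δ0 / 2 := min_le_left _ _
  have hδ2 : δ ≤ ε / (2 * (A + 1)) := (min_le_right _ _).trans (min_le_left _ _)
  have hδ3 : δ ≤ 1 / 4 := (min_le_right _ _).trans (min_le_right _ _)
  have hδA : 2 * δ * A ≤ ε := by
    have : δ * (2 * (A + 1)) ≤ ε := by
      rw [le_div_iff₀ (by positivity)] at hδ2; exact hδ2
    nlinarith
  set η : ℝ := ε / (2 * (A + 1)) with hη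
  have hηpos : 0 < η := by positivity
  have hηA : 2 * η * A ≤ ε := by
    have : η * (2 * (A + 1)) = ε := by rw [hη]; field_simp
    nlinarith
  obtain ⟨M, hM1, hM0⟩ := ((Fej_s0_unif hδpos hηpos).and (eventually_gt_atTop 0)).exists
  refine ⟨δ, M, hM0, ?_⟩
  intro t ht
  have hnδ : ‖(δ : UnitAddCircle)‖ = δ := norm_coe_eq hδpos.le (by linarith)
  -- points stay away from the singularity
  have hfar : ∀ τ ∈ J, δ ≤ ‖t + (δ : UnitAddCircle) - τ‖ ∧ δ ≤ ‖t - (δ : UnitAddCircle) - τ‖ := by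
    intro τ hτ
    by_cases htτ : t = τ
    · subst htτ
      constructor
      · rw [add_sub_cancel_left, hnδ]
      · have : t - (δ : UnitAddCircle) - t = - (δ : UnitAddCircle) := by abel
        rw [this, norm_neg, hnδ]
    · have h1 := hsep t ht τ (hJS hτ) htτ
      constructor
      · have h2 : t - τ = (t + (δ : UnitAddCircle) - τ) - (δ : UnitAddCircle) := by abel
        rw [h2] at h1
        have h3 := norm_sub_le (t + (δ : UnitAddCircle) - τ) (δ : UnitAddCircle)
        rw [hnδ] at h3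
        linarith
      · have h2 : t - τ = (t - (δ : UnitAddCircle) - τ) + (δ : UnitAddCircle) := by abel
        rw [h2] at h1
        have h3 := norm_add_le (t - (δ : UnitAddCircle) - τ) (δ : UnitAddCircle)
        rw [hnδ] at h3
        linarith
  have e1 := Fej_diff hf hM0 c J a h (t + (δ : UnitAddCircle))
  have e2 := Fej_diff hf hM0 c J a h (t - (δ : UnitAddCircle))
  set P : ℂ := Fej M (fourierCoeff f) (t + (δ : UnitAddCircle)) with hP
  set Q : ℂ := Fej M (fourierCoeff f) (t - (δ : UnitAddCircle)) with hQ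
  have e3 : ‖(∑ τ ∈ J, a τ * Fej M (fourierCoeff s0) (t + (δ : UnitAddCircle) - τ))
      - ∑ τ ∈ J, a τ * s0 (t + (δ : UnitAddCircle) - τ)‖ ≤ η * A := by
    rw [← sum_sub_distrib]
    calc _ ≤ ∑ τ ∈ J, η * ‖a τ‖ := by
          refine (norm_sum_le _ _).trans (sum_le_sum fun τ hτ => ?_)
          rw [← mul_sub, norm_mul, mul_comm]
          exact mul_le_mul_of_nonneg_right (hM1 _ (hfar τ hτ).1) (norm_nonneg _)
      _ = _ := by rw [← mul_sum]
  have e4 : ‖(∑ τ ∈ J, a τ * Fej M (fourierCoeff s0) (t - (δ : UnitAddCircle) - τ))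
      - ∑ τ ∈ J, a τ * s0 (t - (δ : UnitAddCircle) - τ)‖ ≤ η * A := by
    rw [← sum_sub_distrib]
    calc _ ≤ ∑ τ ∈ J, η * ‖a τ‖ := by
          refine (norm_sum_le _ _).trans (sum_le_sum fun τ hτ => ?_)
          rw [← mul_sub, norm_mul, mul_comm]
          exact mul_le_mul_of_nonneg_right (hM1 _ (hfar τ hτ).2) (norm_nonneg _)
      _ = _ := by rw [← mul_sum]
  have e5 : ‖((∑ τ ∈ J, a τ * s0 (t + (δ : UnitAddCircle) - τ))
      - ∑ τ ∈ J, a τ * s0 (t - (δ : UnitAddCircle) - τ)) - (∑ τ ∈ J, if τ = t then a τ else 0)‖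
      ≤ 2 * δ * A := by
    rw [← sum_sub_distrib, ← sum_sub_distrib]
    calc _ ≤ ∑ τ ∈ J, 2 * δ * ‖a τ‖ := by
          refine (norm_sum_le _ _).trans (sum_le_sum fun τ hτ => ?_)
          by_cases htτ : τ = t
          · subst htτ
            rw [if_pos rfl]
            have h1 : τ + (δ : UnitAddCircle) - τ = 0 + (δ : UnitAddCircle) := by abel
            have h2 : τ - (δ : UnitAddCircle) - τ = 0 - (δ : UnitAddCircle) := by abel
            rw [h1, h2]
            have h3 := sR_jump_at hδpos (by linarith)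
            have h4 : a τ * s0 (0 + (δ : UnitAddCircle)) - a τ * s0 (0 - (δ : UnitAddCircle)) - a τ
                = a τ * (((sR (0 + (δ : UnitAddCircle)) - sR (0 - (δ : UnitAddCircle)) - 1 : ℝ)) : ℂ) := by
              unfold s0; push_cast; ring
            rw [h4, h3, norm_mul, Complex.norm_real]
            have h5 : ‖(1 - 2 * δ - 1 : ℝ)‖ = 2 * δ := by
              rw [Real.norm_eq_abs]
              have : (1 - 2 * δ - 1 : ℝ) = -(2 * δ) := by ring
              rw [this, abs_neg, abs_of_pos (by linarith)]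
            rw [h5, mul_comm]
          · rw [if_neg htτ, sub_zero]
            have h1 : t + (δ : UnitAddCircle) - τ = (t - τ) + (δ : UnitAddCircle) := by abel
            have h2 : t - (δ : UnitAddCircle) - τ = (t - τ) - (δ : UnitAddCircle) := by abel
            rw [h1, h2]
            have h6 := hsep t ht τ (hJS hτ) (fun h => htτ h.symm)
            have h3 := sR_jump_off (x := t - τ) hδpos.le (by linarith)
            have h4 : a τ * s0 (t - τ + (δ : UnitAddCircle)) - a τ * s0 (t - τ - (δ : UnitAddCircle))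
                = a τ * (((sR (t - τ + (δ : UnitAddCircle)) - sR (t - τ - (δ : UnitAddCircle)) : ℝ)) : ℂ) := by
              unfold s0; push_cast; ring
            rw [h4, norm_mul, Complex.norm_real, Real.norm_eq_abs, mul_comm]
            exact mul_le_mul_of_nonneg_right h3 (norm_nonneg _)
      _ = _ := by rw [← mul_sum]
  set X1 := ∑ τ ∈ J, a τ * Fej M (fourierCoeff s0) (t + (δ : UnitAddCircle) - τ)
  set X2 := ∑ τ ∈ J, a τ * Fej M (fourierCoeff s0) (t - (δ : UnitAddCircle) - τ)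
  set Y1 := ∑ τ ∈ J, a τ * s0 (t + (δ : UnitAddCircle) - τ)
  set Y2 := ∑ τ ∈ J, a τ * s0 (t - (δ : UnitAddCircle) - τ)
  set Z := ∑ τ ∈ J, if τ = t then a τ else 0
  have e6 : P - Q - Z = (P - (c + X1)) - (Q - (c + X2)) + ((X1 - Y1) - (X2 - Y2)) + ((Y1 - Y2) - Z) := by
    ring
  rw [e6]
  calc _ ≤ ‖(P - (c + X1)) - (Q - (c + X2))‖ + ‖(X1 - Y1) - (X2 - Y2)‖ + ‖(Y1 - Y2) - Z‖ :=
        (norm_add_le _ _).trans (by gcongr; exact norm_add_le _ _)
    _ ≤ (ε + ε) + (η * A + η * A) + 2 * δ * A := by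
        gcongr
        · exact (norm_sub_le _ _).trans (add_le_add e1 e2)
        · exact (norm_sub_le _ _).trans (add_le_add e3 e4)
    _ ≤ 4 * ε := by linarith

end Pool.Agent.Helper576.LpMult
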