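import Pool.Agent.Helper576.StepAp2

namespace Pool.Agent.Helper576.LpMult

open Finset Complex Filter Topology MeasureTheory LpDefs
open scoped ENNReal

theorem trigPoly_eq (F : ℤ →₀ ℂ) (x : UnitAddCircle) :
    trigPoly F x = ∑ n ∈ F.support, F n * ee n x := rfl

theorem mult_coef {φ : UnitAddCircle → ℂ} (hφ : Integrable φ μT) (F : ℤ →₀ ℂ) (k : ℤ) :
    fourierCoeff (fun x => φ x * trigPoly F x) k
      = ∑ l ∈ F.support, fourierCoeff φ (k - l) * F l := by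
  have h1 : (fun x => φ x * trigPoly F x) = fun x => ∑ l ∈ F.support, F l * (ee l x * φ x) := by
    ext x
    rw [trigPoly_eq, mul_sum]
    exact sum_congr rfl fun l _ => by ring
  rw [h1, fc_sum _ _ (fun l _ => (integrable_ee_mul hφ l).const_mul _)]
  apply sum_congr rfl; intro l _
  rw [fc_const_mul, fc_char_mul]; ring

theorem seqNorm_eq {p : ℝ≥0∞} (h1 : 1 ≤ p) (h2 : p ≠ ∞) (a : ℤ → ℂ) :
    seqNorm p a = (∑' k, ‖a k‖ₑ ^ p.toReal) ^ (1 / p.toReal) := by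
  unfold seqNorm
  have h0 : p ≠ 0 := by
    intro h; rw [h] at h1; simp at h1
  rw [eLpNorm_eq_lintegral_rpow_enorm_toReal h0 h2, lintegral_count]

/-- extension by zero -/
noncomputable def ext0 (s : Finset ℤ) (F : ℤ → ℂ) : ℤ →₀ ℂ := by
  classical
  exact Finsupp.onFinset s (fun l => if l ∈ s then F l else 0) (fun l h => by
    by_contra hcon; rw [if_neg hcon] at h; exact h rfl)

theorem ext0_apply_mem {s : Finset ℤ} {F : ℤ → ℂ} {l : ℤ} (hl : l ∈ s) : ext0 s F l = F l := by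
  classical
  unfold ext0
  rw [Finsupp.onFinset_apply, if_pos hl]

theorem ext0_apply_notMem {s : Finset ℤ} {F : ℤ → ℂ} {l : ℤ} (hl : l ∉ s) : ext0 s F l = 0 := by
  classical
  unfold ext0
  rw [Finsupp.onFinset_apply, if_neg hl]

theorem ext0_support (s : Finset ℤ) (F : ℤ → ℂ) : (ext0 s F).support ⊆ s := by
  intro l hl
  by_contra hcon
  rw [Finsupp.mem_support_iff] at hl
  exact hl (ext0_apply_notMem hcon)

theorem ext0_sum (s : Finset ℤ) (F : ℤ → ℂ) (g : ℤ → ℂ) :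
    ∑ l ∈ (ext0 s F).support, g l * ext0 s F l = ∑ l ∈ s, g l * F l := by
  rw [sum_subset (ext0_support s F)]
  · exact sum_congr rfl fun l hl => by rw [ext0_apply_mem hl]
  · intro l _ hl
    rw [Finsupp.notMem_support_iff] at hl
    rw [hl, mul_zero]

theorem MB_of_multNorm {p : ℝ≥0∞} (h1 : 1 ≤ p) (h2 : p ≠ ∞) {φ : UnitAddCircle → ℂ}
    (hφ : Integrable φ μT) (hM : multNorm p φ < ∞) :
    ∃ C : ℝ, 0 ≤ C ∧ MB p.toReal C (fourierCoeff φ) := by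
  unfold multNorm at hM
  rw [sInf_lt_iff] at hM
  obtain ⟨C, hC, hCtop⟩ := hM
  have hp1 : 1 ≤ p.toReal := by
    rw [← ENNReal.toReal_one]
    exact (ENNReal.toReal_le_toReal ENNReal.one_ne_top h2).mpr h1
  have hp0 : 0 < p.toReal := by linarith
  refine ⟨C.toReal, ENNReal.toReal_nonneg, ?_⟩
  intro s t F
  have h := hC (ext0 s F)
  rw [seqNorm_eq h1 h2, seqNorm_eq h1 h2] at h
  simp only [mult_coef hφ, ext0_sum s F] at h
  have h3 : ∑' l, ‖ext0 s F l‖ₑ ^ p.toReal = ∑ l ∈ s, ‖F l‖ₑ ^ p.toReal := by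
    rw [tsum_eq_sum (s := s)]
    · exact sum_congr rfl fun l hl => by rw [ext0_apply_mem hl]
    · intro l hl
      rw [ext0_apply_notMem hl, enorm_zero, ENNReal.zero_rpow_of_pos hp0]
  rw [h3] at h
  have h4 : ∑ k ∈ t, ‖∑ l ∈ s, fourierCoeff φ (k - l) * F l‖ₑ ^ p.toReal
      ≤ C ^ p.toReal * ∑ l ∈ s, ‖F l‖ₑ ^ p.toReal := by
    have h5 := ENNReal.rpow_le_rpow h hp0.le
    rw [← ENNReal.rpow_mul, one_div, inv_mul_cancel₀ hp0.ne', ENNReal.rpow_one,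
      ENNReal.mul_rpow_of_nonneg _ _ hp0.le, ← ENNReal.rpow_mul, inv_mul_cancel₀ hp0.ne',
      ENNReal.rpow_one] at h5
    exact (ENNReal.sum_le_tsum t).trans h5
  -- convert to reals
  have h6 : ∀ (r : Finset ℤ) (G : ℤ → ℂ), ∑ k ∈ r, ‖G k‖ₑ ^ p.toReal
      = ENNReal.ofReal (∑ k ∈ r, ‖G k‖ ^ p.toReal) := by
    intro r G
    rw [ENNReal.ofReal_sum_of_nonneg (fun k _ => Real.rpow_nonneg (norm_nonneg _) _)]
    apply sum_congr rfl; intro k _
    rw [← ofReal_norm, ENNReal.ofReal_rpow_of_nonneg (norm_nonneg _) hp0.le]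
  rw [h6, h6] at h4
  have h7 : C ^ p.toReal = ENNReal.ofReal (C.toReal ^ p.toReal) := by
    rw [← ENNReal.ofReal_rpow_of_nonneg ENNReal.toReal_nonneg hp0.le, ENNReal.ofReal_toReal hCtop.ne]
  rw [h7, ← ENNReal.ofReal_mul (Real.rpow_nonneg ENNReal.toReal_nonneg _)] at h4
  exact (ENNReal.ofReal_le_ofReal_iff (mul_nonneg (Real.rpow_nonneg ENNReal.toReal_nonneg _)
    (sum_nonneg fun _ _ => Real.rpow_nonneg (norm_nonneg _) _))).mp h4

theorem multNorm_le_of_MB {p : ℝ≥0∞} (h1 : 1 ≤ p) (h2 : p ≠ ∞) {φ : UnitAddCircle → ℂ}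
    (hφ : Integrable φ μT) {C : ℝ} (hC : 0 ≤ C) (hM : MB p.toReal C (fourierCoeff φ)) :
    multNorm p φ ≤ ENNReal.ofReal C := by
  have hp1 : 1 ≤ p.toReal := by
    rw [← ENNReal.toReal_one]
    exact (ENNReal.toReal_le_toReal ENNReal.one_ne_top h2).mpr h1
  have hp0 : 0 < p.toReal := by linarith
  apply sInf_le
  intro F
  rw [seqNorm_eq h1 h2, seqNorm_eq h1 h2]
  simp only [mult_coef hφ]
  have h6 : ∀ (r : Finset ℤ) (G : ℤ → ℂ), ∑ k ∈ r, ‖G k‖ₑ ^ p.toReal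
      = ENNReal.ofReal (∑ k ∈ r, ‖G k‖ ^ p.toReal) := by
    intro r G
    rw [ENNReal.ofReal_sum_of_nonneg (fun k _ => Real.rpow_nonneg (norm_nonneg _) _)]
    apply sum_congr rfl; intro k _
    rw [← ofReal_norm, ENNReal.ofReal_rpow_of_nonneg (norm_nonneg _) hp0.le]
  have h3 : ∑' l, ‖F l‖ₑ ^ p.toReal = ∑ l ∈ F.support, ‖F l‖ₑ ^ p.toReal := by
    rw [tsum_eq_sum (s := F.support)]
    intro l hl
    rw [Finsupp.notMem_support_iff.mp hl, enorm_zero, ENNReal.zero_rpow_of_pos hp0]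
  have h4 : ∑' k, ‖∑ l ∈ F.support, fourierCoeff φ (k - l) * F l‖ₑ ^ p.toReal
      ≤ ENNReal.ofReal C ^ p.toReal * ∑ l ∈ F.support, ‖F l‖ₑ ^ p.toReal := by
    rw [ENNReal.tsum_eq_iSup_sum]
    apply iSup_le
    intro t
    rw [h6, h6, ENNReal.ofReal_rpow_of_nonneg hC hp0.le,
      ← ENNReal.ofReal_mul (Real.rpow_nonneg hC _)]
    exact ENNReal.ofReal_le_ofReal (hM F.support t F)
  rw [h3]
  calc _ ≤ (ENNReal.ofReal C ^ p.toReal * ∑ l ∈ F.support, ‖F l‖ₑ ^ p.toReal) ^ (1 / p.toReal) :=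
        ENNReal.rpow_le_rpow h4 (by positivity)
    _ = _ := by
        rw [ENNReal.mul_rpow_of_nonneg _ _ (by positivity), ← ENNReal.rpow_mul, one_div,
          mul_inv_cancel₀ hp0.ne', ENNReal.rpow_one]

theorem ae_of_eLpNorm_top {f g : UnitAddCircle → ℂ} {ε : ℝ} (hε : 0 ≤ ε)
    (h : eLpNorm (f - g) ∞ μT ≤ ENNReal.ofReal ε) : ∀ᵐ x ∂μT, ‖f x - g x‖ ≤ ε := by
  rw [eLpNorm_exponent_top] at h
  filter_upwards [ae_le_eLpNormEssSup (f := f - g) (μ := μT)] with x hx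
  have h1 := hx.trans h
  rw [← ofReal_norm, Pi.sub_apply] at h1
  exact (ENNReal.ofReal_le_ofReal_iff hε).mp h1

theorem eLpNorm_top_of_ae {f g : UnitAddCircle → ℂ} {ε : ℝ}
    (h : ∀ᵐ x ∂μT, ‖f x - g x‖ ≤ ε) : eLpNorm (f - g) ∞ μT ≤ ENNReal.ofReal ε := by
  rw [eLpNorm_exponent_top]
  apply eLpNormEssSup_le_of_ae_bound
  filter_upwards [h] with x hx
  exact hx

theorem integrable_of_PC {f : UnitAddCircle → ℂ} (hf : f ∈ PC) : Integrable f μT := by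
  obtain ⟨h1, h2⟩ := hf
  obtain ⟨g, hg, hfg⟩ := h2 1 one_pos
  have h3 := ae_of_eLpNorm_top zero_le_one hfg
  have hfin := hg.1
  obtain ⟨B, hB⟩ := (hfin.image norm).bddAbove
  have h4 : ∀ x, ‖g x‖ ≤ B := fun x => hB ⟨g x, ⟨x, rfl⟩, rfl⟩
  apply integrable_of_bdd h1 (C := 1 + B)
  filter_upwards [h3] with x hx
  have h5 : f x = (f x - g x) + g x := by ring
  rw [h5]
  exact (norm_add_le _ _).trans (add_le_add hx (h4 x))

/-- the positive answer for `1 < p < ∞` -/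
theorem positive_final {p : ℝ≥0∞} (h1 : 1 < p) (h2 : p < ∞) {f : UnitAddCircle → ℂ}
    (hf : f ∈ PC) (hfM : f ∈ Mult p) :
    ∃ g : ℕ → UnitAddCircle → ℂ, (∀ n, g n ∈ PCzero) ∧ (⨆ n, multNorm p (g n)) < ∞ ∧
      Tendsto (fun n => eLpNorm (g n - f) ∞ haar) atTop (𝓝 0) := by
  have hfi := integrable_of_PC hf
  obtain ⟨Cf, hCf, hMB⟩ := MB_of_multNorm h1.le h2.ne hfi hfM.2
  have hp : 1 < p.toReal := by
    rw [← ENNReal.toReal_one]
    exact (ENNReal.toReal_lt_toReal ENNReal.one_ne_top h2.ne).mpr h1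
  obtain ⟨C, hC, h⟩ := positive hp hfi (fun ε hε => by
    obtain ⟨g, hg, hfg⟩ := hf.2 ε hε
    exact ⟨g, hg, ae_of_eLpNorm_top hε.le hfg⟩) hCf hMB
  choose s hs hsi hsM hsx using h
  have hpos : ∀ n : ℕ, (0 : ℝ) < 1 / ((n : ℝ) + 1) := fun n => by positivity
  refine ⟨fun n => s (1 / ((n : ℝ) + 1)) (hpos n), fun n => hs _ _, ?_, ?_⟩
  · apply lt_of_le_of_lt _ (ENNReal.ofReal_lt_top (r := C))
    apply iSup_le
    intro n
    exact multNorm_le_of_MB h1.le h2.ne (hsi _ _) hC (hsM _ _)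
  · have h3 : ∀ n : ℕ, eLpNorm (s (1 / ((n : ℝ) + 1)) (hpos n) - f) ∞ haar
        ≤ ENNReal.ofReal (1 / ((n : ℝ) + 1)) := by
      intro n
      rw [← eLpNorm_neg, neg_sub]
      exact eLpNorm_top_of_ae (hsx _ (hpos n))
    have h4 : Tendsto (fun n : ℕ => ENNReal.ofReal (1 / ((n : ℝ) + 1))) atTop (𝓝 0) := by
      rw [← ENNReal.ofReal_zero]
      exact ENNReal.tendsto_ofReal tendsto_one_div_add_atTop_nhds_zero_nat
    exact tendsto_of_tendsto_of_tendsto_of_le_of_le tendsto_const_nhds h4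
      (fun n => bot_le) h3

end Pool.Agent.Helper576.LpMult
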