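import Pool.Agent.Helper576.Folner

namespace Pool.Agent.Helper576.LpMult

open Finset Complex Filter Topology MeasureTheory

/-- normalised Haar measure on the circle -/
noncomputable abbrev μT : Measure UnitAddCircle := AddCircle.haarAddCircle

theorem fc_apply (f : UnitAddCircle → ℂ) (n : ℤ) :
    fourierCoeff f n = ∫ x, ee (-n) x * f x ∂μT := rfl

theorem ee_continuous (n : ℤ) : Continuous (ee n) := by
  unfold ee; exact (fourier n).continuous

theorem ee_aesm (n : ℤ) : AEStronglyMeasurable (ee n) μT := (ee_continuous n).aestronglyMeasurable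

theorem integrable_ee_mul {f : UnitAddCircle → ℂ} (hf : Integrable f μT) (n : ℤ) :
    Integrable (fun x => ee n x * f x) μT := by
  apply hf.bdd_mul (c := 1)
  · exact ee_aesm n
  · exact Eventually.of_forall fun x => (norm_ee n x).le

theorem integrable_of_bdd {f : UnitAddCircle → ℂ} (hf : AEStronglyMeasurable f μT) {C : ℝ}
    (hC : ∀ᵐ x ∂μT, ‖f x‖ ≤ C) : Integrable f μT :=
  Integrable.of_bound hf C hC

theorem integrable_ee (n : ℤ) : Integrable (ee n) μT :=
  integrable_of_bdd (ee_aesm n) (Eventually.of_forall fun x => (norm_ee n x).le)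

theorem fc_add {f g : UnitAddCircle → ℂ} (hf : Integrable f μT) (hg : Integrable g μT) (n : ℤ) :
    fourierCoeff (fun x => f x + g x) n = fourierCoeff f n + fourierCoeff g n := by
  rw [fc_apply, fc_apply, fc_apply, ← integral_add (integrable_ee_mul hf _) (integrable_ee_mul hg _)]
  congr 1; ext x; ring

theorem fc_sub {f g : UnitAddCircle → ℂ} (hf : Integrable f μT) (hg : Integrable g μT) (n : ℤ) :
    fourierCoeff (fun x => f x - g x) n = fourierCoeff f n - fourierCoeff g n := by
  rw [fc_apply, fc_apply, fc_apply, ← integral_sub (integrable_ee_mul hf _) (integrable_ee_mul hg _)]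
  congr 1; ext x; ring

theorem fc_const_mul (c : ℂ) (f : UnitAddCircle → ℂ) (n : ℤ) :
    fourierCoeff (fun x => c * f x) n = c * fourierCoeff f n := by
  rw [fc_apply, fc_apply, ← integral_const_mul]
  congr 1; ext x; ring

theorem fc_sum {ι : Type*} (s : Finset ι) (f : ι → UnitAddCircle → ℂ)
    (hf : ∀ i ∈ s, Integrable (f i) μT) (n : ℤ) :
    fourierCoeff (fun x => ∑ i ∈ s, f i x) n = ∑ i ∈ s, fourierCoeff (f i) n := by
  simp only [fc_apply]
  rw [← integral_finsetSum _ (fun i hi => integrable_ee_mul (hf i hi) _)]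
  congr 1; ext x; rw [mul_sum]

theorem fc_translate (f : UnitAddCircle → ℂ) (t : UnitAddCircle) (n : ℤ) :
    fourierCoeff (fun x => f (x - t)) n = ee (-n) t * fourierCoeff f n := by
  rw [fc_apply, fc_apply, ← integral_const_mul]
  have h := integral_sub_right_eq_self (μ := μT) (fun x => ee (-n) (x + t) * f x) t
  simp only [sub_add_cancel] at h
  rw [h]
  congr 1; ext x
  rw [ee_add_right]; ring

theorem integrable_translate {f : UnitAddCircle → ℂ} (hf : Integrable f μT) (t : UnitAddCircle) :
    Integrable (fun x => f (x - t)) μT := hf.comp_sub_right t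

theorem fc_char_mul (k : ℤ) (f : UnitAddCircle → ℂ) (n : ℤ) :
    fourierCoeff (fun x => ee k x * f x) n = fourierCoeff f (n - k) := by
  rw [fc_apply, fc_apply]
  congr 1; ext x
  have : -(n - k) = -n + k := by ring
  rw [this, ee_add_left]; ring

theorem fc_ee (k n : ℤ) : fourierCoeff (ee k) n = if n = k then 1 else 0 := by
  have h := congrFun (fourierCoeff_fourier (T := 1) k) n
  have h2 : fourierCoeff (ee k) n = fourierCoeff (fourier k : UnitAddCircle → ℂ) n := rfl
  rw [h2]
  refine h.trans ?_
  by_cases hnk : n = k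
  · subst hnk; simp
  · simp [hnk]

theorem integral_ee (k : ℤ) : ∫ x, ee k x ∂μT = if k = 0 then 1 else 0 := by
  have h := fc_ee k 0
  rw [fc_apply] at h
  simp only [neg_zero, ee_zero_left, one_mul] at h
  rw [h]
  by_cases hk : k = 0
  · simp [hk]
  · have : ¬ (0 = k) := fun h => hk h.symm
    simp [hk, this]

theorem mp_nsmul {N : ℕ} (hN : 0 < N) : MeasurePreserving (fun x : UnitAddCircle => N • x) μT μT := by
  have h := Measure.measurePreserving_zsmul (G := UnitAddCircle) μT (n := (N : ℤ)) (by exact_mod_cast hN.ne')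
  simpa using h

theorem integrable_dil {f : UnitAddCircle → ℂ} (hf : Integrable f μT) {N : ℕ} (hN : 0 < N) :
    Integrable (fun x => f (N • x)) μT := (mp_nsmul hN).integrable_comp_of_integrable hf

theorem ee_mul_left (n : ℤ) (N : ℕ) (x : UnitAddCircle) : ee (N * n) x = ee n (N • x) := by
  unfold ee
  rw [fourier_apply, fourier_apply]
  congr 2
  rw [mul_comm, mul_zsmul]
  simp

theorem fc_dil {f : UnitAddCircle → ℂ} (hf : Integrable f μT) {N : ℕ} (hN : 0 < N) (n : ℤ) :
    fourierCoeff (fun x => f (N • x)) n = if (N : ℤ) ∣ n then fourierCoeff f (n / N) else 0 := by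
  split_ifs with h
  · obtain ⟨m, rfl⟩ := h
    have hNz : (N : ℤ) ≠ 0 := by exact_mod_cast hN.ne'
    rw [Int.mul_ediv_cancel_left _ hNz, fc_apply, fc_apply]
    have h1 : ∀ x : UnitAddCircle, ee (-(N * m)) x * f (N • x) = (fun y => ee (-m) y * f y) (N • x) := by
      intro x
      simp only
      rw [← ee_mul_left]
      congr 2; ring
    simp only [h1]
    have h2 := (mp_nsmul hN).map_eq
    have h3 : ∫ y, (fun y => ee (-m) y * f y) y ∂μT
        = ∫ x, (fun y => ee (-m) y * f y) (N • x) ∂μT := by
      conv_lhs => rw [← h2]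
      rw [integral_map (mp_nsmul hN).measurable.aemeasurable]
      rw [h2]
      exact (integrable_ee_mul hf _).aestronglyMeasurable
    exact h3.symm
  · rw [fc_apply]
    set t : UnitAddCircle := ((1 / (N : ℝ) : ℝ) : UnitAddCircle) with ht
    have hord : addOrderOf t = N := by
      have := AddCircle.addOrderOf_period_div (p := (1 : ℝ)) hN
      exact this
    have hNt : N • t = 0 := by
      rw [← hord]; exact addOrderOf_nsmul_eq_zero t
    have h1 : ee (-n) t ≠ 1 := by
      have h2 : ee (-n) t = ee 1 ((-n) • t) := by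
        unfold ee
        rw [fourier_apply, fourier_one]
      rw [h2]
      apply ee_one_ne_one
      intro h3
      rw [neg_smul, neg_eq_zero] at h3
      rw [← addOrderOf_dvd_iff_zsmul_eq_zero, hord] at h3
      exact h h3
    have h2 := integral_add_right_eq_self (μ := μT) (fun x => ee (-n) x * f (N • x)) t
    simp only [smul_add, hNt, add_zero, ee_add_right] at h2
    have h3 : ∫ x, ee (-n) x * ee (-n) t * f (N • x) ∂μT
        = ee (-n) t * ∫ x, ee (-n) x * f (N • x) ∂μT := by
      rw [← integral_const_mul]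
      congr 1; ext x; ring
    rw [h3] at h2
    have h4 : (ee (-n) t - 1) * ∫ x, ee (-n) x * f (N • x) ∂μT = 0 := by
      rw [sub_mul, h2]; ring
    rcases mul_eq_zero.mp h4 with h5 | h5
    · exact absurd (sub_eq_zero.mp h5) h1
    · exact h5

/-- the sawtooth function -/
noncomputable def sR : UnitAddCircle → ℝ := AddCircle.liftIco 1 0 (fun x => 1 / 2 - x)

noncomputable def s0 (x : UnitAddCircle) : ℂ := (sR x : ℂ)

theorem sR_coe_of_mem {x : ℝ} (hx : x ∈ Set.Ico (0 : ℝ) 1) : sR (x : UnitAddCircle) = 1 / 2 - x := by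
  unfold sR
  rw [AddCircle.liftIco_zero_coe_apply hx]

theorem coe_fract (x : ℝ) : ((Int.fract x : ℝ) : UnitAddCircle) = (x : UnitAddCircle) := by
  rw [Int.fract, AddCircle.coe_sub]
  have : ((⌊x⌋ : ℝ) : UnitAddCircle) = 0 := by
    rw [AddCircle.coe_eq_zero_iff]
    exact ⟨⌊x⌋, by simp⟩
  rw [this, sub_zero]

theorem sR_coe (x : ℝ) : sR (x : UnitAddCircle) = 1 / 2 - Int.fract x := by
  rw [← coe_fract x, sR_coe_of_mem ⟨Int.fract_nonneg x, Int.fract_lt_one x⟩]

theorem abs_sR_le (x : UnitAddCircle) : |sR x| ≤ 1 / 2 := by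
  induction x using QuotientAddGroup.induction_on with
  | H x =>
    have h := sR_coe x
    change |sR (x : UnitAddCircle)| ≤ 1 / 2
    rw [h, abs_le]
    have h1 := Int.fract_nonneg x
    have h2 := (Int.fract_lt_one x).le
    constructor <;> linarith

theorem norm_s0_le (x : UnitAddCircle) : ‖s0 x‖ ≤ 1 / 2 := by
  unfold s0
  rw [Complex.norm_real]
  exact abs_sR_le x

theorem s0_eq_bernoulli : s0 = fun x => (-1 : ℂ) * (((↑) ∘ periodizedBernoulli 1 : UnitAddCircle → ℂ)) x := by
  ext x
  induction x using QuotientAddGroup.induction_on with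
  | H x =>
    simp only [Function.comp, s0]
    have h1 : sR (x : UnitAddCircle) = 1 / 2 - Int.fract x := sR_coe x
    have h2 : periodizedBernoulli 1 (x : UnitAddCircle) = Int.fract x - 1 / 2 := by
      rw [← coe_fract x, periodizedBernoulli, AddCircle.liftIco_zero_coe_apply
        ⟨Int.fract_nonneg x, Int.fract_lt_one x⟩]
      rw [bernoulliFun_one]
    change ((sR (x : UnitAddCircle) : ℝ) : ℂ) = -1 * ((periodizedBernoulli 1 (x : UnitAddCircle) : ℝ) : ℂ)
    rw [h1, h2]
    push_cast; ring

theorem fc_s0 (n : ℤ) : fourierCoeff s0 n = (2 * Real.pi * I)⁻¹ * hk n := by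
  rw [s0_eq_bernoulli, fc_const_mul, fourierCoeff_bernoulli_eq one_ne_zero]
  unfold hk
  simp only [Nat.factorial_one, Nat.cast_one, pow_one]
  by_cases hn : (n : ℂ) = 0
  · rw [hn]; simp
  · have hpi : (Real.pi : ℂ) ≠ 0 := by exact_mod_cast Real.pi_ne_zero
    field_simp

theorem measurable_liftIco {f : ℝ → ℝ} (hf : Measurable f) :
    Measurable (AddCircle.liftIco (1 : ℝ) 0 f) := by
  have h1 : AddCircle.liftIco (1 : ℝ) 0 f
      = fun x => f ((AddCircle.measurableEquivIco (1 : ℝ) 0 x : ℝ)) := by
    ext x; rfl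
  rw [h1]
  exact hf.comp (measurable_subtype_coe.comp (AddCircle.measurableEquivIco (1 : ℝ) 0).measurable)

theorem measurable_sR : Measurable sR := by
  unfold sR
  exact measurable_liftIco (by fun_prop)

theorem measurable_s0 : Measurable s0 := by
  unfold s0
  exact Complex.measurable_ofReal.comp measurable_sR

theorem integrable_s0 : Integrable s0 μT :=
  integrable_of_bdd measurable_s0.aestronglyMeasurable (Eventually.of_forall norm_s0_le)

end Pool.Agent.Helper576.LpMult
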