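import Pool.Agent.Helper576.Circle1

namespace Pool.Agent.Helper576.LpMult

open Finset Complex Filter Topology MeasureTheory

/-- Fejer kernel -/
noncomputable def FK (M : ℕ) (z : UnitAddCircle) : ℝ := ‖∑ j ∈ range M, ee (j : ℤ) z‖ ^ 2 / M

theorem FK_nonneg (M : ℕ) (z : UnitAddCircle) : 0 ≤ FK M z := by unfold FK; positivity

theorem card_diff (M : ℕ) (n : ℤ) :
    ((range M ×ˢ range M).filter (fun x => (x.1 : ℤ) - x.2 = n)).card = ((M : ℤ) - |n|).toNat := by
  classical
  have h := card_inter M n 0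
  rw [sub_zero] at h
  rw [← h]
  symm
  apply card_bij (fun (x : ℤ) _ => ((n - x).toNat, (-x).toNat))
  · intro x hx
    rw [mem_inter, mem_Ioc, mem_Ioc] at hx
    rw [mem_filter, mem_product, mem_range, mem_range]
    simp only
    omega
  · intro x hx y hy hxy
    rw [mem_inter, mem_Ioc, mem_Ioc] at hx hy
    have := (Prod.mk.inj hxy).2
    omega
  · intro b hb
    rw [mem_filter, mem_product, mem_range, mem_range] at hb
    refine ⟨-(b.2 : ℤ), ?_, ?_⟩
    · rw [mem_inter, mem_Ioc, mem_Ioc]; omega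
    · apply Prod.ext
      · simp only; omega
      · simp only; omega

theorem FK_eq (M : ℕ) (z : UnitAddCircle) :
    (FK M z : ℂ) = ∑ n ∈ Icc (-(M : ℤ)) M, (cf M n : ℂ) * ee n z := by
  classical
  have h1 : ((‖∑ j ∈ range M, ee (j : ℤ) z‖ ^ 2 : ℝ) : ℂ)
      = ∑ x ∈ range M ×ˢ range M, ee ((x.1 : ℤ) - x.2) z := by
    rw [← Complex.normSq_eq_norm_sq, ← Complex.mul_conj, map_sum, sum_mul_sum, sum_product]
    apply sum_congr rfl; intro a _
    apply sum_congr rfl; intro b _
    rw [conj_ee, ee_sub_left, ee_neg_left]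
  have h2 : ∑ x ∈ range M ×ˢ range M, ee ((x.1 : ℤ) - x.2) z
      = ∑ n ∈ Icc (-(M : ℤ)) M, (((M : ℤ) - |n|).toNat : ℂ) * ee n z := by
    rw [← sum_fiberwise_of_maps_to (g := fun x : ℕ × ℕ => (x.1 : ℤ) - x.2)
      (t := Icc (-(M : ℤ)) M)]
    · apply sum_congr rfl
      intro n _
      have : ∀ x ∈ (range M ×ˢ range M).filter (fun x => (x.1 : ℤ) - x.2 = n),
          ee ((x.1 : ℤ) - x.2) z = ee n z := by
        intro x hx
        rw [(mem_filter.mp hx).2]
      rw [sum_congr rfl this, sum_const, nsmul_eq_mul, card_diff]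
    · intro x hx
      rw [mem_product, mem_range, mem_range] at hx
      rw [mem_Icc]; omega
  unfold FK
  push_cast
  have h1' : ((‖∑ j ∈ range M, ee (j : ℤ) z‖ : ℂ)) ^ 2
      = ∑ x ∈ range M ×ˢ range M, ee ((x.1 : ℤ) - x.2) z := by
    rw [← h1]; push_cast; rfl
  rw [h1', h2, sum_div]
  apply sum_congr rfl
  intro n _
  unfold cf
  push_cast
  ring

theorem FK_continuous (M : ℕ) : Continuous (FK M) := by
  unfold FK
  apply Continuous.div_const
  apply Continuous.pow
  apply Continuous.norm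
  exact continuous_finsetSum _ (fun j _ => ee_continuous _)

theorem integrable_FK (M : ℕ) : Integrable (FK M) μT :=
  (FK_continuous M).integrable_of_hasCompactSupport (HasCompactSupport.of_compactSpace _)

theorem integral_FK {M : ℕ} (hM : 0 < M) : ∫ z, FK M z ∂μT = 1 := by
  have h1 : ((∫ z, FK M z ∂μT : ℝ) : ℂ) = 1 := by
    rw [← integral_complex_ofReal]
    simp only [FK_eq]
    rw [integral_finsetSum _ (fun n _ => (integrable_ee n).const_mul _)]
    simp only [integral_const_mul, integral_ee]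
    rw [sum_eq_single 0]
    · simp only [if_true, mul_one]
      unfold cf
      have : ((M : ℤ) - |0|).toNat = M := by simp
      rw [this]
      have : (M : ℝ) ≠ 0 := by exact_mod_cast hM.ne'
      rw [div_self this]; simp
    · intro n _ hn
      rw [if_neg hn, mul_zero]
    · intro h
      exfalso; apply h
      rw [mem_Icc]; omega
  exact_mod_cast h1

theorem FK_bound {M : ℕ} {z : UnitAddCircle} (hz : z ≠ 0) :
    FK M z ≤ (4 / ‖ee 1 z - 1‖ ^ 2) / M := by
  have hw : ee 1 z ≠ 1 := ee_one_ne_one hz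
  have h3 : 0 < ‖ee 1 z - 1‖ := norm_pos_iff.mpr (sub_ne_zero.mpr hw)
  unfold FK
  apply div_le_div_of_nonneg_right _ (by positivity)
  have h1 : ∑ σ ∈ range M, ee (σ : ℤ) z = (ee 1 z ^ M - 1) / (ee 1 z - 1) := by
    simp only [ee_natCast]
    exact geom_sum_eq hw M
  have h2 : ‖ee 1 z ^ M - 1‖ ≤ 2 := by
    refine (norm_sub_le _ _).trans ?_
    rw [norm_pow, norm_ee, one_pow, norm_one]; norm_num
  rw [h1, norm_div, div_pow]
  apply div_le_div_of_nonneg_right _ (by positivity)
  calc ‖ee 1 z ^ M - 1‖ ^ 2 ≤ 2 ^ 2 := by gcongr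
    _ = 4 := by norm_num

/-- Fejer mean of a sequence of Fourier coefficients -/
noncomputable def Fej (M : ℕ) (a : ℤ → ℂ) (x : UnitAddCircle) : ℂ :=
  ∑ n ∈ Icc (-(M : ℤ)) M, (cf M n : ℂ) * a n * ee n x

theorem integrable_mul_FK {f : UnitAddCircle → ℂ} (hf : Integrable f μT) (M : ℕ) (x : UnitAddCircle) :
    Integrable (fun y => f y * (FK M (x - y) : ℂ)) μT := by
  have hc : Continuous (fun y : UnitAddCircle => (FK M (x - y) : ℂ)) :=
    Complex.continuous_ofReal.comp ((FK_continuous M).comp (by fun_prop))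
  obtain ⟨C, hC⟩ := (isCompact_univ (X := UnitAddCircle)).exists_bound_of_continuousOn hc.continuousOn
  apply hf.mul_bdd (c := C) hc.aestronglyMeasurable
  exact Eventually.of_forall fun y => hC y (Set.mem_univ _)

theorem Fej_eq {f : UnitAddCircle → ℂ} (hf : Integrable f μT) (M : ℕ) (x : UnitAddCircle) :
    Fej M (fourierCoeff f) x = ∫ y, f y * (FK M (x - y) : ℂ) ∂μT := by
  simp only [FK_eq, mul_sum]
  rw [integral_finsetSum]
  · unfold Fej
    apply sum_congr rfl
    intro n _
    rw [fc_apply]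
    have h1 : ∀ y, f y * ((cf M n : ℂ) * ee n (x - y)) = ((cf M n : ℂ) * ee n x) * (ee (-n) y * f y) := by
      intro y
      rw [ee_sub_right, ee_neg_left]; ring
    simp only [h1]
    rw [integral_const_mul]; ring
  · intro n _
    have h1 : (fun y => f y * ((cf M n : ℂ) * ee n (x - y)))
        = fun y => ((cf M n : ℂ) * ee n x) * (ee (-n) y * f y) := by
      ext y
      rw [ee_sub_right, ee_neg_left]; ring
    rw [h1]
    exact (integrable_ee_mul hf _).const_mul _

theorem integral_FK_sub {M : ℕ} (hM : 0 < M) (x : UnitAddCircle) :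
    ∫ y, FK M (x - y) ∂μT = 1 := by
  rw [integral_sub_left_eq_self (fun y => FK M y) μT x]
  exact integral_FK hM

theorem integrable_FK_sub (M : ℕ) (x : UnitAddCircle) :
    Integrable (fun y => FK M (x - y)) μT :=
  ((FK_continuous M).comp (by fun_prop)).integrable_of_hasCompactSupport
    (HasCompactSupport.of_compactSpace _)

theorem Fej_sub_const {f : UnitAddCircle → ℂ} (hf : Integrable f μT) {M : ℕ} (hM : 0 < M)
    (x : UnitAddCircle) (c : ℂ) {g : UnitAddCircle → ℝ} (hg : Integrable g μT)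
    (h : ∀ᵐ y ∂μT, ‖f y - c‖ * FK M (x - y) ≤ g y) :
    ‖Fej M (fourierCoeff f) x - c‖ ≤ ∫ y, g y ∂μT := by
  have h1 : Fej M (fourierCoeff f) x - c = ∫ y, (f y - c) * (FK M (x - y) : ℂ) ∂μT := by
    have h2 : (fun y => (f y - c) * (FK M (x - y) : ℂ))
        = fun y => f y * (FK M (x - y) : ℂ) - c * (FK M (x - y) : ℂ) := by
      ext y; ring
    have hI2 : Integrable (fun y => c * (FK M (x - y) : ℂ)) μT :=
      (integrable_FK_sub M x).ofReal.const_mul c
    rw [h2, integral_sub (integrable_mul_FK hf M x) hI2,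
      ← Fej_eq hf, integral_const_mul, integral_complex_ofReal, integral_FK_sub hM]
    simp
  rw [h1]
  apply norm_integral_le_of_norm_le hg
  filter_upwards [h] with y hy
  rw [norm_mul, Complex.norm_real, Real.norm_of_nonneg (FK_nonneg _ _)]
  exact hy

theorem Fej_bound {f : UnitAddCircle → ℂ} (hf : Integrable f μT) {M : ℕ} (hM : 0 < M)
    (x : UnitAddCircle) {B : ℝ} (h : ∀ᵐ y ∂μT, ‖f y‖ ≤ B) :
    ‖Fej M (fourierCoeff f) x‖ ≤ B := by
  have h1 := Fej_sub_const hf hM x 0 (g := fun y => B * FK M (x - y))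
    ((integrable_FK_sub M x).const_mul B) (by
      filter_upwards [h] with y hy
      rw [sub_zero]
      exact mul_le_mul_of_nonneg_right hy (FK_nonneg _ _))
  rw [sub_zero, integral_const_mul, integral_FK_sub hM, mul_one] at h1
  exact h1

end Pool.Agent.Helper576.LpMult
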