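import Pool.Agent.Helper576.Circle2

namespace Pool.Agent.Helper576.LpMult

open Finset Complex Filter Topology MeasureTheory

theorem exists_rep (x : UnitAddCircle) :
    ∃ r : ℝ, r ∈ Set.Ico (0 : ℝ) 1 ∧ (r : UnitAddCircle) = x ∧ ‖x‖ = min r (1 - r) := by
  obtain ⟨r, hr, hx⟩ := AddCircle.eq_coe_Ico (p := (1 : ℝ)) x
  refine ⟨r, hr, hx, ?_⟩
  rw [← hx, UnitAddCircle.norm_eq, abs_sub_round_eq_min]
  have : Int.fract r = r := Int.fract_eq_self.mpr hr
  rw [this]

theorem exists_rep_abs (z : UnitAddCircle) : ∃ w : ℝ, (w : UnitAddCircle) = z ∧ |w| = ‖z‖ := by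
  obtain ⟨r, _, hx⟩ := AddCircle.eq_coe_Ico (p := (1 : ℝ)) z
  refine ⟨r - round r, ?_, ?_⟩
  · rw [AddCircle.coe_sub, hx]
    have : ((round r : ℝ) : UnitAddCircle) = 0 := by
      rw [AddCircle.coe_eq_zero_iff]
      exact ⟨round r, by simp⟩
    rw [this, sub_zero]
  · rw [← hx, UnitAddCircle.norm_eq]

theorem sR_lip {x z : UnitAddCircle} (h : ‖z‖ < ‖x‖) : |sR (x - z) - sR x| ≤ ‖z‖ := by
  obtain ⟨r, hr, hx, hn⟩ := exists_rep x
  obtain ⟨w, hw, hwn⟩ := exists_rep_abs z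
  have h1 : x - z = ((r - w : ℝ) : UnitAddCircle) := by
    rw [AddCircle.coe_sub, hx, hw]
  have h2 : |w| < min r (1 - r) := by rw [hwn, ← hn]; exact h
  have h3 : |w| < r := lt_of_lt_of_le h2 (min_le_left _ _)
  have h4 : |w| < 1 - r := lt_of_lt_of_le h2 (min_le_right _ _)
  have h5 := le_abs_self w
  have h6 := neg_abs_le w
  have h7 : r - w ∈ Set.Ico (0 : ℝ) 1 := ⟨by linarith, by linarith⟩
  rw [h1, sR_coe_of_mem h7, ← hx, sR_coe_of_mem hr, ← hwn]
  have : 1 / 2 - (r - w) - (1 / 2 - r) = w := by ring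
  rw [this]

theorem norm_coe_le (δ : ℝ) : ‖(δ : UnitAddCircle)‖ ≤ |δ| := by
  rw [UnitAddCircle.norm_eq]
  have := round_le δ 0
  simpa using this

theorem sR_jump_off {x : UnitAddCircle} {δ : ℝ} (hδ : 0 ≤ δ) (h : δ < ‖x‖) :
    |sR (x + (δ : UnitAddCircle)) - sR (x - (δ : UnitAddCircle))| ≤ 2 * δ := by
  have hn : ‖(δ : UnitAddCircle)‖ ≤ δ := by
    have := norm_coe_le δ
    rwa [abs_of_nonneg hδ] at this
  have h1 := sR_lip (x := x) (z := (δ : UnitAddCircle)) (by linarith)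
  have h2 := sR_lip (x := x) (z := -(δ : UnitAddCircle)) (by rw [norm_neg]; linarith)
  rw [norm_neg, sub_neg_eq_add] at h2
  calc |sR (x + (δ : UnitAddCircle)) - sR (x - (δ : UnitAddCircle))|
      = |(sR (x + (δ : UnitAddCircle)) - sR x) - (sR (x - (δ : UnitAddCircle)) - sR x)| := by
        congr 1; ring
    _ ≤ |sR (x + (δ : UnitAddCircle)) - sR x| + |sR (x - (δ : UnitAddCircle)) - sR x| := abs_sub _ _
    _ ≤ _ := by linarith

theorem sR_jump_at {δ : ℝ} (hδ : 0 < δ) (h : δ < 1) :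
    sR ((0 : UnitAddCircle) + (δ : UnitAddCircle)) - sR (0 - (δ : UnitAddCircle)) = 1 - 2 * δ := by
  have h1 : sR ((0 : UnitAddCircle) + (δ : UnitAddCircle)) = 1 / 2 - δ := by
    rw [zero_add, sR_coe_of_mem ⟨hδ.le, h⟩]
  have h2 : (0 : UnitAddCircle) - (δ : UnitAddCircle) = ((1 - δ : ℝ) : UnitAddCircle) := by
    rw [AddCircle.coe_sub, AddCircle.coe_period]
  rw [h1, h2, sR_coe_of_mem ⟨by linarith, by linarith⟩]
  ring

theorem exists_ee_lower {δ : ℝ} (hδ : 0 < δ) :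
    ∃ m : ℝ, 0 < m ∧ ∀ z : UnitAddCircle, δ ≤ ‖z‖ → m ≤ ‖ee 1 z - 1‖ := by
  have hclosed : IsClosed {z : UnitAddCircle | δ ≤ ‖z‖} := isClosed_le continuous_const continuous_norm
  have hcomp : IsCompact {z : UnitAddCircle | δ ≤ ‖z‖} := hclosed.isCompact
  by_cases hne : {z : UnitAddCircle | δ ≤ ‖z‖}.Nonempty
  · have hc : Continuous (fun z : UnitAddCircle => ‖ee 1 z - 1‖) :=
      ((ee_continuous 1).sub continuous_const).norm
    obtain ⟨z0, hz0, hmin⟩ := hcomp.exists_isMinOn hne hc.continuousOn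
    refine ⟨‖ee 1 z0 - 1‖, ?_, ?_⟩
    · have : z0 ≠ 0 := by
        intro h
        rw [h] at hz0
        simp at hz0
        linarith
      exact norm_pos_iff.mpr (sub_ne_zero.mpr (ee_one_ne_one this))
    · intro z hz
      exact hmin hz
  · refine ⟨1, one_pos, ?_⟩
    intro z hz
    exact absurd ⟨z, hz⟩ hne

theorem Fej_s0_pt {δ' η m : ℝ} (hη : 0 < η) (hδ'2 : δ' ≤ η / 2) (hδ'0 : 0 < δ') (hm : 0 < m)
    (hmz : ∀ z : UnitAddCircle, δ' ≤ ‖z‖ → m ≤ ‖ee 1 z - 1‖) {M : ℕ}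
    {x : UnitAddCircle} (hx : δ' ≤ ‖x‖) (y : UnitAddCircle) :
    ‖s0 y - s0 x‖ * FK M (x - y) ≤ (η / 2) * FK M (x - y) + (4 / m ^ 2) / (M : ℝ) := by
  have hF0 := FK_nonneg M (x - y)
  have hpos : 0 ≤ (4 / m ^ 2) / (M : ℝ) := by positivity
  have hns : ‖s0 y - s0 x‖ = |sR y - sR x| := by
    unfold s0
    rw [← Complex.ofReal_sub, Complex.norm_real, Real.norm_eq_abs]
  by_cases hc : ‖x - y‖ < δ'
  · have h3 := sR_lip (x := x) (z := x - y) (by linarith)
    rw [sub_sub_cancel] at h3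
    rw [hns]
    have h4 : |sR y - sR x| * FK M (x - y) ≤ (η / 2) * FK M (x - y) :=
      mul_le_mul_of_nonneg_right (by linarith) hF0
    linarith
  · push Not at hc
    have hne : x - y ≠ 0 := by
      intro h
      rw [h, norm_zero] at hc
      linarith
    have h3 : ‖s0 y - s0 x‖ ≤ 1 := by
      refine (norm_sub_le _ _).trans ?_
      have := norm_s0_le y
      have := norm_s0_le x
      linarith
    have h4 : FK M (x - y) ≤ (4 / m ^ 2) / (M : ℝ) := by
      refine (FK_bound hne).trans ?_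
      apply div_le_div_of_nonneg_right _ (by positivity)
      apply div_le_div_of_nonneg_left (by norm_num) (by positivity)
      have := hmz _ hc
      gcongr
    calc ‖s0 y - s0 x‖ * FK M (x - y) ≤ 1 * ((4 / m ^ 2) / (M : ℝ)) :=
          mul_le_mul h3 h4 hF0 (by norm_num)
      _ ≤ _ := by
          have : 0 ≤ (η / 2) * FK M (x - y) := by positivity
          linarith

theorem Fej_s0_unif {δ η : ℝ} (hδ : 0 < δ) (hη : 0 < η) :
    ∀ᶠ M : ℕ in atTop, ∀ x : UnitAddCircle, δ ≤ ‖x‖ → ‖Fej M (fourierCoeff s0) x - s0 x‖ ≤ η := by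
  set δ' : ℝ := min δ η / 2 with hδ'
  have hmin : 0 < min δ η := lt_min hδ hη
  have hδ'0 : 0 < δ' := by rw [hδ']; linarith
  have hδ'1 : δ' < δ := by
    have := min_le_left δ η
    rw [hδ']; linarith
  have hδ'2 : δ' ≤ η / 2 := by
    have := min_le_right δ η
    rw [hδ']; linarith
  obtain ⟨m, hm, hmz⟩ := exists_ee_lower hδ'0
  have h1 : Tendsto (fun M : ℕ => (4 / m ^ 2) / (M : ℝ)) atTop (𝓝 0) :=
    tendsto_const_div_atTop_nhds_zero_nat _
  have ev1 : ∀ᶠ M : ℕ in atTop, (4 / m ^ 2) / (M : ℝ) < η / 2 :=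
    h1.eventually (gt_mem_nhds (by linarith : (0 : ℝ) < η / 2))
  filter_upwards [ev1, eventually_gt_atTop 0] with M hM1 hM0
  intro x hx
  have hint : Integrable (fun y => (η / 2) * FK M (x - y) + (4 / m ^ 2) / (M : ℝ)) μT :=
    ((integrable_FK_sub M x).const_mul _).add (integrable_const _)
  have h2 := Fej_sub_const integrable_s0 hM0 x (s0 x) hint
    (Eventually.of_forall (Fej_s0_pt hη hδ'2 hδ'0 hm hmz (by linarith)))
  refine h2.trans ?_
  have h3 : ∫ y, ((η / 2) * FK M (x - y) + (4 / m ^ 2) / (M : ℝ)) ∂μT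
      = η / 2 + (4 / m ^ 2) / (M : ℝ) := by
    rw [integral_add ((integrable_FK_sub M x).const_mul _) (integrable_const _), integral_const_mul,
      integral_FK_sub hM0, mul_one, integral_const]
    simp
  rw [h3]
  linarith

theorem Fej_s0_bound {M : ℕ} (hM : 0 < M) (x : UnitAddCircle) :
    ‖Fej M (fourierCoeff s0) x - s0 x‖ ≤ 1 := by
  refine (norm_sub_le _ _).trans ?_
  have h1 := Fej_bound integrable_s0 hM x (Eventually.of_forall norm_s0_le)
  have := norm_s0_le x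
  linarith

end Pool.Agent.Helper576.LpMult
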