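import Pool.Agent.Helper576.Circle3

namespace Pool.Agent.Helper576.LpMult

open Finset Complex Filter Topology MeasureTheory

theorem Fej_add (M : ℕ) (a b : ℤ → ℂ) (x : UnitAddCircle) :
    Fej M (fun n => a n + b n) x = Fej M a x + Fej M b x := by
  unfold Fej
  rw [← sum_add_distrib]
  exact sum_congr rfl fun n _ => by ring

theorem Fej_const_mul (M : ℕ) (c : ℂ) (a : ℤ → ℂ) (x : UnitAddCircle) :
    Fej M (fun n => c * a n) x = c * Fej M a x := by
  unfold Fej
  rw [mul_sum]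
  exact sum_congr rfl fun n _ => by ring

theorem Fej_sum {ι : Type*} (s : Finset ι) (M : ℕ) (a : ι → ℤ → ℂ) (x : UnitAddCircle) :
    Fej M (fun n => ∑ i ∈ s, a i n) x = ∑ i ∈ s, Fej M (a i) x := by
  unfold Fej
  rw [sum_comm]
  apply sum_congr rfl; intro n _
  rw [mul_sum, sum_mul]

theorem Fej_mod (M : ℕ) (a : ℤ → ℂ) (t x : UnitAddCircle) :
    Fej M (fun n => ee (-n) t * a n) x = Fej M a (x - t) := by
  unfold Fej
  apply sum_congr rfl; intro n _
  beta_reduce
  rw [ee_sub_right, ee_neg_left]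
  ring

theorem Fej_delta {M : ℕ} (hM : 0 < M) (x : UnitAddCircle) :
    Fej M (fun n => if n = 0 then 1 else 0) x = 1 := by
  unfold Fej
  rw [sum_eq_single 0]
  · simp only [if_true, mul_one, ee_zero_left]
    unfold cf
    have : ((M : ℤ) - |0|).toNat = M := by simp
    rw [this]
    have : (M : ℝ) ≠ 0 := by exact_mod_cast hM.ne'
    rw [div_self this]; simp
  · intro n _ hn
    beta_reduce
    rw [if_neg hn]; ring
  · intro h
    exfalso; apply h
    rw [mem_Icc]; omega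

/-- standard step functions (modulo null sets) -/
noncomputable def stp (c : ℂ) (J : Finset UnitAddCircle) (a : UnitAddCircle → ℂ)
    (x : UnitAddCircle) : ℂ := c + ∑ t ∈ J, a t * s0 (x - t)

theorem integrable_s0_sub (t : UnitAddCircle) : Integrable (fun x => s0 (x - t)) μT :=
  integrable_translate integrable_s0 t

theorem integrable_stp (c : ℂ) (J : Finset UnitAddCircle) (a : UnitAddCircle → ℂ) :
    Integrable (stp c J a) μT := by
  unfold stp
  exact (integrable_const c).add (integrable_finsetSum _ fun t _ => (integrable_s0_sub t).const_mul _)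

theorem fc_stp (c : ℂ) (J : Finset UnitAddCircle) (a : UnitAddCircle → ℂ) (n : ℤ) :
    fourierCoeff (stp c J a) n
      = c * (if n = 0 then 1 else 0) + ∑ t ∈ J, a t * (ee (-n) t * fourierCoeff s0 n) := by
  have h1 : stp c J a = fun x => (c * ee 0 x) + ∑ t ∈ J, a t * s0 (x - t) := by
    ext x; unfold stp; rw [ee_zero_left, mul_one]
  rw [h1, fc_add ((integrable_ee 0).const_mul c)
    (integrable_finsetSum _ fun t _ => (integrable_s0_sub t).const_mul _), fc_const_mul, fc_ee,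
    fc_sum _ _ (fun t _ => (integrable_s0_sub t).const_mul _)]
  congr 1
  apply sum_congr rfl; intro t _
  rw [fc_const_mul, fc_translate]

theorem Fej_stp {M : ℕ} (hM : 0 < M) (c : ℂ) (J : Finset UnitAddCircle) (a : UnitAddCircle → ℂ)
    (x : UnitAddCircle) :
    Fej M (fourierCoeff (stp c J a)) x = c + ∑ t ∈ J, a t * Fej M (fourierCoeff s0) (x - t) := by
  have h1 : fourierCoeff (stp c J a)
      = fun n => c * (if n = 0 then 1 else 0) + ∑ t ∈ J, a t * (ee (-n) t * fourierCoeff s0 n) := by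
    ext n; exact fc_stp c J a n
  rw [h1, Fej_add, Fej_const_mul, Fej_delta hM, Fej_sum, mul_one]
  congr 1
  apply sum_congr rfl; intro t _
  rw [Fej_const_mul, Fej_mod]

theorem Fej_diff {f : UnitAddCircle → ℂ} (hf : Integrable f μT) {M : ℕ} (hM : 0 < M)
    (c : ℂ) (J : Finset UnitAddCircle) (a : UnitAddCircle → ℂ) {ε : ℝ}
    (h : ∀ᵐ x ∂μT, ‖f x - stp c J a x‖ ≤ ε) (x : UnitAddCircle) :
    ‖Fej M (fourierCoeff f) x - (c + ∑ t ∈ J, a t * Fej M (fourierCoeff s0) (x - t))‖ ≤ ε := by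
  have hg : Integrable (fun x => f x - stp c J a x) μT := hf.sub (integrable_stp c J a)
  have h1 : fourierCoeff f = fun n => fourierCoeff (fun x => f x - stp c J a x) n
      + fourierCoeff (stp c J a) n := by
    ext n
    rw [fc_sub hf (integrable_stp c J a)]; ring
  rw [h1, Fej_add, Fej_stp hM, add_sub_cancel_right]
  exact Fej_bound hg hM x h

theorem exists_sep (S : Finset UnitAddCircle) :
    ∃ δ : ℝ, 0 < δ ∧ ∀ t ∈ S, ∀ τ ∈ S, t ≠ τ → δ ≤ ‖t - τ‖ := by
  classical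
  by_cases hne : ((S ×ˢ S).filter (fun x => x.1 ≠ x.2)).Nonempty
  · obtain ⟨x, hx, hmin⟩ := exists_min_image ((S ×ˢ S).filter (fun x => x.1 ≠ x.2))
      (fun x => ‖x.1 - x.2‖) hne
    refine ⟨‖x.1 - x.2‖, ?_, ?_⟩
    · rw [mem_filter] at hx
      exact norm_pos_iff.mpr (sub_ne_zero.mpr hx.2)
    · intro t ht τ hτ hne2
      exact hmin (t, τ) (mem_filter.mpr ⟨mem_product.mpr ⟨ht, hτ⟩, hne2⟩)
  · refine ⟨1, one_pos, ?_⟩
    intro t ht τ hτ hne2
    exact absurd ⟨(t, τ), mem_filter.mpr ⟨mem_product.mpr ⟨ht, hτ⟩, hne2⟩⟩ hne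

theorem summable_hk_diff (d : ℤ) : Summable (fun n : ℤ => ‖hk n - hk (n + d)‖) := by
  have h0 := Real.summable_one_div_int_pow.mpr (by norm_num : 1 < 2)
  have h1 : Summable (fun n : ℤ => 1 / (((n + d : ℤ) : ℝ)) ^ 2) :=
    h0.comp_injective (add_left_injective d)
  have h2 : Summable (fun n : ℤ => |(d : ℝ)| * (1 / (n : ℝ) ^ 2 + 1 / (((n + d : ℤ) : ℝ)) ^ 2)) :=
    (h0.add h1).mul_left _
  apply h2.of_norm_bounded_eventually
  have : {n : ℤ | ¬ ‖‖hk n - hk (n + d)‖‖ ≤ |(d : ℝ)| * (1 / (n : ℝ) ^ 2 + 1 / (((n + d : ℤ) : ℝ)) ^ 2)}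
      ⊆ {0, -d} := by
    intro n hn
    by_contra hcon
    apply hn
    simp only [Set.mem_insert_iff, Set.mem_singleton_iff, not_or] at hcon
    obtain ⟨hn0, hnd⟩ := hcon
    have h3 : (n : ℝ) ≠ 0 := by exact_mod_cast hn0
    have h4' : (n + d : ℤ) ≠ 0 := fun h => hnd (by omega)
    have h4 : ((n + d : ℤ) : ℝ) ≠ 0 := by exact_mod_cast h4'
    have e : hk n - hk (n + d) = (((d : ℝ) * ((1 / (n : ℝ)) * (1 / ((n + d : ℤ) : ℝ))) : ℝ) : ℂ) := by
      unfold hk
      have : (1 / (n : ℂ) - 1 / (((n + d : ℤ)) : ℂ)) = (((1 / (n : ℝ) - 1 / ((n + d : ℤ) : ℝ)) : ℝ) : ℂ) := by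
        push_cast; rfl
      rw [this]
      congr 1
      field_simp
      push_cast
      ring
    rw [norm_norm, e, Complex.norm_real, norm_mul, Real.norm_eq_abs]
    apply mul_le_mul_of_nonneg_left _ (abs_nonneg _)
    rw [Real.norm_eq_abs, abs_mul]
    have h5 : |1 / (n : ℝ)| * |1 / ((n + d : ℤ) : ℝ)| ≤ |1 / (n : ℝ)| ^ 2 + |1 / ((n + d : ℤ) : ℝ)| ^ 2 := by
      nlinarith [sq_nonneg (|1 / (n : ℝ)| - |1 / ((n + d : ℤ) : ℝ)|), sq_nonneg (|1 / (n : ℝ)| + |1 / ((n + d : ℤ) : ℝ)|)]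
    rw [sq_abs, sq_abs, div_pow, div_pow, one_pow] at h5
    exact h5
  exact (Set.toFinite {0, -d}).subset this

theorem MB_s0 {p : ℝ} (hp : 1 < p) : ∃ C : ℝ, 0 ≤ C ∧ MB p C (fourierCoeff s0) := by
  obtain ⟨C, hC, h⟩ := MB_hk hp
  refine ⟨‖(2 * Real.pi * I : ℂ)⁻¹‖ * C, by positivity, ?_⟩
  have h2 := MB.smul (by linarith) hC (2 * Real.pi * I : ℂ)⁻¹ h
  have e : (fun n => (2 * Real.pi * I : ℂ)⁻¹ * hk n) = fourierCoeff s0 := by
    ext n; rw [fc_s0]
  rw [e] at h2
  exact h2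

theorem summable_s0_diff (d : ℤ) :
    Summable (fun n : ℤ => ‖fourierCoeff s0 n - fourierCoeff s0 (n + d)‖) := by
  have h := (summable_hk_diff d).mul_left ‖(2 * Real.pi * I : ℂ)⁻¹‖
  refine h.congr (fun n => ?_)
  rw [fc_s0, fc_s0, ← mul_sub, norm_mul]

/-- the averaged kernel differs from the kernel of `s0` by a summable sequence -/
theorem summable_avg_diff {L : ℕ} (hL : 0 < L) :
    Summable (fun n : ℤ => ‖fourierCoeff s0 n -
      ((L : ℂ)⁻¹ * ∑ i ∈ range L, (L : ℂ)⁻¹ * ∑ j ∈ range L, fourierCoeff s0 (n + i - j))‖) := by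
  have hLC : (L : ℂ) ≠ 0 := by exact_mod_cast hL.ne'
  have h1 : ∀ n : ℤ, ‖fourierCoeff s0 n -
      ((L : ℂ)⁻¹ * ∑ i ∈ range L, (L : ℂ)⁻¹ * ∑ j ∈ range L, fourierCoeff s0 (n + i - j))‖
      ≤ ∑ i ∈ range L, ∑ j ∈ range L, ‖fourierCoeff s0 n - fourierCoeff s0 (n + ((i : ℤ) - j))‖ := by
    intro n
    have e : fourierCoeff s0 n -
      ((L : ℂ)⁻¹ * ∑ i ∈ range L, (L : ℂ)⁻¹ * ∑ j ∈ range L, fourierCoeff s0 (n + i - j))
      = (L : ℂ)⁻¹ * ∑ i ∈ range L, (L : ℂ)⁻¹ * ∑ j ∈ range L,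
          (fourierCoeff s0 n - fourierCoeff s0 (n + ((i : ℤ) - j))) := by
      simp only [sum_sub_distrib, mul_sub, sum_const, card_range, nsmul_eq_mul]
      have e2 : ∀ i j : ℕ, n + ((i : ℤ) - j) = n + i - j := fun i j => by ring
      simp only [e2]
      congr 1
      field_simp
    rw [e]
    have hle : ‖(L : ℂ)⁻¹‖ ≤ 1 := by
      rw [norm_inv, Complex.norm_natCast]
      apply inv_le_one_of_one_le₀
      exact_mod_cast hL
    calc ‖(L : ℂ)⁻¹ * ∑ i ∈ range L, (L : ℂ)⁻¹ * ∑ j ∈ range L,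
          (fourierCoeff s0 n - fourierCoeff s0 (n + ((i : ℤ) - j)))‖
        ≤ 1 * ∑ i ∈ range L, ‖(L : ℂ)⁻¹ * ∑ j ∈ range L,
          (fourierCoeff s0 n - fourierCoeff s0 (n + ((i : ℤ) - j)))‖ := by
          rw [norm_mul]
          exact mul_le_mul hle (norm_sum_le _ _) (norm_nonneg _) (by norm_num)
      _ ≤ _ := by
          rw [one_mul]
          apply sum_le_sum; intro i _
          rw [norm_mul]
          calc _ ≤ 1 * ∑ j ∈ range L, ‖fourierCoeff s0 n - fourierCoeff s0 (n + ((i : ℤ) - j))‖ :=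
                mul_le_mul hle (norm_sum_le _ _) (norm_nonneg _) (by norm_num)
            _ = _ := one_mul _
  refine Summable.of_nonneg_of_le (fun n => norm_nonneg _) h1 ?_
  apply summable_sum; intro i _
  apply summable_sum; intro j _
  exact summable_s0_diff _

/-- `(1 - fejer weight)` times a summable sequence is small in every multiplier norm -/
theorem MB_tail {p : ℝ} (hp : 1 ≤ p) {ω : ℤ → ℂ} (hω : Summable (fun n => ‖ω n‖)) {ε : ℝ}
    (hε : 0 < ε) : ∀ᶠ M : ℕ in atTop, MB p ε (fun n => ω n - (cf M n : ℂ) * ω n) := by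
  have h1 : Tendsto (fun M : ℕ => ∑' n, (1 - cf M n) * ‖ω n‖) atTop (𝓝 (∑' n : ℤ, (1 - 1 : ℝ) * ‖ω n‖)) := by
    apply tendsto_tsum_of_dominated_convergence (bound := fun n => ‖ω n‖) hω
    · intro n
      exact ((cf_tendsto n).const_sub 1).mul_const _
    · refine Eventually.of_forall fun M n => ?_
      have h2 := cf_nonneg M n
      have h3 := cf_le_one M n
      rw [Real.norm_of_nonneg (mul_nonneg (by linarith) (norm_nonneg _))]
      calc _ ≤ 1 * ‖ω n‖ := mul_le_mul_of_nonneg_right (by linarith) (norm_nonneg _)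
        _ = _ := one_mul _
  simp only [sub_self, zero_mul, tsum_zero] at h1
  filter_upwards [h1.eventually (gt_mem_nhds hε)] with M hM
  apply MB_of_summable hp
  intro s
  have hsum : Summable (fun n => (1 - cf M n) * ‖ω n‖) := by
    refine Summable.of_nonneg_of_le (fun n => ?_) (fun n => ?_) hω
    · have h3 := cf_le_one M n
      exact mul_nonneg (by linarith) (norm_nonneg _)
    · have h2 := cf_nonneg M n
      calc _ ≤ 1 * ‖ω n‖ := mul_le_mul_of_nonneg_right (by linarith) (norm_nonneg _)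
        _ = _ := one_mul _
  calc ∑ n ∈ s, ‖ω n - (cf M n : ℂ) * ω n‖ = ∑ n ∈ s, (1 - cf M n) * ‖ω n‖ := by
        apply sum_congr rfl; intro n _
        have : ω n - (cf M n : ℂ) * ω n = ((1 - cf M n : ℝ) : ℂ) * ω n := by push_cast; ring
        rw [this, norm_mul, Complex.norm_real, Real.norm_of_nonneg (by
          have := cf_le_one M n; linarith)]
    _ ≤ ∑' n, (1 - cf M n) * ‖ω n‖ := hsum.sum_le_tsum s (fun n _ => by
        have h3 := cf_le_one M n
        exact mul_nonneg (by linarith) (norm_nonneg _))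
    _ ≤ ε := hM.le

end Pool.Agent.Helper576.LpMult
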