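import Pool.Agent.Helper576.Transfer3

namespace Pool.Agent.Helper576.LpMult

open Finset Complex Filter Topology

/-- box sums -/
noncomputable def boxA (J : Finset UnitAddCircle) (n : ℕ) : Finset UnitAddCircle := by
  classical
  exact (Fintype.piFinset (fun _ : J => range (n + 1))).image (fun f => ∑ b : J, f b • (b : UnitAddCircle))

theorem mem_boxA {J : Finset UnitAddCircle} {n : ℕ} {x : UnitAddCircle} :
    x ∈ boxA J n ↔ ∃ f : J → ℕ, (∀ b, f b ≤ n) ∧ ∑ b : J, f b • (b : UnitAddCircle) = x := by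
  classical
  unfold boxA
  rw [mem_image]
  constructor
  · rintro ⟨f, hf, rfl⟩
    refine ⟨f, ?_, rfl⟩
    intro b
    have := Fintype.mem_piFinset.mp hf b
    rw [mem_range] at this; omega
  · rintro ⟨f, hf, rfl⟩
    refine ⟨f, ?_, rfl⟩
    rw [Fintype.mem_piFinset]
    intro b
    rw [mem_range]
    have := hf b; omega

theorem boxA_card (J : Finset UnitAddCircle) (n : ℕ) : (boxA J n).card ≤ (n + 1) ^ J.card := by
  classical
  unfold boxA
  refine card_image_le.trans ?_
  rw [Fintype.card_piFinset]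
  simp

theorem boxA_nonempty (J : Finset UnitAddCircle) (n : ℕ) : 0 ∈ boxA J n := by
  rw [mem_boxA]
  exact ⟨fun _ => 0, fun _ => Nat.zero_le _, by simp⟩

theorem boxA_mono (J : Finset UnitAddCircle) (n : ℕ) : boxA J n ⊆ boxA J (n + 1) := by
  intro x hx
  rw [mem_boxA] at hx ⊢
  obtain ⟨f, hf, hx⟩ := hx
  exact ⟨f, fun b => (hf b).trans (Nat.le_succ n), hx⟩

theorem boxA_add {J : Finset UnitAddCircle} {n : ℕ} {x t : UnitAddCircle} (hx : x ∈ boxA J n)
    (ht : t ∈ J) : x + t ∈ boxA J (n + 1) := by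
  classical
  rw [mem_boxA] at hx ⊢
  obtain ⟨f, hf, hx⟩ := hx
  refine ⟨fun b => f b + if b = ⟨t, ht⟩ then 1 else 0, ?_, ?_⟩
  · intro b
    have := hf b
    simp only
    split_ifs <;> omega
  · simp only [add_smul, sum_add_distrib, hx, ite_smul, one_smul, zero_smul]
    congr 1
    rw [sum_ite_eq']
    simp

/-- some box has small growth -/
theorem exists_box (J : Finset UnitAddCircle) {η : ℝ} (hη : 0 < η) :
    ∃ n : ℕ, ((boxA J (n + 1)).card : ℝ) ≤ (1 + η) * (boxA J n).card := by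
  by_contra hcon
  push Not at hcon
  have h1 : ∀ n : ℕ, (1 + η) ^ n ≤ ((boxA J n).card : ℝ) := by
    intro n
    induction n with
    | zero =>
      have : 1 ≤ (boxA J 0).card := card_pos.mpr ⟨0, boxA_nonempty J 0⟩
      simpa using this
    | succ n ih =>
      calc (1 + η) ^ (n + 1) = (1 + η) * (1 + η) ^ n := by ring
        _ ≤ (1 + η) * (boxA J n).card := mul_le_mul_of_nonneg_left ih (by linarith)
        _ ≤ _ := (hcon n).le
  have h2 : ∀ n : ℕ, (1 + η) ^ n ≤ ((n : ℝ) + 1) ^ J.card := by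
    intro n
    refine (h1 n).trans ?_
    have := boxA_card J n
    calc ((boxA J n).card : ℝ) ≤ (((n + 1) ^ J.card : ℕ) : ℝ) := by exact_mod_cast this
      _ = _ := by push_cast; rfl
  have h3 : Tendsto (fun n : ℕ => ((n : ℝ)) ^ J.card / (1 + η) ^ n) atTop (𝓝 0) :=
    tendsto_pow_const_div_const_pow_of_one_lt _ (by linarith)
  have h4 : Tendsto (fun n : ℕ => (((n + 1 : ℕ) : ℝ)) ^ J.card / (1 + η) ^ (n + 1)) atTop (𝓝 0) :=
    h3.comp (tendsto_add_atTop_nat 1)
  have h5 : ∀ᶠ n : ℕ in atTop, (((n + 1 : ℕ) : ℝ)) ^ J.card / (1 + η) ^ (n + 1) < 1 / (1 + η) :=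
    h4.eventually (gt_mem_nhds (by positivity))
  obtain ⟨n, hn⟩ := h5.exists
  have h6 := h2 n
  have h7 : (1 + η) ^ n / (1 + η) ^ (n + 1) = 1 / (1 + η) := by
    rw [pow_succ]
    field_simp
  have h8 : (1 + η) ^ n / (1 + η) ^ (n + 1) ≤ (((n + 1 : ℕ) : ℝ)) ^ J.card / (1 + η) ^ (n + 1) := by
    apply div_le_div_of_nonneg_right _ (by positivity)
    push_cast
    exact h6
  linarith

/-- pair counting function -/
noncomputable def cnt (A : Finset UnitAddCircle) (t : UnitAddCircle) : ℕ := by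
  classical
  exact ((A ×ˢ A).filter (fun x => x.1 - x.2 = t)).card

theorem exists_folner (J : Finset UnitAddCircle) {η : ℝ} (hη : 0 < η) :
    ∃ A : Finset UnitAddCircle, A.Nonempty ∧ ∀ t ∈ J, (1 - η) * A.card ≤ cnt A t := by
  classical
  obtain ⟨n, hn⟩ := exists_box J hη
  refine ⟨boxA J n, ⟨0, boxA_nonempty J n⟩, ?_⟩
  intro t ht
  set A := boxA J n with hA
  set B := A.image (fun x => x + t) with hB
  have hBc : B.card = A.card := by
    rw [hB, card_image_of_injective _ (add_left_injective t)]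
  have h1 : A ∪ B ⊆ boxA J (n + 1) := by
    apply union_subset (boxA_mono J n)
    intro x hx
    rw [hB, mem_image] at hx
    obtain ⟨y, hy, rfl⟩ := hx
    exact boxA_add hy ht
  have h2 : (A ∩ B).card ≤ cnt A t := by
    unfold cnt
    calc (A ∩ B).card = ((A ∩ B).image (fun x => (x, x - t))).card := by
          rw [card_image_of_injective]
          intro x y h
          exact (Prod.mk.inj h).1
      _ ≤ _ := by
          apply card_le_card
          intro x hx
          rw [mem_image] at hx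
          obtain ⟨y, hy, rfl⟩ := hx
          rw [mem_inter] at hy
          obtain ⟨hy1, hy2⟩ := hy
          rw [hB, mem_image] at hy2
          obtain ⟨z, hz, hz2⟩ := hy2
          rw [mem_filter, mem_product]
          refine ⟨⟨hy1, ?_⟩, by simp⟩
          simp only
          rw [← hz2]; simpa using hz
  have h3 : (A ∪ B).card + (A ∩ B).card = A.card + B.card := card_union_add_card_inter A B
  have h4 : (A ∪ B).card ≤ (boxA J (n + 1)).card := card_le_card h1
  have h5 : ((A ∪ B).card : ℝ) ≤ (1 + η) * A.card := le_trans (by exact_mod_cast h4) hn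
  have h6 : ((A ∪ B).card : ℝ) + (A ∩ B).card = A.card + A.card := by
    rw [hBc] at h3; exact_mod_cast h3
  have h7 : ((A ∩ B).card : ℝ) ≤ cnt A t := by exact_mod_cast h2
  linarith

/-- The positive definite function attached to a finite set. -/
theorem exists_posdef (J : Finset UnitAddCircle) {η : ℝ} (hη : 0 < η) (hη1 : η < 1) :
    ∃ (S : Finset UnitAddCircle) (u : UnitAddCircle → ℝ) (U : ℤ → ℝ),
      (∀ n, (U n : ℂ) = ∑ t ∈ S, (u t : ℂ) * ee n t) ∧ (∀ n, 0 ≤ U n) ∧ 0 ∈ S ∧ u 0 = 1 ∧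
      J ⊆ S ∧ (∀ t ∈ J, 1 - η ≤ u t) ∧ (∀ t, 0 ≤ u t) ∧ (∀ t, u t ≤ 1) := by
  classical
  obtain ⟨A, hA, hAJ⟩ := exists_folner J hη
  have hc : 0 < A.card := card_pos.mpr hA
  have hcR : (0 : ℝ) < A.card := by exact_mod_cast hc
  have hcC : ((A.card : ℂ)) ≠ 0 := by exact_mod_cast hc.ne'
  refine ⟨(A ×ˢ A).image (fun x => x.1 - x.2), fun t => (cnt A t : ℝ) / A.card,
    fun n => ‖∑ a ∈ A, ee n a‖ ^ 2 / A.card, ?_, ?_, ?_, ?_, ?_, ?_, ?_, ?_⟩
  · intro n
    have h1 : ((‖∑ a ∈ A, ee n a‖ ^ 2 : ℝ) : ℂ) = ∑ x ∈ A ×ˢ A, ee n (x.1 - x.2) := by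
      rw [← Complex.normSq_eq_norm_sq, ← Complex.mul_conj, map_sum, sum_mul_sum, sum_product]
      apply sum_congr rfl; intro a _
      apply sum_congr rfl; intro b _
      rw [conj_ee, ee_sub_right, ee_neg_left]
    have h2 : ∑ x ∈ A ×ˢ A, ee n (x.1 - x.2)
        = ∑ t ∈ (A ×ˢ A).image (fun x => x.1 - x.2), (cnt A t : ℂ) * ee n t := by
      rw [← sum_fiberwise_of_maps_to (g := fun x : UnitAddCircle × UnitAddCircle => x.1 - x.2)
        (t := (A ×ˢ A).image (fun x => x.1 - x.2)) (fun x hx => mem_image_of_mem _ hx)]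
      apply sum_congr rfl
      intro t _
      have : ∀ x ∈ (A ×ˢ A).filter (fun x => x.1 - x.2 = t), ee n (x.1 - x.2) = ee n t := by
        intro x hx
        rw [(mem_filter.mp hx).2]
      rw [sum_congr rfl this, sum_const, nsmul_eq_mul]
      unfold cnt
      congr!
    have h3 : ((‖∑ a ∈ A, ee n a‖ ^ 2 / A.card : ℝ) : ℂ)
        = ((‖∑ a ∈ A, ee n a‖ ^ 2 : ℝ) : ℂ) / A.card := by push_cast; rfl
    rw [h3, h1, h2, sum_div]
    apply sum_congr rfl
    intro t _
    push_cast
    ring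
  · intro n; positivity
  · rw [mem_image]
    obtain ⟨a, ha⟩ := hA
    exact ⟨(a, a), by rw [mem_product]; exact ⟨ha, ha⟩, by simp⟩
  · have : cnt A 0 = A.card := by
      unfold cnt
      have h1 : (A ×ˢ A).filter (fun x => x.1 - x.2 = 0) = A.image (fun a => (a, a)) := by
        ext x
        rw [mem_filter, mem_product, mem_image]
        constructor
        · rintro ⟨⟨h1, _⟩, h3⟩
          exact ⟨x.1, h1, Prod.ext rfl (sub_eq_zero.mp h3)⟩
        · rintro ⟨a, ha, rfl⟩
          exact ⟨⟨ha, ha⟩, by simp⟩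
      have h2 : ((A ×ˢ A).filter (fun x => x.1 - x.2 = 0)).card = A.card := by
        rw [h1, card_image_of_injective]
        intro x y h
        exact (Prod.mk.inj h).1
      convert h2
    simp only [this]
    field_simp
  · intro t ht
    have h1 := hAJ t ht
    have h2 : 0 < cnt A t := by
      have : 0 < (1 - η) * A.card := mul_pos (by linarith) hcR
      have h3 : (0 : ℝ) < cnt A t := by linarith
      exact_mod_cast h3
    unfold cnt at h2
    rw [card_pos] at h2
    obtain ⟨x, hx⟩ := h2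
    rw [mem_filter] at hx
    rw [mem_image]
    exact ⟨x, hx.1, hx.2⟩
  · intro t ht
    have h1 := hAJ t ht
    simp only
    rw [le_div_iff₀ hcR]
    exact h1
  · intro t; positivity
  · intro t
    simp only
    rw [div_le_one hcR]
    have : cnt A t ≤ A.card := by
      unfold cnt
      calc _ = (((A ×ˢ A).filter (fun x => x.1 - x.2 = t)).image Prod.fst).card := by
            rw [card_image_of_injOn]
            intro x hx y hy h
            have hx' := (mem_filter.mp (mem_coe.mp hx)).2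
            have hy' := (mem_filter.mp (mem_coe.mp hy)).2
            have h2 : x.2 = y.2 := by
              have e1 : x.2 = x.1 - t := by rw [← hx']; abel
              have e2 : y.2 = y.1 - t := by rw [← hy']; abel
              rw [e1, e2, h]
            exact Prod.ext h h2
        _ ≤ A.card := by
            apply card_le_card
            intro a ha
            rw [mem_image] at ha
            obtain ⟨x, hx, rfl⟩ := ha
            exact (mem_product.mp (mem_filter.mp hx).1).1
    exact_mod_cast this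

/-- choice of the box length -/
theorem exists_L {S : Finset UnitAddCircle} {u : UnitAddCircle → ℝ} {U : ℤ → ℝ}
    (hU : ∀ n, (U n : ℂ) = ∑ t ∈ S, (u t : ℂ) * ee n t) (h0 : 0 ∈ S) (hu0 : u 0 = 1) :
    ∃ L : ℕ, 0 < L ∧ ∀ r : ℤ, ∑ j ∈ range L, U (r + j) ≤ 2 * L := by
  classical
  have h1 : Tendsto (fun L : ℕ => ∑ t ∈ S, |u t| * ‖((L : ℂ))⁻¹ * ∑ σ ∈ range L, ee (σ : ℤ) t‖) atTop
      (𝓝 (∑ t ∈ S, |u t| * ‖(if t = 0 then (1 : ℂ) else 0)‖)) := by
    apply tendsto_finsetSum
    intro t _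
    apply Tendsto.const_mul
    exact (mean_ee t).norm
  have h2 : (∑ t ∈ S, |u t| * ‖(if t = 0 then (1 : ℂ) else 0)‖) = 1 := by
    have : ∀ t ∈ S, |u t| * ‖(if t = 0 then (1 : ℂ) else 0)‖ = if t = 0 then |u t| else 0 := by
      intro t _
      split_ifs <;> simp
    rw [sum_congr rfl this, sum_ite_eq', if_pos h0, hu0]; simp
  rw [h2] at h1
  have h3 := (h1.eventually (gt_mem_nhds (by norm_num : (1 : ℝ) < 2))).and (eventually_gt_atTop 0)
  obtain ⟨L, hL, hL0⟩ := h3.exists
  refine ⟨L, hL0, ?_⟩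
  intro r
  have hLR : (0 : ℝ) < L := by exact_mod_cast hL0
  have h4 : ((∑ j ∈ range L, U (r + j) : ℝ) : ℂ)
      = ∑ t ∈ S, (u t : ℂ) * ee r t * ∑ σ ∈ range L, ee (σ : ℤ) t := by
    push_cast
    simp only [hU, mul_sum]
    rw [sum_comm]
    apply sum_congr rfl; intro t _
    apply sum_congr rfl; intro j _
    rw [ee_add_left]; ring
  have h5 : ∑ j ∈ range L, U (r + j) ≤ ‖((∑ j ∈ range L, U (r + j) : ℝ) : ℂ)‖ := by
    rw [Complex.norm_real]; exact le_abs_self _
  refine h5.trans ?_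
  rw [h4]
  calc ‖∑ t ∈ S, (u t : ℂ) * ee r t * ∑ σ ∈ range L, ee (σ : ℤ) t‖
      ≤ ∑ t ∈ S, |u t| * ‖∑ σ ∈ range L, ee (σ : ℤ) t‖ := by
        refine (norm_sum_le _ _).trans (le_of_eq (sum_congr rfl fun t _ => ?_))
        rw [norm_mul, norm_mul, norm_ee, Complex.norm_real, mul_one, Real.norm_eq_abs]
    _ = L * ∑ t ∈ S, |u t| * ‖((L : ℂ))⁻¹ * ∑ σ ∈ range L, ee (σ : ℤ) t‖ := by
        rw [mul_sum]
        apply sum_congr rfl; intro t _
        rw [norm_mul, norm_inv, Complex.norm_natCast]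
        field_simp
    _ ≤ L * 2 := mul_le_mul_of_nonneg_left hL.le hLR.le
    _ = _ := by ring

end Pool.Agent.Helper576.LpMult
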