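import Mathlib

namespace Pool.Agent.Helper576.LpDefs

open MeasureTheory
open scoped ENNReal

/-- The normalised Haar measure of the circle `𝕋 = ℝ/ℤ`. -/
noncomputable abbrev haar : Measure UnitAddCircle := AddCircle.haarAddCircle

/-- The `ℓ^p(ℤ)` norm of a sequence, as an element of `[0, ∞]`. -/
noncomputable def seqNorm (p : ℝ≥0∞) (a : ℤ → ℂ) : ℝ≥0∞ := eLpNorm a p Measure.count

/-- The trigonometric polynomial `x ↦ ∑ F(n) exp(2πinx)`. -/
noncomputable def trigPoly (F : ℤ →₀ ℂ) (x : UnitAddCircle) : ℂ :=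
  F.sum fun n c => c * fourier n x

/-- The multiplier norm of `φ` on `ℓ_p`: the least constant `C` such that
`‖φ f‖_{ℓ_p} ≤ C ‖f‖_{ℓ_p}` for all trigonometric polynomials `f`, where the `ℓ_p` norm of a
function is the `ℓ^p(ℤ)` norm of its Fourier coefficients. -/
noncomputable def multNorm (p : ℝ≥0∞) (φ : UnitAddCircle → ℂ) : ℝ≥0∞ :=
  sInf {C : ℝ≥0∞ | ∀ F : ℤ →₀ ℂ,
    seqNorm p (fourierCoeff fun x => φ x * trigPoly F x) ≤ C * seqNorm p F}

/-- `M_p`: the (integrable) functions with finite multiplier norm. -/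
def Mult (p : ℝ≥0∞) : Set (UnitAddCircle → ℂ) := {φ | Integrable φ haar ∧ multNorm p φ < ∞}

/-- An arc of the circle: the image of an interval of `ℝ` (of any kind). -/
def IsArc (A : Set UnitAddCircle) : Prop :=
  ∃ I : Set ℝ, I.OrdConnected ∧ A = (fun x : ℝ => (x : UnitAddCircle)) '' I

/-- A finite union of arcs. -/
def IsArcUnion (E : Set UnitAddCircle) : Prop :=
  ∃ 𝒜 : Set (Set UnitAddCircle), 𝒜.Finite ∧ (∀ A ∈ 𝒜, IsArc A) ∧ E = ⋃₀ 𝒜

/-- Piecewise constant functions: finitely many values, each taken on a finite union of arcs. -/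
def PCzero : Set (UnitAddCircle → ℂ) :=
  {g | (Set.range g).Finite ∧ ∀ z : ℂ, IsArcUnion (g ⁻¹' {z})}

/-- The closure of `PCzero` in the norm of `L^∞(𝕋)`. -/
def PC : Set (UnitAddCircle → ℂ) :=
  {f | AEStronglyMeasurable f haar ∧
    ∀ ε : ℝ, 0 < ε → ∃ g ∈ PCzero, eLpNorm (f - g) ∞ haar ≤ ENNReal.ofReal ε}

end Pool.Agent.Helper576.LpDefs
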