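import Mathlib

namespace Pool.Agent.Helper576.LpMult

open Finset

/-- Weighted power mean inequality. -/
theorem wpow {ι : Type*} (s : Finset ι) {p : ℝ} (hp : 1 ≤ p) (w f : ι → ℝ)
    (hw : ∀ i ∈ s, 0 ≤ w i) (hf : ∀ i ∈ s, 0 ≤ f i) :
    (∑ i ∈ s, w i * f i) ^ p ≤ (∑ i ∈ s, w i) ^ (p - 1) * ∑ i ∈ s, w i * f i ^ p := by
  classical
  have hp0 : 0 < p := by linarith
  have h := Real.inner_le_weight_mul_Lp_of_nonneg s hp (fun i => if i ∈ s then w i else 0)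
    (fun i => if i ∈ s then f i else 0)
    (fun i => by
      by_cases h : i ∈ s
      · simpa [h] using hw i h
      · simp [h])
    (fun i => by
      by_cases h : i ∈ s
      · simpa [h] using hf i h
      · simp [h])
  have e1 : ∑ i ∈ s, (if i ∈ s then w i else 0) * (if i ∈ s then f i else 0)
      = ∑ i ∈ s, w i * f i := sum_congr rfl (fun i hi => by simp [hi])
  have e2 : ∑ i ∈ s, (if i ∈ s then w i else 0) = ∑ i ∈ s, w i :=
    sum_congr rfl (fun i hi => by simp [hi])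
  have e3 : ∑ i ∈ s, (if i ∈ s then w i else 0) * (if i ∈ s then f i else 0) ^ p
      = ∑ i ∈ s, w i * f i ^ p := sum_congr rfl (fun i hi => by simp [hi])
  rw [e1, e2, e3] at h
  have hW : 0 ≤ ∑ i ∈ s, w i := sum_nonneg hw
  have hX : 0 ≤ ∑ i ∈ s, w i * f i ^ p :=
    sum_nonneg (fun i hi => mul_nonneg (hw i hi) (Real.rpow_nonneg (hf i hi) p))
  have hS : 0 ≤ ∑ i ∈ s, w i * f i :=
    sum_nonneg (fun i hi => mul_nonneg (hw i hi) (hf i hi))
  calc (∑ i ∈ s, w i * f i) ^ p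
      ≤ ((∑ i ∈ s, w i) ^ (1 - p⁻¹) * (∑ i ∈ s, w i * f i ^ p) ^ p⁻¹) ^ p :=
        Real.rpow_le_rpow hS h hp0.le
    _ = (∑ i ∈ s, w i) ^ (p - 1) * ∑ i ∈ s, w i * f i ^ p := by
        rw [Real.mul_rpow (Real.rpow_nonneg hW _) (Real.rpow_nonneg hX _),
          ← Real.rpow_mul hW, ← Real.rpow_mul hX, inv_mul_cancel₀ hp0.ne', Real.rpow_one]
        congr 2
        field_simp

/-- `MB p C a`: the convolution kernel `a` has norm at most `C` on `ℓ^p(ℤ)`. -/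
def MB (p C : ℝ) (a : ℤ → ℂ) : Prop :=
  ∀ (s t : Finset ℤ) (F : ℤ → ℂ),
    ∑ k ∈ t, ‖∑ l ∈ s, a (k - l) * F l‖ ^ p ≤ C ^ p * ∑ l ∈ s, ‖F l‖ ^ p

/-- the `ℓ^p` norm over a finite set -/
noncomputable def N (p : ℝ) (s : Finset ℤ) (F : ℤ → ℂ) : ℝ := (∑ l ∈ s, ‖F l‖ ^ p) ^ (1 / p)

theorem N_nonneg (p : ℝ) (s : Finset ℤ) (F : ℤ → ℂ) : 0 ≤ N p s F :=
  Real.rpow_nonneg (sum_nonneg (fun _ _ => Real.rpow_nonneg (norm_nonneg _) _)) _

theorem N_rpow {p : ℝ} (hp : 0 < p) (s : Finset ℤ) (F : ℤ → ℂ) :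
    N p s F ^ p = ∑ l ∈ s, ‖F l‖ ^ p := by
  unfold N
  rw [← Real.rpow_mul (sum_nonneg (fun _ _ => Real.rpow_nonneg (norm_nonneg _) _))]
  rw [one_div, inv_mul_cancel₀ hp.ne', Real.rpow_one]

theorem MB_iff {p C : ℝ} (hp : 0 < p) (hC : 0 ≤ C) (a : ℤ → ℂ) :
    MB p C a ↔ ∀ (s t : Finset ℤ) (F : ℤ → ℂ),
      N p t (fun k => ∑ l ∈ s, a (k - l) * F l) ≤ C * N p s F := by
  unfold MB
  refine forall_congr' fun s => forall_congr' fun t => forall_congr' fun F => ?_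
  rw [← N_rpow hp s F, ← Real.mul_rpow hC (N_nonneg _ _ _),
    ← N_rpow hp t (fun k => ∑ l ∈ s, a (k - l) * F l)]
  exact Real.rpow_le_rpow_iff (N_nonneg _ _ _) (mul_nonneg hC (N_nonneg _ _ _)) hp

theorem N_add_le {p : ℝ} (hp : 1 ≤ p) (s : Finset ℤ) (F G : ℤ → ℂ) :
    N p s (fun k => F k + G k) ≤ N p s F + N p s G := by
  unfold N
  calc (∑ l ∈ s, ‖F l + G l‖ ^ p) ^ (1 / p)
      ≤ (∑ l ∈ s, (‖F l‖ + ‖G l‖) ^ p) ^ (1 / p) := by
        apply Real.rpow_le_rpow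
        · exact sum_nonneg (fun _ _ => Real.rpow_nonneg (norm_nonneg _) _)
        · apply sum_le_sum
          intro i _
          exact Real.rpow_le_rpow (norm_nonneg _) (norm_add_le _ _) (by linarith)
        · positivity
    _ ≤ _ := Real.Lp_add_le_of_nonneg s hp (fun i _ => norm_nonneg _) (fun i _ => norm_nonneg _)

theorem N_smul {p : ℝ} (hp : 0 < p) (s : Finset ℤ) (c : ℂ) (F : ℤ → ℂ) :
    N p s (fun k => c * F k) = ‖c‖ * N p s F := by
  unfold N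
  have : ∑ l ∈ s, ‖c * F l‖ ^ p = ‖c‖ ^ p * ∑ l ∈ s, ‖F l‖ ^ p := by
    rw [mul_sum]
    exact sum_congr rfl (fun i _ => by rw [norm_mul, Real.mul_rpow (norm_nonneg _) (norm_nonneg _)])
  rw [this, Real.mul_rpow (Real.rpow_nonneg (norm_nonneg _) _)
    (sum_nonneg (fun _ _ => Real.rpow_nonneg (norm_nonneg _) _)), ← Real.rpow_mul (norm_nonneg _),
    mul_one_div_cancel hp.ne', Real.rpow_one]

theorem MB.add {p C D : ℝ} (hp : 1 ≤ p) (hC : 0 ≤ C) (hD : 0 ≤ D) {a b : ℤ → ℂ}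
    (ha : MB p C a) (hb : MB p D b) : MB p (C + D) (fun n => a n + b n) := by
  have hp0 : 0 < p := by linarith
  rw [MB_iff hp0 hC] at ha
  rw [MB_iff hp0 hD] at hb
  rw [MB_iff hp0 (add_nonneg hC hD)]
  intro s t F
  have : (fun k => ∑ l ∈ s, (a (k - l) + b (k - l)) * F l)
      = fun k => (∑ l ∈ s, a (k - l) * F l) + ∑ l ∈ s, b (k - l) * F l := by
    ext k
    rw [← sum_add_distrib]
    exact sum_congr rfl (fun i _ => by ring)
  rw [this]
  calc _ ≤ _ := N_add_le hp t _ _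
    _ ≤ C * N p s F + D * N p s F := add_le_add (ha s t F) (hb s t F)
    _ = _ := by ring

theorem MB.smul {p C : ℝ} (hp : 0 < p) (hC : 0 ≤ C) {a : ℤ → ℂ} (c : ℂ)
    (ha : MB p C a) : MB p (‖c‖ * C) (fun n => c * a n) := by
  rw [MB_iff hp hC] at ha
  rw [MB_iff hp (mul_nonneg (norm_nonneg _) hC)]
  intro s t F
  have : (fun k => ∑ l ∈ s, (c * a (k - l)) * F l)
      = fun k => c * ∑ l ∈ s, a (k - l) * F l := by
    ext k
    rw [mul_sum]
    exact sum_congr rfl (fun i _ => by ring)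
  rw [this, N_smul hp]
  calc _ ≤ ‖c‖ * (C * N p s F) := mul_le_mul_of_nonneg_left (ha s t F) (norm_nonneg _)
    _ = _ := by ring

theorem MB.mono {p C D : ℝ} (hp : 0 ≤ p) (hC : 0 ≤ C) (hCD : C ≤ D) {a : ℤ → ℂ}
    (ha : MB p C a) : MB p D a := by
  intro s t F
  refine (ha s t F).trans ?_
  apply mul_le_mul_of_nonneg_right
  · exact Real.rpow_le_rpow hC hCD hp
  · exact sum_nonneg (fun _ _ => Real.rpow_nonneg (norm_nonneg _) _)

theorem MB.neg {p C : ℝ} {a : ℤ → ℂ} (ha : MB p C a) : MB p C (fun n => - a n) := by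
  intro s t F
  have := ha s t F
  simpa [neg_mul, sum_neg_distrib] using this

theorem MB_zero {p : ℝ} (hp : 0 < p) {C : ℝ} (hC : 0 ≤ C) : MB p C (fun _ => 0) := by
  intro s t F
  simp only [zero_mul, sum_const_zero, norm_zero, Real.zero_rpow hp.ne']
  exact mul_nonneg (Real.rpow_nonneg hC _)
    (sum_nonneg (fun _ _ => Real.rpow_nonneg (norm_nonneg _) _))

theorem MB_sum {p : ℝ} (hp : 1 ≤ p) {ι : Type*} (T : Finset ι) (C : ι → ℝ)
    (a : ι → ℤ → ℂ) (hC : ∀ i ∈ T, 0 ≤ C i) (ha : ∀ i ∈ T, MB p (C i) (a i)) :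
    MB p (∑ i ∈ T, C i) (fun n => ∑ i ∈ T, a i n) := by
  classical
  induction T using Finset.induction_on with
  | empty => simpa using MB_zero (by linarith) le_rfl
  | insert i T hi ih =>
    simp only [sum_insert hi]
    refine MB.add hp (hC i (mem_insert_self _ _)) (sum_nonneg fun j hj => hC j (mem_insert_of_mem hj))
      (ha i (mem_insert_self _ _)) (ih (fun j hj => hC j (mem_insert_of_mem hj))
        (fun j hj => ha j (mem_insert_of_mem hj)))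

/-- kernels of modulus-one characters: `a n * χ n` where `χ` is a character of `ℤ` -/
theorem MB.mod {p C : ℝ} {a : ℤ → ℂ} (ha : MB p C a) (χ : ℤ → ℂ)
    (hχ : ∀ m n, χ (m - n) = χ m * (χ n)⁻¹) (hn : ∀ n, ‖χ n‖ = 1) :
    MB p C (fun n => χ n * a n) := by
  intro s t F
  have h := ha s t (fun l => (χ l)⁻¹ * F l)
  have e1 : ∀ k, ‖∑ l ∈ s, χ (k - l) * a (k - l) * F l‖
      = ‖∑ l ∈ s, a (k - l) * ((χ l)⁻¹ * F l)‖ := by
    intro k
    have : ∑ l ∈ s, χ (k - l) * a (k - l) * F l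
        = χ k * ∑ l ∈ s, a (k - l) * ((χ l)⁻¹ * F l) := by
      rw [mul_sum]
      exact sum_congr rfl (fun l _ => by rw [hχ]; ring)
    rw [this, norm_mul, hn, one_mul]
  simp only [e1]
  refine h.trans (le_of_eq ?_)
  congr 1
  exact sum_congr rfl (fun l _ => by rw [norm_mul, norm_inv, hn, inv_one, one_mul])

/-- limits -/
theorem MB_of_tendsto {p : ℝ} (hp : 0 < p) {C : ℝ} {ι : Type*} {L : Filter ι} [L.NeBot]
    {a : ι → ℤ → ℂ} {b : ℤ → ℂ} (ha : ∀ᶠ i in L, MB p C (a i))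
    (hlim : ∀ n, Filter.Tendsto (fun i => a i n) L (nhds (b n))) : MB p C b := by
  intro s t F
  have h1 : Filter.Tendsto (fun i => ∑ k ∈ t, ‖∑ l ∈ s, a i (k - l) * F l‖ ^ p) L
      (nhds (∑ k ∈ t, ‖∑ l ∈ s, b (k - l) * F l‖ ^ p)) := by
    apply tendsto_finsetSum
    intro k _
    apply Filter.Tendsto.rpow_const
    · apply Filter.Tendsto.norm
      apply tendsto_finsetSum
      intro l _
      exact (hlim _).mul_const _
    · right; exact hp.le
  exact le_of_tendsto h1 (ha.mono fun i hi => hi s t F)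

end Pool.Agent.Helper576.LpMult
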