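import Pool.Agent.Helper576.MB

namespace Pool.Agent.Helper576.LpMult

open Finset

/-- Young -/
theorem MB_of_summable {p : ℝ} (hp : 1 ≤ p) {A : ℝ} (a : ℤ → ℂ)
    (hA : ∀ s : Finset ℤ, ∑ n ∈ s, ‖a n‖ ≤ A) : MB p A a := by
  classical
  intro s t F
  have hA0 : 0 ≤ A := by simpa using hA ∅
  have hrow : ∀ k, ∑ l ∈ s, ‖a (k - l)‖ ≤ A := by
    intro k
    have : ∑ l ∈ s, ‖a (k - l)‖ = ∑ n ∈ s.image (fun l => k - l), ‖a n‖ := by
      rw [sum_image]
      intro x _ y _ h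
      simpa using h
    rw [this]
    exact hA _
  have hcol : ∀ l, ∑ k ∈ t, ‖a (k - l)‖ ≤ A := by
    intro l
    have : ∑ k ∈ t, ‖a (k - l)‖ = ∑ n ∈ t.image (fun k => k - l), ‖a n‖ := by
      rw [sum_image]
      intro x _ y _ h
      simpa using h
    rw [this]
    exact hA _
  calc ∑ k ∈ t, ‖∑ l ∈ s, a (k - l) * F l‖ ^ p
      ≤ ∑ k ∈ t, A ^ (p - 1) * ∑ l ∈ s, ‖a (k - l)‖ * ‖F l‖ ^ p := by
        apply sum_le_sum
        intro k _
        calc ‖∑ l ∈ s, a (k - l) * F l‖ ^ p ≤ (∑ l ∈ s, ‖a (k - l)‖ * ‖F l‖) ^ p := by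
              apply Real.rpow_le_rpow (norm_nonneg _) _ (by linarith)
              refine (norm_sum_le _ _).trans (le_of_eq ?_)
              exact sum_congr rfl (fun l _ => norm_mul _ _)
          _ ≤ _ := wpow s hp _ _ (fun _ _ => norm_nonneg _) (fun _ _ => norm_nonneg _)
          _ ≤ A ^ (p - 1) * ∑ l ∈ s, ‖a (k - l)‖ * ‖F l‖ ^ p := by
              apply mul_le_mul_of_nonneg_right
              · exact Real.rpow_le_rpow (sum_nonneg fun _ _ => norm_nonneg _) (hrow k) (by linarith)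
              · exact sum_nonneg fun _ _ => mul_nonneg (norm_nonneg _)
                  (Real.rpow_nonneg (norm_nonneg _) _)
    _ = A ^ (p - 1) * ∑ l ∈ s, (∑ k ∈ t, ‖a (k - l)‖) * ‖F l‖ ^ p := by
        rw [← mul_sum, sum_comm]
        congr 1
        exact sum_congr rfl (fun l _ => by rw [sum_mul])
    _ ≤ A ^ (p - 1) * ∑ l ∈ s, A * ‖F l‖ ^ p := by
        apply mul_le_mul_of_nonneg_left
        · apply sum_le_sum
          intro l _
          exact mul_le_mul_of_nonneg_right (hcol l) (Real.rpow_nonneg (norm_nonneg _) _)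
        · exact Real.rpow_nonneg hA0 _
    _ = A ^ p * ∑ l ∈ s, ‖F l‖ ^ p := by
        rw [← mul_sum, ← mul_assoc]
        congr 1
        rcases hA0.eq_or_lt with h | h
        · rw [← h, mul_zero, Real.zero_rpow (by linarith)]
        · rw [Real.rpow_sub_one h.ne']
          field_simp

/-- Fejer weights -/
noncomputable def cf (M : ℕ) (n : ℤ) : ℝ := (((M : ℤ) - |n|).toNat : ℝ) / M

theorem cf_nonneg (M : ℕ) (n : ℤ) : 0 ≤ cf M n := by unfold cf; positivity

theorem cf_le_one (M : ℕ) (n : ℤ) : cf M n ≤ 1 := by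
  unfold cf
  apply div_le_one_of_le₀ _ (by positivity)
  have : ((M : ℤ) - |n|).toNat ≤ M := by
    have := abs_nonneg n
    omega
  exact_mod_cast this

theorem cf_eq_zero (M : ℕ) (n : ℤ) (h : (M : ℤ) ≤ |n|) : cf M n = 0 := by
  unfold cf
  have : ((M : ℤ) - |n|).toNat = 0 := by omega
  rw [this]; simp

theorem cf_tendsto (n : ℤ) : Filter.Tendsto (fun M : ℕ => cf M n) Filter.atTop (nhds 1) := by
  have h1 : Filter.Tendsto (fun M : ℕ => 1 - (|n| : ℝ) / M) Filter.atTop (nhds (1 - 0)) := by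
    apply Filter.Tendsto.sub tendsto_const_nhds
    exact tendsto_const_div_atTop_nhds_zero_nat _
  rw [sub_zero] at h1
  apply h1.congr'
  filter_upwards [Filter.eventually_gt_atTop n.natAbs] with M hM
  unfold cf
  have hM0 : (0 : ℝ) < M := by
    have : 0 < M := by omega
    exact_mod_cast this
  have h2 : ((((M : ℤ) - |n|).toNat : ℕ) : ℤ) = (M : ℤ) - |n| := by
    apply Int.toNat_of_nonneg
    have := Int.abs_eq_natAbs n
    omega
  have h3 : ((((M : ℤ) - |n|).toNat : ℕ) : ℝ) = (M : ℝ) - |(n : ℝ)| := by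
    have := congrArg (Int.cast : ℤ → ℝ) h2
    push_cast at this
    exact this
  rw [h3]
  field_simp

theorem card_inter (M : ℕ) (k l : ℤ) :
    (Ioc (k - M) k ∩ Ioc (l - M) l).card = ((M : ℤ) - |k - l|).toNat := by
  rw [Finset.Ioc_inter_Ioc, Int.card_Ioc]
  congr 1
  rcases le_total k l with h | h
  · have e1 : (k - (M : ℤ)) ⊔ (l - M) = l - M := sup_eq_right.mpr (by omega)
    have e2 : k ⊓ l = k := inf_eq_left.mpr h
    rw [e1, e2, abs_of_nonpos (by omega)]; ring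
  · have e1 : (k - (M : ℤ)) ⊔ (l - M) = k - M := sup_eq_left.mpr (by omega)
    have e2 : k ⊓ l = l := inf_eq_right.mpr h
    rw [e1, e2, abs_of_nonneg (by omega)]; ring

theorem MB.fejer {p C : ℝ} (hp : 1 ≤ p) {a : ℤ → ℂ} (ha : MB p C a) (hC : 0 ≤ C)
    (M : ℕ) (hM : 0 < M) :
    MB p C (fun n => (cf M n : ℂ) * a n) := by
  classical
  intro s t F
  have hMR : (0 : ℝ) < M := by exact_mod_cast hM
  set J : Finset ℤ := t.biUnion (fun k => Ioc (k - M) k) with hJ
  -- the pieces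
  let z : ℤ → ℤ → ℂ := fun j k => ∑ l ∈ s.filter (fun l => j ∈ Ioc (l - (M : ℤ)) l), a (k - l) * F l
  have hy : ∀ k, ∑ l ∈ s, (cf M (k - l) : ℂ) * a (k - l) * F l
      = ∑ j ∈ Ioc (k - (M : ℤ)) k, ((M : ℂ)⁻¹) * z j k := by
    intro k
    simp only [z, mul_sum, sum_filter]
    rw [sum_comm]
    apply sum_congr rfl
    intro l _
    have : ∑ j ∈ Ioc (k - (M : ℤ)) k, (if j ∈ Ioc (l - (M : ℤ)) l then (M : ℂ)⁻¹ * (a (k - l) * F l) else 0)
        = ((Ioc (k - (M : ℤ)) k ∩ Ioc (l - M) l).card : ℂ) * ((M : ℂ)⁻¹ * (a (k - l) * F l)) := by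
      rw [← sum_filter, sum_const, nsmul_eq_mul, filter_mem_eq_inter]
    have h2 : ∑ j ∈ Ioc (k - (M : ℤ)) k, (M : ℂ)⁻¹ * (if j ∈ Ioc (l - (M : ℤ)) l then (a (k - l) * F l) else 0)
       = ∑ j ∈ Ioc (k - (M : ℤ)) k, (if j ∈ Ioc (l - (M : ℤ)) l then (M : ℂ)⁻¹ * (a (k - l) * F l) else 0) := by
      apply sum_congr rfl
      intro j _
      split_ifs <;> simp
    rw [h2, this, card_inter]
    unfold cf
    push_cast
    field_simp
  have hk : ∀ k, ‖∑ l ∈ s, (cf M (k - l) : ℂ) * a (k - l) * F l‖ ^ p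
      ≤ ∑ j ∈ Ioc (k - (M : ℤ)) k, (M : ℝ)⁻¹ * ‖z j k‖ ^ p := by
    intro k
    rw [hy k]
    calc ‖∑ j ∈ Ioc (k - (M : ℤ)) k, ((M : ℂ)⁻¹) * z j k‖ ^ p
        ≤ (∑ j ∈ Ioc (k - (M : ℤ)) k, (M : ℝ)⁻¹ * ‖z j k‖) ^ p := by
          apply Real.rpow_le_rpow (norm_nonneg _) _ (by linarith)
          refine (norm_sum_le _ _).trans (le_of_eq ?_)
          refine sum_congr rfl (fun l _ => ?_)
          rw [norm_mul, norm_inv, Complex.norm_natCast]
      _ ≤ _ := wpow _ hp _ _ (fun _ _ => by positivity) (fun _ _ => norm_nonneg _)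
      _ = _ := by
          have : ∑ j ∈ Ioc (k - (M : ℤ)) k, (M : ℝ)⁻¹ = 1 := by
            rw [sum_const, nsmul_eq_mul, Int.card_Ioc]
            have : (k - (k - (M : ℤ))).toNat = M := by omega
            rw [this]
            field_simp
          rw [this, Real.one_rpow, one_mul]
  calc ∑ k ∈ t, ‖∑ l ∈ s, (cf M (k - l) : ℂ) * a (k - l) * F l‖ ^ p
      ≤ ∑ k ∈ t, ∑ j ∈ Ioc (k - (M : ℤ)) k, (M : ℝ)⁻¹ * ‖z j k‖ ^ p :=
        sum_le_sum (fun k _ => hk k)
    _ = ∑ k ∈ t, ∑ j ∈ J, (if j ∈ Ioc (k - (M : ℤ)) k then (M : ℝ)⁻¹ * ‖z j k‖ ^ p else 0) := by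
        apply sum_congr rfl
        intro k hk
        rw [← sum_filter, filter_mem_eq_inter]
        congr 1
        symm
        apply inter_eq_right.mpr
        exact subset_biUnion_of_mem (fun k => Ioc (k - (M : ℤ)) k) hk
    _ = ∑ j ∈ J, (M : ℝ)⁻¹ * ∑ k ∈ t.filter (fun k => j ∈ Ioc (k - (M : ℤ)) k), ‖z j k‖ ^ p := by
        rw [sum_comm]
        apply sum_congr rfl
        intro j _
        rw [mul_sum, sum_filter]
    _ ≤ ∑ j ∈ J, (M : ℝ)⁻¹ * (C ^ p * ∑ l ∈ s.filter (fun l => j ∈ Ioc (l - (M : ℤ)) l), ‖F l‖ ^ p) := by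
        apply sum_le_sum
        intro j _
        apply mul_le_mul_of_nonneg_left _ (by positivity)
        exact ha (s.filter (fun l => j ∈ Ioc (l - (M : ℤ)) l))
          (t.filter (fun k => j ∈ Ioc (k - (M : ℤ)) k)) F
    _ = C ^ p * ∑ l ∈ s, ((M : ℝ)⁻¹ * ((J ∩ Ioc (l - (M : ℤ)) l).card : ℝ)) * ‖F l‖ ^ p := by
        rw [mul_sum]
        simp only [mul_sum, sum_filter]
        rw [sum_comm]
        apply sum_congr rfl
        intro l _
        rw [← filter_mem_eq_inter, card_filter]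
        push_cast
        rw [mul_sum, sum_mul, mul_sum]
        apply sum_congr rfl
        intro j _
        split_ifs <;> simp
        ring
    _ ≤ C ^ p * ∑ l ∈ s, ‖F l‖ ^ p := by
        apply mul_le_mul_of_nonneg_left _ (Real.rpow_nonneg hC _)
        apply sum_le_sum
        intro l _
        have h1 : ((J ∩ Ioc (l - (M : ℤ)) l).card : ℝ) ≤ M := by
          have : (J ∩ Ioc (l - (M : ℤ)) l).card ≤ (Ioc (l - (M : ℤ)) l).card :=
            card_le_card inter_subset_right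
          have h2 : (Ioc (l - (M : ℤ)) l).card = M := by
            rw [Int.card_Ioc]; omega
          rw [h2] at this
          exact_mod_cast this
        have h3 : (M : ℝ)⁻¹ * ((J ∩ Ioc (l - (M : ℤ)) l).card : ℝ) ≤ 1 := by
          rw [inv_mul_le_iff₀ hMR]; simpa using h1
        calc _ ≤ 1 * ‖F l‖ ^ p :=
              mul_le_mul_of_nonneg_right h3 (Real.rpow_nonneg (norm_nonneg _) _)
          _ = _ := one_mul _

end Pool.Agent.Helper576.LpMult
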