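import Pool.Agent.Helper576.MB2

namespace Pool.Agent.Helper576.LpMult

open Finset

theorem MB.dil {p C : ℝ} {d : ℤ → ℂ} (hd : MB p C d) (N : ℕ) (hN : 0 < N)
    (k0 : ℤ) (a : ℤ → ℂ) (h1 : ∀ m, a (k0 + N * m) = d m)
    (h2 : ∀ n, ¬ (N : ℤ) ∣ (n - k0) → a n = 0) (hp : 0 < p) : MB p C a := by
  classical
  have hNz : (0 : ℤ) < N := by exact_mod_cast hN
  intro s t F
  have key : ∀ ρ : ℤ, ∑ k ∈ t.filter (fun k => (k - k0) % N = ρ), ‖∑ l ∈ s, a (k - l) * F l‖ ^ p
      ≤ C ^ p * ∑ l ∈ s.filter (fun l => l % N = ρ), ‖F l‖ ^ p := by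
    intro ρ
    set tρ := t.filter (fun k => (k - k0) % N = ρ) with htρ
    set sρ := s.filter (fun l => l % N = ρ) with hsρ
    have injs : Set.InjOn (fun l : ℤ => l / (N : ℤ)) (sρ : Set ℤ) := by
      intro x hx y hy hxy
      have hx' : x % N = ρ := (mem_filter.mp hx).2
      have hy' : y % N = ρ := (mem_filter.mp hy).2
      simp only at hxy
      rw [← Int.mul_ediv_add_emod x N, ← Int.mul_ediv_add_emod y N, hx', hy', hxy]
    have injt : Set.InjOn (fun l : ℤ => (l - k0) / (N : ℤ)) (tρ : Set ℤ) := by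
      intro x hx y hy hxy
      have hx' : (x - k0) % N = ρ := (mem_filter.mp hx).2
      have hy' : (y - k0) % N = ρ := (mem_filter.mp hy).2
      simp only at hxy
      have : x - k0 = y - k0 := by
        rw [← Int.mul_ediv_add_emod (x - k0) N, ← Int.mul_ediv_add_emod (y - k0) N, hx', hy', hxy]
      linarith
    have h := hd (sρ.image (fun l : ℤ => l / (N : ℤ))) (tρ.image (fun l : ℤ => (l - k0) / (N : ℤ)))
      (fun l' => F (N * l' + ρ))
    rw [sum_image injt, sum_image injs] at h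
    have e1 : ∀ l ∈ sρ, ‖F ((N : ℤ) * (l / (N : ℤ)) + ρ)‖ ^ p = ‖F l‖ ^ p := by
      intro l hl
      have hl' : l % N = ρ := (mem_filter.mp hl).2
      rw [← hl', Int.mul_ediv_add_emod]
    rw [sum_congr rfl e1] at h
    refine le_trans (le_of_eq ?_) h
    apply sum_congr rfl
    intro k hk
    have hk' : (k - k0) % N = ρ := (mem_filter.mp hk).2
    congr 2
    rw [sum_image injs]
    have e2 : ∑ l ∈ s, a (k - l) * F l = ∑ l ∈ sρ, a (k - l) * F l := by
      rw [hsρ]
      symm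
      apply sum_subset (filter_subset _ _)
      intro l hl hl2
      have hne : l % N ≠ ρ := by
        intro h; exact hl2 (mem_filter.mpr ⟨hl, h⟩)
      have : a (k - l) = 0 := by
        apply h2
        intro hdiv
        apply hne
        have : (k - l - k0) = (k - k0) - l := by ring
        rw [this] at hdiv
        have := Int.emod_emod_of_dvd
        have h3 : (k - k0) % N = l % N := by
          exact Int.ModEq.symm ((Int.modEq_iff_dvd).mpr hdiv)
        rw [← h3, hk']
      rw [this, zero_mul]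
    rw [e2]
    apply sum_congr rfl
    intro l hl
    have hl' : l % N = ρ := (mem_filter.mp hl).2
    have e3 : k - l = k0 + N * ((k - k0) / N - l / N) := by
      have a1 := Int.mul_ediv_add_emod (k - k0) N
      have a2 := Int.mul_ediv_add_emod l N
      rw [hk'] at a1
      rw [hl'] at a2
      have : (N : ℤ) * ((k - k0) / N - l / N) = (N : ℤ) * ((k - k0) / N) - N * (l / N) := by ring
      rw [this]
      linarith
    have e4 : (N : ℤ) * (l / N) + ρ = l := by
      rw [← hl', Int.mul_ediv_add_emod]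
    rw [e4, ← h1, ← e3]
  have m1 : ∀ k ∈ t, (k - k0) % (N : ℤ) ∈ Finset.Ico (0 : ℤ) N := by
    intro k _
    rw [Finset.mem_Ico]
    exact ⟨Int.emod_nonneg _ hNz.ne', Int.emod_lt_of_pos _ hNz⟩
  have m2 : ∀ l ∈ s, l % (N : ℤ) ∈ Finset.Ico (0 : ℤ) N := by
    intro k _
    rw [Finset.mem_Ico]
    exact ⟨Int.emod_nonneg _ hNz.ne', Int.emod_lt_of_pos _ hNz⟩
  rw [← sum_fiberwise_of_maps_to m1, ← sum_fiberwise_of_maps_to m2, mul_sum]
  exact sum_le_sum (fun ρ _ => key ρ)

/-- duality -/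
theorem MB.dual {p q C : ℝ} (hpq : p.HolderConjugate q) (hC : 0 ≤ C) {b : ℤ → ℂ}
    (hb : MB p C b) : MB q C (fun n => b (-n)) := by
  classical
  have hp0 : 0 < p := hpq.pos
  have hq0 : 0 < q := hpq.symm.pos
  rw [MB_iff hp0 hC] at hb
  rw [MB_iff hq0 hC]
  intro s t F
  set y : ℤ → ℂ := fun k => ∑ l ∈ s, b (-(k - l)) * F l with hy
  set G : ℤ → ℂ := fun k => (starRingEnd ℂ) (y k) * ((‖y k‖ ^ (q - 2) : ℝ) : ℂ) with hG
  have hyG : ∀ k, y k * G k = ((‖y k‖ ^ q : ℝ) : ℂ) := by
    intro k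
    by_cases h0 : y k = 0
    · simp [hG, h0, Real.zero_rpow hq0.ne']
    · have hpos : 0 < ‖y k‖ := norm_pos_iff.mpr h0
      simp only [hG]
      rw [← mul_assoc, Complex.mul_conj, Complex.normSq_eq_norm_sq, ← Complex.ofReal_mul]
      congr 1
      rw [← Real.rpow_natCast, ← Real.rpow_add hpos]
      congr 1
      push_cast
      ring
  have hGn : ∀ k, ‖G k‖ ^ p = ‖y k‖ ^ q := by
    intro k
    by_cases h0 : y k = 0
    · simp [hG, h0, Real.zero_rpow hq0.ne', Real.zero_rpow hp0.ne']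
    · have hpos : 0 < ‖y k‖ := norm_pos_iff.mpr h0
      simp only [hG]
      rw [norm_mul, RCLike.norm_conj, Complex.norm_real, Real.norm_of_nonneg (Real.rpow_nonneg hpos.le _)]
      rw [← Real.rpow_one_add' hpos.le, ← Real.rpow_mul hpos.le]
      · congr 1
        have := hpq.sub_one_mul_conj
        have h2 := hpq.symm.sub_one_mul_conj
        linarith
      · intro h
        have h2 := hpq.symm.lt
        linarith
  have hsum : ∑ k ∈ t, ‖y k‖ ^ q ≤ N q s F * (C * N p t G) := by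
    have e1 : ((∑ k ∈ t, ‖y k‖ ^ q : ℝ) : ℂ) = ∑ l ∈ s, F l * ∑ k ∈ t, b (l - k) * G k := by
      push_cast
      calc ∑ k ∈ t, (((‖y k‖ ^ q : ℝ)) : ℂ) = ∑ k ∈ t, y k * G k :=
            sum_congr rfl (fun k _ => (hyG k).symm)
        _ = ∑ k ∈ t, ∑ l ∈ s, F l * (b (l - k) * G k) := by
            apply sum_congr rfl
            intro k _
            simp only [hy]
            rw [sum_mul]
            apply sum_congr rfl
            intro l _
            have : -(k - l) = l - k := by ring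
            rw [this]; ring
        _ = _ := by
            rw [sum_comm]
            exact sum_congr rfl (fun l _ => by rw [mul_sum])
    have e2 : ∑ k ∈ t, ‖y k‖ ^ q = ‖((∑ k ∈ t, ‖y k‖ ^ q : ℝ) : ℂ)‖ := by
      rw [Complex.norm_real, Real.norm_of_nonneg]
      exact sum_nonneg fun _ _ => Real.rpow_nonneg (norm_nonneg _) _
    rw [e2, e1]
    calc ‖∑ l ∈ s, F l * ∑ k ∈ t, b (l - k) * G k‖
        ≤ ∑ l ∈ s, ‖F l‖ * ‖∑ k ∈ t, b (l - k) * G k‖ := by
          refine (norm_sum_le _ _).trans (le_of_eq ?_)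
          exact sum_congr rfl (fun l _ => norm_mul _ _)
      _ ≤ (∑ l ∈ s, ‖F l‖ ^ q) ^ (1 / q) * (∑ l ∈ s, ‖∑ k ∈ t, b (l - k) * G k‖ ^ p) ^ (1 / p) :=
          Real.inner_le_Lp_mul_Lq_of_nonneg s hpq.symm (fun _ _ => norm_nonneg _)
            (fun _ _ => norm_nonneg _)
      _ ≤ _ := by
          apply mul_le_mul_of_nonneg_left _ (N_nonneg _ _ _)
          exact hb t s G
  have hNG : N p t G = (∑ k ∈ t, ‖y k‖ ^ q) ^ (1 / p) := by
    unfold N
    congr 1
    exact sum_congr rfl (fun k _ => hGn k)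
  rw [hNG] at hsum
  set Y := ∑ k ∈ t, ‖y k‖ ^ q with hY
  have hY0 : 0 ≤ Y := sum_nonneg fun _ _ => Real.rpow_nonneg (norm_nonneg _) _
  change Y ^ (1 / q) ≤ C * N q s F
  rcases hY0.eq_or_lt with h | h
  · rw [← h, Real.zero_rpow (by simpa using hq0.ne')]
    exact mul_nonneg hC (N_nonneg _ _ _)
  · have hpos : 0 < Y ^ (1 / p) := Real.rpow_pos_of_pos h _
    have : Y ^ (1 / q) * Y ^ (1 / p) = Y := by
      rw [← Real.rpow_add h]
      have := hpq.symm.inv_add_inv_eq_one
      rw [one_div, one_div, this, Real.rpow_one]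
    have h3 : Y ^ (1 / q) * Y ^ (1 / p) ≤ (C * N q s F) * Y ^ (1 / p) := by
      rw [this]
      calc Y ≤ _ := hsum
        _ = _ := by ring
    exact le_of_mul_le_mul_right h3 hpos

end Pool.Agent.Helper576.LpMult
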