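import Pool.Agent.Helper576.Bridge

namespace Pool.Agent.Helper576.LpMult

open Finset Complex Filter Topology MeasureTheory LpDefs
open scoped ENNReal

theorem seqNorm_top_le {a : ℤ → ℂ} {c : ℝ≥0∞} (h : ∀ k, ‖a k‖ₑ ≤ c) : seqNorm ∞ a ≤ c := by
  unfold seqNorm
  rw [eLpNorm_exponent_top]
  exact essSup_le_of_ae_le c (Eventually.of_forall h)

theorem le_seqNorm_top (a : ℤ → ℂ) (k : ℤ) : ‖a k‖ₑ ≤ seqNorm ∞ a := by
  unfold seqNorm
  rw [eLpNorm_exponent_top]
  have h : ∀ᵐ j ∂(Measure.count : Measure ℤ), ‖a j‖ₑ ≤ eLpNormEssSup a Measure.count :=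
    ae_le_eLpNormEssSup
  rw [Measure.ae_count_iff] at h
  exact h k

theorem seqNorm_one (a : ℤ → ℂ) : seqNorm 1 a = ∑' k, ‖a k‖ₑ := by
  rw [seqNorm_eq le_rfl ENNReal.one_ne_top]
  simp

theorem coef_ee_mul (F : ℤ →₀ ℂ) (k : ℤ) :
    fourierCoeff (fun x => ee 1 x * trigPoly F x) k = F (k - 1) := by
  classical
  rw [mult_coef (integrable_ee 1)]
  simp only [fc_ee]
  have h : ∀ l ∈ F.support, (if k - l = 1 then (1 : ℂ) else 0) * F l = if l = k - 1 then F l else 0 := by
    intro l _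
    by_cases hl : l = k - 1
    · rw [if_pos (by omega), if_pos hl, one_mul]
    · rw [if_neg (by omega), if_neg hl, zero_mul]
  rw [sum_congr rfl h, sum_ite_eq']
  split_ifs with h1
  · rfl
  · exact (Finsupp.notMem_support_iff.mp h1).symm

theorem ee_mem_Mult {p : ℝ≥0∞} (hp : p = 1 ∨ p = ∞) : ee 1 ∈ Mult p := by
  refine ⟨integrable_ee 1, ?_⟩
  apply lt_of_le_of_lt _ ENNReal.one_lt_top
  apply sInf_le
  intro F
  rw [one_mul]
  have h : (fourierCoeff fun x => ee 1 x * trigPoly F x) = fun k => F (k - 1) := by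
    ext k; exact coef_ee_mul F k
  rw [h]
  rcases hp with rfl | rfl
  · rw [seqNorm_one, seqNorm_one]
    exact ((Equiv.subRight (1 : ℤ)).tsum_eq (fun k => ‖F k‖ₑ)).le
  · apply seqNorm_top_le
    intro k
    exact le_seqNorm_top (fun k => F k) (k - 1)

theorem ee_mem_PC : ee 1 ∈ PC := by
  refine ⟨ee_aesm 1, ?_⟩
  intro ε hε
  obtain ⟨_, h⟩ := Ap.ee_mem (p := 2) (by norm_num) 1
  obtain ⟨s, hs, _, _, hx⟩ := h ε hε
  exact ⟨s, hs, eLpNorm_top_of_ae (Eventually.of_forall hx)⟩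

theorem coef_bound {p : ℝ≥0∞} (hp : p = 1 ∨ p = ∞) {φ : UnitAddCircle → ℂ} (hφ : Integrable φ μT)
    (hM : multNorm p φ < ∞) : ∃ C : ℝ, ∀ t : Finset ℤ, ∑ k ∈ t, ‖fourierCoeff φ k‖ ≤ C := by
  classical
  unfold multNorm at hM
  rw [sInf_lt_iff] at hM
  obtain ⟨C, hC, hCtop⟩ := hM
  refine ⟨C.toReal, ?_⟩
  intro t
  have key : ENNReal.ofReal (∑ k ∈ t, ‖fourierCoeff φ k‖) ≤ C := by
    rcases hp with rfl | rfl
    · have h := hC (ext0 {0} (fun _ => 1))
      rw [seqNorm_one, seqNorm_one] at h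
      simp only [mult_coef hφ, ext0_sum, sum_singleton, sub_zero, mul_one] at h
      have h3 : ∑' l, ‖ext0 {0} (fun _ => (1 : ℂ)) l‖ₑ = 1 := by
        rw [tsum_eq_sum (s := {0})]
        · rw [sum_singleton, ext0_apply_mem (mem_singleton_self _)]; simp
        · intro l hl
          rw [ext0_apply_notMem hl, enorm_zero]
      rw [h3, mul_one] at h
      rw [ENNReal.ofReal_sum_of_nonneg (fun k _ => norm_nonneg _)]
      simp only [ofReal_norm]
      exact (ENNReal.sum_le_tsum t).trans h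
    · set G : ℤ → ℂ := fun l => (starRingEnd ℂ) (fourierCoeff φ (-l)) / ‖fourierCoeff φ (-l)‖ with hG
      set s : Finset ℤ := t.image (fun k => -k) with hs
      have h := hC (ext0 s G)
      have h1 : seqNorm ∞ (ext0 s G) ≤ 1 := by
        apply seqNorm_top_le
        intro l
        by_cases hl : l ∈ s
        · rw [ext0_apply_mem hl, ← ofReal_norm]
          rw [← ENNReal.ofReal_one]
          apply ENNReal.ofReal_le_ofReal
          simp only [hG]
          rw [norm_div, RCLike.norm_conj, Complex.norm_real, norm_norm]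
          exact div_self_le_one _
        · rw [ext0_apply_notMem hl, enorm_zero]; exact bot_le
      have h2 := (le_seqNorm_top _ 0).trans (h.trans (mul_le_mul_of_nonneg_left h1 bot_le))
      rw [mul_one, mult_coef hφ, ext0_sum] at h2
      have h3 : ∑ l ∈ s, fourierCoeff φ (0 - l) * G l = ((∑ k ∈ t, ‖fourierCoeff φ k‖ : ℝ) : ℂ) := by
        rw [hs, sum_image (by intro x _ y _ h; simpa using h)]
        push_cast
        apply sum_congr rfl; intro k _
        simp only [hG]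
        rw [zero_sub, neg_neg]
        by_cases h0 : fourierCoeff φ k = 0
        · simp [h0]
        · have hn : (‖fourierCoeff φ k‖ : ℂ) ≠ 0 := by
            rw [Ne, Complex.ofReal_eq_zero, norm_eq_zero]; exact h0
          rw [← mul_div_assoc, Complex.mul_conj, Complex.normSq_eq_norm_sq]
          push_cast
          field_simp
      rw [h3, ← ofReal_norm, Complex.norm_real, Real.norm_of_nonneg
        (sum_nonneg fun _ _ => norm_nonneg _)] at h2
      exact h2
  rw [← ENNReal.ofReal_toReal hCtop.ne] at key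
  exact (ENNReal.ofReal_le_ofReal_iff ENNReal.toReal_nonneg).mp key

/-- exponential sums attached to the jumps -/
noncomputable def AA (J : Finset UnitAddCircle) (a : UnitAddCircle → ℂ) (n : ℤ) : ℂ :=
  ∑ t ∈ J, a t * ee (-n) t

theorem mean_AA (J : Finset UnitAddCircle) (a : UnitAddCircle → ℂ) :
    Tendsto (fun R : ℕ => ((R : ℂ))⁻¹ * ∑ σ ∈ range R, AA J a σ * (starRingEnd ℂ) (AA J a σ)) atTop
      (𝓝 (∑ t ∈ J, a t * (starRingEnd ℂ) (a t))) := by
  classical
  have h1 : ∀ R : ℕ, ((R : ℂ))⁻¹ * ∑ σ ∈ range R, AA J a σ * (starRingEnd ℂ) (AA J a σ)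
      = ∑ t ∈ J, ∑ t' ∈ J, a t * (starRingEnd ℂ) (a t') *
          ((R : ℂ)⁻¹ * ∑ σ ∈ range R, ee (σ : ℤ) (t' - t)) := by
    intro R
    have e1 : ∀ σ ∈ range R, AA J a σ * (starRingEnd ℂ) (AA J a σ)
        = ∑ t ∈ J, ∑ t' ∈ J, a t * (starRingEnd ℂ) (a t') * ee (σ : ℤ) (t' - t) := by
      intro σ _
      unfold AA
      rw [map_sum, sum_mul_sum]
      apply sum_congr rfl; intro t _
      apply sum_congr rfl; intro t' _
      rw [map_mul, conj_ee, neg_neg, ee_sub_right, ee_neg_left]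
      ring
    rw [sum_congr rfl e1, mul_sum]
    have e2 : ∀ σ ∈ range R, (R : ℂ)⁻¹ * ∑ t ∈ J, ∑ t' ∈ J,
        a t * (starRingEnd ℂ) (a t') * ee (σ : ℤ) (t' - t)
        = ∑ t ∈ J, ∑ t' ∈ J, a t * (starRingEnd ℂ) (a t') * ((R : ℂ)⁻¹ * ee (σ : ℤ) (t' - t)) := by
      intro σ _
      rw [mul_sum]
      apply sum_congr rfl; intro t _
      rw [mul_sum]
      apply sum_congr rfl; intro t' _
      ring
    rw [sum_congr rfl e2, sum_comm]
    apply sum_congr rfl; intro t _
    rw [sum_comm]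
    apply sum_congr rfl; intro t' _
    rw [← mul_sum, ← mul_sum]
  have h2 : (∑ t ∈ J, a t * (starRingEnd ℂ) (a t))
      = ∑ t ∈ J, ∑ t' ∈ J, a t * (starRingEnd ℂ) (a t') * (if t' - t = 0 then 1 else 0) := by
    apply sum_congr rfl; intro t ht
    simp only [sub_eq_zero, mul_ite, mul_one, mul_zero]
    rw [sum_ite_eq', if_pos ht]
  rw [h2]
  refine Tendsto.congr (fun R => (h1 R).symm) ?_
  apply tendsto_finsetSum; intro t _
  apply tendsto_finsetSum; intro t' _
  exact Tendsto.const_mul _ (mean_ee _)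

/-- a step function with absolutely summable Fourier coefficients has no jumps -/
theorem no_jump {c : ℂ} {J : Finset UnitAddCircle} {a : UnitAddCircle → ℂ} {C : ℝ}
    (hC : ∀ t : Finset ℤ, ∑ k ∈ t, ‖fourierCoeff (stp c J a) k‖ ≤ C) : ∀ t ∈ J, a t = 0 := by
  classical
  set b : ℕ → ℝ := fun σ => ‖fourierCoeff (stp c J a) (σ : ℤ)‖ with hb
  have hbs : Summable b := by
    apply summable_of_sum_le (c := C) (fun _ => norm_nonneg _)
    intro u
    have := hC (u.image (fun k : ℕ => (k : ℤ)))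
    rw [sum_image (by intro x _ y _ h; simpa using h)] at this
    exact this
  set B : ℝ := ∑ t ∈ J, ‖a t‖ with hB
  have hB0 : 0 ≤ B := sum_nonneg fun _ _ => norm_nonneg _
  have hAB : ∀ n, ‖AA J a n‖ ≤ B := by
    intro n
    unfold AA
    refine (norm_sum_le _ _).trans (le_of_eq (sum_congr rfl fun t _ => ?_))
    rw [norm_mul, norm_ee, mul_one]
  have hpi := Real.pi_pos
  have hA : ∀ σ : ℕ, σ ≠ 0 → ‖AA J a σ‖ = 2 * Real.pi * (σ * b σ) := by
    intro σ hσ
    have hσz : (σ : ℤ) ≠ 0 := by exact_mod_cast hσ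
    have hσR : (0 : ℝ) < σ := by exact_mod_cast Nat.pos_of_ne_zero hσ
    have h1 : fourierCoeff (stp c J a) (σ : ℤ) = AA J a σ * ((2 * Real.pi * I)⁻¹ * (1 / (σ : ℂ))) := by
      rw [fc_stp, if_neg hσz, mul_zero, zero_add, fc_s0]
      unfold AA hk
      rw [sum_mul]
      apply sum_congr rfl; intro t _
      push_cast; ring
    have h2 : b σ = ‖AA J a σ‖ * ((2 * Real.pi)⁻¹ * (1 / σ)) := by
      simp only [hb]
      rw [h1, norm_mul, norm_mul, norm_inv, norm_mul, norm_mul, Complex.norm_real, Complex.norm_I,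
        norm_div, Complex.norm_natCast, Real.norm_eq_abs, abs_of_pos hpi]
      simp
    rw [h2]; field_simp
  -- the Cesaro means of |A|^2 tend to zero
  have hdom : Tendsto (fun R : ℕ => ∑' σ : ℕ, (if σ < R then (σ : ℝ) / R else 0) * b σ) atTop
      (𝓝 (∑' σ : ℕ, (0 : ℝ) * b σ)) := by
    apply tendsto_tsum_of_dominated_convergence (bound := b) hbs
    · intro σ
      apply Tendsto.mul_const
      have h1 : Tendsto (fun R : ℕ => (σ : ℝ) / R) atTop (𝓝 0) := tendsto_const_div_atTop_nhds_zero_nat _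
      apply squeeze_zero _ _ h1
      · intro R; split_ifs <;> positivity
      · intro R; split_ifs <;> [exact le_rfl; positivity]
    · refine Eventually.of_forall fun R σ => ?_
      rw [norm_mul, Real.norm_of_nonneg (norm_nonneg _ : 0 ≤ b σ)]
      have : ‖(if σ < R then (σ : ℝ) / R else 0)‖ ≤ 1 := by
        split_ifs with h
        · have hR : (0 : ℝ) < R := by
            have : 0 < R := by omega
            exact_mod_cast this
          rw [Real.norm_of_nonneg (by positivity), div_le_one hR]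
          exact_mod_cast h.le
        · simp
      calc _ ≤ 1 * b σ := mul_le_mul_of_nonneg_right this (norm_nonneg _)
        _ = _ := one_mul _
  simp only [zero_mul, tsum_zero] at hdom
  have hce : Tendsto (fun R : ℕ => ((R : ℝ))⁻¹ * ∑ σ ∈ range R, ‖AA J a (σ : ℤ)‖ ^ 2) atTop (𝓝 0) := by
    have h1 : Tendsto (fun R : ℕ => B ^ 2 / (R : ℝ)
        + B * (2 * Real.pi) * ∑' σ : ℕ, (if σ < R then (σ : ℝ) / R else 0) * b σ) atTop
        (𝓝 (0 + B * (2 * Real.pi) * 0)) :=
      (tendsto_const_div_atTop_nhds_zero_nat _).add (hdom.const_mul _)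
    rw [mul_zero, add_zero] at h1
    refine squeeze_zero (fun R => by positivity) (fun R => ?_) h1
    have h2 : ∑' σ : ℕ, (if σ < R then (σ : ℝ) / R else 0) * b σ = ∑ σ ∈ range R, (σ : ℝ) / R * b σ := by
      rw [tsum_eq_sum (s := range R)]
      · apply sum_congr rfl; intro σ hσ
        rw [if_pos (mem_range.mp hσ)]
      · intro σ hσ
        rw [if_neg (fun h => hσ (mem_range.mpr h)), zero_mul]
    rw [h2]
    have h3 : ∀ σ ∈ range R, ‖AA J a (σ : ℤ)‖ ^ 2 ≤ (if σ = 0 then B ^ 2 else 0)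
        + B * (2 * Real.pi) * (σ * b σ) := by
      intro σ _
      by_cases hσ : σ = 0
      · subst hσ
        simp only [if_true, Nat.cast_zero, zero_mul, mul_zero, add_zero]
        exact pow_le_pow_left₀ (norm_nonneg _) (hAB _) 2
      · rw [if_neg hσ, zero_add, sq]
        calc ‖AA J a (σ : ℤ)‖ * ‖AA J a (σ : ℤ)‖ ≤ B * ‖AA J a (σ : ℤ)‖ :=
              mul_le_mul_of_nonneg_right (hAB _) (norm_nonneg _)
          _ = _ := by rw [hA σ hσ]; ring
    calc ((R : ℝ))⁻¹ * ∑ σ ∈ range R, ‖AA J a (σ : ℤ)‖ ^ 2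
        ≤ ((R : ℝ))⁻¹ * ∑ σ ∈ range R, ((if σ = 0 then B ^ 2 else 0) + B * (2 * Real.pi) * (σ * b σ)) :=
          mul_le_mul_of_nonneg_left (sum_le_sum h3) (by positivity)
      _ = ((R : ℝ))⁻¹ * (∑ σ ∈ range R, (if σ = 0 then B ^ 2 else 0))
          + B * (2 * Real.pi) * ∑ σ ∈ range R, (σ : ℝ) / R * b σ := by
          rw [sum_add_distrib, mul_add]
          congr 1
          rw [mul_sum, mul_sum]
          apply sum_congr rfl; intro σ _
          ring
      _ ≤ B ^ 2 / (R : ℝ) + B * (2 * Real.pi) * ∑ σ ∈ range R, (σ : ℝ) / R * b σ := by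
          gcongr
          rw [sum_ite_eq', inv_mul_eq_div]
          apply div_le_div_of_nonneg_right _ (by positivity)
          split_ifs
          · exact le_rfl
          · positivity
  have hmean := mean_AA J a
  have hre := (Complex.continuous_re.tendsto _).comp hmean
  have e1 : ∀ R : ℕ, (Complex.re ∘ fun R : ℕ => ((R : ℂ))⁻¹ * ∑ σ ∈ range R,
      AA J a σ * (starRingEnd ℂ) (AA J a σ)) R
      = ((R : ℝ))⁻¹ * ∑ σ ∈ range R, ‖AA J a (σ : ℤ)‖ ^ 2 := by
    intro R
    simp only [Function.comp]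
    have : ((R : ℂ))⁻¹ * ∑ σ ∈ range R, AA J a σ * (starRingEnd ℂ) (AA J a σ)
        = ((((R : ℝ))⁻¹ * ∑ σ ∈ range R, ‖AA J a (σ : ℤ)‖ ^ 2 : ℝ) : ℂ) := by
      push_cast
      congr 1
      apply sum_congr rfl; intro σ _
      rw [Complex.mul_conj, Complex.normSq_eq_norm_sq]
      push_cast; rfl
    rw [this, Complex.ofReal_re]
  have hre2 := Tendsto.congr e1 hre
  have h0 := tendsto_nhds_unique hre2 hce
  have h5 : (∑ t ∈ J, a t * (starRingEnd ℂ) (a t)).re = ∑ t ∈ J, ‖a t‖ ^ 2 := by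
    rw [Complex.re_sum]
    apply sum_congr rfl; intro t _
    rw [Complex.mul_conj, Complex.normSq_eq_norm_sq, Complex.ofReal_re]
  rw [h5] at h0
  intro t ht
  have h6 := (sum_eq_zero_iff_of_nonneg (fun t _ => by positivity)).mp h0 t ht
  have h7 : ‖a t‖ = 0 := by
    exact pow_eq_zero_iff (two_ne_zero) |>.mp h6
  exact norm_eq_zero.mp h7

theorem const_of_PCzero {p : ℝ≥0∞} (hp : p = 1 ∨ p = ∞) {g : UnitAddCircle → ℂ} (hg : g ∈ PCzero)
    (hM : multNorm p g < ∞) : ∃ c : ℂ, ∀ᵐ x ∂μT, g x = c := by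
  obtain ⟨c, J, a, h⟩ := rep_PCzero hg
  have hgi : Integrable g μT := (integrable_stp c J a).congr (by
    filter_upwards [h] with x hx
    exact hx.symm)
  obtain ⟨C, hC⟩ := coef_bound hp hgi hM
  have h1 : fourierCoeff g = fourierCoeff (stp c J a) := fourierCoeff_congr_ae h
  rw [h1] at hC
  have h2 := no_jump hC
  refine ⟨c, ?_⟩
  filter_upwards [h] with x hx
  rw [hx]
  unfold stp
  rw [sum_eq_zero (fun t ht => by rw [h2 t ht, zero_mul]), add_zero]

theorem negative_final {p : ℝ≥0∞} (hp : p = 1 ∨ p = ∞) :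
    ¬ ∃ g : ℕ → UnitAddCircle → ℂ, (∀ n, g n ∈ PCzero) ∧ (⨆ n, multNorm p (g n)) < ∞ ∧
      Tendsto (fun n => eLpNorm (g n - ee 1) ∞ haar) atTop (𝓝 0) := by
  rintro ⟨g, hg, hM, hlim⟩
  have h1 : ∀ᶠ n in atTop, eLpNorm (g n - ee 1) ∞ haar < ENNReal.ofReal (1 / 2) :=
    hlim.eventually (gt_mem_nhds (by simp))
  obtain ⟨n, hn⟩ := h1.exists
  obtain ⟨c, hc⟩ := const_of_PCzero hp (hg n) (lt_of_le_of_lt (le_iSup (fun n => multNorm p (g n)) n) hM)
  have h2 := ae_of_eLpNorm_top (by norm_num) hn.le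
  have h3 : ∀ᵐ x ∂μT, ‖(fun y => ee 1 y - c) x‖ ≤ 1 / 2 := by
    filter_upwards [h2, hc] with x hx hcx
    rw [hcx, norm_sub_rev] at hx
    exact hx
  have hi : Integrable (fun y => ee 1 y - c) μT := (integrable_ee 1).sub (integrable_const c)
  have h4 : fourierCoeff (fun y => ee 1 y - c) 1 = 1 := by
    have e : (fun y => ee 1 y - c) = fun y => ee 1 y - c * ee 0 y := by
      ext y; rw [ee_zero_left, mul_one]
    rw [e, fc_sub (integrable_ee 1) ((integrable_ee 0).const_mul c), fc_const_mul, fc_ee, fc_ee]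
    simp
  have h5 : ‖fourierCoeff (fun y => ee 1 y - c) 1‖ ≤ 1 / 2 := by
    rw [fc_apply]
    have h6 := norm_integral_le_of_norm_le (μ := μT) (f := fun x => ee (-1) x * (ee 1 x - c))
      (g := fun _ => (1 / 2 : ℝ)) (integrable_const _) (by
        filter_upwards [h3] with x hx
        rw [norm_mul, norm_ee, one_mul]
        exact hx)
    refine h6.trans ?_
    rw [integral_const]
    simp
  rw [h4, norm_one] at h5
  norm_num at h5

end Pool.Agent.Helper576.LpMult
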