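import Pool.Agent.Helper576.Arcs

namespace Pool.Agent.Helper576.LpMult

open Finset Complex Filter Topology MeasureTheory LpDefs

/-- measurable coordinate -/
noncomputable def crd (y : UnitAddCircle) : ℝ := (AddCircle.measurableEquivIoc (1 : ℝ) 0 y : ℝ)

theorem measurable_crd : Measurable crd :=
  measurable_subtype_coe.comp (AddCircle.measurableEquivIoc (1 : ℝ) 0).measurable

theorem cov_crd (y : UnitAddCircle) : cov (crd y) = y :=
  (AddCircle.measurableEquivIoc (1 : ℝ) 0).symm_apply_apply y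

theorem measurableSet_arc {A : Set UnitAddCircle} (hA : IsArc A) : MeasurableSet A := by
  obtain ⟨I, hI, rfl⟩ := hA
  have h : (fun x : ℝ => (x : UnitAddCircle)) '' I
      = crd ⁻¹' (⋃ k : ℤ, (fun x => x + (k : ℝ)) '' I) := by
    ext y
    simp only [Set.mem_preimage, Set.mem_iUnion]
    constructor
    · rintro ⟨x, hx, hxy⟩
      have h1 : cov (crd y) = cov x := by rw [cov_crd]; exact hxy.symm
      obtain ⟨k, hk⟩ := cov_eq_iff.mp h1
      exact ⟨k, x, hx, hk.symm⟩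
    · rintro ⟨k, x, hx, hk⟩
      refine ⟨x, hx, ?_⟩
      have h1 : cov (crd y) = cov x := cov_eq_iff.mpr ⟨k, hk.symm⟩
      rw [cov_crd] at h1
      exact h1.symm
  rw [h]
  apply measurable_crd
  apply MeasurableSet.iUnion
  intro k
  exact (ordConnected_shift hI _).measurableSet

theorem measurableSet_arcUnion {E : Set UnitAddCircle} (hE : IsArcUnion E) : MeasurableSet E := by
  obtain ⟨𝒜, h1, h2, rfl⟩ := hE
  exact MeasurableSet.sUnion h1.countable (fun A hA => measurableSet_arc (h2 A hA))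

theorem measurable_PCzero {g : UnitAddCircle → ℂ} (hg : g ∈ PCzero) : Measurable g := by
  classical
  obtain ⟨h1, h2⟩ := hg
  have h : g = fun x => ∑ z ∈ h1.toFinset, (g ⁻¹' {z}).indicator (fun _ => z) x := by
    ext x
    rw [sum_eq_single (g x)]
    · rw [Set.indicator_of_mem]; rfl
    · intro z _ hz
      rw [Set.indicator_of_notMem]
      intro hx; exact hz hx.symm
    · intro h
      exfalso; apply h
      rw [Set.Finite.mem_toFinset]; exact ⟨x, rfl⟩
  rw [h]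
  apply Finset.measurable_sum
  intro z _
  exact measurable_const.indicator (measurableSet_arcUnion (h2 z))

/-- span of the indicator functions of intervals -/
noncomputable def VV : Submodule ℂ (ℝ → ℂ) :=
  Submodule.span ℂ {G | ∃ I : Set ℝ, I.OrdConnected ∧ G = I.indicator (fun _ => 1)}

theorem VV_ind {I : Set ℝ} (hI : I.OrdConnected) : I.indicator (fun _ => (1 : ℂ)) ∈ VV :=
  Submodule.subset_span ⟨I, hI, rfl⟩

theorem ind_mul (A B : Set ℝ) : A.indicator (fun _ => (1 : ℂ)) * B.indicator (fun _ => (1 : ℂ))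
    = (A ∩ B).indicator (fun _ => (1 : ℂ)) := by
  classical
  ext x
  simp only [Pi.mul_apply, Set.indicator_apply, Set.mem_inter_iff]
  by_cases h1 : x ∈ A <;> by_cases h2 : x ∈ B <;> simp [h1, h2]

theorem VV_mul {G H : ℝ → ℂ} (hG : G ∈ VV) (hH : H ∈ VV) : G * H ∈ VV := by
  have h1 : ∀ I : Set ℝ, I.OrdConnected → ∀ H ∈ VV, I.indicator (fun _ => (1 : ℂ)) * H ∈ VV := by
    intro I hI H hH
    refine Submodule.span_induction (p := fun H _ => I.indicator (fun _ => (1 : ℂ)) * H ∈ VV)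
      ?_ ?_ ?_ ?_ hH
    · rintro _ ⟨I', hI', rfl⟩
      rw [ind_mul]
      exact VV_ind (hI.inter hI')
    · rw [mul_zero]; exact VV.zero_mem
    · intro x y _ _ hx hy
      rw [mul_add]; exact VV.add_mem hx hy
    · intro c x _ hx
      rw [mul_smul_comm]; exact VV.smul_mem c hx
  refine Submodule.span_induction (p := fun G _ => G * H ∈ VV) ?_ ?_ ?_ ?_ hG
  · rintro _ ⟨I, hI, rfl⟩
    exact h1 I hI H hH
  · rw [zero_mul]; exact VV.zero_mem
  · intro x y _ _ hx hy
    rw [add_mul]; exact VV.add_mem hx hy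
  · intro c x _ hx
    rw [smul_mul_assoc]; exact VV.smul_mem c hx

theorem VV_union {A B : Set ℝ} (hA : A.indicator (fun _ => (1 : ℂ)) ∈ VV)
    (hB : B.indicator (fun _ => (1 : ℂ)) ∈ VV) : (A ∪ B).indicator (fun _ => (1 : ℂ)) ∈ VV := by
  classical
  have h : (A ∪ B).indicator (fun _ => (1 : ℂ)) = A.indicator (fun _ => (1 : ℂ))
      + B.indicator (fun _ => (1 : ℂ)) - A.indicator (fun _ => (1 : ℂ)) * B.indicator (fun _ => (1 : ℂ)) := by
    ext x
    simp only [Pi.mul_apply, Pi.add_apply, Pi.sub_apply, Set.indicator_apply, Set.mem_union]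
    by_cases h1 : x ∈ A <;> by_cases h2 : x ∈ B <;> simp [h1, h2]
  rw [h]
  exact VV.sub_mem (VV.add_mem hA hB) (VV_mul hA hB)

theorem VV_biUnion {ι : Type*} (s : Finset ι) (A : ι → Set ℝ)
    (h : ∀ i ∈ s, (A i).indicator (fun _ => (1 : ℂ)) ∈ VV) :
    (⋃ i ∈ s, A i).indicator (fun _ => (1 : ℂ)) ∈ VV := by
  classical
  induction s using Finset.induction_on with
  | empty =>
    simp only [Finset.notMem_empty, Set.iUnion_of_empty, Set.iUnion_empty]
    rw [Set.indicator_empty]; exact VV.zero_mem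
  | insert i s _ ih =>
    rw [Finset.set_biUnion_insert]
    exact VV_union (h i (mem_insert_self _ _)) (ih fun j hj => h j (mem_insert_of_mem hj))

theorem VV_arc {A : Set UnitAddCircle} (hA : IsArc A) :
    ((cov ⁻¹' A) ∩ Set.Icc 0 1).indicator (fun _ => (1 : ℂ)) ∈ VV := by
  obtain ⟨I, m, hI, hIm, rfl⟩ := IsArc.bounded hA
  have h : (cov ⁻¹' (cov '' I)) ∩ Set.Icc 0 1
      = ⋃ k ∈ Finset.Icc (-(m : ℤ)) (m + 1), ((fun x => x + ((k : ℤ) : ℝ)) '' I) ∩ Set.Icc 0 1 := by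
    ext x
    simp only [Set.mem_iUnion, Set.mem_inter_iff, Set.mem_preimage]
    constructor
    · rintro ⟨⟨y, hy, hxy⟩, hx⟩
      obtain ⟨k, hk⟩ := cov_eq_iff.mp hxy.symm
      have h1 := hIm hy
      refine ⟨k, ?_, ⟨y, hy, hk.symm⟩, hx⟩
      rw [Finset.mem_Icc]
      constructor
      · have : ((-(m : ℤ) : ℤ) : ℝ) ≤ (k : ℝ) := by
          push_cast
          have := h1.2; have := hx.1; linarith
        exact_mod_cast this
      · have : (k : ℝ) ≤ (((m + 1 : ℤ)) : ℝ) := by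
          push_cast
          have := h1.1; have := hx.2; linarith
        exact_mod_cast this
    · rintro ⟨k, _, ⟨y, hy, hk⟩, hx⟩
      refine ⟨⟨y, hy, ?_⟩, hx⟩
      rw [cov_eq_iff]
      refine ⟨-k, ?_⟩
      simp only at hk
      rw [← hk]; push_cast; ring
  rw [h]
  apply VV_biUnion
  intro k _
  exact VV_ind ((ordConnected_shift hI _).inter Set.ordConnected_Icc)

theorem VV_arcUnion {E : Set UnitAddCircle} (hE : IsArcUnion E) :
    ((cov ⁻¹' E) ∩ Set.Icc 0 1).indicator (fun _ => (1 : ℂ)) ∈ VV := by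
  obtain ⟨𝒜, h1, h2, rfl⟩ := hE
  have h : (cov ⁻¹' (⋃₀ 𝒜)) ∩ Set.Icc 0 1 = ⋃ A ∈ h1.toFinset, (cov ⁻¹' A) ∩ Set.Icc 0 1 := by
    ext x
    simp only [Set.mem_iUnion, Set.mem_inter_iff, Set.mem_preimage, Set.mem_sUnion,
      Set.Finite.mem_toFinset]
    constructor
    · rintro ⟨⟨A, hA, hx⟩, hx2⟩; exact ⟨A, hA, hx, hx2⟩
    · rintro ⟨A, hA, hx, hx2⟩; exact ⟨⟨A, hA, hx⟩, hx2⟩
  rw [h]
  apply VV_biUnion
  intro A hA
  exact VV_arc (h2 A (by simpa using hA))

/-- a.e. representation on the fundamental interval -/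
def QQ (G : ℝ → ℂ) : Prop := ∃ (c : ℂ) (J : Finset UnitAddCircle) (a : UnitAddCircle → ℂ),
  ∀ᵐ x ∂(volume.restrict (Set.Ioc (0 : ℝ) 1)), G x = stp c J a (cov x)

theorem stp_add (c c' : ℂ) (J J' : Finset UnitAddCircle) (a a' : UnitAddCircle → ℂ) :
    ∃ (J'' : Finset UnitAddCircle) (a'' : UnitAddCircle → ℂ), ∀ x,
      stp c J a x + stp c' J' a' x = stp (c + c') J'' a'' x := by
  classical
  refine ⟨J ∪ J', fun t => (if t ∈ J then a t else 0) + (if t ∈ J' then a' t else 0), ?_⟩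
  intro x
  unfold stp
  have h1 : ∑ t ∈ J, a t * s0 (x - t) = ∑ t ∈ J ∪ J', (if t ∈ J then a t else 0) * s0 (x - t) := by
    rw [← sum_subset (subset_union_left (s₁ := J) (s₂ := J'))]
    · exact sum_congr rfl fun t ht => by rw [if_pos ht]
    · intro t _ ht; rw [if_neg ht, zero_mul]
  have h2 : ∑ t ∈ J', a' t * s0 (x - t) = ∑ t ∈ J ∪ J', (if t ∈ J' then a' t else 0) * s0 (x - t) := by
    rw [← sum_subset (subset_union_right (s₁ := J) (s₂ := J'))]
    · exact sum_congr rfl fun t ht => by rw [if_pos ht]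
    · intro t _ ht; rw [if_neg ht, zero_mul]
  rw [h1, h2]
  simp only [add_mul, sum_add_distrib]
  ring

theorem QQ.add {G H : ℝ → ℂ} (hG : QQ G) (hH : QQ H) : QQ (G + H) := by
  obtain ⟨c, J, a, h⟩ := hG
  obtain ⟨c', J', a', h'⟩ := hH
  obtain ⟨J'', a'', h''⟩ := stp_add c c' J J' a a'
  refine ⟨c + c', J'', a'', ?_⟩
  filter_upwards [h, h'] with x hx hx'
  rw [Pi.add_apply, hx, hx', h'']

theorem QQ.smul {G : ℝ → ℂ} (hG : QQ G) (r : ℂ) : QQ (r • G) := by
  obtain ⟨c, J, a, h⟩ := hG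
  refine ⟨r * c, J, fun t => r * a t, ?_⟩
  filter_upwards [h] with x hx
  rw [Pi.smul_apply, hx, smul_eq_mul]
  unfold stp
  rw [mul_add, mul_sum]
  congr 1
  exact sum_congr rfl fun t _ => by ring

theorem QQ.const (r : ℂ) : QQ (fun _ => r) :=
  ⟨r, ∅, fun _ => 0, Eventually.of_forall fun x => by simp [stp]⟩

theorem QQ.s0 (α : ℝ) : QQ (fun x => s0 (cov x - cov α)) :=
  ⟨0, {cov α}, fun _ => 1, Eventually.of_forall fun x => by simp [stp]⟩

theorem s0_cov_sub {x α : ℝ} (hx : x ∈ Set.Ioo (0 : ℝ) 1) (hα : α ∈ Set.Icc (0 : ℝ) 1) :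
    LpMult.s0 (cov x - cov α) = if α ≤ x then ((1 / 2 - (x - α) : ℝ) : ℂ) else ((1 / 2 - (x - α + 1) : ℝ) : ℂ) := by
  have h1 : cov x - cov α = ((x - α : ℝ) : UnitAddCircle) := by
    unfold cov; rw [AddCircle.coe_sub]
  unfold LpMult.s0
  split_ifs with h
  · rw [h1, sR_coe_of_mem ⟨by linarith, by linarith [hx.2, hα.1]⟩]
  · have h2 : cov x - cov α = ((x - α + 1 : ℝ) : UnitAddCircle) := by
      rw [h1, AddCircle.coe_add, AddCircle.coe_period, add_zero]
    push Not at h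
    rw [h2, sR_coe_of_mem ⟨by linarith [hx.1, hα.2], by linarith⟩]

theorem QQ.interval {I : Set ℝ} (hI : I.OrdConnected) : QQ (I.indicator (fun _ => (1 : ℂ))) := by
  classical
  set I' : Set ℝ := I ∩ Set.Ioo 0 1 with hI'
  have hae : ∀ᵐ x ∂(volume.restrict (Set.Ioc (0 : ℝ) 1)), x ∈ Set.Ioo (0 : ℝ) 1 := by
    have h1 : ∀ᵐ x ∂(volume.restrict (Set.Ioc (0 : ℝ) 1)), x ∈ Set.Ioc (0 : ℝ) 1 :=
      ae_restrict_mem measurableSet_Ioc
    have h2 : ∀ᵐ x ∂(volume.restrict (Set.Ioc (0 : ℝ) 1)), x ≠ 1 :=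
      ae_restrict_of_ae (Measure.ae_ne volume 1)
    filter_upwards [h1, h2] with x hx hx1
    exact ⟨hx.1, lt_of_le_of_ne hx.2 hx1⟩
  by_cases hne : I'.Nonempty
  · set α := sInf I' with hα
    set β := sSup I' with hβ
    have hbb : BddBelow I' := ⟨0, fun x hx => hx.2.1.le⟩
    have hba : BddAbove I' := ⟨1, fun x hx => hx.2.2.le⟩
    have hI'o : I'.OrdConnected := hI.inter Set.ordConnected_Ioo
    have hαβ : α ≤ β := csInf_le_csSup hne hbb hba
    have hα0 : 0 ≤ α := le_csInf hne fun x hx => hx.2.1.le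
    have hβ1 : β ≤ 1 := csSup_le hne fun x hx => hx.2.2.le
    have hint : ∀ x, α < x → x < β → x ∈ I := by
      intro x h1 h2
      obtain ⟨y, hy, hyx⟩ := (csInf_lt_iff hbb hne).mp h1
      obtain ⟨z, hz, hxz⟩ := (lt_csSup_iff hba hne).mp h2
      exact (hI'o.out hy hz ⟨hyx.le, hxz.le⟩).1
    have hout : ∀ x ∈ Set.Ioo (0 : ℝ) 1, x ∈ I → α ≤ x ∧ x ≤ β := fun x hx hxI =>
      ⟨csInf_le hbb ⟨hxI, hx⟩, le_csSup hba ⟨hxI, hx⟩⟩
    have h1 : QQ (((fun _ => ((β - α : ℝ) : ℂ)) : ℝ → ℂ) + ((fun x => LpMult.s0 (cov x - cov α))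
        + (-1 : ℂ) • fun x => LpMult.s0 (cov x - cov β))) :=
      (QQ.const _).add ((QQ.s0 α).add ((QQ.s0 β).smul _))
    obtain ⟨c, J, a, h2⟩ := h1
    refine ⟨c, J, a, ?_⟩
    have h3 : ∀ᵐ x ∂(volume.restrict (Set.Ioc (0 : ℝ) 1)), x ≠ α :=
      ae_restrict_of_ae (Measure.ae_ne volume α)
    have h4 : ∀ᵐ x ∂(volume.restrict (Set.Ioc (0 : ℝ) 1)), x ≠ β :=
      ae_restrict_of_ae (Measure.ae_ne volume β)
    filter_upwards [h2, h3, h4, hae] with x hx hxα hxβ hx01
    rw [← hx]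
    simp only [Pi.add_apply, Pi.smul_apply, smul_eq_mul]
    rw [s0_cov_sub hx01 ⟨hα0, by linarith⟩, s0_cov_sub hx01 ⟨by linarith, hβ1⟩]
    by_cases hxI : x ∈ I
    · obtain ⟨h5, h6⟩ := hout x hx01 hxI
      rw [Set.indicator_of_mem hxI, if_pos h5, if_neg (by
        intro h; exact hxβ (le_antisymm h6 h))]
      push_cast; ring
    · rw [Set.indicator_of_notMem hxI]
      rcases lt_or_ge x α with h5 | h5
      · rw [if_neg (by linarith), if_neg (by linarith)]
        push_cast; ring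
      · have h6 : β ≤ x := by
          by_contra hcon
          push Not at hcon
          exact hxI (hint x (lt_of_le_of_ne h5 (Ne.symm hxα)) hcon)
        rw [if_pos h5, if_pos h6]
        push_cast; ring
  · refine ⟨0, ∅, fun _ => 0, ?_⟩
    filter_upwards [hae] with x hx
    have : x ∉ I := fun h => hne ⟨x, h, hx⟩
    rw [Set.indicator_of_notMem this]
    simp [stp]

theorem QQ_of_VV {G : ℝ → ℂ} (hG : G ∈ VV) : QQ G := by
  refine Submodule.span_induction (p := fun G _ => QQ G) ?_ ?_ ?_ ?_ hG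
  · rintro _ ⟨I, hI, rfl⟩; exact QQ.interval hI
  · exact QQ.const 0
  · intro x y _ _ hx hy; exact hx.add hy
  · intro c x _ hx; exact hx.smul c

theorem rep_PCzero {g : UnitAddCircle → ℂ} (hg : g ∈ PCzero) :
    ∃ (c : ℂ) (J : Finset UnitAddCircle) (a : UnitAddCircle → ℂ), ∀ᵐ x ∂μT, g x = stp c J a x := by
  classical
  obtain ⟨h1, h2⟩ := hg
  set G : ℝ → ℂ := ∑ z ∈ h1.toFinset, z • ((cov ⁻¹' (g ⁻¹' {z})) ∩ Set.Icc 0 1).indicator (fun _ => (1 : ℂ))
    with hG
  have hGV : G ∈ VV := VV.sum_mem fun z _ => VV.smul_mem z (VV_arcUnion (h2 z))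
  obtain ⟨c, J, a, h3⟩ := QQ_of_VV hGV
  refine ⟨c, J, a, ?_⟩
  have h4 : ∀ᵐ x ∂(volume.restrict (Set.Ioc (0 : ℝ) 1)), g (cov x) = stp c J a (cov x) := by
    have h5 : ∀ᵐ x ∂(volume.restrict (Set.Ioc (0 : ℝ) 1)), x ∈ Set.Ioc (0 : ℝ) 1 :=
      ae_restrict_mem measurableSet_Ioc
    filter_upwards [h3, h5] with x hx hx01
    rw [← hx, hG, Finset.sum_apply]
    symm
    rw [sum_eq_single (g (cov x))]
    · rw [Pi.smul_apply, Set.indicator_of_mem, smul_eq_mul, mul_one]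
      exact ⟨rfl, hx01.1.le, hx01.2⟩
    · intro z _ hz
      rw [Pi.smul_apply, Set.indicator_of_notMem, smul_zero]
      intro h; exact hz h.1.symm
    · intro h
      exfalso; apply h
      rw [Set.Finite.mem_toFinset]; exact ⟨cov x, rfl⟩
  have hmp := AddCircle.measurePreserving_mk (1 : ℝ) 0
  rw [zero_add] at hmp
  have hvol : (volume : Measure UnitAddCircle) = μT := by
    rw [AddCircle.volume_eq_smul_haarAddCircle]; simp
  have hmeas : MeasurableSet {y : UnitAddCircle | g y = stp c J a y} := by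
    apply measurableSet_eq_fun (measurable_PCzero ⟨h1, h2⟩)
    unfold stp
    apply Measurable.const_add
    apply Finset.measurable_sum
    intro t _
    apply Measurable.const_mul
    exact measurable_s0.comp (by fun_prop)
  rw [← hvol, ← hmp.map_eq, ae_map_iff hmp.measurable.aemeasurable hmeas]
  exact h4

end Pool.Agent.Helper576.LpMult
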