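import Pool.Agent.Helper576.MB3

namespace Pool.Agent.Helper576.LpMult

open Finset Complex

theorem cpow_re_eq (p : ℝ) (z : ℂ) (hz : z ≠ 0) :
    (z ^ (p : ℂ)).re = ‖z‖ ^ p * Real.cos (p * arg z) := by
  rw [Complex.cpow_def_of_ne_zero hz, Complex.exp_re]
  have h1 : (Complex.log z * (p : ℂ)).re = Real.log ‖z‖ * p := by
    simp [Complex.mul_re, Complex.log_re]
  have h2 : (Complex.log z * (p : ℂ)).im = arg z * p := by
    simp [Complex.mul_im, Complex.log_im]
  rw [h1, h2, Real.rpow_def_of_pos (norm_pos_iff.mpr hz), mul_comm (arg z) p]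

theorem key_ineq {p : ℝ} (hp1 : 1 < p) (hp2 : p ≤ 2) :
    ∃ A B : ℝ, 0 ≤ A ∧ 0 ≤ B ∧ ∀ z : ℂ, 0 < z.re →
      |z.im| ^ p ≤ A * z.re ^ p - B * (z ^ (p : ℂ)).re := by
  have hpi := Real.pi_pos
  set θ₀ : ℝ := (Real.pi / (2 * p) + Real.pi / 2) / 2 with hθ₀
  have hp0 : 0 < p := by linarith
  have h1 : Real.pi / (2 * p) < Real.pi / 2 := by
    apply div_lt_div_of_pos_left hpi (by norm_num) (by linarith)
  have hθlt : θ₀ < Real.pi / 2 := by rw [hθ₀]; linarith
  have hθgt : Real.pi / (2 * p) < θ₀ := by rw [hθ₀]; linarith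
  have hθpos : 0 < θ₀ := lt_trans (by positivity) hθgt
  have hpθ : Real.pi / 2 < p * θ₀ := by
    have : p * (Real.pi / (2 * p)) = Real.pi / 2 := by field_simp
    rw [← this]
    exact mul_lt_mul_of_pos_left hθgt hp0
  have hpθ2 : p * θ₀ < Real.pi := by
    have : p * θ₀ < 2 * (Real.pi / 2) := by nlinarith
    linarith
  have hcneg : Real.cos (p * θ₀) < 0 :=
    Real.cos_neg_of_pi_div_two_lt_of_lt hpθ (by linarith)
  set c₀ : ℝ := - Real.cos (p * θ₀) with hc₀
  have hc₀pos : 0 < c₀ := by rw [hc₀]; linarith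
  have hcθ : 0 < Real.cos θ₀ := Real.cos_pos_of_mem_Ioo ⟨by linarith, hθlt⟩
  have hcθp : 0 < Real.cos θ₀ ^ p := Real.rpow_pos_of_pos hcθ _
  refine ⟨(1 + 1 / c₀) / Real.cos θ₀ ^ p, 1 / c₀, by positivity, by positivity, ?_⟩
  intro z hz
  have hz0 : z ≠ 0 := by
    intro h; rw [h] at hz; simp at hz
  have hr : 0 < ‖z‖ := norm_pos_iff.mpr hz0
  have hrp : 0 < ‖z‖ ^ p := Real.rpow_pos_of_pos hr _
  rw [cpow_re_eq p z hz0]
  have harg : |arg z| < Real.pi / 2 := by
    rw [Complex.abs_arg_lt_pi_div_two_iff]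
    left; exact hz
  have hre : z.re = ‖z‖ * Real.cos (arg z) := by
    rw [Complex.cos_arg hz0]; field_simp
  have him : |z.im| ≤ ‖z‖ := Complex.abs_im_le_norm z
  have himp : |z.im| ^ p ≤ ‖z‖ ^ p := Real.rpow_le_rpow (abs_nonneg _) him hp0.le
  have hcospos : 0 ≤ Real.cos (arg z) := by
    by_contra h
    push Not at h
    have : z.re < 0 := by rw [hre]; exact mul_neg_of_pos_of_neg hr h
    linarith
  have hrep : z.re ^ p = ‖z‖ ^ p * Real.cos (arg z) ^ p := by
    rw [hre, Real.mul_rpow hr.le hcospos]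
  rw [hrep]
  have hcosabs : Real.cos (p * arg z) = Real.cos (p * |arg z|) := by
    rcases abs_cases (arg z) with ⟨h, _⟩ | ⟨h, _⟩
    · rw [h]
    · rw [h, mul_neg, Real.cos_neg]
  by_cases hcase : θ₀ ≤ |arg z|
  · have hmono : Real.cos (p * |arg z|) ≤ Real.cos (p * θ₀) := by
      apply Real.cos_le_cos_of_nonneg_of_le_pi
      · positivity
      · have : p * |arg z| ≤ 2 * (Real.pi / 2) := by
          apply mul_le_mul hp2 harg.le (abs_nonneg _) (by norm_num)
        linarith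
      · exact mul_le_mul_of_nonneg_left hcase hp0.le
    have h3 : 1 ≤ - (1 / c₀ * Real.cos (p * arg z)) := by
      rw [hcosabs]
      have : c₀ ≤ - Real.cos (p * |arg z|) := by rw [hc₀]; linarith
      rw [← mul_neg, one_div, le_inv_mul_iff₀ hc₀pos]
      linarith
    have h4 : 0 ≤ (1 + 1 / c₀) / Real.cos θ₀ ^ p * Real.cos (arg z) ^ p := by
      have := Real.rpow_nonneg hcospos p
      positivity
    calc |z.im| ^ p ≤ ‖z‖ ^ p * 1 := by rw [mul_one]; exact himp
      _ ≤ ‖z‖ ^ p * ((1 + 1 / c₀) / Real.cos θ₀ ^ p * Real.cos (arg z) ^ p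
            - (1 / c₀ * Real.cos (p * arg z))) := by
          apply mul_le_mul_of_nonneg_left _ hrp.le
          linarith
      _ = _ := by ring
  · push Not at hcase
    have hcos : Real.cos θ₀ ≤ Real.cos (arg z) := by
      rw [← Real.cos_abs (arg z)]
      apply Real.cos_le_cos_of_nonneg_of_le_pi (abs_nonneg _) (by linarith) hcase.le
    have h5 : 1 + 1 / c₀ ≤ (1 + 1 / c₀) / Real.cos θ₀ ^ p * Real.cos (arg z) ^ p := by
      have h6 : Real.cos θ₀ ^ p ≤ Real.cos (arg z) ^ p := Real.rpow_le_rpow hcθ.le hcos hp0.le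
      rw [div_mul_eq_mul_div, le_div_iff₀ hcθp]
      apply mul_le_mul_of_nonneg_left h6 (by positivity)
    have h7 : 1 / c₀ * Real.cos (p * arg z) ≤ 1 / c₀ := by
      calc _ ≤ 1 / c₀ * 1 := mul_le_mul_of_nonneg_left (Real.cos_le_one _) (by positivity)
        _ = _ := mul_one _
    calc |z.im| ^ p ≤ ‖z‖ ^ p * 1 := by rw [mul_one]; exact himp
      _ ≤ ‖z‖ ^ p * ((1 + 1 / c₀) / Real.cos θ₀ ^ p * Real.cos (arg z) ^ p
            - (1 / c₀ * Real.cos (p * arg z))) := by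
          apply mul_le_mul_of_nonneg_left _ hrp.le
          linarith
      _ = _ := by ring

end Pool.Agent.Helper576.LpMult
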