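import Pool.Agent.Helper576.Riesz1

namespace Pool.Agent.Helper576.LpMult

open Finset Complex MeasureTheory intervalIntegral

/-- the Cauchy type sum -/
noncomputable def Fz (s : Finset ℤ) (a : ℤ → ℝ) (z : ℂ) : ℂ :=
  ∑ n ∈ s, (a n : ℂ) * (I / (z - n + I))

noncomputable def uu (s : Finset ℤ) (a : ℤ → ℝ) (x : ℝ) : ℝ :=
  ∑ n ∈ s, a n * (1 / ((x - n) ^ 2 + 1))

noncomputable def vv (s : Finset ℤ) (a : ℤ → ℝ) (x : ℝ) : ℝ :=
  ∑ n ∈ s, a n * ((x - n) / ((x - n) ^ 2 + 1))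

theorem term_re (z : ℂ) (n : ℤ) :
    (I / (z - n + I)).re = (z.im + 1) / Complex.normSq (z - n + I) := by
  rw [Complex.div_re]
  simp

theorem normSq_pos' {z : ℂ} (hz : 0 ≤ z.im) (n : ℤ) : 0 < Complex.normSq (z - n + I) := by
  apply Complex.normSq_pos.mpr
  intro h
  have := congrArg Complex.im h
  simp at this
  linarith

theorem term_re_pos {z : ℂ} (hz : 0 ≤ z.im) (n : ℤ) : 0 < (I / (z - n + I)).re := by
  rw [term_re]
  exact div_pos (by linarith) (normSq_pos' hz n)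

theorem Fz_re_pos {s : Finset ℤ} {a : ℤ → ℝ} (ha : ∀ n ∈ s, 0 ≤ a n) (hpos : ∃ n ∈ s, 0 < a n)
    {z : ℂ} (hz : 0 ≤ z.im) : 0 < (Fz s a z).re := by
  unfold Fz
  rw [Complex.re_sum]
  obtain ⟨n, hn, hn0⟩ := hpos
  apply Finset.sum_pos'
  · intro m hm
    rw [Complex.re_ofReal_mul]
    exact mul_nonneg (ha m hm) (term_re_pos hz m).le
  · refine ⟨n, hn, ?_⟩
    rw [Complex.re_ofReal_mul]
    exact mul_pos hn0 (term_re_pos hz n)

theorem Fz_real_re (s : Finset ℤ) (a : ℤ → ℝ) (x : ℝ) : (Fz s a x).re = uu s a x := by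
  unfold Fz uu
  rw [Complex.re_sum]
  apply Finset.sum_congr rfl
  intro n _
  rw [Complex.re_ofReal_mul, term_re]
  simp [Complex.normSq_apply, sq]

theorem Fz_real_im (s : Finset ℤ) (a : ℤ → ℝ) (x : ℝ) : (Fz s a x).im = vv s a x := by
  unfold Fz vv
  rw [Complex.im_sum]
  apply Finset.sum_congr rfl
  intro n _
  rw [Complex.im_ofReal_mul, Complex.div_im]
  simp [Complex.normSq_apply, sq]

theorem Fz_diff (s : Finset ℤ) (a : ℤ → ℝ) {z : ℂ} (hz : 0 ≤ z.im) :
    DifferentiableAt ℂ (Fz s a) z := by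
  unfold Fz
  apply DifferentiableAt.fun_sum
  intro n _
  apply DifferentiableAt.const_mul
  apply DifferentiableAt.div (by fun_prop) (by fun_prop)
  intro h
  have := normSq_pos' hz n
  rw [h] at this
  simp at this

theorem Fz_norm_le {s : Finset ℤ} {a : ℤ → ℝ} (ha : ∀ n ∈ s, 0 ≤ a n) {R : ℝ} (hR : 0 < R)
    (hs : ∀ n ∈ s, 2 * |(n : ℝ)| ≤ R) {z : ℂ} (hzR : |z.re| = R ∨ z.im = R) :
    ‖Fz s a z‖ ≤ (∑ n ∈ s, a n) * (2 / R) := by
  unfold Fz
  rw [Finset.sum_mul]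
  refine (norm_sum_le _ _).trans (Finset.sum_le_sum ?_)
  intro n hn
  rw [norm_mul, Complex.norm_real, Real.norm_of_nonneg (ha n hn)]
  apply mul_le_mul_of_nonneg_left _ (ha n hn)
  rw [norm_div, Complex.norm_I]
  have h1 : R / 2 ≤ ‖z - n + I‖ := by
    rcases hzR with h | h
    · have h2 : |(z - n + I).re| ≤ ‖z - n + I‖ := Complex.abs_re_le_norm _
      have h3 : (z - n + I).re = z.re - n := by simp
      rw [h3] at h2
      have h4 : |z.re| - |(n : ℝ)| ≤ |z.re - n| := abs_sub_abs_le_abs_sub _ _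
      have := hs n hn
      linarith
    · have h2 : |(z - n + I).im| ≤ ‖z - n + I‖ := Complex.abs_im_le_norm _
      have h3 : (z - n + I).im = z.im + 1 := by simp
      rw [h3, h, abs_of_nonneg (by linarith)] at h2
      linarith
  have : 1 / ‖z - n + I‖ ≤ 1 / (R / 2) := one_div_le_one_div_of_le (by linarith) h1
  calc _ ≤ _ := this
    _ = _ := by field_simp

theorem contour {s : Finset ℤ} {a : ℤ → ℝ} (ha : ∀ n ∈ s, 0 ≤ a n) (hpos : ∃ n ∈ s, 0 < a n)
    {p : ℝ} (hp : 0 < p) {R : ℝ} (hR : 0 < R) (hs : ∀ n ∈ s, 2 * |(n : ℝ)| ≤ R) :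
    ‖∫ x in (-R)..R, (Fz s a (x : ℂ)) ^ (p : ℂ)‖ ≤ 4 * R * ((∑ n ∈ s, a n) * (2 / R)) ^ p := by
  set f : ℂ → ℂ := fun z => (Fz s a z) ^ (p : ℂ) with hf
  set B : ℝ := ((∑ n ∈ s, a n) * (2 / R)) ^ p with hB
  have hdiff : DifferentiableOn ℂ f (Set.uIcc (-R) R ×ℂ Set.uIcc 0 R) := by
    intro z hz
    have him : 0 ≤ z.im := by
      have := (Complex.mem_reProdIm.mp hz).2
      rw [Set.uIcc_of_le hR.le] at this
      exact this.1
    apply DifferentiableAt.differentiableWithinAt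
    apply DifferentiableAt.cpow_const (Fz_diff s a him)
    left
    exact Fz_re_pos ha hpos him
  have hrect := Complex.integral_boundary_rect_eq_zero_of_differentiableOn f
    ((-R : ℝ) : ℂ) ((R : ℂ) + R * I) (by simpa using hdiff)
  simp only [Complex.ofReal_re, Complex.ofReal_im, Complex.add_re, Complex.mul_re, Complex.I_re,
    mul_zero, Complex.I_im, mul_one, zero_mul, sub_zero, add_zero,
    Complex.add_im, Complex.mul_im, zero_add, Complex.ofReal_zero] at hrect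
  have hnorm : ∀ z : ℂ, 0 ≤ z.im → (|z.re| = R ∨ z.im = R) → ‖f z‖ ≤ B := by
    intro z hz hzR
    simp only [hf]
    have h0 : Fz s a z ≠ 0 := by
      intro h
      have := Fz_re_pos ha hpos hz
      rw [h] at this; simp at this
    have h1 : ‖Fz s a z ^ (p : ℂ)‖ = ‖Fz s a z‖ ^ p := by
      rw [Complex.norm_cpow_of_ne_zero h0]
      simp
    rw [h1, hB]
    exact Real.rpow_le_rpow (norm_nonneg _) (Fz_norm_le ha hR hs hzR) hp.le
  have hB0 : 0 ≤ B := by
    rw [hB]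
    apply Real.rpow_nonneg
    exact mul_nonneg (Finset.sum_nonneg ha) (by positivity)
  have h1 : ‖∫ x in (-R)..R, f (x + R * I)‖ ≤ B * |R - (-R)| := by
    apply intervalIntegral.norm_integral_le_of_norm_le_const
    intro x _
    apply hnorm
    · simp [hR.le]
    · right; simp
  have h2 : ‖∫ y in (0 : ℝ)..R, f (R + y * I)‖ ≤ B * |R - 0| := by
    apply intervalIntegral.norm_integral_le_of_norm_le_const
    intro y hy
    rw [Set.uIoc_of_le hR.le] at hy
    apply hnorm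
    · simp [hy.1.le]
    · left; simp [abs_of_pos hR]
  have h3 : ‖∫ y in (0 : ℝ)..R, f (((-R : ℝ) : ℂ) + y * I)‖ ≤ B * |R - 0| := by
    apply intervalIntegral.norm_integral_le_of_norm_le_const
    intro y hy
    rw [Set.uIoc_of_le hR.le] at hy
    apply hnorm
    · simp [hy.1.le]
    · left; simp [abs_of_pos hR]
  have e : (∫ x in (-R)..R, f (x : ℂ)) = (∫ x in (-R)..R, f (x + R * I))
      - I • (∫ y in (0 : ℝ)..R, f (R + y * I)) + I • (∫ y in (0 : ℝ)..R, f (((-R : ℝ) : ℂ) + y * I)) := by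
    linear_combination hrect
  change ‖∫ x in (-R)..R, f (x : ℂ)‖ ≤ _
  rw [e]
  calc _ ≤ ‖∫ x in (-R)..R, f (x + R * I)‖ + ‖I • (∫ y in (0 : ℝ)..R, f (R + y * I))‖
        + ‖I • (∫ y in (0 : ℝ)..R, f (((-R : ℝ) : ℂ) + y * I))‖ := by
          refine (norm_add_le _ _).trans ?_
          gcongr
          exact norm_sub_le _ _
    _ ≤ B * |R - (-R)| + B * |R - 0| + B * |R - 0| := by
        rw [norm_smul, norm_smul, Complex.norm_I, one_mul, one_mul]
        gcongr
    _ = 4 * R * B := by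
        rw [sub_zero, sub_neg_eq_add, abs_of_pos hR, abs_of_pos (by linarith : 0 < R + R)]
        ring

end Pool.Agent.Helper576.LpMult
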