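import Pool.Agent.Helper576.Riesz2

namespace Pool.Agent.Helper576.LpMult

open Finset Complex MeasureTheory intervalIntegral

theorem summable_inv_sq_add_one : Summable (fun n : ℤ => 1 / ((n : ℝ) ^ 2 + 1)) := by
  have h := Real.summable_one_div_int_pow.mpr (by norm_num : 1 < 2)
  apply h.of_norm_bounded_eventually
  have : {n : ℤ | ¬ ‖1 / ((n : ℝ) ^ 2 + 1)‖ ≤ 1 / (n : ℝ) ^ 2} ⊆ {0} := by
    intro n hn
    by_contra h0
    apply hn
    have h1 : (n : ℝ) ≠ 0 := by
      simpa using h0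
    have h2 : 0 < (n : ℝ) ^ 2 := by positivity
    rw [Real.norm_of_nonneg (by positivity)]
    exact one_div_le_one_div_of_le h2 (by linarith)
  exact (Set.finite_singleton 0).subset this

theorem exists_C0 : ∃ C : ℝ, 0 < C ∧ ∀ (s : Finset ℤ) (x : ℝ),
    ∑ n ∈ s, 1 / ((x - n) ^ 2 + 1) ≤ C := by
  classical
  refine ⟨3 * (∑' n : ℤ, 1 / ((n : ℝ) ^ 2 + 1)) + 1, ?_, ?_⟩
  · have : 0 ≤ ∑' n : ℤ, 1 / ((n : ℝ) ^ 2 + 1) := tsum_nonneg (fun n => by positivity)
    linarith
  intro s x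
  set m : ℤ := ⌊x⌋ with hm
  have hm1 : (m : ℝ) ≤ x := Int.floor_le x
  have hm2 : x < m + 1 := Int.lt_floor_add_one x
  have h1 : ∀ n ∈ s, 1 / ((x - n) ^ 2 + 1) ≤ 3 * (1 / (((m - n : ℤ) : ℝ) ^ 2 + 1)) := by
    intro n _
    push_cast
    rw [mul_one_div, div_le_div_iff₀ (by positivity) (by positivity)]
    nlinarith [sq_nonneg ((x - n) + (m - x)), sq_nonneg ((x - n) - (m - x)), sq_nonneg (m - x)]
  calc ∑ n ∈ s, 1 / ((x - n) ^ 2 + 1) ≤ ∑ n ∈ s, 3 * (1 / (((m - n : ℤ) : ℝ) ^ 2 + 1)) :=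
        sum_le_sum h1
    _ = 3 * ∑ n ∈ s.image (fun n => m - n), (1 / ((n : ℝ) ^ 2 + 1)) := by
        rw [← mul_sum, sum_image]
        intro x _ y _ h
        simpa using h
    _ ≤ 3 * (∑' n : ℤ, 1 / ((n : ℝ) ^ 2 + 1)) := by
        apply mul_le_mul_of_nonneg_left _ (by norm_num)
        exact summable_inv_sq_add_one.sum_le_tsum _ (fun n _ => by positivity)
    _ ≤ _ := by linarith

theorem integral_poisson_le (n : ℝ) (R : ℝ) :
    ∫ x in (-R)..R, 1 / ((x - n) ^ 2 + 1) ≤ Real.pi := by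
  rw [intervalIntegral.integral_comp_sub_right (fun x => 1 / (x ^ 2 + 1)) n]
  have : ∀ x : ℝ, 1 / (x ^ 2 + 1) = 1 / (1 + x ^ 2) := fun x => by rw [add_comm]
  simp only [this]
  rw [integral_one_div_one_add_sq]
  have h1 := Real.arctan_lt_pi_div_two (R - n)
  have h2 := Real.neg_pi_div_two_lt_arctan (-R - n)
  linarith

theorem uu_continuous (s : Finset ℤ) (a : ℤ → ℝ) : Continuous (uu s a) := by
  unfold uu
  apply continuous_finsetSum
  intro n _
  apply Continuous.mul continuous_const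
  apply Continuous.div continuous_const (by fun_prop)
  intro x; positivity

theorem vv_continuous (s : Finset ℤ) (a : ℤ → ℝ) : Continuous (vv s a) := by
  unfold vv
  apply continuous_finsetSum
  intro n _
  apply Continuous.mul continuous_const
  apply Continuous.div (by fun_prop) (by fun_prop)
  intro x; positivity

theorem uu_nonneg {s : Finset ℤ} {a : ℤ → ℝ} (ha : ∀ n ∈ s, 0 ≤ a n) (x : ℝ) : 0 ≤ uu s a x :=
  sum_nonneg fun n hn => mul_nonneg (ha n hn) (by positivity)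

theorem integral_uu_le {p : ℝ} (hp : 1 ≤ p) {C : ℝ} (hC : 0 < C)
    (hC0 : ∀ (s : Finset ℤ) (x : ℝ), ∑ n ∈ s, 1 / ((x - n) ^ 2 + 1) ≤ C)
    {s : Finset ℤ} {a : ℤ → ℝ} (ha : ∀ n ∈ s, 0 ≤ a n) {R : ℝ} (hR : 0 ≤ R) :
    ∫ x in (-R)..R, uu s a x ^ p ≤ C ^ (p - 1) * Real.pi * ∑ n ∈ s, a n ^ p := by
  have hpt : ∀ x : ℝ, uu s a x ^ p ≤ C ^ (p - 1) * ∑ n ∈ s, (1 / ((x - n) ^ 2 + 1)) * a n ^ p := by
    intro x
    unfold uu
    calc (∑ n ∈ s, a n * (1 / ((x - n) ^ 2 + 1))) ^ p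
        = (∑ n ∈ s, (1 / ((x - n) ^ 2 + 1)) * a n) ^ p := by
          congr 1; exact sum_congr rfl fun n _ => mul_comm _ _
      _ ≤ _ := wpow s hp _ _ (fun n _ => by positivity) ha
      _ ≤ _ := by
          apply mul_le_mul_of_nonneg_right
          · exact Real.rpow_le_rpow (sum_nonneg fun n _ => by positivity) (hC0 s x) (by linarith)
          · exact sum_nonneg fun n hn => mul_nonneg (by positivity) (Real.rpow_nonneg (ha n hn) _)
  have hcont1 : Continuous (fun x => uu s a x ^ p) :=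
    (uu_continuous s a).rpow_const (fun _ => Or.inr (by linarith))
  have hcont : ∀ n : ℤ, Continuous (fun x : ℝ => (1 / ((x - n) ^ 2 + 1)) * a n ^ p) := by
    intro n
    apply Continuous.mul _ continuous_const
    apply Continuous.div continuous_const (by fun_prop)
    intro x; positivity
  have hcont2 : Continuous (fun x : ℝ => C ^ (p - 1) * ∑ n ∈ s, (1 / ((x - n) ^ 2 + 1)) * a n ^ p) := by
    apply Continuous.mul continuous_const
    exact continuous_finsetSum _ (fun n _ => hcont n)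
  calc ∫ x in (-R)..R, uu s a x ^ p
      ≤ ∫ x in (-R)..R, C ^ (p - 1) * ∑ n ∈ s, (1 / ((x - n) ^ 2 + 1)) * a n ^ p := by
        apply intervalIntegral.integral_mono_on (by linarith)
          (hcont1.intervalIntegrable _ _) (hcont2.intervalIntegrable _ _)
        intro x _
        exact hpt x
    _ = C ^ (p - 1) * ∑ n ∈ s, (∫ x in (-R)..R, (1 / ((x - n) ^ 2 + 1))) * a n ^ p := by
        rw [intervalIntegral.integral_const_mul, intervalIntegral.integral_finsetSum]
        · congr 1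
          apply sum_congr rfl
          intro n _
          rw [intervalIntegral.integral_mul_const]
        · intro n _
          exact (hcont n).intervalIntegrable _ _
    _ ≤ C ^ (p - 1) * ∑ n ∈ s, Real.pi * a n ^ p := by
        apply mul_le_mul_of_nonneg_left _ (Real.rpow_nonneg hC.le _)
        apply sum_le_sum
        intro n hn
        exact mul_le_mul_of_nonneg_right (integral_poisson_le n R) (Real.rpow_nonneg (ha n hn) _)
    _ = _ := by rw [← mul_sum]; ring

theorem Fz_cpow_continuous {s : Finset ℤ} {a : ℤ → ℝ} (ha : ∀ n ∈ s, 0 ≤ a n)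
    (hpos : ∃ n ∈ s, 0 < a n) (p : ℝ) : Continuous (fun x : ℝ => (Fz s a x) ^ (p : ℂ)) := by
  apply continuous_iff_continuousAt.mpr
  intro x
  have h1 : ContinuousAt (fun z : ℂ => (Fz s a z) ^ (p : ℂ)) (x : ℂ) := by
    have hd : DifferentiableAt ℂ (fun z : ℂ => (Fz s a z) ^ (p : ℂ)) (x : ℂ) := by
      apply DifferentiableAt.cpow_const (Fz_diff s a (by simp))
      left
      exact Fz_re_pos ha hpos (by simp)
    exact hd.continuousAt
  exact ContinuousAt.comp (f := fun x : ℝ => (x : ℂ)) h1 Complex.continuous_ofReal.continuousAt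

theorem integral_vv_le {p A B : ℝ} (hp : 1 < p) (hB : 0 ≤ B)
    (hAB : ∀ z : ℂ, 0 < z.re → |z.im| ^ p ≤ A * z.re ^ p - B * (z ^ (p : ℂ)).re)
    {s : Finset ℤ} {a : ℤ → ℝ} (ha : ∀ n ∈ s, 0 ≤ a n) (hpos : ∃ n ∈ s, 0 < a n)
    {R : ℝ} (hR : 0 < R) (hs : ∀ n ∈ s, 2 * |(n : ℝ)| ≤ R) :
    ∫ x in (-R)..R, |vv s a x| ^ p ≤ A * (∫ x in (-R)..R, uu s a x ^ p)
      + B * (4 * R * ((∑ n ∈ s, a n) * (2 / R)) ^ p) := by
  have hp0 : 0 < p := by linarith
  have hc1 : Continuous (fun x => |vv s a x| ^ p) :=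
    (vv_continuous s a).abs.rpow_const (fun _ => Or.inr hp0.le)
  have hc2 : Continuous (fun x => uu s a x ^ p) :=
    (uu_continuous s a).rpow_const (fun _ => Or.inr hp0.le)
  have hc3 : Continuous (fun x : ℝ => ((Fz s a x) ^ (p : ℂ)).re) :=
    Complex.continuous_re.comp (Fz_cpow_continuous ha hpos p)
  have h1 : ∫ x in (-R)..R, |vv s a x| ^ p
      ≤ ∫ x in (-R)..R, (A * uu s a x ^ p - B * ((Fz s a x) ^ (p : ℂ)).re) := by
    apply intervalIntegral.integral_mono_on (by linarith) (hc1.intervalIntegrable _ _)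
    · exact ((continuous_const.mul hc2).sub (continuous_const.mul hc3)).intervalIntegrable _ _
    · intro x _
      have := hAB (Fz s a x) (Fz_re_pos ha hpos (by simp))
      rw [Fz_real_re, Fz_real_im] at this
      exact this
  have h2 : ∫ x in (-R)..R, (A * uu s a x ^ p - B * ((Fz s a x) ^ (p : ℂ)).re)
      = A * (∫ x in (-R)..R, uu s a x ^ p) - B * ∫ x in (-R)..R, ((Fz s a x) ^ (p : ℂ)).re := by
    rw [intervalIntegral.integral_sub, intervalIntegral.integral_const_mul,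
      intervalIntegral.integral_const_mul]
    · exact (continuous_const.mul hc2).intervalIntegrable _ _
    · exact (continuous_const.mul hc3).intervalIntegrable _ _
  have h3 : (∫ x in (-R)..R, ((Fz s a x) ^ (p : ℂ)).re)
      = (∫ x in (-R)..R, (Fz s a x) ^ (p : ℂ)).re := by
    have := Complex.reCLM.intervalIntegral_comp_comm (μ := volume) (a := -R) (b := R)
      (f := fun x : ℝ => (Fz s a x) ^ (p : ℂ))
      ((Fz_cpow_continuous ha hpos p).intervalIntegrable _ _)
    simpa using this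
  have h4 := contour ha hpos hp0 hR hs
  have h5 : |(∫ x in (-R)..R, (Fz s a x) ^ (p : ℂ)).re| ≤ 4 * R * ((∑ n ∈ s, a n) * (2 / R)) ^ p :=
    (Complex.abs_re_le_norm _).trans h4
  have h6 := (abs_le.mp h5).1
  rw [h2, h3] at h1
  have h7 : B * (-(4 * R * ((∑ n ∈ s, a n) * (2 / R)) ^ p))
      ≤ B * (∫ x in (-R)..R, (Fz s a x) ^ (p : ℂ)).re := mul_le_mul_of_nonneg_left h6 hB
  linarith

end Pool.Agent.Helper576.LpMult
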