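import Pool.Agent.Helper576.Riesz3

namespace Pool.Agent.Helper576.LpMult

open Finset Complex MeasureTheory intervalIntegral

theorem V_diff {b c : ℝ} (h : |b - c| ≤ 1) :
    |b / (b ^ 2 + 1) - c / (c ^ 2 + 1)| ≤ 2 * (1 / (c ^ 2 + 1)) := by
  have e : b / (b ^ 2 + 1) - c / (c ^ 2 + 1) = (b - c) * (1 - b * c) / ((b ^ 2 + 1) * (c ^ 2 + 1)) := by
    field_simp
    ring
  rw [e, abs_div, abs_mul, abs_of_pos (by positivity : 0 < (b ^ 2 + 1) * (c ^ 2 + 1))]
  rw [div_le_iff₀ (by positivity)]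
  have h1 : |1 - b * c| ≤ 2 * (b ^ 2 + 1) := by
    obtain ⟨h2, h3⟩ := abs_le.mp h
    rw [abs_le]
    constructor
    · nlinarith [sq_nonneg (b + 1), sq_nonneg (b - 1), sq_nonneg (b + c), sq_nonneg (b - c)]
    · nlinarith [sq_nonneg (b + 1), sq_nonneg (b - 1), sq_nonneg (b + c), sq_nonneg (b - c)]
  calc |b - c| * |1 - b * c| ≤ 1 * (2 * (b ^ 2 + 1)) :=
        mul_le_mul h h1 (abs_nonneg _) (by norm_num)
    _ = _ := by field_simp

theorem vv_sample {s : Finset ℤ} {a : ℤ → ℝ} (ha : ∀ n ∈ s, 0 ≤ a n) {k x : ℝ} (h : |k - x| ≤ 1) :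
    |vv s a k| ≤ |vv s a x| + 2 * uu s a x := by
  have h1 : |vv s a k - vv s a x| ≤ 2 * uu s a x := by
    unfold vv uu
    rw [← sum_sub_distrib, mul_sum]
    refine (abs_sum_le_sum_abs _ _).trans (sum_le_sum fun n hn => ?_)
    rw [← mul_sub, abs_mul, abs_of_nonneg (ha n hn)]
    have : |(k - n) - (x - n)| ≤ 1 := by
      have e : (k - n) - (x - n) = k - x := by ring
      rw [e]; exact h
    calc _ ≤ a n * (2 * (1 / ((x - n) ^ 2 + 1))) :=
          mul_le_mul_of_nonneg_left (V_diff this) (ha n hn)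
      _ = _ := by ring
  have := abs_sub_abs_le_abs_sub (vv s a k) (vv s a x)
  linarith

theorem add_rpow_le {a b p : ℝ} (ha : 0 ≤ a) (hb : 0 ≤ b) (hp : 0 ≤ p) :
    (a + b) ^ p ≤ 2 ^ p * (a ^ p + b ^ p) := by
  have h1 : (a + b) ≤ 2 * max a b := by
    have := le_max_left a b
    have := le_max_right a b
    linarith
  have h2 : (max a b) ^ p ≤ a ^ p + b ^ p := by
    rcases le_total a b with h | h
    · rw [max_eq_right h]; have := Real.rpow_nonneg ha p; linarith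
    · rw [max_eq_left h]; have := Real.rpow_nonneg hb p; linarith
  calc (a + b) ^ p ≤ (2 * max a b) ^ p := Real.rpow_le_rpow (by linarith) h1 hp
    _ = 2 ^ p * (max a b) ^ p := Real.mul_rpow (by norm_num) (le_max_of_le_left ha)
    _ ≤ _ := mul_le_mul_of_nonneg_left h2 (by positivity)

theorem sum_le_integral {g : ℝ → ℝ} (hg : Continuous g) (t : Finset ℤ)
    (R : ℕ) (ht : ∀ k ∈ t, -(R : ℤ) ≤ k ∧ k < R) (b : ℤ → ℝ)
    (hb : ∀ k : ℤ, ∀ x ∈ Set.Icc (k : ℝ) (k + 1), b k ≤ g x) (hb0 : ∀ k, 0 ≤ b k) :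
    ∑ k ∈ t, b k ≤ ∫ x in (-(R : ℝ))..R, g x := by
  classical
  have h1 : ∀ k : ℤ, b k ≤ ∫ x in (k : ℝ)..(k + 1), g x := by
    intro k
    have : ∫ x in (k : ℝ)..(k + 1), b k = b k := by
      rw [intervalIntegral.integral_const]; simp
    rw [← this]
    exact intervalIntegral.integral_mono_on (by linarith) (by simp) (hg.intervalIntegrable _ _)
      (hb k)
  have h2 : ∑ i ∈ range (2 * R), ∫ x in ((-(R : ℝ)) + (i : ℕ))..((-(R : ℝ)) + ((i + 1 : ℕ) : ℝ)), g x
      = ∫ x in ((-(R : ℝ)) + ((0 : ℕ) : ℝ))..((-(R : ℝ)) + ((2 * R : ℕ) : ℝ)), g x := by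
    have := intervalIntegral.sum_integral_adjacent_intervals (f := g) (μ := volume)
      (a := fun i : ℕ => (-(R : ℝ)) + (i : ℝ)) (n := 2 * R)
      (fun k _ => hg.intervalIntegrable _ _)
    exact this
  have h3 : ∫ x in (-(R : ℝ))..R, g x = ∑ i ∈ range (2 * R), ∫ x in (((-(R : ℤ) + (i : ℕ) : ℤ) : ℝ))..((-(R : ℤ) + (i : ℕ) : ℤ) : ℝ) + 1, g x := by
    have e1 : (-(R : ℝ)) + ((0 : ℕ) : ℝ) = -(R : ℝ) := by simp
    have e2 : (-(R : ℝ)) + ((2 * R : ℕ) : ℝ) = R := by push_cast; ring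
    rw [e1, e2] at h2
    rw [← h2]
    apply sum_congr rfl
    intro i _
    congr 1
    · push_cast; ring
    · push_cast; ring
  rw [h3]
  calc ∑ k ∈ t, b k ≤ ∑ k ∈ (range (2 * R)).image (fun i : ℕ => -(R : ℤ) + (i : ℕ)), b k := by
        apply sum_le_sum_of_subset_of_nonneg
        · intro k hk
          obtain ⟨h4, h5⟩ := ht k hk
          rw [mem_image]
          refine ⟨(k + R).toNat, ?_, ?_⟩
          · rw [mem_range]; omega
          · omega
        · intro k _ _; exact hb0 k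
    _ = ∑ i ∈ range (2 * R), b (-(R : ℤ) + (i : ℕ)) := by
        rw [sum_image]
        intro x _ y _ h
        simpa using h
    _ ≤ _ := sum_le_sum (fun i _ => h1 _)

theorem riesz_nonneg {p : ℝ} (hp1 : 1 < p) (hp2 : p ≤ 2) :
    ∃ D : ℝ, 0 ≤ D ∧ ∀ (s t : Finset ℤ) (a : ℤ → ℝ), (∀ n ∈ s, 0 ≤ a n) →
      ∑ k ∈ t, |vv s a k| ^ p ≤ D * ∑ n ∈ s, a n ^ p := by
  classical
  have hp0 : 0 < p := by linarith
  obtain ⟨A, B, hA, hB, hAB⟩ := key_ineq hp1 hp2
  obtain ⟨C, hC, hC0⟩ := exists_C0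
  refine ⟨2 ^ p * ((A + 2 ^ p) * (C ^ (p - 1) * Real.pi)), by positivity, ?_⟩
  intro s t a ha
  by_cases hpos : ∃ n ∈ s, 0 < a n
  swap
  · push Not at hpos
    have h0 : ∀ n ∈ s, a n = 0 := fun n hn => le_antisymm (hpos n hn) (ha n hn)
    have h1 : ∀ k : ℤ, vv s a k = 0 := by
      intro k
      unfold vv
      exact sum_eq_zero fun n hn => by rw [h0 n hn, zero_mul]
    have h2 : ∑ k ∈ t, |vv s a k| ^ p = 0 := by
      apply sum_eq_zero
      intro k _
      rw [h1, abs_zero, Real.zero_rpow hp0.ne']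
    rw [h2]
    have : 0 ≤ ∑ n ∈ s, a n ^ p := sum_nonneg fun n hn => Real.rpow_nonneg (ha n hn) _
    positivity
  set S := ∑ n ∈ s, a n with hS
  have hS0 : 0 ≤ S := sum_nonneg ha
  have hP0 : 0 ≤ ∑ n ∈ s, a n ^ p := sum_nonneg fun n hn => Real.rpow_nonneg (ha n hn) _
  -- bound for each large R
  have hR : ∀ᶠ R : ℕ in Filter.atTop, ∑ k ∈ t, |vv s a k| ^ p ≤
      2 ^ p * ((A + 2 ^ p) * (C ^ (p - 1) * Real.pi)) * (∑ n ∈ s, a n ^ p)
        + 2 ^ p * B * 4 * (2 * S) ^ p * (R : ℝ) ^ (1 - p) := by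
    have ev1 : ∀ᶠ R : ℕ in Filter.atTop, ∀ n ∈ s, 2 * |(n : ℝ)| ≤ R := by
      rw [Filter.eventually_all_finset]
      intro n _
      filter_upwards [Filter.eventually_ge_atTop (2 * n.natAbs)] with R hR
      have : ((2 * n.natAbs : ℕ) : ℝ) ≤ R := by exact_mod_cast hR
      push_cast [Nat.cast_natAbs] at this
      exact this
    have ev2 : ∀ᶠ R : ℕ in Filter.atTop, ∀ k ∈ t, -(R : ℤ) ≤ k ∧ k < R := by
      rw [Filter.eventually_all_finset]
      intro n _
      filter_upwards [Filter.eventually_gt_atTop (n.natAbs)] with R hR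
      omega
    filter_upwards [ev1, ev2, Filter.eventually_gt_atTop 0] with R h1 h2 h3
    have hRpos : (0 : ℝ) < R := by exact_mod_cast h3
    set g : ℝ → ℝ := fun x => 2 ^ p * (|vv s a x| ^ p + 2 ^ p * uu s a x ^ p) with hg
    have hc1 : Continuous (fun x => |vv s a x| ^ p) :=
      (vv_continuous s a).abs.rpow_const (fun _ => Or.inr hp0.le)
    have hc2 : Continuous (fun x => uu s a x ^ p) :=
      (uu_continuous s a).rpow_const (fun _ => Or.inr hp0.le)
    have hgc : Continuous g := continuous_const.mul (hc1.add (continuous_const.mul hc2))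
    have hg0 : ∀ x, 0 ≤ g x := by
      intro x
      have := Real.rpow_nonneg (uu_nonneg ha x) p
      simp only [hg]
      positivity
    have h4 := sum_le_integral hgc t R h2 (fun k => |vv s a k| ^ p) (by
      intro k x hx
      have h5 : |(k : ℝ) - x| ≤ 1 := by
        rw [abs_le]; constructor <;> linarith [hx.1, hx.2]
      have h6 := vv_sample ha h5
      calc |vv s a k| ^ p ≤ (|vv s a x| + 2 * uu s a x) ^ p :=
            Real.rpow_le_rpow (abs_nonneg _) h6 hp0.le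
        _ ≤ 2 ^ p * (|vv s a x| ^ p + (2 * uu s a x) ^ p) :=
            add_rpow_le (abs_nonneg _) (mul_nonneg (by norm_num) (uu_nonneg ha x)) hp0.le
        _ = g x := by
            simp only [hg]
            rw [Real.mul_rpow (by norm_num) (uu_nonneg ha x)]) (fun k => by positivity)
    have h5 : ∫ x in (-(R : ℝ))..R, g x = 2 ^ p * ((∫ x in (-(R : ℝ))..R, |vv s a x| ^ p)
        + 2 ^ p * ∫ x in (-(R : ℝ))..R, uu s a x ^ p) := by
      simp only [hg]
      rw [intervalIntegral.integral_const_mul, intervalIntegral.integral_add,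
        intervalIntegral.integral_const_mul]
      · exact hc1.intervalIntegrable _ _
      · exact (continuous_const.mul hc2).intervalIntegrable _ _
    have h6 := integral_vv_le hp1 hB hAB ha hpos hRpos h1
    have h7 := integral_uu_le hp1.le hC hC0 ha hRpos.le
    have h8 : 4 * (R : ℝ) * (S * (2 / R)) ^ p = 4 * (2 * S) ^ p * (R : ℝ) ^ (1 - p) := by
      have : S * (2 / R) = (2 * S) / R := by ring
      rw [this, Real.div_rpow (by positivity) hRpos.le, Real.rpow_sub hRpos, Real.rpow_one]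
      ring
    rw [h8] at h6
    calc ∑ k ∈ t, |vv s a k| ^ p ≤ _ := h4
      _ = _ := h5
      _ ≤ 2 ^ p * ((A * (∫ x in (-(R : ℝ))..R, uu s a x ^ p) + B * (4 * (2 * S) ^ p * (R : ℝ) ^ (1 - p)))
        + 2 ^ p * ∫ x in (-(R : ℝ))..R, uu s a x ^ p) := by
          gcongr
      _ = 2 ^ p * (A + 2 ^ p) * (∫ x in (-(R : ℝ))..R, uu s a x ^ p)
          + 2 ^ p * B * 4 * (2 * S) ^ p * (R : ℝ) ^ (1 - p) := by ring
      _ ≤ 2 ^ p * (A + 2 ^ p) * (C ^ (p - 1) * Real.pi * ∑ n ∈ s, a n ^ p)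
          + 2 ^ p * B * 4 * (2 * S) ^ p * (R : ℝ) ^ (1 - p) := by
          gcongr
      _ = _ := by ring
  have hlim : Filter.Tendsto (fun R : ℕ =>
      2 ^ p * ((A + 2 ^ p) * (C ^ (p - 1) * Real.pi)) * (∑ n ∈ s, a n ^ p)
        + 2 ^ p * B * 4 * (2 * S) ^ p * (R : ℝ) ^ (1 - p)) Filter.atTop
      (nhds (2 ^ p * ((A + 2 ^ p) * (C ^ (p - 1) * Real.pi)) * (∑ n ∈ s, a n ^ p)
        + 2 ^ p * B * 4 * (2 * S) ^ p * 0)) := by
    apply Filter.Tendsto.add tendsto_const_nhds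
    apply Filter.Tendsto.mul tendsto_const_nhds
    have h1 := tendsto_rpow_neg_atTop (by linarith : 0 < p - 1)
    have h2 := h1.comp tendsto_natCast_atTop_atTop
    refine h2.congr (fun n => ?_)
    simp only [Function.comp]
    congr 1
    ring
  rw [mul_zero, add_zero] at hlim
  exact ge_of_tendsto hlim hR

end Pool.Agent.Helper576.LpMult
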