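import Pool.Agent.Helper576.Riesz4

namespace Pool.Agent.Helper576.LpMult

open Finset Complex

theorem MB_V {p : ℝ} (hp1 : 1 < p) (hp2 : p ≤ 2) :
    ∃ C : ℝ, 0 ≤ C ∧ MB p C (fun n => (((n : ℝ) / ((n : ℝ) ^ 2 + 1) : ℝ) : ℂ)) := by
  obtain ⟨D, hD, h⟩ := riesz_nonneg hp1 hp2
  have hp0 : 0 < p := by linarith
  refine ⟨(4 ^ p * (4 * D)) ^ (1 / p), by positivity, ?_⟩
  intro s t F
  have hpow : ((4 ^ p * (4 * D)) ^ (1 / p)) ^ p = 4 ^ p * (4 * D) := by
    rw [← Real.rpow_mul (by positivity), one_div, inv_mul_cancel₀ hp0.ne', Real.rpow_one]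
  rw [hpow]
  set a1 : ℤ → ℝ := fun l => max (F l).re 0
  set a2 : ℤ → ℝ := fun l => max (-(F l).re) 0
  set a3 : ℤ → ℝ := fun l => max (F l).im 0
  set a4 : ℤ → ℝ := fun l => max (-(F l).im) 0
  have hF : ∀ l, F l = ((a1 l : ℂ) - a2 l) + I * (a3 l - a4 l) := by
    intro l
    have e1 : a1 l - a2 l = (F l).re := by
      simp only [a1, a2]; rcases le_total 0 (F l).re with h | h
      · rw [max_eq_left h, max_eq_right (by linarith)]; ring
      · rw [max_eq_right h, max_eq_left (by linarith)]; ring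
    have e2 : a3 l - a4 l = (F l).im := by
      simp only [a3, a4]; rcases le_total 0 (F l).im with h | h
      · rw [max_eq_left h, max_eq_right (by linarith)]; ring
      · rw [max_eq_right h, max_eq_left (by linarith)]; ring
    rw [← Complex.ofReal_sub, ← Complex.ofReal_sub, e1, e2]
    apply Complex.ext <;> simp
  have hy : ∀ k : ℤ, ∑ l ∈ s, (((((k - l : ℤ)) : ℝ) / ((((k - l : ℤ)) : ℝ) ^ 2 + 1) : ℝ) : ℂ) * F l
      = ((vv s a1 k : ℂ) - vv s a2 k) + I * (vv s a3 k - vv s a4 k) := by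
    intro k
    unfold vv
    push_cast
    rw [← sum_sub_distrib, ← sum_sub_distrib, mul_sum, ← sum_add_distrib]
    apply sum_congr rfl
    intro l _
    rw [hF l]
    ring
  have hbound : ∀ k : ℤ, ‖∑ l ∈ s, (((((k - l : ℤ)) : ℝ) / ((((k - l : ℤ)) : ℝ) ^ 2 + 1) : ℝ) : ℂ) * F l‖ ^ p
      ≤ 4 ^ p * (|vv s a1 k| ^ p + |vv s a2 k| ^ p + |vv s a3 k| ^ p + |vv s a4 k| ^ p) := by
    intro k
    rw [hy k]
    have h1 : ‖((vv s a1 k : ℂ) - vv s a2 k) + I * (vv s a3 k - vv s a4 k)‖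
        ≤ (|vv s a1 k| + |vv s a2 k|) + (|vv s a3 k| + |vv s a4 k|) := by
      refine (norm_add_le _ _).trans ?_
      rw [norm_mul, Complex.norm_I, one_mul]
      gcongr
      · refine (norm_sub_le _ _).trans ?_
        simp
      · refine (norm_sub_le _ _).trans ?_
        simp
    calc _ ≤ ((|vv s a1 k| + |vv s a2 k|) + (|vv s a3 k| + |vv s a4 k|)) ^ p :=
          Real.rpow_le_rpow (norm_nonneg _) h1 hp0.le
      _ ≤ 2 ^ p * ((|vv s a1 k| + |vv s a2 k|) ^ p + (|vv s a3 k| + |vv s a4 k|) ^ p) :=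
          add_rpow_le (by positivity) (by positivity) hp0.le
      _ ≤ 2 ^ p * (2 ^ p * (|vv s a1 k| ^ p + |vv s a2 k| ^ p)
            + 2 ^ p * (|vv s a3 k| ^ p + |vv s a4 k| ^ p)) := by
          gcongr
          · exact add_rpow_le (by positivity) (by positivity) hp0.le
          · exact add_rpow_le (by positivity) (by positivity) hp0.le
      _ = (2 ^ p * 2 ^ p) * (|vv s a1 k| ^ p + |vv s a2 k| ^ p + |vv s a3 k| ^ p + |vv s a4 k| ^ p) := by
          ring
      _ = _ := by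
          rw [← Real.mul_rpow (by norm_num) (by norm_num)]
          norm_num
  have hle : ∀ (a : ℤ → ℝ), (∀ l, 0 ≤ a l) → (∀ l, a l ≤ ‖F l‖) →
      ∑ k ∈ t, |vv s a k| ^ p ≤ D * ∑ l ∈ s, ‖F l‖ ^ p := by
    intro a h0 h1
    refine (h s t a (fun n _ => h0 n)).trans ?_
    gcongr with l hl
    · exact h0 l
    · exact h1 l
  have hre : ∀ l, |(F l).re| ≤ ‖F l‖ := fun l => Complex.abs_re_le_norm _
  have him : ∀ l, |(F l).im| ≤ ‖F l‖ := fun l => Complex.abs_im_le_norm _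
  have b1 := hle a1 (fun l => le_max_right _ _)
    (fun l => max_le ((le_abs_self _).trans (hre l)) (norm_nonneg _))
  have b2 := hle a2 (fun l => le_max_right _ _)
    (fun l => max_le ((neg_le_abs _).trans (hre l)) (norm_nonneg _))
  have b3 := hle a3 (fun l => le_max_right _ _)
    (fun l => max_le ((le_abs_self _).trans (him l)) (norm_nonneg _))
  have b4 := hle a4 (fun l => le_max_right _ _)
    (fun l => max_le ((neg_le_abs _).trans (him l)) (norm_nonneg _))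
  calc _ ≤ ∑ k ∈ t, 4 ^ p * (|vv s a1 k| ^ p + |vv s a2 k| ^ p + |vv s a3 k| ^ p + |vv s a4 k| ^ p) :=
        sum_le_sum (fun k _ => hbound k)
    _ = 4 ^ p * (∑ k ∈ t, |vv s a1 k| ^ p + ∑ k ∈ t, |vv s a2 k| ^ p + ∑ k ∈ t, |vv s a3 k| ^ p
          + ∑ k ∈ t, |vv s a4 k| ^ p) := by
        rw [← mul_sum, sum_add_distrib, sum_add_distrib, sum_add_distrib]
    _ ≤ 4 ^ p * (D * ∑ l ∈ s, ‖F l‖ ^ p + D * ∑ l ∈ s, ‖F l‖ ^ p + D * ∑ l ∈ s, ‖F l‖ ^ p
          + D * ∑ l ∈ s, ‖F l‖ ^ p) := by gcongr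
    _ = _ := by ring

/-- kernel of the discrete Hilbert transform -/
noncomputable def hk (n : ℤ) : ℂ := 1 / (n : ℂ)

theorem MB_hk_le_two {p : ℝ} (hp1 : 1 < p) (hp2 : p ≤ 2) :
    ∃ C : ℝ, 0 ≤ C ∧ MB p C hk := by
  obtain ⟨C, hC, h⟩ := MB_V hp1 hp2
  set A : ℝ := ∑' n : ℤ, 1 / ((n : ℝ) ^ 2 + 1) with hA
  have hA0 : 0 ≤ A := tsum_nonneg (fun n => by positivity)
  have h2 : MB p A (fun n => hk n - (((n : ℝ) / ((n : ℝ) ^ 2 + 1) : ℝ) : ℂ)) := by
    apply MB_of_summable hp1.le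
    intro s
    refine le_trans (sum_le_sum ?_) (summable_inv_sq_add_one.sum_le_tsum s (fun n _ => by positivity))
    intro n _
    unfold hk
    by_cases hn : n = 0
    · simp [hn]
    · have hn' : (n : ℝ) ≠ 0 := by exact_mod_cast hn
      have e : (1 / (n : ℂ) - (((n : ℝ) / ((n : ℝ) ^ 2 + 1) : ℝ) : ℂ))
          = (((1 / (n : ℝ)) * (1 / ((n : ℝ) ^ 2 + 1)) : ℝ) : ℂ) := by
        have : (1 / (n : ℂ)) = (((1 / (n : ℝ)) : ℝ) : ℂ) := by push_cast; rfl
        rw [this, ← Complex.ofReal_sub]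
        congr 1
        field_simp
        ring
      rw [e, Complex.norm_real, norm_mul, Real.norm_eq_abs, Real.norm_of_nonneg (by positivity : 0 ≤ 1 / ((n : ℝ) ^ 2 + 1))]
      have h3 : |1 / (n : ℝ)| ≤ 1 := by
        rw [abs_div, abs_one, div_le_one (abs_pos.mpr hn')]
        have : 1 ≤ |n| := Int.one_le_abs hn
        exact_mod_cast this
      calc _ ≤ 1 * (1 / ((n : ℝ) ^ 2 + 1)) := mul_le_mul_of_nonneg_right h3 (by positivity)
        _ = _ := one_mul _
  refine ⟨A + C, by positivity, ?_⟩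
  have h3 := MB.add hp1.le hA0 hC h2 h
  simpa using h3

theorem MB_hk {p : ℝ} (hp1 : 1 < p) : ∃ C : ℝ, 0 ≤ C ∧ MB p C hk := by
  rcases le_total p 2 with h | h
  · exact MB_hk_le_two hp1 h
  · have hpq := Real.HolderConjugate.conjExponent hp1
    have hq1 : 1 < Real.conjExponent p := hpq.symm.lt
    have hq2 : Real.conjExponent p ≤ 2 := by
      unfold Real.conjExponent
      rw [div_le_iff₀ (by linarith)]
      linarith
    obtain ⟨C, hC, hm⟩ := MB_hk_le_two hq1 hq2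
    refine ⟨C, hC, ?_⟩
    have h2 := (MB.dual hpq.symm hC hm).neg
    have e : (fun n => -hk (-n)) = hk := by
      ext n; unfold hk; push_cast; ring
    rw [e] at h2
    exact h2

end Pool.Agent.Helper576.LpMult
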