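import Pool.Agent.Helper576.Rep

namespace Pool.Agent.Helper576.LpMult

open Finset Complex Filter Topology MeasureTheory LpDefs

/-- functions approximable by step functions in multiplier norm and uniformly -/
def Ap (p : ℝ) (g : UnitAddCircle → ℂ) : Prop :=
  Integrable g μT ∧ ∀ ε : ℝ, 0 < ε → ∃ s ∈ PCzero, Integrable s μT ∧
    MB p ε (fun n => fourierCoeff g n - fourierCoeff s n) ∧ ∀ x, ‖g x - s x‖ ≤ ε

theorem Ap.add {p : ℝ} (hp : 1 ≤ p) {g h : UnitAddCircle → ℂ} (hg : Ap p g) (hh : Ap p h) :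
    Ap p (fun x => g x + h x) := by
  refine ⟨hg.1.add hh.1, ?_⟩
  intro ε hε
  obtain ⟨s, hs, hsi, hsm, hsx⟩ := hg.2 (ε / 2) (by linarith)
  obtain ⟨s', hs', hsi', hsm', hsx'⟩ := hh.2 (ε / 2) (by linarith)
  refine ⟨fun x => s x + s' x, PCzero.add hs hs', hsi.add hsi', ?_, ?_⟩
  · have h1 := MB.add hp (by linarith) (by linarith) hsm hsm'
    have e : (fun n => fourierCoeff (fun x => g x + h x) n - fourierCoeff (fun x => s x + s' x) n)
        = fun n => (fourierCoeff g n - fourierCoeff s n) + (fourierCoeff h n - fourierCoeff s' n) := by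
      ext n
      rw [fc_add hg.1 hh.1, fc_add hsi hsi']; ring
    rw [e]
    have : ε / 2 + ε / 2 = ε := by ring
    rw [this] at h1
    exact h1
  · intro x
    have h1 : g x + h x - (s x + s' x) = (g x - s x) + (h x - s' x) := by ring
    rw [h1]
    refine (norm_add_le _ _).trans ?_
    have := hsx x
    have := hsx' x
    linarith

theorem Ap.const_mul {p : ℝ} (hp : 1 ≤ p) {g : UnitAddCircle → ℂ} (hg : Ap p g) (c : ℂ) :
    Ap p (fun x => c * g x) := by
  refine ⟨hg.1.const_mul c, ?_⟩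
  intro ε hε
  have hc : 0 < ‖c‖ + 1 := by positivity
  obtain ⟨s, hs, hsi, hsm, hsx⟩ := hg.2 (ε / (‖c‖ + 1)) (by positivity)
  have hle : ‖c‖ * (ε / (‖c‖ + 1)) ≤ ε := by
    rw [mul_div_assoc', div_le_iff₀ hc]
    nlinarith [norm_nonneg c]
  refine ⟨fun x => c * s x, PCzero.const_mul hs c, hsi.const_mul c, ?_, ?_⟩
  · have h1 := MB.smul (by linarith) (by positivity) c hsm
    have e : (fun n => fourierCoeff (fun x => c * g x) n - fourierCoeff (fun x => c * s x) n)
        = fun n => c * (fourierCoeff g n - fourierCoeff s n) := by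
      ext n
      rw [fc_const_mul, fc_const_mul]; ring
    rw [e]
    exact h1.mono (by linarith) (by positivity) hle
  · intro x
    rw [← mul_sub, norm_mul]
    calc _ ≤ ‖c‖ * (ε / (‖c‖ + 1)) := mul_le_mul_of_nonneg_left (hsx x) (norm_nonneg _)
      _ ≤ ε := hle

theorem Ap.translate {p : ℝ} {g : UnitAddCircle → ℂ} (hg : Ap p g) (t : UnitAddCircle) :
    Ap p (fun x => g (x - t)) := by
  refine ⟨integrable_translate hg.1 t, ?_⟩
  intro ε hε
  obtain ⟨s, hs, hsi, hsm, hsx⟩ := hg.2 ε hε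
  refine ⟨fun x => s (x - t), PCzero.translate hs t, integrable_translate hsi t, ?_, fun x => hsx _⟩
  have h1 := hsm.mod (fun n => ee (-n) t) (fun m n => by
    have : -(m - n) = (-m) - (-n) := by ring
    rw [this, ee_sub_left]) (fun n => norm_ee _ _)
  have e : (fun n => fourierCoeff (fun x => g (x - t)) n - fourierCoeff (fun x => s (x - t)) n)
      = fun n => ee (-n) t * (fourierCoeff g n - fourierCoeff s n) := by
    ext n
    rw [fc_translate, fc_translate]; ring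
  rw [e]
  exact h1

theorem Ap.const {p : ℝ} (hp : 1 ≤ p) (c : ℂ) : Ap p (fun _ => c) := by
  refine ⟨integrable_const c, ?_⟩
  intro ε hε
  refine ⟨fun _ => c, PCzero.const c, integrable_const c, ?_, ?_⟩
  · simp only [sub_self]
    exact MB_zero (by linarith) hε.le
  · intro x; simp [hε.le]

theorem Ap.sum {p : ℝ} (hp : 1 ≤ p) {ι : Type*} (T : Finset ι) (g : ι → UnitAddCircle → ℂ)
    (h : ∀ i ∈ T, Ap p (g i)) : Ap p (fun x => ∑ i ∈ T, g i x) := by
  classical
  induction T using Finset.induction_on with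
  | empty => simpa using Ap.const hp 0
  | insert i T hi ih =>
    simp only [sum_insert hi]
    exact Ap.add hp (h i (mem_insert_self _ _)) (ih fun j hj => h j (mem_insert_of_mem hj))

/-- `exp(-2πiθ{x})` -/
noncomputable def Vth (θ : ℝ) (x : UnitAddCircle) : ℂ :=
  Complex.exp (((-(2 * Real.pi * θ) * (1 / 2 - sR x) : ℝ) : ℂ) * I)

theorem norm_Vth (θ : ℝ) (x : UnitAddCircle) : ‖Vth θ x‖ = 1 := Complex.norm_exp_ofReal_mul_I _

theorem measurable_Vth (θ : ℝ) : Measurable (Vth θ) := by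
  unfold Vth
  have := measurable_sR
  fun_prop

theorem integrable_Vth (θ : ℝ) : Integrable (Vth θ) μT :=
  integrable_of_bdd (measurable_Vth θ).aestronglyMeasurable
    (Eventually.of_forall fun x => (norm_Vth θ x).le)

theorem Vth_sub_one (θ : ℝ) (x : UnitAddCircle) : ‖Vth θ x - 1‖ ≤ 2 * Real.pi * |θ| := by
  unfold Vth
  have h1 := Real.norm_exp_I_mul_ofReal_sub_one_le (x := -(2 * Real.pi * θ) * (1 / 2 - sR x))
  rw [mul_comm I] at h1
  refine h1.trans ?_
  have h2 := abs_le.mp (abs_sR_le x)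
  rw [norm_mul, norm_neg, norm_mul, norm_mul, Real.norm_eq_abs, Real.norm_eq_abs, Real.norm_eq_abs,
    Real.norm_eq_abs, abs_of_pos Real.pi_pos, abs_of_pos (by norm_num : (0 : ℝ) < 2)]
  have h3 : |1 / 2 - sR x| ≤ 1 := by
    rw [abs_le]; constructor <;> linarith [h2.1, h2.2]
  calc _ ≤ 2 * Real.pi * |θ| * 1 := mul_le_mul_of_nonneg_left h3 (by positivity)
    _ = _ := mul_one _

theorem fc_Vth (θ : ℝ) (n : ℤ) (h : (n : ℂ) + θ ≠ 0) :
    fourierCoeff (Vth θ) n
      = (1 - Complex.exp (-(2 * Real.pi * I * θ))) / (2 * Real.pi * I * (n + θ)) := by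
  rw [fourierCoeff_eq_intervalIntegral _ _ 0]
  set c : ℂ := -(2 * Real.pi * I * (n + θ)) with hc
  have hpi : (Real.pi : ℂ) ≠ 0 := by exact_mod_cast Real.pi_ne_zero
  have hc0 : c ≠ 0 := by
    rw [hc, neg_ne_zero]
    exact mul_ne_zero (mul_ne_zero (mul_ne_zero two_ne_zero hpi) I_ne_zero) h
  have h1 : ∫ x in (0 : ℝ)..0 + 1, (fourier (-n) (x : UnitAddCircle) : ℂ) • Vth θ (x : UnitAddCircle)
      = ∫ x in (0 : ℝ)..0 + 1, Complex.exp (c * x) := by
    apply intervalIntegral.integral_congr_Ioo_of_le (by norm_num)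
    intro x hx
    simp only
    rw [fourier_coe_apply, smul_eq_mul]
    unfold Vth
    rw [sR_coe_of_mem ⟨hx.1.le, by linarith [hx.2]⟩, ← Complex.exp_add]
    congr 1
    rw [hc]
    push_cast
    ring
  rw [h1, integral_exp_mul_complex hc0]
  simp only [div_one, one_smul, zero_add, Complex.ofReal_one, mul_one, Complex.ofReal_zero, mul_zero,
    Complex.exp_zero]
  have h2 : Complex.exp c = Complex.exp (-(2 * Real.pi * I * θ)) := by
    have : c = -(2 * Real.pi * I * θ) + ((-n : ℤ) : ℂ) * (2 * Real.pi * I) := by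
      rw [hc]; push_cast; ring
    rw [this, Complex.exp_add, Complex.exp_int_mul_two_pi_mul_I, mul_one]
  rw [h2]
  have h3 : (2 * Real.pi * I * (n + θ) : ℂ) = -c := by rw [hc]; ring
  rw [h3, div_neg, ← neg_div]
  congr 1
  ring

theorem MB_Vth {p : ℝ} (hp : 1 < p) : ∃ K : ℝ, 0 ≤ K ∧ ∀ θ : ℝ, θ ≠ 0 → |θ| ≤ 1 / 8 →
    MB p (K * |θ|) (fun n => (if n = 0 then 1 else 0) - fourierCoeff (Vth θ) n) := by
  obtain ⟨C, hC, hMB⟩ := MB_hk hp
  have h0 := Real.summable_one_div_int_pow.mpr (by norm_num : 1 < 2)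
  set Z : ℝ := ∑' n : ℤ, 1 / (n : ℝ) ^ 2 with hZ
  have hZ0 : 0 ≤ Z := tsum_nonneg fun n => by positivity
  have hpi := Real.pi_pos
  refine ⟨2 * C + (Z + 2 * Real.pi), by positivity, ?_⟩
  intro θ hθ hθ8
  have hθpos : 0 < |θ| := abs_pos.mpr hθ
  have hpiC : (Real.pi : ℂ) ≠ 0 := by exact_mod_cast Real.pi_ne_zero
  have hθC : (θ : ℂ) ≠ 0 := by exact_mod_cast hθ
  set z : ℂ := -(2 * Real.pi * I * θ) with hz
  have hznorm : ‖z‖ = 2 * Real.pi * |θ| := by
    rw [hz, norm_neg, norm_mul, norm_mul, norm_mul, Complex.norm_real, Complex.norm_real, Complex.norm_I,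
      Real.norm_eq_abs, Real.norm_eq_abs, abs_of_pos hpi]
    simp
  have hz1 : ‖z‖ ≤ 1 := by
    rw [hznorm]
    have : Real.pi ≤ 4 := Real.pi_le_four
    nlinarith
  have hz0 : z ≠ 0 := by
    rw [← norm_pos_iff, hznorm]; positivity
  set α : ℂ := (1 - Complex.exp z) / (2 * Real.pi * I) with hα
  have hα1 : ‖α‖ ≤ 2 * |θ| := by
    rw [hα, norm_div]
    have h1 : ‖1 - Complex.exp z‖ ≤ 2 * ‖z‖ := by
      rw [norm_sub_rev]; exact Complex.norm_exp_sub_one_le hz1
    have h2 : ‖(2 * Real.pi * I : ℂ)‖ = 2 * Real.pi := by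
      rw [norm_mul, norm_mul, Complex.norm_real, Complex.norm_I, Real.norm_eq_abs, abs_of_pos hpi]
      simp
    rw [h2, div_le_iff₀ (by positivity)]
    rw [hznorm] at h1
    linarith
  have hnz : ∀ n : ℤ, (n : ℂ) + θ ≠ 0 := by
    intro n h
    have h1 : ((n : ℝ) + θ : ℝ) = 0 := by exact_mod_cast h
    by_cases hn : n = 0
    · subst hn
      simp at h1; exact hθ h1
    · have h2 : 1 ≤ |(n : ℝ)| := by exact_mod_cast Int.one_le_abs hn
      have h3 : (n : ℝ) = -θ := by linarith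
      rw [h3, abs_neg] at h2
      linarith
  have hfc : ∀ n : ℤ, fourierCoeff (Vth θ) n = α / (n + θ) := by
    intro n
    rw [fc_Vth θ n (hnz n), hα, div_div]
  -- the remainder
  set ρ : ℤ → ℂ := fun n => ((if n = 0 then 1 else 0) - fourierCoeff (Vth θ) n) - (-α) * hk n with hρ
  have hρ0 : ‖ρ 0‖ ≤ 2 * Real.pi * |θ| := by
    have h1 : ρ 0 = -((Complex.exp z - 1 - z) / z) := by
      simp only [hρ, if_true, hfc, hk, Int.cast_zero, div_zero, mul_zero, zero_add, sub_zero, hα]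
      have hzz : (2 * Real.pi * I : ℂ) * θ = -z := by rw [hz]; ring
      rw [div_div, hzz]
      field_simp
      ring
    rw [h1, norm_neg, norm_div, div_le_iff₀ (norm_pos_iff.mpr hz0)]
    have h2 := Complex.norm_exp_sub_one_sub_id_le hz1
    rw [← hznorm]
    calc _ ≤ ‖z‖ ^ 2 := h2
      _ = _ := by ring
  have hρn : ∀ n : ℤ, n ≠ 0 → ‖ρ n‖ ≤ |θ| * (1 / (n : ℝ) ^ 2) := by
    intro n hn
    have hnR : (n : ℝ) ≠ 0 := by exact_mod_cast hn
    have hnC : (n : ℂ) ≠ 0 := by exact_mod_cast hn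
    have h1 : ρ n = α * θ / (n * (n + θ)) := by
      simp only [hρ, if_neg hn, hfc, hk]
      have := hnz n
      field_simp
      ring
    have h2 : 1 ≤ |(n : ℝ)| := by exact_mod_cast Int.one_le_abs hn
    have h3 : |(n : ℝ)| / 2 ≤ ‖(n : ℂ) + θ‖ := by
      have e : (n : ℂ) + θ = (((n : ℝ) + θ : ℝ) : ℂ) := by push_cast; rfl
      rw [e, Complex.norm_real, Real.norm_eq_abs]
      have h4 : |(n : ℝ)| - |θ| ≤ |(n : ℝ) + θ| := by
        have := abs_sub_abs_le_abs_sub (n : ℝ) (-θ)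
        rwa [abs_neg, sub_neg_eq_add] at this
      linarith
    rw [h1, norm_div, norm_mul, norm_mul, Complex.norm_real, Real.norm_eq_abs]
    have h5 : ‖(n : ℂ)‖ = |(n : ℝ)| := by
      rw [Complex.norm_intCast]
    rw [h5]
    have hn0 : 0 < |(n : ℝ)| := by linarith
    have h6 : 0 < ‖(n : ℂ) + θ‖ := by linarith
    rw [div_le_iff₀ (by positivity)]
    have h7 : |θ| * (1 / (n : ℝ) ^ 2) * (|(n : ℝ)| * ‖(n : ℂ) + θ‖) ≥ |θ| * (1 / 2) := by
      have h8 : (1 / (n : ℝ) ^ 2) * (|(n : ℝ)| * ‖(n : ℂ) + θ‖) ≥ 1 / 2 := by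
        have h9 : |(n : ℝ)| * ‖(n : ℂ) + θ‖ ≥ (n : ℝ) ^ 2 / 2 := by
          have : (n : ℝ) ^ 2 = |(n : ℝ)| * |(n : ℝ)| := by rw [← sq_abs]; ring
          rw [this]
          nlinarith
        rw [ge_iff_le, one_div_mul_eq_div, le_div_iff₀ (by positivity)]
        linarith
      calc |θ| * (1 / (n : ℝ) ^ 2) * (|(n : ℝ)| * ‖(n : ℂ) + θ‖)
          = |θ| * ((1 / (n : ℝ) ^ 2) * (|(n : ℝ)| * ‖(n : ℂ) + θ‖)) := by ring
        _ ≥ _ := mul_le_mul_of_nonneg_left h8 (abs_nonneg _)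
    have h10 : ‖α‖ * |θ| ≤ |θ| * (1 / 2) := by nlinarith [norm_nonneg α]
    linarith
  have hρs : ∀ s : Finset ℤ, ∑ n ∈ s, ‖ρ n‖ ≤ |θ| * (Z + 2 * Real.pi) := by
    intro s
    have h1 : ∀ n ∈ s, ‖ρ n‖ ≤ |θ| * (1 / (n : ℝ) ^ 2) + (if n = 0 then 2 * Real.pi * |θ| else 0) := by
      intro n _
      by_cases hn : n = 0
      · subst hn
        simpa using hρ0
      · rw [if_neg hn, add_zero]; exact hρn n hn
    calc ∑ n ∈ s, ‖ρ n‖ ≤ ∑ n ∈ s, (|θ| * (1 / (n : ℝ) ^ 2) + (if n = 0 then 2 * Real.pi * |θ| else 0)) :=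
          sum_le_sum h1
      _ = |θ| * (∑ n ∈ s, 1 / (n : ℝ) ^ 2) + ∑ n ∈ s, (if n = 0 then 2 * Real.pi * |θ| else 0) := by
          rw [sum_add_distrib, mul_sum]
      _ ≤ |θ| * Z + 2 * Real.pi * |θ| := by
          gcongr
          · exact h0.sum_le_tsum s fun n _ => by positivity
          · rw [sum_ite_eq']
            split_ifs
            · exact le_rfl
            · positivity
      _ = _ := by ring
  have hρMB : MB p (|θ| * (Z + 2 * Real.pi)) ρ := MB_of_summable hp.le ρ hρs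
  have h1 := MB.smul (by linarith) hC (-α) hMB
  have h2 := MB.add hp.le (by positivity) (by positivity) hρMB h1
  have e : (fun n => ρ n + -α * hk n) = fun n => (if n = 0 then 1 else 0) - fourierCoeff (Vth θ) n := by
    ext n; simp only [hρ]; ring
  rw [e] at h2
  refine h2.mono (by linarith) (by positivity) ?_
  rw [norm_neg]
  nlinarith

end Pool.Agent.Helper576.LpMult
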