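import Pool.Agent.Helper576.StepAp

namespace Pool.Agent.Helper576.LpMult

open Finset Complex Filter Topology MeasureTheory LpDefs

theorem nsmul_cov (N : ℕ) (x : ℝ) : N • cov x = cov (N * x) := by
  unfold cov
  rw [← AddCircle.coe_nsmul, nsmul_eq_mul]

theorem sR_cov (x : ℝ) : sR (cov x) = 1 / 2 - Int.fract x := sR_coe x

theorem ee_cov (n : ℤ) (x : ℝ) : ee n (cov x) = Complex.exp (2 * Real.pi * I * n * x) := by
  unfold ee cov
  rw [fourier_coe_apply]
  congr 1
  simp

theorem grid_fract {N j : ℕ} (hN : 0 < N) {x : ℝ} (h1 : (j : ℝ) / N ≤ x)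
    (h2 : x < ((j : ℝ) + 1) / N) : Int.fract ((N : ℝ) * x) = N * x - j := by
  have hNR : (0 : ℝ) < N := by exact_mod_cast hN
  rw [div_le_iff₀ hNR] at h1
  rw [lt_div_iff₀ hNR] at h2
  rw [Int.fract_eq_iff]
  refine ⟨by linarith, by linarith, ⟨j, ?_⟩⟩
  push_cast; ring

theorem Ap.ee_mem {p : ℝ} (hp : 1 < p) (k : ℤ) : Ap p (ee k) := by
  by_cases hk0 : k = 0
  · subst hk0
    have : ee 0 = fun _ => (1 : ℂ) := by ext x; exact ee_zero_left x
    rw [this]
    exact Ap.const hp.le 1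
  refine ⟨integrable_ee k, ?_⟩
  intro ε hε
  obtain ⟨K, hK, hKMB⟩ := MB_Vth hp
  have hpi := Real.pi_pos
  -- choose N
  have ht : Tendsto (fun N : ℕ => (|(k : ℝ)| : ℝ) / N) atTop (𝓝 0) :=
    tendsto_const_div_atTop_nhds_zero_nat _
  have hδ : 0 < min (1 / 8) (ε / (K + 2 * Real.pi)) := lt_min (by norm_num) (by positivity)
  obtain ⟨N, hN1, hN0⟩ := ((ht.eventually (gt_mem_nhds hδ)).and (eventually_gt_atTop 0)).exists
  have hNR : (0 : ℝ) < N := by exact_mod_cast hN0
  have hNC : (N : ℂ) ≠ 0 := by exact_mod_cast hN0.ne'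
  set θ : ℝ := (k : ℝ) / N with hθ
  have hθabs : |θ| = |(k : ℝ)| / N := by rw [hθ, abs_div, abs_of_pos hNR]
  have hθ1 : |θ| ≤ 1 / 8 := by rw [hθabs]; exact (hN1.le).trans (min_le_left _ _)
  have hθ2 : |θ| * (K + 2 * Real.pi) ≤ ε := by
    have h1 : |θ| ≤ ε / (K + 2 * Real.pi) := by rw [hθabs]; exact (hN1.le).trans (min_le_right _ _)
    rwa [le_div_iff₀ (by positivity)] at h1
  have hθ0 : θ ≠ 0 := by
    rw [hθ]
    have : (k : ℝ) ≠ 0 := by exact_mod_cast hk0
    positivity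
  have hθK : K * |θ| ≤ ε := by nlinarith [abs_nonneg θ]
  have hθpi : 2 * Real.pi * |θ| ≤ ε := by nlinarith [abs_nonneg θ]
  have hdil : Integrable (fun x => Vth θ (N • x)) μT := integrable_dil (integrable_Vth θ) hN0
  refine ⟨fun x => ee k x * Vth θ (N • x), ?_, integrable_ee_mul hdil k, ?_, ?_⟩
  · refine PCzero.of_grid hN0 _ (fun j => Complex.exp (2 * Real.pi * I * k * (j / N))) ?_
    intro j _ x h1 h2
    rw [nsmul_cov, ee_cov]
    unfold Vth
    rw [sR_cov, grid_fract hN0 h1 h2, ← Complex.exp_add]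
    congr 1
    rw [hθ]
    push_cast
    field_simp
    ring
  · have h1 := hKMB θ hθ0 hθ1
    have h2 : MB p (K * |θ|) (fun n => fourierCoeff (ee k) n
        - fourierCoeff (fun x => ee k x * Vth θ (N • x)) n) := by
      apply h1.dil N hN0 k _ _ _ (by linarith)
      · intro m
        rw [fc_ee, fc_char_mul k (fun x => Vth θ (N • x)), fc_dil (integrable_Vth θ) hN0]
        have hNz : (N : ℤ) ≠ 0 := by exact_mod_cast hN0.ne'
        have e1 : k + (N : ℤ) * m - k = N * m := by ring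
        rw [e1, if_pos (dvd_mul_right _ _), Int.mul_ediv_cancel_left _ hNz]
        congr 1
        by_cases hm : m = 0
        · subst hm; simp
        · have : ¬ (k + (N : ℤ) * m = k) := by
            intro h
            have : (N : ℤ) * m = 0 := by linarith
            rcases mul_eq_zero.mp this with h' | h'
            · exact hNz h'
            · exact hm h'
          rw [if_neg this, if_neg hm]
      · intro n hn
        rw [fc_ee, fc_char_mul k (fun x => Vth θ (N • x)), fc_dil (integrable_Vth θ) hN0, if_neg hn]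
        have : ¬ (n = k) := by
          intro h; apply hn; rw [h, sub_self]; exact dvd_zero _
        rw [if_neg this, sub_zero]
    exact h2.mono (by linarith) (by positivity) hθK
  · intro x
    have e : ee k x - ee k x * Vth θ (N • x) = ee k x * (1 - Vth θ (N • x)) := by ring
    rw [e, norm_mul, norm_ee, one_mul, norm_sub_rev]
    exact (Vth_sub_one θ _).trans hθpi

theorem Ap.s0_mem {p : ℝ} (hp : 1 < p) : Ap p s0 := by
  refine ⟨integrable_s0, ?_⟩
  intro ε hε
  obtain ⟨C, hC, hMB⟩ := MB_s0 hp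
  have ht : Tendsto (fun N : ℕ => (C + 1) / (N : ℝ)) atTop (𝓝 0) :=
    tendsto_const_div_atTop_nhds_zero_nat _
  obtain ⟨N, hN1, hN0⟩ := ((ht.eventually (gt_mem_nhds hε)).and (eventually_gt_atTop 0)).exists
  have hNR : (0 : ℝ) < N := by exact_mod_cast hN0
  have hNC : (N : ℂ) ≠ 0 := by exact_mod_cast hN0.ne'
  rw [div_lt_iff₀ hNR] at hN1
  have hdil : Integrable (fun x => s0 (N • x)) μT := integrable_dil integrable_s0 hN0
  have hinv : ‖(N : ℂ)⁻¹‖ = (N : ℝ)⁻¹ := by rw [norm_inv, Complex.norm_natCast]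
  refine ⟨fun x => s0 x - (N : ℂ)⁻¹ * s0 (N • x), ?_, integrable_s0.sub (hdil.const_mul _), ?_, ?_⟩
  · refine PCzero.of_grid hN0 _ (fun j => (1 / 2 - (N : ℂ)⁻¹ * (1 / 2) - j / N)) ?_
    intro j hj x h1 h2
    rw [nsmul_cov]
    unfold LpMult.s0
    have hx0 : 0 ≤ x := le_trans (by positivity) h1
    have hx1 : x < 1 := by
      refine lt_of_lt_of_le h2 ?_
      rw [div_le_one hNR]
      exact_mod_cast hj
    rw [sR_cov, sR_cov, grid_fract hN0 h1 h2, Int.fract_eq_self.mpr ⟨hx0, hx1⟩]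
    push_cast
    field_simp
    ring
  · have h1 := MB.smul (by linarith) hC (N : ℂ)⁻¹ hMB
    have h2 : MB p (‖(N : ℂ)⁻¹‖ * C) (fun n => fourierCoeff s0 n
        - fourierCoeff (fun x => s0 x - (N : ℂ)⁻¹ * s0 (N • x)) n) := by
      apply h1.dil N hN0 0 _ _ _ (by linarith)
      · intro m
        have hNz : (N : ℤ) ≠ 0 := by exact_mod_cast hN0.ne'
        rw [fc_sub integrable_s0 (hdil.const_mul _), fc_const_mul, fc_dil integrable_s0 hN0, zero_add,
          if_pos (dvd_mul_right _ _), Int.mul_ediv_cancel_left _ hNz]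
        ring
      · intro n hn
        rw [fc_sub integrable_s0 (hdil.const_mul _), fc_const_mul, fc_dil integrable_s0 hN0]
        rw [sub_zero] at hn
        rw [if_neg hn]; ring
    refine h2.mono (by linarith) (by positivity) ?_
    rw [hinv, inv_mul_le_iff₀ hNR]
    linarith
  · intro x
    have e : s0 x - (s0 x - (N : ℂ)⁻¹ * s0 (N • x)) = (N : ℂ)⁻¹ * s0 (N • x) := by ring
    rw [e, norm_mul, hinv, inv_mul_le_iff₀ hNR]
    have := norm_s0_le (N • x)
    linarith

theorem Ap.Fej_mem {p : ℝ} (hp : 1 < p) (M : ℕ) (a : ℤ → ℂ) : Ap p (fun x => Fej M a x) := by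
  unfold Fej
  exact Ap.sum hp.le _ _ fun n _ => (Ap.ee_mem hp n).const_mul hp.le _

theorem Ap.gap_mem {p : ℝ} (hp : 1 < p) (M : ℕ) (fh : ℤ → ℂ) (S : Finset UnitAddCircle)
    (b : UnitAddCircle → ℂ) : Ap p (gap M fh S b) := by
  unfold gap
  refine Ap.add hp.le (Ap.Fej_mem hp M fh) (Ap.sum hp.le _ _ fun t _ => Ap.const_mul hp.le ?_ _)
  have h1 := (Ap.s0_mem hp).translate t
  have h2 := ((Ap.Fej_mem hp M (fourierCoeff s0)).translate t).const_mul hp.le (-1)
  have h3 := Ap.add hp.le h1 h2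
  have e : (fun x => s0 (x - t) + -1 * Fej M (fourierCoeff s0) (x - t))
      = fun x => s0 (x - t) - Fej M (fourierCoeff s0) (x - t) := by
    ext x; ring
  rw [e] at h3
  exact h3

/-- main theorem in terms of convolution kernels -/
theorem positive {p : ℝ} (hp : 1 < p) {f : UnitAddCircle → ℂ} (hf : Integrable f μT)
    (hPC : ∀ ε : ℝ, 0 < ε → ∃ g ∈ PCzero, ∀ᵐ x ∂μT, ‖f x - g x‖ ≤ ε) {Cf : ℝ} (hCf : 0 ≤ Cf)
    (hMB : MB p Cf (fourierCoeff f)) :
    ∃ C : ℝ, 0 ≤ C ∧ ∀ ε : ℝ, 0 < ε → ∃ s ∈ PCzero, Integrable s μT ∧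
      MB p C (fourierCoeff s) ∧ ∀ᵐ x ∂μT, ‖f x - s x‖ ≤ ε := by
  obtain ⟨Cs, hCs, hs⟩ := MB_s0 hp
  refine ⟨Cf + 8 * Cs * Cf + 1 + 1, by positivity, ?_⟩
  intro ε hε
  obtain ⟨g, hg, hfg⟩ := hPC (ε / 16) (by positivity)
  obtain ⟨c, J, a, hrep⟩ := rep_PCzero hg
  have h1 : ∀ᵐ x ∂μT, ‖f x - stp c J a x‖ ≤ ε / 16 := by
    filter_upwards [hfg, hrep] with x hx hx'
    rw [← hx']; exact hx
  obtain ⟨M, S, b, h2, h3⟩ := prop_E hp hf hCf hMB (by positivity) h1 hCs hs
  obtain ⟨_, h4⟩ := Ap.gap_mem hp M (fourierCoeff f) S b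
  obtain ⟨s, hs1, hs2, hs3, hs4⟩ := h4 (min 1 (ε / 2)) (lt_min one_pos (by positivity))
  refine ⟨s, hs1, hs2, ?_, ?_⟩
  · have h5 : MB p 1 (fun n => fourierCoeff (gap M (fourierCoeff f) S b) n - fourierCoeff s n) :=
      hs3.mono (by linarith) (le_min zero_le_one (by positivity)) (min_le_left _ _)
    have h6 := MB.add hp.le (by positivity) zero_le_one h3 h5.neg
    have e : (fun n => fourierCoeff (gap M (fourierCoeff f) S b) n
        + -(fourierCoeff (gap M (fourierCoeff f) S b) n - fourierCoeff s n)) = fourierCoeff s := by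
      ext n; ring
    rw [e] at h6
    exact h6
  · filter_upwards [h2] with x hx
    have h7 : f x - s x = (f x - gap M (fourierCoeff f) S b x) + (gap M (fourierCoeff f) S b x - s x) := by
      ring
    rw [h7]
    refine (norm_add_le _ _).trans ?_
    have h8 := (hs4 x).trans (min_le_right _ _)
    linarith

end Pool.Agent.Helper576.LpMult
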