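import Pool.Agent.Helper576.Riesz5

namespace Pool.Agent.Helper576.LpMult

open Finset Complex Filter Topology

/-- characters `e(nt)` of the circle -/
noncomputable def ee (n : ℤ) (t : UnitAddCircle) : ℂ := fourier n t

theorem ee_add_left (m n : ℤ) (t : UnitAddCircle) : ee (m + n) t = ee m t * ee n t := by
  unfold ee; exact fourier_add

theorem ee_add_right (n : ℤ) (s t : UnitAddCircle) : ee n (s + t) = ee n s * ee n t := by
  unfold ee
  rw [fourier_apply, fourier_apply, fourier_apply, smul_add, AddCircle.toCircle_add]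
  simp

theorem ee_zero_left (t : UnitAddCircle) : ee 0 t = 1 := by unfold ee; simp

theorem ee_zero_right (n : ℤ) : ee n 0 = 1 := by unfold ee; simp

theorem norm_ee (n : ℤ) (t : UnitAddCircle) : ‖ee n t‖ = 1 := by
  unfold ee; rw [fourier_apply]; exact Circle.norm_coe _

theorem ee_ne_zero (n : ℤ) (t : UnitAddCircle) : ee n t ≠ 0 := by
  intro h
  have := norm_ee n t
  rw [h] at this; simp at this

theorem ee_neg_left (n : ℤ) (t : UnitAddCircle) : ee (-n) t = (ee n t)⁻¹ := by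
  have h := ee_add_left (-n) n t
  rw [neg_add_cancel, ee_zero_left] at h
  exact eq_inv_of_mul_eq_one_left h.symm

theorem ee_neg_right (n : ℤ) (t : UnitAddCircle) : ee n (-t) = (ee n t)⁻¹ := by
  have h := ee_add_right n (-t) t
  rw [neg_add_cancel, ee_zero_right] at h
  exact eq_inv_of_mul_eq_one_left h.symm

theorem ee_sub_left (m n : ℤ) (t : UnitAddCircle) : ee (m - n) t = ee m t * (ee n t)⁻¹ := by
  rw [sub_eq_add_neg, ee_add_left, ee_neg_left]

theorem ee_sub_right (n : ℤ) (s t : UnitAddCircle) : ee n (s - t) = ee n s * (ee n t)⁻¹ := by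
  rw [sub_eq_add_neg, ee_add_right, ee_neg_right]

theorem conj_ee (n : ℤ) (t : UnitAddCircle) : (starRingEnd ℂ) (ee n t) = ee (-n) t := by
  unfold ee; exact fourier_neg.symm

theorem ee_natCast (n : ℕ) (t : UnitAddCircle) : ee (n : ℤ) t = ee 1 t ^ n := by
  induction n with
  | zero => simp [ee_zero_left]
  | succ n ih => push_cast; rw [ee_add_left, ih, pow_succ]

theorem ee_one_ne_one {t : UnitAddCircle} (ht : t ≠ 0) : ee 1 t ≠ 1 := by
  intro h
  apply ht
  have h1 : AddCircle.toCircle t = AddCircle.toCircle (0 : UnitAddCircle) := by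
    unfold ee at h
    rw [fourier_one] at h
    rw [AddCircle.toCircle_zero]
    exact Circle.ext (by simpa using h)
  exact AddCircle.injective_toCircle one_ne_zero h1

theorem mean_ee (t : UnitAddCircle) :
    Tendsto (fun R : ℕ => ((R : ℂ))⁻¹ * ∑ σ ∈ range R, ee (σ : ℤ) t) atTop
      (𝓝 (if t = 0 then 1 else 0)) := by
  by_cases ht : t = 0
  · subst ht
    simp only [if_true]
    apply tendsto_const_nhds.congr'
    filter_upwards [eventually_gt_atTop 0] with R hR
    simp only [ee_zero_right, sum_const, card_range, nsmul_eq_mul, mul_one]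
    rw [inv_mul_cancel₀]
    exact_mod_cast hR.ne'
  · rw [if_neg ht]
    have hw : ee 1 t ≠ 1 := ee_one_ne_one ht
    have hw' : ee 1 t - 1 ≠ 0 := sub_ne_zero.mpr hw
    have hb : ∀ R : ℕ, ‖((R : ℂ))⁻¹ * ∑ σ ∈ range R, ee (σ : ℤ) t‖ ≤ (2 / ‖ee 1 t - 1‖) / R := by
      intro R
      have h1 : ∑ σ ∈ range R, ee (σ : ℤ) t = (ee 1 t ^ R - 1) / (ee 1 t - 1) := by
        simp only [ee_natCast]
        exact geom_sum_eq hw R
      rw [h1, norm_mul, norm_inv, Complex.norm_natCast, norm_div]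
      have h2 : ‖ee 1 t ^ R - 1‖ ≤ 2 := by
        refine (norm_sub_le _ _).trans ?_
        rw [norm_pow, norm_ee, one_pow, norm_one]; norm_num
      have h3 : 0 < ‖ee 1 t - 1‖ := norm_pos_iff.mpr hw'
      rw [inv_mul_eq_div]
      gcongr
    exact squeeze_zero_norm hb (tendsto_const_div_atTop_nhds_zero_nat _)

/-- mean value of a product of two real trigonometric sums with the same coefficients -/
theorem mean_UU {S : Finset UnitAddCircle} {u : UnitAddCircle → ℝ} {U : ℤ → ℝ}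
    (hU : ∀ n, (U n : ℂ) = ∑ t ∈ S, (u t : ℂ) * ee n t) (a b : ℤ) :
    Tendsto (fun R : ℕ => ((R : ℂ))⁻¹ * ∑ σ ∈ range R, (U (σ + a) : ℂ) * (U (σ + b) : ℂ)) atTop
      (𝓝 (∑ t ∈ S, (u t : ℂ) ^ 2 * ee (a - b) t)) := by
  classical
  have hU' : ∀ n, (U n : ℂ) = ∑ t ∈ S, (u t : ℂ) * ee (-n) t := by
    intro n
    have h := congrArg (starRingEnd ℂ) (hU n)
    rw [Complex.conj_ofReal, map_sum] at h
    rw [h]
    apply sum_congr rfl
    intro t _
    rw [map_mul, Complex.conj_ofReal, conj_ee]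
  have h1 : ∀ R : ℕ, ((R : ℂ))⁻¹ * ∑ σ ∈ range R, (U (σ + a) : ℂ) * (U (σ + b) : ℂ)
      = ∑ t ∈ S, ∑ t' ∈ S, (u t : ℂ) * ee a t * ((u t' : ℂ) * ee (-b) t') *
          ((R : ℂ)⁻¹ * ∑ σ ∈ range R, ee (σ : ℤ) (t - t')) := by
    intro R
    have e1 : ∀ σ ∈ range R, (U (σ + a) : ℂ) * (U (σ + b) : ℂ)
        = ∑ t ∈ S, ∑ t' ∈ S, (u t : ℂ) * ee a t * ((u t' : ℂ) * ee (-b) t') * ee (σ : ℤ) (t - t') := by
      intro σ _
      rw [hU (σ + a), hU' (σ + b), sum_mul_sum]
      apply sum_congr rfl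
      intro t _
      apply sum_congr rfl
      intro t' _
      rw [neg_add, ee_add_left, ee_add_left, ee_sub_right, ee_neg_left (σ : ℤ)]
      ring
    rw [sum_congr rfl e1, mul_sum]
    have e2 : ∀ σ ∈ range R, (R : ℂ)⁻¹ * ∑ t ∈ S, ∑ t' ∈ S,
        (u t : ℂ) * ee a t * ((u t' : ℂ) * ee (-b) t') * ee (σ : ℤ) (t - t')
        = ∑ t ∈ S, ∑ t' ∈ S, (u t : ℂ) * ee a t * ((u t' : ℂ) * ee (-b) t') * ((R : ℂ)⁻¹ * ee (σ : ℤ) (t - t')) := by
      intro σ _
      rw [mul_sum]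
      apply sum_congr rfl
      intro t _
      rw [mul_sum]
      apply sum_congr rfl
      intro t' _
      ring
    rw [sum_congr rfl e2, sum_comm]
    apply sum_congr rfl
    intro t _
    rw [sum_comm]
    apply sum_congr rfl
    intro t' _
    rw [← mul_sum, ← mul_sum]
  have h2 : (∑ t ∈ S, (u t : ℂ) ^ 2 * ee (a - b) t)
      = ∑ t ∈ S, ∑ t' ∈ S, (u t : ℂ) * ee a t * ((u t' : ℂ) * ee (-b) t') * (if t - t' = 0 then 1 else 0) := by
    apply sum_congr rfl
    intro t ht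
    simp only [sub_eq_zero, mul_ite, mul_one, mul_zero]
    rw [sum_ite_eq, if_pos ht, ee_sub_left, ee_neg_left]
    ring
  rw [h2]
  refine Tendsto.congr (fun R => (h1 R).symm) ?_
  apply tendsto_finsetSum
  intro t _
  apply tendsto_finsetSum
  intro t' _
  exact Tendsto.const_mul _ (mean_ee _)

/-- mean value of `U` -/
theorem mean_U {S : Finset UnitAddCircle} {u : UnitAddCircle → ℝ} {U : ℤ → ℝ}
    (hU : ∀ n, (U n : ℂ) = ∑ t ∈ S, (u t : ℂ) * ee n t) (h0 : 0 ∈ S) (hu0 : u 0 = 1) (a : ℤ) :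
    Tendsto (fun R : ℕ => ((R : ℝ))⁻¹ * ∑ σ ∈ range R, U (σ + a)) atTop (𝓝 1) := by
  classical
  have h1 : Tendsto (fun R : ℕ => ((R : ℂ))⁻¹ * ∑ σ ∈ range R, (U (σ + a) : ℂ)) atTop (𝓝 1) := by
    have h2 : ∀ R : ℕ, ((R : ℂ))⁻¹ * ∑ σ ∈ range R, (U (σ + a) : ℂ)
        = ∑ t ∈ S, (u t : ℂ) * ee a t * ((R : ℂ)⁻¹ * ∑ σ ∈ range R, ee (σ : ℤ) t) := by
      intro R
      simp only [hU, mul_sum]
      rw [sum_comm]
      apply sum_congr rfl
      intro t _
      apply sum_congr rfl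
      intro σ _
      rw [ee_add_left]; ring
    have h3 : (1 : ℂ) = ∑ t ∈ S, (u t : ℂ) * ee a t * (if t = 0 then 1 else 0) := by
      simp only [mul_ite, mul_one, mul_zero]
      rw [sum_ite_eq', if_pos h0, hu0, ee_zero_right]; simp
    rw [h3]
    refine Tendsto.congr (fun R => (h2 R).symm) ?_
    apply tendsto_finsetSum
    intro t _
    exact Tendsto.const_mul _ (mean_ee _)
  have h4 := (Complex.continuous_re.tendsto _).comp h1
  simp only [Complex.one_re] at h4
  refine h4.congr (fun R => ?_)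
  simp only [Function.comp]
  have : ((R : ℂ))⁻¹ * ∑ σ ∈ range R, (U (σ + a) : ℂ) = (((R : ℝ)⁻¹ * ∑ σ ∈ range R, U (σ + a) : ℝ) : ℂ) := by
    push_cast; rfl
  rw [this, Complex.ofReal_re]

end Pool.Agent.Helper576.LpMult
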