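import Pool.Agent.Helper576.Transfer1

namespace Pool.Agent.Helper576.LpMult

open Finset Complex Filter Topology

/-- box weight -/
noncomputable def chi (L : ℕ) (j : ℤ) : ℝ := if 0 ≤ j ∧ j < L then (L : ℝ)⁻¹ else 0

theorem chi_nonneg (L : ℕ) (j : ℤ) : 0 ≤ chi L j := by
  unfold chi; split_ifs <;> positivity

/-- the weights -/
noncomputable def ww (U : ℤ → ℝ) (L : ℕ) (l m σ : ℤ) : ℝ := chi L (m - l) * U (σ - l)

theorem ww_nonneg {U : ℤ → ℝ} (hU0 : ∀ n, 0 ≤ U n) (L : ℕ) (l m σ : ℤ) : 0 ≤ ww U L l m σ :=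
  mul_nonneg (chi_nonneg _ _) (hU0 _)

theorem sum_chi_mul (L : ℕ) (m : ℤ) (g : ℤ → ℝ) (hg : ∀ n, 0 ≤ g n) (A : Finset ℤ) :
    ∑ l ∈ A, chi L (m - l) * g l ≤ (L : ℝ)⁻¹ * ∑ j ∈ range L, g (m - j) := by
  classical
  have h1 : ∑ l ∈ A, chi L (m - l) * g l
      = ∑ l ∈ A.filter (fun l => 0 ≤ m - l ∧ m - l < L), (L : ℝ)⁻¹ * g l := by
    rw [sum_filter]
    apply sum_congr rfl
    intro l _
    unfold chi
    split_ifs <;> simp
  rw [h1, mul_sum]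
  have h2 : ∑ j ∈ range L, (L : ℝ)⁻¹ * g (m - j)
      = ∑ l ∈ (range L).image (fun j : ℕ => m - (j : ℤ)), (L : ℝ)⁻¹ * g l := by
    rw [sum_image]
    intro x _ y _ h
    simpa using h
  rw [h2]
  apply sum_le_sum_of_subset_of_nonneg
  · intro l hl
    rw [mem_filter] at hl
    rw [mem_image]
    refine ⟨(m - l).toNat, ?_, ?_⟩
    · rw [mem_range]; omega
    · omega
  · intro l _ _
    exact mul_nonneg (by positivity) (hg l)

theorem sum_chi_row {L : ℕ} (hL : 0 < L) (l : ℤ) (A : Finset ℤ) :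
    ∑ m ∈ A, chi L (m - l) ≤ 1 := by
  classical
  have h1 : ∑ m ∈ A, chi L (m - l)
      = ∑ m ∈ A.filter (fun m => 0 ≤ m - l ∧ m - l < L), (L : ℝ)⁻¹ := by
    rw [sum_filter]
    apply sum_congr rfl
    intro l _
    unfold chi
    split_ifs <;> simp
  rw [h1, sum_const, nsmul_eq_mul]
  have h2 : (A.filter (fun m => 0 ≤ m - l ∧ m - l < L)).card ≤ L := by
    calc _ ≤ ((range L).image (fun j : ℕ => l + (j : ℤ))).card := by
          apply card_le_card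
          intro m hm
          rw [mem_filter] at hm
          rw [mem_image]
          refine ⟨(m - l).toNat, ?_, ?_⟩
          · rw [mem_range]; omega
          · omega
      _ ≤ (range L).card := card_image_le
      _ = L := card_range L
  have hLR : (0 : ℝ) < L := by exact_mod_cast hL
  rw [← div_eq_mul_inv, div_le_one hLR]
  exact_mod_cast h2

theorem ww_col {U : ℤ → ℝ} (hU0 : ∀ n, 0 ≤ U n) {L : ℕ} (hL : 0 < L) {K : ℝ}
    (hK : ∀ r : ℤ, ∑ j ∈ range L, U (r + j) ≤ K * L) (A : Finset ℤ) (m σ : ℤ) :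
    ∑ l ∈ A, ww U L l m σ ≤ K := by
  unfold ww
  refine (sum_chi_mul L m (fun l => U (σ - l)) (fun n => hU0 _) A).trans ?_
  have h1 : ∑ j ∈ range L, U (σ - (m - j)) = ∑ j ∈ range L, U ((σ - m) + j) :=
    sum_congr rfl fun j _ => by congr 1; ring
  rw [h1]
  have hLR : (0 : ℝ) < L := by exact_mod_cast hL
  rw [inv_mul_le_iff₀ hLR, mul_comm (L : ℝ) K]
  exact hK _

theorem ww_row {U : ℤ → ℝ} (hU0 : ∀ n, 0 ≤ U n) {L : ℕ} (hL : 0 < L) (A B : Finset ℤ) (l : ℤ) :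
    ∑ σ ∈ B, ∑ m ∈ A, ww U L l m σ ≤ ∑ σ ∈ B, U (σ - l) := by
  apply sum_le_sum
  intro σ _
  unfold ww
  rw [← sum_mul]
  calc _ ≤ 1 * U (σ - l) := mul_le_mul_of_nonneg_right (sum_chi_row hL l A) (hU0 _)
    _ = _ := one_mul _

section
variable (U : ℤ → ℝ) (L : ℕ) (ψ fh : ℤ → ℂ) (D : ℕ) (s N1 N2 : Finset ℤ) (F : ℤ → ℂ)

noncomputable def FF (m σ : ℤ) : ℂ := ∑ l ∈ s, (ww U L l m σ : ℂ) * F l

noncomputable def GG (n σ : ℤ) : ℂ := ∑ m ∈ N1, ψ (n - m) * FF U L s F m σ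

noncomputable def HH (R : ℕ) (n s' : ℤ) : ℂ :=
  ∑ σ ∈ Ico (0 : ℤ) R, fh (s' - σ) * GG U L ψ s N1 F n σ

noncomputable def YY (R : ℕ) (k : ℤ) : ℂ :=
  ∑ s' ∈ Ico (-(D : ℤ)) (R + D), ∑ n ∈ N2, (ww U L k n s' : ℂ) * HH U L ψ fh s N1 F R n s'

end

theorem YY_bound {p : ℝ} (hp : 1 ≤ p) {U : ℤ → ℝ} (hU0 : ∀ n, 0 ≤ U n) {L : ℕ} (hL : 0 < L) {K : ℝ}
    (hK : ∀ r : ℤ, ∑ j ∈ range L, U (r + j) ≤ K * L) {Cψ Cf : ℝ} {ψ fh : ℤ → ℂ}
    (hψ0 : 0 ≤ Cψ) (hf0 : 0 ≤ Cf) (hψ : MB p Cψ ψ) (hf : MB p Cf fh) (D : ℕ)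
    (s t N1 N2 : Finset ℤ) (F : ℤ → ℂ) {R : ℕ} (hR : 0 < R) {η : ℝ} (hη : 0 ≤ η)
    (h1 : ∀ l ∈ s, ∑ σ ∈ Ico (0 : ℤ) R, U (σ - l) ≤ R * (1 + η))
    (h2 : ∀ k ∈ t, ∑ σ ∈ Ico (-(D : ℤ)) (R + D), U (σ - k) ≤ R * (1 + η)) :
    ∑ k ∈ t, ‖(R : ℂ)⁻¹ * YY U L ψ fh D s N1 N2 F R k‖ ^ p
      ≤ ((1 + η) * (K * Cψ * Cf)) ^ p * ∑ l ∈ s, ‖F l‖ ^ p := by
  have hp0 : 0 < p := by linarith
  have hRR : (0 : ℝ) < R := by exact_mod_cast hR
  have hK0 : 0 ≤ K := by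
    have h := ww_col hU0 hL hK ∅ 0 0
    simpa using h
  have hp1 : 0 ≤ p - 1 := by linarith
  -- bound for FF
  have hFF : ∀ m σ, ‖FF U L s F m σ‖ ^ p ≤ K ^ (p - 1) * ∑ l ∈ s, ww U L l m σ * ‖F l‖ ^ p := by
    intro m σ
    unfold FF
    calc ‖∑ l ∈ s, (ww U L l m σ : ℂ) * F l‖ ^ p ≤ (∑ l ∈ s, ww U L l m σ * ‖F l‖) ^ p := by
          apply Real.rpow_le_rpow (norm_nonneg _) _ hp0.le
          refine (norm_sum_le _ _).trans (le_of_eq (sum_congr rfl fun l _ => ?_))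
          rw [norm_mul, Complex.norm_real, Real.norm_of_nonneg (ww_nonneg hU0 _ _ _ _)]
      _ ≤ (∑ l ∈ s, ww U L l m σ) ^ (p - 1) * ∑ l ∈ s, ww U L l m σ * ‖F l‖ ^ p :=
          wpow s hp _ _ (fun l _ => ww_nonneg hU0 _ _ _ _) (fun _ _ => norm_nonneg _)
      _ ≤ _ := by
          apply mul_le_mul_of_nonneg_right
          · exact Real.rpow_le_rpow (sum_nonneg fun l _ => ww_nonneg hU0 _ _ _ _)
              (ww_col hU0 hL hK s m σ) hp1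
          · exact sum_nonneg fun l _ => mul_nonneg (ww_nonneg hU0 _ _ _ _)
              (Real.rpow_nonneg (norm_nonneg _) _)
  have hFFsum : ∑ σ ∈ Ico (0 : ℤ) R, ∑ m ∈ N1, ‖FF U L s F m σ‖ ^ p
      ≤ K ^ (p - 1) * (R * (1 + η) * ∑ l ∈ s, ‖F l‖ ^ p) := by
    calc _ ≤ ∑ σ ∈ Ico (0 : ℤ) R, ∑ m ∈ N1, K ^ (p - 1) * ∑ l ∈ s, ww U L l m σ * ‖F l‖ ^ p :=
          sum_le_sum fun σ _ => sum_le_sum fun m _ => hFF m σ
      _ = K ^ (p - 1) * ∑ l ∈ s, (∑ σ ∈ Ico (0 : ℤ) R, ∑ m ∈ N1, ww U L l m σ) * ‖F l‖ ^ p := by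
          simp only [← mul_sum]
          congr 1
          rw [show (∑ l ∈ s, (∑ σ ∈ Ico (0 : ℤ) R, ∑ m ∈ N1, ww U L l m σ) * ‖F l‖ ^ p)
            = ∑ l ∈ s, ∑ σ ∈ Ico (0 : ℤ) R, ∑ m ∈ N1, ww U L l m σ * ‖F l‖ ^ p from
            sum_congr rfl fun l _ => by
              rw [sum_mul]; exact sum_congr rfl fun σ _ => by rw [sum_mul]]
          rw [sum_comm]
          symm
          calc ∑ l ∈ s, ∑ σ ∈ Ico (0 : ℤ) R, ∑ m ∈ N1, ww U L l m σ * ‖F l‖ ^ p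
              = ∑ σ ∈ Ico (0 : ℤ) R, ∑ l ∈ s, ∑ m ∈ N1, ww U L l m σ * ‖F l‖ ^ p := sum_comm
            _ = ∑ σ ∈ Ico (0 : ℤ) R, ∑ m ∈ N1, ∑ l ∈ s, ww U L l m σ * ‖F l‖ ^ p :=
                sum_congr rfl fun σ _ => sum_comm
            _ = _ := sum_comm
      _ ≤ K ^ (p - 1) * ∑ l ∈ s, (R * (1 + η)) * ‖F l‖ ^ p := by
          apply mul_le_mul_of_nonneg_left _ (Real.rpow_nonneg hK0 _)
          apply sum_le_sum
          intro l hl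
          apply mul_le_mul_of_nonneg_right _ (Real.rpow_nonneg (norm_nonneg _) _)
          exact (ww_row hU0 hL _ _ l).trans (h1 l hl)
      _ = _ := by rw [← mul_sum]
  -- bound for GG
  have hGG : ∑ σ ∈ Ico (0 : ℤ) R, ∑ n ∈ N2, ‖GG U L ψ s N1 F n σ‖ ^ p
      ≤ Cψ ^ p * ∑ σ ∈ Ico (0 : ℤ) R, ∑ m ∈ N1, ‖FF U L s F m σ‖ ^ p := by
    rw [mul_sum]
    apply sum_le_sum
    intro σ _
    exact hψ N1 N2 (fun m => FF U L s F m σ)
  have hHH : ∑ s' ∈ Ico (-(D : ℤ)) (R + D), ∑ n ∈ N2, ‖HH U L ψ fh s N1 F R n s'‖ ^ p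
      ≤ Cf ^ p * ∑ σ ∈ Ico (0 : ℤ) R, ∑ n ∈ N2, ‖GG U L ψ s N1 F n σ‖ ^ p := by
    rw [sum_comm, sum_comm (s := Ico (0 : ℤ) R), mul_sum]
    apply sum_le_sum
    intro n _
    exact hf (Ico (0 : ℤ) R) (Ico (-(D : ℤ)) (R + D)) (fun σ => GG U L ψ s N1 F n σ)
  have hP0 : 0 ≤ ∑ l ∈ s, ‖F l‖ ^ p := sum_nonneg fun _ _ => Real.rpow_nonneg (norm_nonneg _) _
  have hHtot : ∑ s' ∈ Ico (-(D : ℤ)) (R + D), ∑ n ∈ N2, ‖HH U L ψ fh s N1 F R n s'‖ ^ p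
      ≤ Cf ^ p * (Cψ ^ p * (K ^ (p - 1) * (R * (1 + η) * ∑ l ∈ s, ‖F l‖ ^ p))) := by
    refine hHH.trans ?_
    apply mul_le_mul_of_nonneg_left _ (Real.rpow_nonneg hf0 _)
    refine hGG.trans ?_
    exact mul_le_mul_of_nonneg_left hFFsum (Real.rpow_nonneg hψ0 _)
  -- bound for YY
  have hYY : ∀ k ∈ t, ‖(R : ℂ)⁻¹ * YY U L ψ fh D s N1 N2 F R k‖ ^ p
      ≤ (R : ℝ)⁻¹ ^ p * ((R * (1 + η)) ^ (p - 1) *
        ∑ s' ∈ Ico (-(D : ℤ)) (R + D), ∑ n ∈ N2, ww U L k n s' * ‖HH U L ψ fh s N1 F R n s'‖ ^ p) := by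
    intro k hk
    rw [norm_mul, norm_inv, Complex.norm_natCast, Real.mul_rpow (by positivity) (norm_nonneg _)]
    apply mul_le_mul_of_nonneg_left _ (by positivity)
    unfold YY
    rw [← sum_product', ← sum_product']
    calc ‖∑ x ∈ Ico (-(D : ℤ)) (R + D) ×ˢ N2, (ww U L k x.2 x.1 : ℂ) * HH U L ψ fh s N1 F R x.2 x.1‖ ^ p
        ≤ (∑ x ∈ Ico (-(D : ℤ)) (R + D) ×ˢ N2, ww U L k x.2 x.1 * ‖HH U L ψ fh s N1 F R x.2 x.1‖) ^ p := by
          apply Real.rpow_le_rpow (norm_nonneg _) _ hp0.le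
          refine (norm_sum_le _ _).trans (le_of_eq (sum_congr rfl fun l _ => ?_))
          rw [norm_mul, Complex.norm_real, Real.norm_of_nonneg (ww_nonneg hU0 _ _ _ _)]
      _ ≤ (∑ x ∈ Ico (-(D : ℤ)) (R + D) ×ˢ N2, ww U L k x.2 x.1) ^ (p - 1)
          * ∑ x ∈ Ico (-(D : ℤ)) (R + D) ×ˢ N2, ww U L k x.2 x.1 * ‖HH U L ψ fh s N1 F R x.2 x.1‖ ^ p :=
          wpow _ hp _ _ (fun l _ => ww_nonneg hU0 _ _ _ _) (fun _ _ => norm_nonneg _)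
      _ ≤ _ := by
          apply mul_le_mul_of_nonneg_right
          · apply Real.rpow_le_rpow (sum_nonneg fun l _ => ww_nonneg hU0 _ _ _ _) _ hp1
            rw [sum_product' (f := fun a b => ww U L k b a)]
            exact (ww_row hU0 hL _ _ k).trans (h2 k hk)
          · exact sum_nonneg fun l _ => mul_nonneg (ww_nonneg hU0 _ _ _ _)
              (Real.rpow_nonneg (norm_nonneg _) _)
  calc ∑ k ∈ t, ‖(R : ℂ)⁻¹ * YY U L ψ fh D s N1 N2 F R k‖ ^ p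
      ≤ ∑ k ∈ t, (R : ℝ)⁻¹ ^ p * ((R * (1 + η)) ^ (p - 1) *
        ∑ s' ∈ Ico (-(D : ℤ)) (R + D), ∑ n ∈ N2, ww U L k n s' * ‖HH U L ψ fh s N1 F R n s'‖ ^ p) :=
        sum_le_sum hYY
    _ = (R : ℝ)⁻¹ ^ p * ((R * (1 + η)) ^ (p - 1) *
        ∑ s' ∈ Ico (-(D : ℤ)) (R + D), ∑ n ∈ N2, (∑ k ∈ t, ww U L k n s') *
          ‖HH U L ψ fh s N1 F R n s'‖ ^ p) := by
        rw [← mul_sum, ← mul_sum]
        congr 2
        rw [sum_comm]
        apply sum_congr rfl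
        intro s' _
        rw [sum_comm]
        exact sum_congr rfl fun n _ => by rw [sum_mul]
    _ ≤ (R : ℝ)⁻¹ ^ p * ((R * (1 + η)) ^ (p - 1) *
        ∑ s' ∈ Ico (-(D : ℤ)) (R + D), ∑ n ∈ N2, K * ‖HH U L ψ fh s N1 F R n s'‖ ^ p) := by
        apply mul_le_mul_of_nonneg_left _ (by positivity)
        apply mul_le_mul_of_nonneg_left _ (by positivity)
        apply sum_le_sum
        intro s' _
        apply sum_le_sum
        intro n _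
        exact mul_le_mul_of_nonneg_right (ww_col hU0 hL hK _ _ _) (Real.rpow_nonneg (norm_nonneg _) _)
    _ ≤ (R : ℝ)⁻¹ ^ p * ((R * (1 + η)) ^ (p - 1) *
        (K * (Cf ^ p * (Cψ ^ p * (K ^ (p - 1) * (R * (1 + η) * ∑ l ∈ s, ‖F l‖ ^ p)))))) := by
        apply mul_le_mul_of_nonneg_left _ (by positivity)
        apply mul_le_mul_of_nonneg_left _ (by positivity)
        simp only [← mul_sum]
        exact mul_le_mul_of_nonneg_left hHtot hK0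
    _ = ((1 + η) * (K * Cψ * Cf)) ^ p * ∑ l ∈ s, ‖F l‖ ^ p := by
        have e1 : (R * (1 + η)) ^ (p - 1) * (R * (1 + η)) = (R * (1 + η)) ^ p := by
          rw [Real.rpow_sub_one (by positivity)]
          field_simp
        have e2 : K * K ^ (p - 1) = K ^ p := by
          rcases hK0.eq_or_lt with h | h
          · rw [← h, zero_mul, Real.zero_rpow hp0.ne']
          · rw [Real.rpow_sub_one h.ne']
            field_simp
        have e3 : (R : ℝ)⁻¹ ^ p * (R * (1 + η)) ^ p = (1 + η) ^ p := by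
          rw [← Real.mul_rpow (by positivity) (by positivity)]
          congr 1
          field_simp
        have e4 : ((1 + η) * (K * Cψ * Cf)) ^ p = (1 + η) ^ p * (K ^ p * Cψ ^ p * Cf ^ p) := by
          rw [Real.mul_rpow (by positivity) (by positivity), Real.mul_rpow (by positivity) hf0,
            Real.mul_rpow hK0 hψ0]
        rw [e4]
        calc _ = ((R : ℝ)⁻¹ ^ p * ((R * (1 + η)) ^ (p - 1) * (R * (1 + η)))) * (K * K ^ (p - 1))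
              * Cψ ^ p * Cf ^ p * ∑ l ∈ s, ‖F l‖ ^ p := by ring
          _ = _ := by rw [e1, e2, e3]; ring

end Pool.Agent.Helper576.LpMult
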