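import Pool.Agent.Helper576.Transfer2

namespace Pool.Agent.Helper576.LpMult

open Finset Complex Filter Topology

theorem sum_Ico_cast {M : Type*} [AddCommMonoid M] (R : ℕ) (g : ℤ → M) :
    ∑ σ ∈ Ico (0 : ℤ) R, g σ = ∑ i ∈ range R, g i := by
  classical
  have : Ico (0 : ℤ) R = (range R).image (fun i : ℕ => (i : ℤ)) := by
    ext x
    rw [mem_Ico, mem_image]
    constructor
    · intro h
      exact ⟨x.toNat, by rw [mem_range]; omega, by omega⟩
    · rintro ⟨i, hi, rfl⟩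
      rw [mem_range] at hi
      omega
  rw [this, sum_image]
  intro x _ y _ h
  simpa using h

theorem sum_chi_eq (L : ℕ) (k : ℤ) (A : Finset ℤ) (hA : Ico k (k + L) ⊆ A) (g : ℤ → ℂ) :
    ∑ n ∈ A, (chi L (n - k) : ℂ) * g n = (L : ℂ)⁻¹ * ∑ i ∈ range L, g (k + i) := by
  classical
  have h1 : ∑ n ∈ A, (chi L (n - k) : ℂ) * g n = ∑ n ∈ Ico k (k + L), (L : ℂ)⁻¹ * g n := by
    rw [← sum_subset hA]
    · apply sum_congr rfl
      intro n hn
      rw [mem_Ico] at hn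
      have : 0 ≤ n - k ∧ n - k < L := by omega
      unfold chi
      rw [if_pos this]; push_cast; rfl
    · intro n _ hn
      rw [mem_Ico] at hn
      have : ¬ (0 ≤ n - k ∧ n - k < L) := by omega
      unfold chi
      rw [if_neg this]; simp
  have h2 : Ico k (k + L) = (range L).image (fun i : ℕ => k + (i : ℤ)) := by
    ext x
    rw [mem_Ico, mem_image]
    constructor
    · intro h
      exact ⟨(x - k).toNat, by rw [mem_range]; omega, by omega⟩
    · rintro ⟨i, hi, rfl⟩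
      rw [mem_range] at hi
      omega
  rw [h1, h2, sum_image, mul_sum]
  intro x _ y _ h
  simpa using h

theorem conv_window (D R : ℕ) (fh : ℤ → ℂ) (hD : ∀ b : ℤ, (D : ℤ) < |b| → fh b = 0) (g : ℤ → ℂ)
    (σ : ℤ) (hσ : σ ∈ Ico (0 : ℤ) R) :
    ∑ s' ∈ Ico (-(D : ℤ)) (R + D), fh (s' - σ) * g s'
      = ∑ b ∈ Icc (-(D : ℤ)) D, fh b * g (σ + b) := by
  classical
  rw [mem_Ico] at hσ
  have h2 : ∑ b ∈ Icc (-(D : ℤ)) D, fh b * g (σ + b)
      = ∑ s' ∈ (Icc (-(D : ℤ)) D).image (fun b => σ + b), fh (s' - σ) * g s' := by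
    rw [sum_image]
    · apply sum_congr rfl
      intro b _
      congr 2; ring
    · intro x _ y _ h
      simpa using h
  rw [h2]
  symm
  apply sum_subset
  · intro x hx
    rw [mem_image] at hx
    obtain ⟨b, hb, rfl⟩ := hx
    rw [mem_Icc] at hb
    rw [mem_Ico]
    omega
  · intro x _ hx2
    have : fh (x - σ) = 0 := by
      apply hD
      by_contra hcon
      push Not at hcon
      apply hx2
      rw [mem_image]
      refine ⟨x - σ, ?_, by ring⟩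
      rw [mem_Icc]
      have := abs_le.mp hcon
      omega
    rw [this, zero_mul]

theorem YY_eq {U : ℤ → ℝ} {L : ℕ} {ψ fh : ℤ → ℂ} {D : ℕ}
    (hD : ∀ b : ℤ, (D : ℤ) < |b| → fh b = 0) (s t : Finset ℤ) (F : ℤ → ℂ) (R : ℕ)
    {k : ℤ} (hk : k ∈ t) :
    (R : ℂ)⁻¹ * YY U L ψ fh D s (s.biUnion fun l => Ico l (l + L)) (t.biUnion fun k => Ico k (k + L)) F R k
      = ∑ l ∈ s, F l * ((L : ℂ)⁻¹ * ∑ i ∈ range L, (L : ℂ)⁻¹ * ∑ j ∈ range L, ψ (k + i - (l + j)))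
        * (∑ b ∈ Icc (-(D : ℤ)) D, fh b * ((R : ℂ)⁻¹ * ∑ σ ∈ range R,
            (U (σ + (b - k)) : ℂ) * (U (σ + (-l)) : ℂ))) := by
  classical
  set N1 := s.biUnion fun l => Ico l (l + L) with hN1
  set N2 := t.biUnion fun k => Ico k (k + L) with hN2
  have hsub2 : Ico k (k + L) ⊆ N2 := subset_biUnion_of_mem (fun k => Ico k (k + (L : ℤ))) hk
  have hsub1 : ∀ l ∈ s, Ico l (l + L) ⊆ N1 := fun l hl =>
    subset_biUnion_of_mem (fun l => Ico l (l + (L : ℤ))) hl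
  -- GG in closed form
  have hGG : ∀ n σ, GG U L ψ s N1 F n σ
      = ∑ l ∈ s, F l * (U (σ + (-l)) : ℂ) * ((L : ℂ)⁻¹ * ∑ j ∈ range L, ψ (n - (l + j))) := by
    intro n σ
    unfold GG FF ww
    simp only [mul_sum (s := s)]
    rw [sum_comm]
    apply sum_congr rfl
    intro l hl
    have h1 := sum_chi_eq L l N1 (hsub1 l hl) (fun m => ψ (n - m))
    calc ∑ m ∈ N1, ψ (n - m) * (((chi L (m - l) * U (σ - l) : ℝ) : ℂ) * F l)
        = F l * (U (σ + (-l)) : ℂ) * ∑ m ∈ N1, (chi L (m - l) : ℂ) * ψ (n - m) := by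
          rw [mul_sum]
          apply sum_congr rfl
          intro m _
          push_cast
          rw [← sub_eq_add_neg]
          ring
      _ = _ := by rw [h1]
  -- YY in closed form
  have hYY : YY U L ψ fh D s N1 N2 F R k
      = ∑ σ ∈ Ico (0 : ℤ) R, (∑ b ∈ Icc (-(D : ℤ)) D, fh b * (U (σ + (b - k)) : ℂ)) *
          ((L : ℂ)⁻¹ * ∑ i ∈ range L, GG U L ψ s N1 F (k + i) σ) := by
    unfold YY HH ww
    calc ∑ s' ∈ Ico (-(D : ℤ)) (R + D), ∑ n ∈ N2, ((chi L (n - k) * U (s' - k) : ℝ) : ℂ) *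
          ∑ σ ∈ Ico (0 : ℤ) R, fh (s' - σ) * GG U L ψ s N1 F n σ
        = ∑ s' ∈ Ico (-(D : ℤ)) (R + D), ∑ n ∈ N2, ∑ σ ∈ Ico (0 : ℤ) R,
            (fh (s' - σ) * (U (s' - k) : ℂ)) * ((chi L (n - k) : ℂ) * GG U L ψ s N1 F n σ) := by
          apply sum_congr rfl; intro s' _
          apply sum_congr rfl; intro n _
          rw [mul_sum]
          apply sum_congr rfl; intro σ _
          push_cast; ring
      _ = ∑ s' ∈ Ico (-(D : ℤ)) (R + D), ∑ σ ∈ Ico (0 : ℤ) R, ∑ n ∈ N2,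
            (fh (s' - σ) * (U (s' - k) : ℂ)) * ((chi L (n - k) : ℂ) * GG U L ψ s N1 F n σ) := by
          apply sum_congr rfl; intro s' _
          exact sum_comm
      _ = ∑ σ ∈ Ico (0 : ℤ) R, ∑ s' ∈ Ico (-(D : ℤ)) (R + D), ∑ n ∈ N2,
            (fh (s' - σ) * (U (s' - k) : ℂ)) * ((chi L (n - k) : ℂ) * GG U L ψ s N1 F n σ) := sum_comm
      _ = ∑ σ ∈ Ico (0 : ℤ) R, (∑ s' ∈ Ico (-(D : ℤ)) (R + D), fh (s' - σ) * (U (s' - k) : ℂ)) *
            (∑ n ∈ N2, (chi L (n - k) : ℂ) * GG U L ψ s N1 F n σ) := by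
          apply sum_congr rfl; intro σ _
          rw [sum_mul_sum]
      _ = _ := by
          apply sum_congr rfl; intro σ hσ
          rw [sum_chi_eq L k N2 hsub2 (fun n => GG U L ψ s N1 F n σ),
            conv_window D R fh hD (fun s' => (U (s' - k) : ℂ)) σ hσ]
          congr 1
          apply sum_congr rfl; intro b _
          congr 3; ring
  rw [hYY, sum_Ico_cast R (fun σ => (∑ b ∈ Icc (-(D : ℤ)) D, fh b * (U (σ + (b - k)) : ℂ)) *
          ((L : ℂ)⁻¹ * ∑ i ∈ range L, GG U L ψ s N1 F (k + i) σ))]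
  have h3 : ∀ σ : ℤ, (L : ℂ)⁻¹ * ∑ i ∈ range L, GG U L ψ s N1 F (k + i) σ
      = ∑ l ∈ s, F l * (U (σ + (-l)) : ℂ) *
        ((L : ℂ)⁻¹ * ∑ i ∈ range L, (L : ℂ)⁻¹ * ∑ j ∈ range L, ψ (k + i - (l + j))) := by
    intro σ
    simp only [hGG]
    rw [sum_comm, mul_sum]
    apply sum_congr rfl
    intro l _
    rw [mul_sum, mul_sum, mul_sum]
    apply sum_congr rfl
    intro i _
    ring
  simp only [h3]
  rw [mul_sum]
  have h4 : ∀ σ ∈ range R, (R : ℂ)⁻¹ * ((∑ b ∈ Icc (-(D : ℤ)) D, fh b * (U ((σ : ℤ) + (b - k)) : ℂ)) *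
      ∑ l ∈ s, F l * (U ((σ : ℤ) + (-l)) : ℂ) *
        ((L : ℂ)⁻¹ * ∑ i ∈ range L, (L : ℂ)⁻¹ * ∑ j ∈ range L, ψ (k + i - (l + j))))
      = ∑ l ∈ s, F l * ((L : ℂ)⁻¹ * ∑ i ∈ range L, (L : ℂ)⁻¹ * ∑ j ∈ range L, ψ (k + i - (l + j)))
        * (∑ b ∈ Icc (-(D : ℤ)) D, fh b * ((R : ℂ)⁻¹ *
            ((U ((σ : ℤ) + (b - k)) : ℂ) * (U ((σ : ℤ) + (-l)) : ℂ)))) := by
    intro σ _
    rw [mul_sum, mul_sum]
    apply sum_congr rfl
    intro l _
    generalize ((L : ℂ)⁻¹ * ∑ i ∈ range L, (L : ℂ)⁻¹ * ∑ j ∈ range L, ψ (k + i - (l + j))) = A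
    rw [sum_mul, mul_sum, mul_sum]
    apply sum_congr rfl
    intro b _
    ring
  rw [sum_congr rfl h4, sum_comm]
  apply sum_congr rfl
  intro l _
  rw [← mul_sum]
  congr 1
  rw [sum_comm]
  apply sum_congr rfl
  intro b _
  rw [mul_sum, mul_sum]

/-- kernel produced by the transference -/
noncomputable def tk (S : Finset UnitAddCircle) (u : UnitAddCircle → ℝ) (L D : ℕ)
    (ψ fh : ℤ → ℂ) (n : ℤ) : ℂ :=
  (∑ t ∈ S, (u t : ℂ) ^ 2 * (∑ b ∈ Icc (-(D : ℤ)) D, fh b * ee b t) * ee (-n) t) *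
    ((L : ℂ)⁻¹ * ∑ i ∈ range L, (L : ℂ)⁻¹ * ∑ j ∈ range L, ψ (n + i - j))

theorem transfer {p : ℝ} (hp : 1 ≤ p) {S : Finset UnitAddCircle} {u : UnitAddCircle → ℝ}
    {U : ℤ → ℝ} (hU : ∀ n, (U n : ℂ) = ∑ t ∈ S, (u t : ℂ) * ee n t) (hU0 : ∀ n, 0 ≤ U n)
    (h0 : 0 ∈ S) (hu0 : u 0 = 1) {L : ℕ} (hL : 0 < L) {K : ℝ}
    (hK : ∀ r : ℤ, ∑ j ∈ range L, U (r + j) ≤ K * L) {Cψ Cf : ℝ} {ψ fh : ℤ → ℂ}
    (hψ0 : 0 ≤ Cψ) (hf0 : 0 ≤ Cf) (hψ : MB p Cψ ψ) (hf : MB p Cf fh) {D : ℕ}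
    (hD : ∀ b : ℤ, (D : ℤ) < |b| → fh b = 0) :
    MB p (K * Cψ * Cf) (tk S u L D ψ fh) := by
  classical
  have hp0 : 0 < p := by linarith
  have hK0 : 0 ≤ K := by
    have h := ww_col hU0 hL hK ∅ 0 0
    simpa using h
  intro s t F
  set N1 := s.biUnion fun l => Ico l (l + (L : ℤ)) with hN1
  set N2 := t.biUnion fun k => Ico k (k + (L : ℤ)) with hN2
  -- the limit
  have hlim : ∀ k ∈ t, Tendsto (fun R : ℕ => (R : ℂ)⁻¹ * YY U L ψ fh D s N1 N2 F R k) atTop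
      (𝓝 (∑ l ∈ s, tk S u L D ψ fh (k - l) * F l)) := by
    intro k hk
    have h1 : ∀ l ∈ s, tk S u L D ψ fh (k - l) * F l
        = F l * ((L : ℂ)⁻¹ * ∑ i ∈ range L, (L : ℂ)⁻¹ * ∑ j ∈ range L, ψ (k + i - (l + j)))
        * (∑ b ∈ Icc (-(D : ℤ)) D, fh b * (∑ t ∈ S, (u t : ℂ) ^ 2 * ee ((b - k) - (-l)) t)) := by
      intro l _
      unfold tk
      have e1 : ∀ i j : ℕ, k - l + (i : ℤ) - j = k + i - (l + j) := fun i j => by ring
      simp only [e1]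
      have e2 : (∑ t ∈ S, (u t : ℂ) ^ 2 * (∑ b ∈ Icc (-(D : ℤ)) D, fh b * ee b t) * ee (-(k - l)) t)
          = ∑ b ∈ Icc (-(D : ℤ)) D, fh b * (∑ t ∈ S, (u t : ℂ) ^ 2 * ee ((b - k) - (-l)) t) := by
        simp only [mul_sum, sum_mul]
        rw [sum_comm]
        apply sum_congr rfl; intro b _
        apply sum_congr rfl; intro x _
        have : (b - k) - (-l) = b + (-(k - l)) := by ring
        rw [this, ee_add_left]
        ring
      rw [e2]; ring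
    rw [sum_congr rfl h1]
    refine Tendsto.congr (fun R => (YY_eq hD s t F R hk).symm) ?_
    apply tendsto_finsetSum
    intro l _
    apply Tendsto.const_mul
    apply tendsto_finsetSum
    intro b _
    apply Tendsto.const_mul
    exact mean_UU hU (b - k) (-l)
  -- the bound for every η > 0
  have hbd : ∀ η : ℝ, 0 < η → ∑ k ∈ t, ‖∑ l ∈ s, tk S u L D ψ fh (k - l) * F l‖ ^ p
      ≤ ((1 + η) * (K * Cψ * Cf)) ^ p * ∑ l ∈ s, ‖F l‖ ^ p := by
    intro η hη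
    have hlim2 : Tendsto (fun R : ℕ => ∑ k ∈ t, ‖(R : ℂ)⁻¹ * YY U L ψ fh D s N1 N2 F R k‖ ^ p) atTop
        (𝓝 (∑ k ∈ t, ‖∑ l ∈ s, tk S u L D ψ fh (k - l) * F l‖ ^ p)) := by
      apply tendsto_finsetSum
      intro k hk
      apply Tendsto.rpow_const
      · exact (hlim k hk).norm
      · right; exact hp0.le
    refine le_of_tendsto hlim2 ?_
    have ev1 : ∀ᶠ R : ℕ in atTop, ∀ l ∈ s, ∑ σ ∈ Ico (0 : ℤ) R, U (σ - l) ≤ R * (1 + η) := by
      rw [Filter.eventually_all_finset]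
      intro l _
      have h1 := mean_U hU h0 hu0 (-l)
      have h2 := h1.eventually (gt_mem_nhds (by linarith : (1 : ℝ) < 1 + η))
      filter_upwards [h2, eventually_gt_atTop 0] with R hR hR0
      rw [sum_Ico_cast R (fun σ => U (σ - l))]
      have hRR : (0 : ℝ) < R := by exact_mod_cast hR0
      have h3 := hR.le
      rw [inv_mul_le_iff₀ hRR] at h3
      simpa [sub_eq_add_neg] using h3
    have ev2 : ∀ᶠ R : ℕ in atTop, ∀ k ∈ t, ∑ σ ∈ Ico (-(D : ℤ)) (R + D), U (σ - k) ≤ R * (1 + η) := by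
      rw [Filter.eventually_all_finset]
      intro k _
      have h1 : Tendsto (fun R : ℕ => (((R + 2 * D : ℕ) : ℝ)⁻¹ * ∑ σ ∈ range (R + 2 * D), U (σ + (-(D : ℤ) - k))) *
          (1 + (2 * D : ℝ) / R)) atTop (𝓝 (1 * (1 + 0))) := by
        apply Tendsto.mul
        · exact (mean_U hU h0 hu0 (-(D : ℤ) - k)).comp (tendsto_add_atTop_nat (2 * D))
        · apply Tendsto.add tendsto_const_nhds
          exact tendsto_const_div_atTop_nhds_zero_nat _
      have h2 := h1.eventually (gt_mem_nhds (by linarith : (1 : ℝ) * (1 + 0) < 1 + η))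
      filter_upwards [h2, eventually_gt_atTop 0] with R hR hR0
      have hRR : (0 : ℝ) < R := by exact_mod_cast hR0
      have h3 := hR.le
      have h4 : ∑ σ ∈ Ico (-(D : ℤ)) (R + D), U (σ - k)
          = ∑ σ ∈ range (R + 2 * D), U (σ + (-(D : ℤ) - k)) := by
        have h5 : Ico (-(D : ℤ)) (R + D) = (Ico (0 : ℤ) ((R + 2 * D : ℕ) : ℤ)).image (fun x => x + (-(D : ℤ))) := by
          ext x
          rw [mem_Ico, mem_image]
          constructor
          · intro h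
            refine ⟨x + D, ?_, by ring⟩
            rw [mem_Ico]; push_cast; omega
          · rintro ⟨y, hy, rfl⟩
            rw [mem_Ico] at hy
            push_cast at hy
            omega
        rw [h5, sum_image (by intro x _ y _ h; simpa using h), sum_Ico_cast]
        apply sum_congr rfl
        intro i _
        congr 1; ring
      rw [← h4] at h3
      have e : ((R + 2 * D : ℕ) : ℝ) = R * (1 + (2 * D : ℝ) / R) := by
        push_cast
        field_simp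
      rw [e] at h3
      have hpos : 0 < 1 + (2 * D : ℝ) / R := by positivity
      have h6 : (↑R * (1 + 2 * (D : ℝ) / ↑R))⁻¹ * (∑ σ ∈ Ico (-(D : ℤ)) (R + D), U (σ - k)) *
          (1 + (2 * D : ℝ) / R) = (R : ℝ)⁻¹ * ∑ σ ∈ Ico (-(D : ℤ)) (R + D), U (σ - k) := by
        field_simp
      rw [h6, inv_mul_le_iff₀ hRR] at h3
      exact h3
    filter_upwards [ev1, ev2, eventually_gt_atTop 0] with R hR1 hR2 hR0
    exact YY_bound hp hU0 hL hK hψ0 hf0 hψ hf D s t N1 N2 F hR0 hη.le hR1 hR2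
  -- let η → 0
  have hlim3 : Tendsto (fun η : ℝ => ((1 + η) * (K * Cψ * Cf)) ^ p * ∑ l ∈ s, ‖F l‖ ^ p)
      (𝓝[>] 0) (𝓝 (((1 + 0) * (K * Cψ * Cf)) ^ p * ∑ l ∈ s, ‖F l‖ ^ p)) := by
    apply Tendsto.mul_const
    apply Tendsto.rpow_const
    · apply Tendsto.mul_const
      apply Tendsto.const_add
      exact tendsto_nhdsWithin_of_tendsto_nhds tendsto_id
    · right; exact hp0.le
  rw [add_zero, one_mul] at hlim3
  refine ge_of_tendsto hlim3 ?_
  filter_upwards [self_mem_nhdsWithin] with η hη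
  exact hbd η hη

end Pool.Agent.Helper576.LpMult
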