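import Mathlib

set_option autoImplicit false

namespace Pool.Agent.Helper576.VA

open ComplexConjugate

/-- trigonometric polynomials of degree at most one -/
abbrev P1 : Type := ℝ × ℂ
/-- trigonometric polynomials of degree at most two -/
abbrev P2 : Type := ℝ × ℂ × ℂ

/-- evaluation at a unit complex number -/
noncomputable def ev1 (L : P1) (u : ℂ) : ℝ := L.1 + (L.2 * conj u).re

noncomputable def ev2 (t : P2) (u : ℂ) : ℝ :=
  t.1 + (t.2.1 * conj u).re + (t.2.2 * (conj u) ^ 2).re

noncomputable def mul (L M : P1) : P2 :=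
  (L.1 * M.1 + (1 / 2) * (L.2 * conj M.2).re, (L.1 : ℂ) * M.2 + (M.1 : ℂ) * L.2,
    (1 / 2) * (L.2 * M.2))

noncomputable def sq (L : P1) : P2 := mul L L

theorem mul_comm' (L M : P1) : mul L M = mul M L := by
  unfold mul
  refine Prod.ext ?_ (Prod.ext ?_ ?_)
  · simp only [Complex.mul_re, Complex.conj_re, Complex.conj_im]; ring
  · simp only; ring
  · simp only; ring

theorem ev2_mul (L M : P1) (u : ℂ) (hu : ‖u‖ = 1) : ev2 (mul L M) u = ev1 L u * ev1 M u := by
  have h1 : u.re * u.re + u.im * u.im = 1 := by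
    have := Complex.normSq_apply u
    rw [← this, Complex.normSq_eq_norm_sq, hu]; norm_num
  unfold ev2 mul ev1
  simp only [Complex.add_re, Complex.mul_re, Complex.conj_re, Complex.conj_im, Complex.ofReal_re,
    Complex.ofReal_im, Complex.add_im, Complex.mul_im, pow_two]
  norm_num
  have h2 : u.im * u.im = 1 - u.re * u.re := by linarith
  linear_combination ((-1:ℝ)/2 * (L.2.re * M.2.re + L.2.im * M.2.im)) * h1

/-- evaluation is linear -/
noncomputable def evL (u : ℂ) : P2 →ₗ[ℝ] ℝ where
  toFun t := ev2 t u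
  map_add' a b := by
    unfold ev2
    simp only [Prod.fst_add, Prod.snd_add, add_mul, Complex.add_re]; ring
  map_smul' c a := by
    unfold ev2
    simp only [Prod.smul_fst, Prod.smul_snd, Complex.mul_re, Complex.real_smul, Complex.ofReal_re,
      Complex.ofReal_im, Complex.mul_im, RingHom.id_apply, smul_eq_mul]
    ring

@[simp] theorem evL_apply (u : ℂ) (t : P2) : evL u t = ev2 t u := rfl

open Polynomial in
theorem zero_of_five (t : P2) (S : Finset ℂ) (hS : ∀ u ∈ S, ‖u‖ = 1) (hc : 4 < S.card)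
    (h : ∀ u ∈ S, ev2 t u = 0) : t = 0 := by
  classical
  obtain ⟨a0, a1, a2⟩ := t
  obtain ⟨b, hb⟩ : ∃ b : ℂ, b = 2 * (a0 : ℂ) := ⟨_, rfl⟩
  set p : ℂ[X] := C a2 + C a1 * X + C b * X ^ 2 + C (conj a1) * X ^ 3 + C (conj a2) * X ^ 4
    with hp
  have hdeg : p.natDegree ≤ 4 := by
    rw [hp]; compute_degree
  have hroot : ∀ u ∈ S, p.eval u = 0 := by
    intro u hu
    have h1 := h u hu
    have hn := hS u hu
    have huc : u * conj u = 1 := by
      rw [Complex.mul_conj, Complex.normSq_eq_norm_sq, hn]; norm_num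
    have h2 : ((ev2 (a0, a1, a2) u : ℝ) : ℂ) = 0 := by rw [h1]; norm_num
    have h3 : (2:ℂ) * ((ev2 (a0, a1, a2) u : ℝ) : ℂ)
        = 2 * a0 + (a1 * conj u + conj a1 * u) + (a2 * conj u ^ 2 + conj a2 * u ^ 2) := by
      unfold ev2
      push_cast
      have e1 : (((a1 * conj u).re : ℝ) : ℂ) = (a1 * conj u + conj a1 * u) / 2 := by
        rw [Complex.re_eq_add_conj]; simp
      have e2 : (((a2 * conj u ^ 2).re : ℝ) : ℂ) = (a2 * conj u ^ 2 + conj a2 * u ^ 2) / 2 := by
        rw [Complex.re_eq_add_conj]; simp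
      simp only [e1, e2]
      ring
    rw [h2, mul_zero] at h3
    have h4 : p.eval u = u ^ 2 * (2 * a0 + (a1 * conj u + conj a1 * u)
        + (a2 * conj u ^ 2 + conj a2 * u ^ 2)) := by
      rw [hp]
      simp only [eval_add, eval_mul, eval_C, eval_X, eval_pow]
      have e3 : u ^ 2 * conj u ^ 2 = 1 := by rw [← mul_pow, huc, one_pow]
      have e4 : u ^ 2 * conj u = u := by rw [pow_two, mul_assoc, huc, mul_one]
      rw [hb]
      linear_combination (-a2) * e3 + (-a1) * e4
    rw [h4, ← h3, mul_zero]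
  have hp0 : p = 0 := by
    apply Polynomial.eq_zero_of_natDegree_lt_card_of_eval_eq_zero' p S hroot
    omega
  have c0 : a2 = 0 := by
    have := congrArg (fun r => coeff r 0) hp0
    simpa [hp, coeff_X, coeff_C] using this
  have c1 : a1 = 0 := by
    have := congrArg (fun r => coeff r 1) hp0
    simpa [hp, coeff_X, coeff_C] using this
  have c2 : (a0 : ℂ) = 0 := by
    have := congrArg (fun r => coeff r 2) hp0
    have h5 : b = 0 := by simpa [hp, coeff_X, coeff_C] using this
    rw [hb] at h5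
    simpa using h5
  have c2' : a0 = 0 := by exact_mod_cast c2
  simp [c0, c1, c2']

end Pool.Agent.Helper576.VA
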