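import Pool.Agent.Helper576.VA9

set_option autoImplicit false

namespace Pool.Agent.Helper576.VA

open ComplexConjugate

namespace Par

variable (p : Par)

theorem not_out (X D : ℤ) (h : 1 - (p.N : ℤ) ≤ D) (h' : D ≤ 1) : p.vtx X D ∉ p.outF := by
  intro hc
  obtain ⟨X', D', h1, h2, e⟩ := (p.mem_outF _).mp hc
  rw [vtx_outer _ _ _ h1, vtx_inner _ _ _ h'] at e
  have h3 := p.outer_zero X' D'
  rw [← e] at h3
  exact absurd h3 (p.ev2_rr_pos X D h h' X').ne'

theorem a2_idx (X D X' D' : ℤ) (h : 2 ≤ D) (k : 2 ≤ D')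
    (e : (p.vtx X D).2.2 = (p.vtx X' D').2.2) (l1 : 2 * X + D - (2 * X' + D') < 2 * p.n)
    (l2 : 2 * X' + D' - (2 * X + D) < 2 * p.n) : 2 * X + D = 2 * X' + D' := by
  rw [vtx_outer _ _ _ h, vtx_outer _ _ _ k, vv_snd2, vv_snd2] at e
  have h6 := mul_left_cancel₀ (by norm_num) e
  rw [show ((X : ℝ) + ((X + D : ℤ) : ℝ) + 1) = ((2 * X + D + 1 : ℤ) : ℝ) by push_cast; ring,
    show ((X' : ℝ) + ((X' + D' : ℤ) : ℝ) + 1) = ((2 * X' + D' + 1 : ℤ) : ℝ) by push_cast; ring,
    om_int_eq_iff _ p.n_pos] at h6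
  by_contra hc
  exact nd p.n (2 * X + D + 1 - (2 * X' + D' + 1)) (by omega) (by omega) (by omega) h6

theorem idx_out (X D : ℤ) (h : 1 - (p.N : ℤ) ≤ D) (hx : p.vtx X D ∈ p.outF) : 2 ≤ D := by
  by_contra hc
  exact p.not_out X D h (by omega) hx

theorem tri_a2 (t : Finset P2) (ht : p.IsTri t) (x y : P2) (hx : x ∈ t) (hy : y ∈ t)
    (hxo : x ∈ p.outF) (hyo : y ∈ p.outF) (e : x.2.2 = y.2.2) : x = y := by
  have hn8 := p.hn
  obtain ⟨X, D, h1, h2, rfl | rfl⟩ := ht
  · simp only [Finset.mem_insert, Finset.mem_singleton] at hx hy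
    rcases hx with rfl | rfl | rfl <;> rcases hy with rfl | rfl | rfl <;> try rfl
    all_goals
      have g1 := p.idx_out _ _ (by omega) hxo
      have g2 := p.idx_out _ _ (by omega) hyo
      have := p.a2_idx _ _ _ _ g1 g2 e (by omega) (by omega)
      omega
  · simp only [Finset.mem_insert, Finset.mem_singleton] at hx hy
    rcases hx with rfl | rfl | rfl <;> rcases hy with rfl | rfl | rfl <;> try rfl
    all_goals
      have g1 := p.idx_out _ _ (by omega) hxo
      have g2 := p.idx_out _ _ (by omega) hyo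
      have := p.a2_idx _ _ _ _ g1 g2 e (by omega) (by omega)
      omega

theorem no_both (t : Finset P2) (ht : p.IsTri t) (a b : ℤ) (h : 3 ≤ b - a) (h' : b - a ≤ p.n) :
    ¬ (vv p.n a (b + 1) ∈ t ∧ vv p.n (a + 1) b ∈ t) := by
  rintro ⟨h1, h2⟩
  have hn8 := p.hn
  have m1 : vv p.n a (b + 1) ∈ p.outF := p.adm_mem (a, b + 1) (by unfold Adm; simp only; omega)
  have m2 : vv p.n (a + 1) b ∈ p.outF := p.adm_mem (a + 1, b) (by unfold Adm; simp only; omega)
  have e := p.tri_a2 t ht _ _ h1 h2 m1 m2 (by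
    rw [vv_snd2, vv_snd2]; congr 2; push_cast; ring)
  obtain ⟨_, _, h5, _⟩ := p.quad_core a b h h' 0 0 1 (-1) (by rw [e]; simp) (by norm_num)
    (by norm_num)
  norm_num at h5

theorem outer_supp (t : Finset P2) (ht : p.IsTri t) (w : P2 → ℝ) (h0 : ∀ v ∉ t, w v = 0)
    (hout : ∀ v, w v ≠ 0 → v ∈ p.outF) :
    ∃ a b : ℤ, 2 ≤ b - a ∧ b - a ≤ p.n ∧ ∀ v, w v ≠ 0 → p.InQ a b v := by
  have hn8 := p.hn
  have hmem : ∀ v, w v ≠ 0 → v ∈ t := fun v hv => by
    by_contra hc; exact hv (h0 v hc)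
  obtain ⟨X, D, h1, h2, rfl | rfl⟩ := ht
  · by_cases hD : 2 ≤ D
    · refine ⟨X, X + D, by omega, by omega, ?_⟩
      intro v hv
      have := hmem v hv
      simp only [Finset.mem_insert, Finset.mem_singleton] at this
      rcases this with rfl | rfl | rfl
      · left; rw [vtx_outer _ _ _ hD]
      · right; left; rw [vtx_outer _ _ _ hD]; congr 1; ring
      · right; right; left; rw [vtx_outer _ _ _ (by omega)]; congr 1; ring
    · refine ⟨X, X + 2, by omega, by omega, ?_⟩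
      intro v hv
      have hvo := hout v hv
      have := hmem v hv
      simp only [Finset.mem_insert, Finset.mem_singleton] at this
      rcases this with rfl | rfl | rfl
      · exact absurd (p.idx_out _ _ (by omega) hvo) hD
      · exact absurd (p.idx_out _ _ (by omega) hvo) hD
      · have := p.idx_out _ _ (by omega) hvo
        left; rw [vtx_outer _ _ _ this]; congr 1; omega
  · by_cases hD : 2 ≤ D
    · refine ⟨X, X + D + 1, by omega, by omega, ?_⟩
      intro v hv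
      have := hmem v hv
      simp only [Finset.mem_insert, Finset.mem_singleton] at this
      rcases this with rfl | rfl | rfl
      · right; right; right
        refine ⟨by omega, ?_⟩
        rw [vtx_outer _ _ _ hD]; congr 1; ring
      · left; rw [vtx_outer _ _ _ (by omega)]; congr 1; ring
      · right; left; rw [vtx_outer _ _ _ (by omega)]; congr 1; ring
    · refine ⟨X, X + 2, by omega, by omega, ?_⟩
      intro v hv
      have hvo := hout v hv
      have := hmem v hv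
      simp only [Finset.mem_insert, Finset.mem_singleton] at this
      rcases this with rfl | rfl | rfl
      · exact absurd (p.idx_out _ _ (by omega) hvo) hD
      · have := p.idx_out _ _ (by omega) hvo
        left; rw [vtx_outer _ _ _ this]; congr 1; omega
      · have := p.idx_out _ _ (by omega) hvo
        right; left; rw [vtx_outer _ _ _ this]; congr 1; omega

theorem inQ_zero (a b : ℤ) (v : P2) (hv : p.InQ a b v) :
    ev2 v (om p.n ((a + 1 : ℤ) : ℝ)) = 0 ∧ ev2 v (om p.n ((b + 1 : ℤ) : ℝ)) = 0 := by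
  have hn0 := p.n_pos
  rcases hv with rfl | rfl | rfl | ⟨_, rfl⟩
  · constructor
    · rw [ev2_vv, gg_zero' p.n hn0 (a + 1 - a) (by omega), zero_mul]
    · rw [ev2_vv, gg_zero' p.n hn0 (b + 1 - b) (by omega), mul_zero]
  · constructor
    · rw [ev2_vv, gg_zero' p.n hn0 (a + 1 - (a + 1)) (by omega), zero_mul]
    · rw [ev2_vv, gg_zero' p.n hn0 (b + 1 - (b + 1)) (by omega), mul_zero]
  · constructor
    · rw [ev2_vv, gg_zero' p.n hn0 (a + 1 - a) (by omega), zero_mul]
    · rw [ev2_vv, gg_zero' p.n hn0 (b + 1 - (b + 1)) (by omega), mul_zero]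
  · constructor
    · rw [ev2_vv, gg_zero' p.n hn0 (a + 1 - (a + 1)) (by omega), zero_mul]
    · rw [ev2_vv, gg_zero' p.n hn0 (b + 1 - b) (by omega), mul_zero]

theorem tri_vert (t : Finset P2) (ht : p.IsTri t) (v : P2) (hv : v ∈ t) : p.IsVert v := by
  have hn8 := p.hn
  obtain ⟨X, D, h1, h2, rfl | rfl⟩ := ht
  · simp only [Finset.mem_insert, Finset.mem_singleton] at hv
    rcases hv with rfl | rfl | rfl
    · exact ⟨_, _, by omega, by omega, rfl⟩
    · exact ⟨_, _, by omega, by omega, rfl⟩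
    · exact ⟨_, _, by omega, by omega, rfl⟩
  · simp only [Finset.mem_insert, Finset.mem_singleton] at hv
    rcases hv with rfl | rfl | rfl
    · exact ⟨_, _, by omega, by omega, rfl⟩
    · exact ⟨_, _, by omega, by omega, rfl⟩
    · exact ⟨_, _, by omega, by omega, rfl⟩

theorem vert_cases (v : P2) (hv : p.IsVert v) : v ∈ p.outF ∨ (∀ k : ℤ, 0 < ev2 v (om p.n k)) := by
  obtain ⟨X, D, h1, h2, rfl⟩ := hv
  by_cases hD : 2 ≤ D
  · left; exact (p.mem_outF _).mpr ⟨X, D, hD, h2, rfl⟩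
  · right; intro k
    rw [vtx_inner _ _ _ (by omega)]
    exact p.ev2_rr_pos X D h1 (by omega) k

theorem vert_nonneg (v : P2) (hv : p.IsVert v) (k : ℤ) : 0 ≤ ev2 v (om p.n k) := by
  rcases p.vert_cases v hv with h | h
  · exact p.outF_nonneg v h k
  · exact (h k).le

theorem vanish (t : Finset P2) (ht : p.IsTri t) (w : P2 → ℝ) (hw : ∀ v, 0 ≤ w v)
    (h0 : ∀ v ∉ t, w v = 0) (k : ℤ) (hY : ev2 (∑ v ∈ t, w v • v) (om p.n k) = 0) (v : P2)
    (hv : w v ≠ 0) : ev2 v (om p.n k) = 0 := by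
  have hvt : v ∈ t := by
    by_contra hc; exact hv (h0 v hc)
  rw [ev2_sum] at hY
  have := (Finset.sum_eq_zero_iff_of_nonneg (fun x hx => mul_nonneg (hw x)
    (p.vert_nonneg x (p.tri_vert t ht x hx) k))).mp hY v hvt
  rcases mul_eq_zero.mp this with h | h
  · exact absurd h hv
  · exact h

theorem outer_case (t t' : Finset P2) (ht : p.IsTri t) (ht' : p.IsTri t') (w w' : P2 → ℝ)
    (hw : ∀ v, 0 ≤ w v) (hw' : ∀ v, 0 ≤ w' v) (h0 : ∀ v ∉ t, w v = 0) (h0' : ∀ v ∉ t', w' v = 0)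
    (hs : ∑ v ∈ t, w v • v = ∑ v ∈ t', w' v • v) (hout : ∀ v, w v ≠ 0 → v ∈ p.outF) :
    w = w' := by
  obtain ⟨a, b, h1, h2, hQ⟩ := p.outer_supp t ht w h0 hout
  have y1 : ev2 (∑ v ∈ t, w v • v) (om p.n ((a + 1 : ℤ) : ℝ)) = 0 := by
    rw [ev2_sum]
    apply Finset.sum_eq_zero
    intro v _
    by_cases hv : w v = 0
    · rw [hv, zero_mul]
    · rw [(p.inQ_zero a b v (hQ v hv)).1, mul_zero]
  have y2 : ev2 (∑ v ∈ t, w v • v) (om p.n ((b + 1 : ℤ) : ℝ)) = 0 := by
    rw [ev2_sum]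
    apply Finset.sum_eq_zero
    intro v _
    by_cases hv : w v = 0
    · rw [hv, zero_mul]
    · rw [(p.inQ_zero a b v (hQ v hv)).2, mul_zero]
  rw [hs] at y1 y2
  have hQ' : ∀ v, w' v ≠ 0 → p.InQ a b v := by
    intro v hv
    have z1 := p.vanish t' ht' w' hw' h0' (a + 1) y1 v hv
    have z2 := p.vanish t' ht' w' hw' h0' (b + 1) y2 v hv
    have hvt : v ∈ t' := by
      by_contra hc; exact hv (h0' v hc)
    rcases p.vert_cases v (p.tri_vert t' ht' v hvt) with h | h
    · exact p.quad_mem a b h1 h2 v h z1 z2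
    · exact absurd z1 (h (a + 1)).ne'
  exact p.quad_uniq a b h1 h2 t t' w w' hw hw' h0 h0' hs hQ hQ'
    (fun h3 => p.no_both t ht a b h3 h2) (fun h3 => p.no_both t' ht' a b h3 h2)

end Par

end Pool.Agent.Helper576.VA
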