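import Pool.Agent.Helper576.VA10

set_option autoImplicit false

namespace Pool.Agent.Helper576.VA

open ComplexConjugate

namespace Par

variable (p : Par)

/-! ### explicit form of the vertices on the rings `D ≤ 2` -/

noncomputable def aD (D : ℤ) : ℝ := if D ≤ 1 then 1 + 1 / 2 * p.rho D ^ 2 else 1 / 2 + (p.k ^ 2 + p.c ^ 2 - 1)
noncomputable def sD (D : ℤ) : ℝ := if D ≤ 1 then 2 * p.rho D else 2 * (p.k * p.c)
noncomputable def bD (D : ℤ) : ℝ := if D ≤ 1 then 1 / 2 * p.rho D ^ 2 else 1 / 2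

theorem vtx_form (X D : ℤ) (h : D ≤ 2) : p.vtx X D = (p.aD D,
    -((p.sD D : ℂ) * om p.n ((X : ℝ) + 3 / 2)), (p.bD D : ℂ) * om p.n ((X : ℝ) + 3 / 2) ^ 2) := by
  by_cases h1 : D ≤ 1
  · rw [vtx_inner _ _ _ h1, rr_eq]
    unfold aD sD bD
    rw [if_pos h1, if_pos h1, if_pos h1]
  · obtain rfl : D = 2 := by omega
    rw [vtx_outer _ _ _ (le_refl 2), vv2_sy]
    unfold aD sD bD sy
    rw [if_neg h1, if_neg h1, if_neg h1]
    refine Prod.ext rfl (Prod.ext rfl ?_)
    simp only; push_cast; ring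

theorem aD_pos (D : ℤ) : 0 < p.aD D := by
  unfold aD
  split_ifs
  · positivity
  · have := p.k_ge
    have := p.c_ge
    nlinarith

theorem sD_center : p.sD (1 - p.N) = 0 := by
  have := p.hN
  unfold sD; rw [if_pos (by omega), rho_center, mul_zero]

theorem sD_pos (D : ℤ) (h : 2 - (p.N : ℤ) ≤ D) : 0 < p.sD D := by
  unfold sD
  split_ifs
  · have := p.rho_pos D h; positivity
  · have := p.k_ge
    have := p.c_ge
    nlinarith

theorem sD_nonneg (D : ℤ) (h : 1 - (p.N : ℤ) ≤ D) : 0 ≤ p.sD D := by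
  rcases eq_or_lt_of_le h with h1 | h1
  · rw [← h1, sD_center]
  · exact (p.sD_pos D (by omega)).le

theorem ratio_lt1 (D D' : ℤ) (h : 1 - (p.N : ℤ) ≤ D) (h1 : D < D') (h2 : D' ≤ 2) :
    p.sD D * p.aD D' < p.sD D' * p.aD D := by
  have hk0 := p.k_ge
  have hk1 := p.k_lt
  have hc0 := p.c_ge
  have hc1 := p.c_lt
  have a0 := p.rho_nonneg D h
  have a1 := p.rho_lt_one D (by omega)
  by_cases h3 : D' ≤ 1
  · unfold sD aD
    rw [if_pos h3, if_pos h3, if_pos (by omega), if_pos (by omega)]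
    have a2 := p.rho_strict D D' h1
    have a3 := p.rho_lt_one D' h3
    have : 0 < (p.rho D' - p.rho D) * (2 - p.rho D * p.rho D') := by
      apply mul_pos (by linarith)
      nlinarith
    nlinarith
  · obtain rfl : D' = 2 := by omega
    unfold sD aD
    rw [if_neg h3, if_neg h3, if_pos (by omega), if_pos (by omega)]
    set r := p.rho D
    have q0 : p.k ^ 2 + p.c ^ 2 - 1 ≤ (p.k * p.c) ^ 2 := fr1 p.k p.c (by linarith) hk1 (by linarith) hc1
    have q1 : 49 / 50 * (249 / 250) ≤ p.k * p.c := by nlinarith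
    have q2 : p.k * p.c < 1 := by nlinarith
    set m := p.k * p.c
    have q3 : r * (1 / 2 + (p.k ^ 2 + p.c ^ 2 - 1)) ≤ r * (1 / 2 + m ^ 2) := by
      apply mul_le_mul_of_nonneg_left _ a0; linarith
    have q4 : r * (1 / 2 + m ^ 2) < m * (1 + 1 / 2 * r ^ 2) := by
      have : 0 < (1 - m * r) * (m - r / 2) := by
        apply mul_pos
        · nlinarith
        · linarith
      nlinarith
    nlinarith

theorem sb_ne (D : ℤ) (h : 2 - (p.N : ℤ) ≤ D) (h1 : D ≤ 1) :
    p.sD D * p.bD (D + 1) - p.sD (D + 1) * p.bD D ≠ 0 := by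
  have hk0 := p.k_ge
  have hk1 := p.k_lt
  have hc0 := p.c_ge
  have hc1 := p.c_lt
  have a0 := p.rho_pos D h
  have a1 := p.rho_lt_one D (by omega)
  apply ne_of_gt
  by_cases h3 : D + 1 ≤ 1
  · unfold sD bD
    rw [if_pos h3, if_pos h3, if_pos h1, if_pos h1]
    have a2 := p.rho_strict D (D + 1) (by omega)
    have : 0 < p.rho D * p.rho (D + 1) * (p.rho (D + 1) - p.rho D) :=
      mul_pos (mul_pos a0 (by linarith)) (by linarith)
    nlinarith
  · unfold sD bD
    rw [if_neg h3, if_neg h3, if_pos (by omega), if_pos (by omega)]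
    set r := p.rho D
    have q2 : p.k * p.c < 1 := by nlinarith
    have : 0 < r * (1 - p.k * p.c * r) := mul_pos a0 (by nlinarith)
    nlinarith

theorem two_dir (P Q : ℝ) (t : ℝ) (h : (P : ℂ) * om p.n t + (Q : ℂ) * (om p.n (t + 1)) = 0) :
    P = 0 ∧ Q = 0 := by
  have hn8 := p.hn
  have h1 : (P : ℂ) + Q * om p.n 1 = 0 := by
    have e : om p.n (t + 1) = om p.n t * om p.n 1 := om_add _ _ _
    have hne : om p.n t ≠ 0 := by
      intro h; have := om_norm p.n t; rw [h] at this; norm_num at this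
    rw [e] at h
    have : om p.n t * ((P : ℂ) + Q * om p.n 1) = 0 := by rw [← h]; ring
    exact (mul_eq_zero.mp this).resolve_left hne
  have him := congrArg Complex.im h1
  have hre := congrArg Complex.re h1
  simp only [Complex.add_im, Complex.ofReal_im, Complex.im_ofReal_mul, zero_add, Complex.zero_im,
    Complex.add_re, Complex.ofReal_re, Complex.re_ofReal_mul, Complex.zero_re] at him hre
  have hs : 0 < (om p.n 1).im := by
    rw [om_im]
    apply Real.sin_pos_of_pos_of_lt_pi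
    · have := Real.pi_pos
      positivity
    · have hn : (8 : ℝ) ≤ p.n := by exact_mod_cast hn8
      have := Real.pi_pos
      rw [mul_one, div_lt_iff₀ (by linarith)]
      nlinarith
  have hQ : Q = 0 := (mul_eq_zero.mp him).resolve_right hs.ne'
  rw [hQ] at hre
  exact ⟨by linarith, hQ⟩

theorem cell_indep (X D : ℤ) (h : 2 - (p.N : ℤ) ≤ D) (h1 : D ≤ 1) (x1 x2 x3 x4 : ℝ)
    (e : x1 • p.vtx X D + x2 • p.vtx (X + 1) D + x3 • p.vtx X (D + 1) + x4 • p.vtx (X + 1) (D + 1)
      = 0) : x1 = 0 ∧ x2 = 0 ∧ x3 = 0 ∧ x4 = 0 := by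
  rw [vtx_form _ _ _ (by omega), vtx_form _ _ _ (by omega), vtx_form _ _ _ (by omega),
    vtx_form _ _ _ (by omega)] at e
  have e0 := congrArg (fun v : P2 => v.1) e
  have e1 := congrArg (fun v : P2 => v.2.1) e
  have e2 := congrArg (fun v : P2 => v.2.2) e
  simp only [Prod.fst_add, Prod.snd_add, Prod.smul_fst, Prod.smul_snd, Prod.fst_zero, Prod.snd_zero,
    smul_eq_mul, Complex.real_smul] at e0 e1 e2
  set A := p.aD D
  set A' := p.aD (D + 1)
  set s := p.sD D
  set s' := p.sD (D + 1)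
  set b := p.bD D
  set b' := p.bD (D + 1)
  have t1 := p.two_dir (x1 * s + x3 * s') (x2 * s + x4 * s') ((X : ℝ) + 3 / 2) (by
    push_cast at e1 ⊢
    rw [show (X : ℝ) + 1 + 3 / 2 = (X : ℝ) + 3 / 2 + 1 by ring] at e1
    linear_combination -e1)
  obtain ⟨t1, t2⟩ := t1
  have hr := p.ratio_lt1 D (D + 1) (by omega) (by omega) (by omega)
  have u1 : (x1 + x2) * A + (x3 + x4) * A' = 0 := by linarith
  have u2 : (x1 + x2) * s + (x3 + x4) * s' = 0 := by linarith
  have u3 : (x1 + x2) * (s' * A - s * A') = 0 := by linear_combination s' * u1 - A' * u2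
  have u4 : (x3 + x4) * (s' * A - s * A') = 0 := by linear_combination A * u2 - s * u1
  have hne : s' * A - s * A' ≠ 0 := by
    apply ne_of_gt; linarith
  have u5 : x1 + x2 = 0 := (mul_eq_zero.mp u3).resolve_right hne
  have u6 : x3 + x4 = 0 := (mul_eq_zero.mp u4).resolve_right hne
  have x2e : x2 = -x1 := by linarith
  have x4e : x4 = -x3 := by linarith
  have t3 : x1 * b + x3 * b' = 0 := by
    have hw : om p.n ((X : ℝ) + 3 / 2) ≠ 0 := by
      intro h; have := om_norm p.n ((X : ℝ) + 3 / 2); rw [h] at this; norm_num at this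
    have e3 : ((x1 * b + x3 * b' : ℝ) : ℂ) * (om p.n ((X : ℝ) + 3 / 2) ^ 2
        - om p.n (((X + 1 : ℤ) : ℝ) + 3 / 2) ^ 2) = 0 := by
      rw [x2e, x4e] at e2
      push_cast at e2 ⊢
      linear_combination e2
    rcases mul_eq_zero.mp e3 with h | h
    · exact_mod_cast h
    · exfalso
      have h5 : om p.n ((2 * X + 3 : ℤ) : ℝ) = om p.n ((2 * X + 5 : ℤ) : ℝ) := by
        have e6 := sub_eq_zero.mp h
        rw [pow_two, pow_two, ← om_add, ← om_add] at e6
        have a1 : ((2 * X + 3 : ℤ) : ℝ) = (X : ℝ) + 3 / 2 + ((X : ℝ) + 3 / 2) := by push_cast; ring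
        have a2 : ((2 * X + 5 : ℤ) : ℝ)
            = ((X + 1 : ℤ) : ℝ) + 3 / 2 + (((X + 1 : ℤ) : ℝ) + 3 / 2) := by push_cast; ring
        rw [a1, a2]; exact e6
      rw [om_int_eq_iff _ p.n_pos] at h5
      have hn8 := p.hn
      exact nd p.n _ (by omega) (by omega) (by omega) h5
  have hb := p.sb_ne D h h1
  have u7 : x1 * (s * b' - s' * b) = 0 := by linear_combination b' * t1 - s' * t3
  have x1e : x1 = 0 := (mul_eq_zero.mp u7).resolve_right hb
  have hs' : s' ≠ 0 := (p.sD_pos (D + 1) (by omega)).ne'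
  have x3e : x3 = 0 := by
    rw [x1e] at t1
    have : x3 * s' = 0 := by linarith
    exact (mul_eq_zero.mp this).resolve_right hs'
  refine ⟨x1e, by linarith, x3e, by linarith⟩

theorem fan_indep (X : ℤ) (x1 x3 x4 : ℝ)
    (e : x1 • p.vtx X (1 - p.N) + x3 • p.vtx X (2 - p.N) + x4 • p.vtx (X + 1) (2 - p.N)
      = 0) : x1 = 0 ∧ x3 = 0 ∧ x4 = 0 := by
  have hN := p.hN
  rw [vtx_form _ _ _ (by omega), vtx_form _ _ _ (by omega), vtx_form _ _ _ (by omega)] at e
  have e0 := congrArg (fun v : P2 => v.1) e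
  have e1 := congrArg (fun v : P2 => v.2.1) e
  simp only [Prod.fst_add, Prod.snd_add, Prod.smul_fst, Prod.smul_snd, Prod.fst_zero, Prod.snd_zero,
    smul_eq_mul, Complex.real_smul, sD_center] at e0 e1
  have ha := p.aD_pos (1 - p.N)
  have hs' : p.sD (2 - p.N) ≠ 0 := (p.sD_pos (2 - p.N) (by omega)).ne'
  have t1 := p.two_dir (x3 * p.sD (2 - p.N)) (x4 * p.sD (2 - p.N)) ((X : ℝ) + 3 / 2) (by
    push_cast at e1 ⊢
    rw [show (X : ℝ) + 1 + 3 / 2 = (X : ℝ) + 3 / 2 + 1 by ring] at e1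
    linear_combination -e1)
  have x3e : x3 = 0 := (mul_eq_zero.mp t1.1).resolve_right hs'
  have x4e : x4 = 0 := (mul_eq_zero.mp t1.2).resolve_right hs'
  rw [x3e, x4e] at e0
  have : x1 * p.aD (1 - p.N) = 0 := by linarith
  exact ⟨(mul_eq_zero.mp this).resolve_right ha.ne', x3e, x4e⟩

/-- the cell -/
noncomputable def cell (X D : ℤ) : Finset P2 :=
  {p.vtx X D, p.vtx (X + 1) D, p.vtx X (D + 1), p.vtx (X + 1) (D + 1)}

theorem cell_uniq (X D : ℤ) (h : 1 - (p.N : ℤ) ≤ D) (h1 : D ≤ 1) (t t' : Finset P2)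
    (w w' : P2 → ℝ) (h0 : ∀ v ∉ t, w v = 0) (h0' : ∀ v ∉ t', w' v = 0)
    (hs : ∑ v ∈ t, w v • v = ∑ v ∈ t', w' v • v)
    (hQ : ∀ v ∉ p.cell X D, w v = 0) (hQ' : ∀ v ∉ p.cell X D, w' v = 0) : w = w' := by
  classical
  have hN := p.hN
  rw [sum_supp w t _ h0 hQ, sum_supp w' t' _ h0' hQ'] at hs
  rcases eq_or_lt_of_le h with hD | hD
  · subst hD
    have ec : p.cell X (1 - p.N) = {p.vtx X (1 - p.N), p.vtx X (2 - p.N), p.vtx (X + 1) (2 - p.N)} := by
      unfold cell
      rw [vtx_center, vtx_center, show (1 : ℤ) - p.N + 1 = 2 - p.N by ring]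
      ext v; simp
    rw [ec] at hs hQ hQ'
    have d12 : p.vtx X (1 - p.N) ≠ p.vtx X (2 - p.N) := by
      intro hc
      obtain ⟨h5, _, _⟩ := p.fan_indep X 1 (-1) 0 (by rw [hc]; simp)
      norm_num at h5
    have d13 : p.vtx X (1 - p.N) ≠ p.vtx (X + 1) (2 - p.N) := by
      intro hc
      obtain ⟨h5, _, _⟩ := p.fan_indep X 1 0 (-1) (by rw [hc]; simp)
      norm_num at h5
    have d23 : p.vtx X (2 - p.N) ≠ p.vtx (X + 1) (2 - p.N) := by
      intro hc
      obtain ⟨_, h5, _⟩ := p.fan_indep X 0 1 (-1) (by rw [hc]; simp)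
      norm_num at h5
    have s3 : ∀ g : P2 → ℝ, ∑ v ∈ ({p.vtx X (1 - p.N), p.vtx X (2 - p.N),
        p.vtx (X + 1) (2 - p.N)} : Finset P2), g v • v = g (p.vtx X (1 - p.N)) • p.vtx X (1 - p.N)
        + g (p.vtx X (2 - p.N)) • p.vtx X (2 - p.N)
        + g (p.vtx (X + 1) (2 - p.N)) • p.vtx (X + 1) (2 - p.N) := by
      intro g
      rw [Finset.sum_insert (by simp [d12, d13]), Finset.sum_insert (by simp [d23]),
        Finset.sum_singleton, add_assoc]
    rw [s3, s3] at hs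
    have key := p.fan_indep X (w (p.vtx X (1 - p.N)) - w' (p.vtx X (1 - p.N)))
      (w (p.vtx X (2 - p.N)) - w' (p.vtx X (2 - p.N)))
      (w (p.vtx (X + 1) (2 - p.N)) - w' (p.vtx (X + 1) (2 - p.N))) (by
        rw [sub_smul, sub_smul, sub_smul]
        rw [← sub_eq_zero] at hs
        rw [← hs]; abel)
    funext v
    by_cases hv : v ∈ ({p.vtx X (1 - p.N), p.vtx X (2 - p.N), p.vtx (X + 1) (2 - p.N)} : Finset P2)
    · simp only [Finset.mem_insert, Finset.mem_singleton] at hv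
      rcases hv with rfl | rfl | rfl
      · linarith [key.1]
      · linarith [key.2.1]
      · linarith [key.2.2]
    · rw [hQ v hv, hQ' v hv]
  · have hD' : 2 - (p.N : ℤ) ≤ D := by omega
    unfold cell at hs hQ hQ'
    have d12 : p.vtx X D ≠ p.vtx (X + 1) D := by
      intro hc
      obtain ⟨h5, _⟩ := p.cell_indep X D hD' h1 1 (-1) 0 0 (by rw [hc]; simp)
      norm_num at h5
    have d13 : p.vtx X D ≠ p.vtx X (D + 1) := by
      intro hc
      obtain ⟨h5, _⟩ := p.cell_indep X D hD' h1 1 0 (-1) 0 (by rw [hc]; simp)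
      norm_num at h5
    have d14 : p.vtx X D ≠ p.vtx (X + 1) (D + 1) := by
      intro hc
      obtain ⟨h5, _⟩ := p.cell_indep X D hD' h1 1 0 0 (-1) (by rw [hc]; simp)
      norm_num at h5
    have d23 : p.vtx (X + 1) D ≠ p.vtx X (D + 1) := by
      intro hc
      obtain ⟨_, h5, _⟩ := p.cell_indep X D hD' h1 0 1 (-1) 0 (by rw [hc]; simp)
      norm_num at h5
    have d24 : p.vtx (X + 1) D ≠ p.vtx (X + 1) (D + 1) := by
      intro hc
      obtain ⟨_, h5, _⟩ := p.cell_indep X D hD' h1 0 1 0 (-1) (by rw [hc]; simp)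
      norm_num at h5
    have d34 : p.vtx X (D + 1) ≠ p.vtx (X + 1) (D + 1) := by
      intro hc
      obtain ⟨_, _, h5, _⟩ := p.cell_indep X D hD' h1 0 0 1 (-1) (by rw [hc]; simp)
      norm_num at h5
    have s4 : ∀ g : P2 → ℝ, ∑ v ∈ ({p.vtx X D, p.vtx (X + 1) D, p.vtx X (D + 1),
        p.vtx (X + 1) (D + 1)} : Finset P2), g v • v = g (p.vtx X D) • p.vtx X D
        + g (p.vtx (X + 1) D) • p.vtx (X + 1) D
        + g (p.vtx X (D + 1)) • p.vtx X (D + 1)
        + g (p.vtx (X + 1) (D + 1)) • p.vtx (X + 1) (D + 1) := by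
      intro g
      rw [Finset.sum_insert (by simp [d12, d13, d14]), Finset.sum_insert (by simp [d23, d24]),
        Finset.sum_insert (by simp [d34]), Finset.sum_singleton, add_assoc, add_assoc]
    rw [s4, s4] at hs
    have key := p.cell_indep X D hD' h1 (w (p.vtx X D) - w' (p.vtx X D))
      (w (p.vtx (X + 1) D) - w' (p.vtx (X + 1) D))
      (w (p.vtx X (D + 1)) - w' (p.vtx X (D + 1)))
      (w (p.vtx (X + 1) (D + 1)) - w' (p.vtx (X + 1) (D + 1))) (by
        rw [sub_smul, sub_smul, sub_smul, sub_smul]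
        rw [← sub_eq_zero] at hs
        rw [← hs]; abel)
    funext v
    by_cases hv : v ∈ ({p.vtx X D, p.vtx (X + 1) D, p.vtx X (D + 1),
        p.vtx (X + 1) (D + 1)} : Finset P2)
    · simp only [Finset.mem_insert, Finset.mem_singleton] at hv
      rcases hv with rfl | rfl | rfl | rfl
      · linarith [key.1]
      · linarith [key.2.1]
      · linarith [key.2.2.1]
      · linarith [key.2.2.2]
    · rw [hQ v hv, hQ' v hv]

end Par

end Pool.Agent.Helper576.VA
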