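import Pool.Agent.Helper576.VA11

set_option autoImplicit false

namespace Pool.Agent.Helper576.VA

open ComplexConjugate

namespace Par

variable (p : Par)

/-- sector functional -/
noncomputable def Gam (X : ℤ) : P2 →ₗ[ℝ] ℝ where
  toFun v := -(v.2.1 * conj (om p.n ((X : ℝ) + 2))).re
  map_add' a b := by
    simp only [Prod.fst_add, Prod.snd_add, add_mul, Complex.add_re]; ring
  map_smul' c a := by
    simp only [Prod.smul_fst, Prod.smul_snd, Complex.real_smul, RingHom.id_apply, smul_eq_mul]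
    rw [mul_assoc, Complex.re_ofReal_mul]; ring

theorem Gam_vtx (X Y D : ℤ) (h : D ≤ 2) : p.Gam X (p.vtx Y D) = p.sD D * (p.k - gg p.n (Y - X)) := by
  show -((p.vtx Y D).2.1 * conj (om p.n ((X : ℝ) + 2))).re = _
  rw [vtx_form _ _ _ h]
  simp only
  rw [om_conj, neg_mul, mul_assoc, ← om_add, Complex.neg_re, Complex.re_ofReal_mul, om_re]
  unfold gg
  rw [k_eq]
  rw [show Real.pi * ((Y : ℝ) + 3 / 2 + -((X : ℝ) + 2)) / p.n
    = Real.pi * (((Y - X : ℤ) : ℝ) - 1 / 2) / p.n by push_cast; ring]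
  ring

theorem nrm_vtx (Y D : ℤ) (h' : 1 - (p.N : ℤ) ≤ D) (h : D ≤ 2) : ‖(p.vtx Y D).2.1‖ = p.sD D := by
  rw [vtx_form _ _ _ h]
  simp only
  rw [norm_neg, norm_mul, om_norm, mul_one, Complex.norm_real, Real.norm_of_nonneg (p.sD_nonneg D h')]

theorem fst_vtx (Y D : ℤ) (h : D ≤ 2) : (p.vtx Y D).1 = p.aD D := by
  rw [vtx_form _ _ _ h]

theorem cell_mem (X D : ℤ) (v : P2) (hv : v ∈ p.cell X D) :
    ∃ Y E : ℤ, (Y = X ∨ Y = X + 1) ∧ (E = D ∨ E = D + 1) ∧ v = p.vtx Y E := by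
  unfold cell at hv
  simp only [Finset.mem_insert, Finset.mem_singleton] at hv
  rcases hv with h | h | h | h
  · exact ⟨X, D, Or.inl rfl, Or.inl rfl, h⟩
  · exact ⟨X + 1, D, Or.inr rfl, Or.inl rfl, h⟩
  · exact ⟨X, D + 1, Or.inl rfl, Or.inr rfl, h⟩
  · exact ⟨X + 1, D + 1, Or.inr rfl, Or.inr rfl, h⟩

theorem Gam_cell (X D : ℤ) (h : 1 - (p.N : ℤ) ≤ D) (h1 : D ≤ 1) (v : P2) (hv : v ∈ p.cell X D) :
    p.Gam X v = p.k * ‖v.2.1‖ := by
  obtain ⟨Y, E, hY, hE, rfl⟩ := p.cell_mem X D v hv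
  rw [Gam_vtx _ _ _ _ (by omega), nrm_vtx _ _ _ (by omega) (by omega),
    gg_zero' _ p.n_pos (Y - X) (by omega)]
  ring

theorem Gam_le (X X' D : ℤ) (h : 1 - (p.N : ℤ) ≤ D) (h1 : D ≤ 1) (v : P2) (hv : v ∈ p.cell X' D) :
    p.Gam X v ≤ p.k * ‖v.2.1‖ := by
  obtain ⟨Y, E, hY, hE, rfl⟩ := p.cell_mem X' D v hv
  rw [Gam_vtx _ _ _ _ (by omega), nrm_vtx _ _ _ (by omega) (by omega)]
  have h2 := gg_nonneg p.n p.n_pos (Y - X)
  have h3 := p.sD_nonneg E (by omega)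
  nlinarith

theorem Gam_eq (X Y E : ℤ) (h : 1 - (p.N : ℤ) ≤ E) (h1 : E ≤ 2)
    (e : p.Gam X (p.vtx Y E) = p.k * ‖(p.vtx Y E).2.1‖) :
    p.vtx Y E = p.vtx X E ∨ p.vtx Y E = p.vtx (X + 1) E := by
  rw [Gam_vtx _ _ _ _ h1, nrm_vtx _ _ _ h h1] at e
  have e1 : p.sD E * gg p.n (Y - X) = 0 := by linarith
  rcases mul_eq_zero.mp e1 with h2 | h2
  · have : E = 1 - (p.N : ℤ) := by
      by_contra hc
      exact absurd h2 (p.sD_pos E (by omega)).ne'
    subst this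
    left; rw [vtx_center, vtx_center]
  · rw [gg_eq_zero_iff _ p.n_pos] at h2
    rcases h2 with ⟨k, hk⟩ | ⟨k, hk⟩
    · left
      have : Y = X + 2 * p.n * k := by linarith
      rw [this, vtx_per]
    · right
      have : Y = X + 1 + 2 * p.n * k := by linarith
      rw [this, vtx_per]

theorem lin_sum (f : P2 →ₗ[ℝ] ℝ) (w : P2 → ℝ) (s : Finset P2) :
    f (∑ v ∈ s, w v • v) = ∑ v ∈ s, w v * f v := by
  rw [map_sum]
  apply Finset.sum_congr rfl
  intro v _; rw [map_smul]; rfl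

theorem gauge (t t' : Finset P2) (X D X' D' : ℤ) (ht : t ⊆ p.cell X D) (ht' : t' ⊆ p.cell X' D')
    (hD : 1 - (p.N : ℤ) ≤ D) (hD1 : D ≤ 1) (hD' : 1 - (p.N : ℤ) ≤ D') (hD1' : D' ≤ 1)
    (w w' : P2 → ℝ) (hw : ∀ v, 0 ≤ w v) (hw' : ∀ v, 0 ≤ w' v)
    (hs : ∑ v ∈ t, w v • v = ∑ v ∈ t', w' v • v) :
    (∑ v ∈ t, w v * ‖v.2.1‖ = ∑ v ∈ t', w' v * ‖v.2.1‖) ∧
      ∀ v ∈ t', w' v ≠ 0 → p.Gam X v = p.k * ‖v.2.1‖ := by
  have hk : 0 < p.k := by have := p.k_ge; linarith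
  have g1 : p.Gam X (∑ v ∈ t, w v • v) = p.k * ∑ v ∈ t, w v * ‖v.2.1‖ := by
    rw [lin_sum, Finset.mul_sum]
    apply Finset.sum_congr rfl
    intro v hv
    rw [p.Gam_cell X D hD hD1 v (ht hv)]; ring
  have g2 : p.Gam X' (∑ v ∈ t', w' v • v) = p.k * ∑ v ∈ t', w' v * ‖v.2.1‖ := by
    rw [lin_sum, Finset.mul_sum]
    apply Finset.sum_congr rfl
    intro v hv
    rw [p.Gam_cell X' D' hD' hD1' v (ht' hv)]; ring
  have g3 : p.Gam X (∑ v ∈ t', w' v • v) ≤ p.k * ∑ v ∈ t', w' v * ‖v.2.1‖ := by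
    rw [lin_sum, Finset.mul_sum]
    apply Finset.sum_le_sum
    intro v hv
    have := mul_le_mul_of_nonneg_left (p.Gam_le X X' D' hD' hD1' v (ht' hv)) (hw' v)
    linarith
  have g4 : p.Gam X' (∑ v ∈ t, w v • v) ≤ p.k * ∑ v ∈ t, w v * ‖v.2.1‖ := by
    rw [lin_sum, Finset.mul_sum]
    apply Finset.sum_le_sum
    intro v hv
    have := mul_le_mul_of_nonneg_left (p.Gam_le X' X D hD hD1 v (ht hv)) (hw v)
    linarith
  rw [hs] at g1 g4
  have e : p.k * ∑ v ∈ t, w v * ‖v.2.1‖ = p.k * ∑ v ∈ t', w' v * ‖v.2.1‖ := by linarith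
  refine ⟨mul_left_cancel₀ hk.ne' e, ?_⟩
  intro v hv hne
  have z : ∑ v ∈ t', w' v * (p.k * ‖v.2.1‖ - p.Gam X v) = 0 := by
    have : ∑ v ∈ t', w' v * (p.k * ‖v.2.1‖ - p.Gam X v)
        = p.k * ∑ v ∈ t', w' v * ‖v.2.1‖ - ∑ v ∈ t', w' v * p.Gam X v := by
      rw [Finset.mul_sum, ← Finset.sum_sub_distrib]
      apply Finset.sum_congr rfl
      intro v _; ring
    rw [this, ← lin_sum, g1, e, sub_self]
  have z2 := (Finset.sum_eq_zero_iff_of_nonneg (fun x hx => mul_nonneg (hw' x)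
    (sub_nonneg.mpr (p.Gam_le X X' D' hD' hD1' x (ht' hx))))).mp z v hv
  rcases mul_eq_zero.mp z2 with h | h
  · exact absurd h hne
  · linarith

theorem lev_sum (s : Finset P2) (w : P2 → ℝ) (E : ℤ) :
    ∑ v ∈ s, w v * (‖v.2.1‖ * p.aD E - v.1 * p.sD E)
      = (∑ v ∈ s, w v * ‖v.2.1‖) * p.aD E - (∑ v ∈ s, w v • v).1 * p.sD E := by
  rw [Prod.fst_sum, Finset.sum_mul, Finset.sum_mul, ← Finset.sum_sub_distrib]
  apply Finset.sum_congr rfl
  intro v _
  rw [Prod.smul_fst, smul_eq_mul]; ring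

theorem inner_le (t t' : Finset P2) (X D X' D' : ℤ) (ht : t ⊆ p.cell X D) (ht' : t' ⊆ p.cell X' D')
    (hD : 1 - (p.N : ℤ) ≤ D) (hD1 : D ≤ 1) (hD' : 1 - (p.N : ℤ) ≤ D') (hD1' : D' ≤ 1)
    (hDD : D ≤ D') (w w' : P2 → ℝ) (hw : ∀ v, 0 ≤ w v) (hw' : ∀ v, 0 ≤ w' v)
    (h0 : ∀ v ∉ t, w v = 0) (h0' : ∀ v ∉ t', w' v = 0)
    (hs : ∑ v ∈ t, w v • v = ∑ v ∈ t', w' v • v) (hA : 0 < (∑ v ∈ t, w v • v).1) : w = w' := by
  obtain ⟨hS, hG⟩ := p.gauge t t' X D X' D' ht ht' hD hD1 hD' hD1' w w' hw hw' hs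
  have hQ : ∀ v ∉ p.cell X D, w v = 0 := fun v hv => h0 v (fun h => hv (ht h))
  -- all the vertices of `w'` are over the sector `X`
  have hsec : ∀ v, w' v ≠ 0 → ∃ E : ℤ, (E = D' ∨ E = D' + 1) ∧ (v = p.vtx X E ∨ v = p.vtx (X + 1) E) := by
    intro v hv
    have hvt : v ∈ t' := by
      by_contra hc; exact hv (h0' v hc)
    obtain ⟨Y, E, hY, hE, rfl⟩ := p.cell_mem X' D' v (ht' hvt)
    exact ⟨E, hE, p.Gam_eq X Y E (by omega) (by omega) (hG _ hvt hv)⟩
  rcases eq_or_lt_of_le hDD with hDe | hDl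
  · subst hDe
    have hQ' : ∀ v ∉ p.cell X D, w' v = 0 := by
      intro v hv
      by_contra hc
      obtain ⟨E, hE, h⟩ := hsec v hc
      apply hv
      unfold cell
      simp only [Finset.mem_insert, Finset.mem_singleton]
      rcases hE with rfl | rfl <;> rcases h with rfl | rfl <;> simp
    exact p.cell_uniq X D hD hD1 t t' w w' h0 h0' hs hQ hQ'
  · -- levels
    have l1 : (∑ v ∈ t, w v * ‖v.2.1‖) * p.aD (D + 1) - (∑ v ∈ t, w v • v).1 * p.sD (D + 1) ≤ 0 := by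
      rw [← lev_sum]
      apply Finset.sum_nonpos
      intro v hv
      obtain ⟨Y, E, hY, hE, rfl⟩ := p.cell_mem X D v (ht hv)
      rw [nrm_vtx _ _ _ (by omega) (by omega), fst_vtx _ _ _ (by omega)]
      apply mul_nonpos_of_nonneg_of_nonpos (hw _)
      rcases hE with rfl | rfl
      · have := p.ratio_lt1 E (E + 1) (by omega) (by omega) (by omega)
        linarith
      · linarith
    have l2 : 0 ≤ (∑ v ∈ t', w' v * ‖v.2.1‖) * p.aD D' - (∑ v ∈ t', w' v • v).1 * p.sD D' := by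
      rw [← lev_sum]
      apply Finset.sum_nonneg
      intro v hv
      obtain ⟨Y, E, hY, hE, rfl⟩ := p.cell_mem X' D' v (ht' hv)
      rw [nrm_vtx _ _ _ (by omega) (by omega), fst_vtx _ _ _ (by omega)]
      apply mul_nonneg (hw' _)
      rcases hE with rfl | rfl
      · linarith
      · have := p.ratio_lt1 D' (D' + 1) (by omega) (by omega) (by omega)
        linarith
    rw [← hS, ← hs] at l2
    set S := ∑ v ∈ t, w v * ‖v.2.1‖
    set A := (∑ v ∈ t, w v • v).1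
    have a1 := p.aD_pos (D + 1)
    have a2 := p.aD_pos D'
    have hDe : D' = D + 1 := by
      by_contra hc
      have h3 := p.ratio_lt1 (D + 1) D' (by omega) (by omega) (by omega)
      have h4 : S * p.aD (D + 1) * p.aD D' ≤ A * p.sD (D + 1) * p.aD D' := by
        apply mul_le_mul_of_nonneg_right _ a2.le; linarith
      have h5 : A * p.sD D' * p.aD (D + 1) ≤ S * p.aD D' * p.aD (D + 1) := by
        apply mul_le_mul_of_nonneg_right _ a1.le; linarith
      have h6 := mul_lt_mul_of_pos_left h3 hA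
      linarith
    subst hDe
    have l3 : S * p.aD (D + 1) - A * p.sD (D + 1) = 0 := by linarith
    have hQ' : ∀ v ∉ p.cell X D, w' v = 0 := by
      intro v hv
      by_contra hc
      have hvt : v ∈ t' := by
        by_contra hc'; exact hc (h0' v hc')
      have z : ∑ v ∈ t', w' v * (‖v.2.1‖ * p.aD (D + 1) - v.1 * p.sD (D + 1)) = 0 := by
        rw [lev_sum, ← hS, ← hs]; exact l3
      have nn : ∀ v ∈ t', 0 ≤ w' v * (‖v.2.1‖ * p.aD (D + 1) - v.1 * p.sD (D + 1)) := by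
        intro v hv
        obtain ⟨Y, E, hY, hE, rfl⟩ := p.cell_mem X' (D + 1) v (ht' hv)
        rw [nrm_vtx _ _ _ (by omega) (by omega), fst_vtx _ _ _ (by omega)]
        apply mul_nonneg (hw' _)
        rcases hE with rfl | rfl
        · linarith
        · have := p.ratio_lt1 (D + 1) (D + 1 + 1) (by omega) (by omega) (by omega)
          linarith
      have z2 := (Finset.sum_eq_zero_iff_of_nonneg nn).mp z v hvt
      have z3 := (mul_eq_zero.mp z2).resolve_left hc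
      obtain ⟨E, hE, h⟩ := hsec v hc
      have hED : E = D + 1 := by
        rcases hE with hE | hE
        · exact hE
        · exfalso
          have := p.ratio_lt1 (D + 1) E (by omega) (by omega) (by omega)
          rcases h with rfl | rfl
          · rw [nrm_vtx _ _ _ (by omega) (by omega), fst_vtx _ _ _ (by omega)] at z3
            linarith
          · rw [nrm_vtx _ _ _ (by omega) (by omega), fst_vtx _ _ _ (by omega)] at z3
            linarith
      subst hED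
      apply hv
      unfold cell
      simp only [Finset.mem_insert, Finset.mem_singleton]
      rcases h with rfl | rfl <;> simp
    exact p.cell_uniq X D hD hD1 t t' w w' h0 h0' hs hQ hQ'

theorem tri_cases (t : Finset P2) (ht : p.IsTri t) :
    (∀ v ∈ t, v ∈ p.outF) ∨ ∃ X D : ℤ, 1 - (p.N : ℤ) ≤ D ∧ D ≤ 1 ∧ t ⊆ p.cell X D := by
  obtain ⟨X, D, h1, h2, ht⟩ := ht
  by_cases hD : D ≤ 1
  · right
    refine ⟨X, D, h1, hD, ?_⟩
    unfold cell
    rcases ht with rfl | rfl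
    · intro v hv
      simp only [Finset.mem_insert, Finset.mem_singleton] at hv ⊢
      tauto
    · intro v hv
      simp only [Finset.mem_insert, Finset.mem_singleton] at hv ⊢
      tauto
  · left
    intro v hv
    rcases ht with rfl | rfl
    · simp only [Finset.mem_insert, Finset.mem_singleton] at hv
      rcases hv with rfl | rfl | rfl
      · exact (p.mem_outF _).mpr ⟨_, _, by omega, by omega, rfl⟩
      · exact (p.mem_outF _).mpr ⟨_, _, by omega, by omega, rfl⟩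
      · exact (p.mem_outF _).mpr ⟨_, _, by omega, by omega, rfl⟩
    · simp only [Finset.mem_insert, Finset.mem_singleton] at hv
      rcases hv with rfl | rfl | rfl
      · exact (p.mem_outF _).mpr ⟨_, _, by omega, by omega, rfl⟩
      · exact (p.mem_outF _).mpr ⟨_, _, by omega, by omega, rfl⟩
      · exact (p.mem_outF _).mpr ⟨_, _, by omega, by omega, rfl⟩

theorem vert_fst_pos (v : P2) (hv : p.IsVert v) : 0 < v.1 := by
  obtain ⟨X, D, _, _, rfl⟩ := hv
  exact p.vtx_fst_pos X D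

theorem U2_uniq (t t' : Finset P2) (ht : p.IsTri t) (ht' : p.IsTri t') (w w' : P2 → ℝ)
    (hw : ∀ v, 0 ≤ w v) (hw' : ∀ v, 0 ≤ w' v) (h0 : ∀ v ∉ t, w v = 0) (h0' : ∀ v ∉ t', w' v = 0)
    (hs : ∑ v ∈ t, w v • v = ∑ v ∈ t', w' v • v) : w = w' := by
  by_cases h : ∀ v, w v ≠ 0 → v ∈ p.outF
  · exact p.outer_case t t' ht ht' w w' hw hw' h0 h0' hs h
  by_cases h' : ∀ v, w' v ≠ 0 → v ∈ p.outF
  · exact (p.outer_case t' t ht' ht w' w hw' hw h0' h0 hs.symm h').symm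
  push Not at h h'
  obtain ⟨v, hv, hvo⟩ := h
  obtain ⟨v', hv', hvo'⟩ := h'
  have hvt : v ∈ t := by
    by_contra hc; exact hv (h0 v hc)
  have hvt' : v' ∈ t' := by
    by_contra hc; exact hv' (h0' v' hc)
  have hA : 0 < (∑ v ∈ t, w v • v).1 := by
    rw [Prod.fst_sum]
    apply Finset.sum_pos'
    · intro x hx
      rw [Prod.smul_fst, smul_eq_mul]
      exact mul_nonneg (hw x) (p.vert_fst_pos x (p.tri_vert t ht x hx)).le
    · refine ⟨v, hvt, ?_⟩
      rw [Prod.smul_fst, smul_eq_mul]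
      exact mul_pos (lt_of_le_of_ne (hw v) (Ne.symm hv)) (p.vert_fst_pos v (p.tri_vert t ht v hvt))
  rcases p.tri_cases t ht with h | ⟨X, D, h1, h2, h3⟩
  · exact absurd (h v hvt) hvo
  rcases p.tri_cases t' ht' with h | ⟨X', D', h1', h2', h3'⟩
  · exact absurd (h v' hvt') hvo'
  rcases le_total D D' with hDD | hDD
  · exact p.inner_le t t' X D X' D' h3 h3' h1 h2 h1' h2' hDD w w' hw hw' h0 h0' hs hA
  · exact (p.inner_le t' t X' D' X D h3' h3 h1' h2' h1 h2 hDD w' w hw' hw h0' h0 hs.symm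
      (by rw [← hs]; exact hA)).symm

end Par

end Pool.Agent.Helper576.VA
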