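import Pool.Agent.Helper576.VA1

set_option autoImplicit false

namespace Pool.Agent.Helper576.VA

open ComplexConjugate

/-- the unit complex number with angle `t` grid steps, the step being `π / n` -/
noncomputable def om (n : ℕ) (t : ℝ) : ℂ := Complex.exp ((Real.pi * t / n : ℝ) * Complex.I)

theorem om_add (n : ℕ) (s t : ℝ) : om n (s + t) = om n s * om n t := by
  unfold om
  rw [← Complex.exp_add]
  congr 1
  push_cast
  ring

theorem om_norm (n : ℕ) (t : ℝ) : ‖om n t‖ = 1 := by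
  unfold om
  exact Complex.norm_exp_ofReal_mul_I _

theorem om_re (n : ℕ) (t : ℝ) : (om n t).re = Real.cos (Real.pi * t / n) := by
  unfold om; exact Complex.exp_ofReal_mul_I_re _

theorem om_im (n : ℕ) (t : ℝ) : (om n t).im = Real.sin (Real.pi * t / n) := by
  unfold om; exact Complex.exp_ofReal_mul_I_im _

theorem om_zero (n : ℕ) : om n 0 = 1 := by unfold om; simp

theorem om_conj (n : ℕ) (t : ℝ) : conj (om n t) = om n (-t) := by
  apply Complex.ext
  · rw [Complex.conj_re, om_re, om_re]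
    rw [show Real.pi * (-t) / n = -(Real.pi * t / n) by ring, Real.cos_neg]
  · rw [Complex.conj_im, om_im, om_im]
    rw [show Real.pi * (-t) / n = -(Real.pi * t / n) by ring, Real.sin_neg]

theorem om_n (n : ℕ) (hn : 0 < n) : om n n = -1 := by
  have h0 : (n : ℝ) ≠ 0 := by positivity
  apply Complex.ext
  · rw [om_re, mul_div_assoc, div_self h0, mul_one]; simp
  · rw [om_im, mul_div_assoc, div_self h0, mul_one]; simp

theorem om_add_n (n : ℕ) (hn : 0 < n) (t : ℝ) : om n (t + n) = - om n t := by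
  rw [om_add, om_n n hn]; ring

theorem om_add_2n (n : ℕ) (hn : 0 < n) (t : ℝ) : om n (t + 2 * n) = om n t := by
  rw [show t + 2 * (n:ℝ) = (t + n) + n by ring, om_add_n n hn, om_add_n n hn]; ring

theorem om_add_2nk (n : ℕ) (hn : 0 < n) (t : ℝ) (k : ℤ) : om n (t + 2 * n * k) = om n t := by
  have h0 : (n : ℝ) ≠ 0 := by positivity
  unfold om
  rw [Complex.exp_eq_exp_iff_exists_int]
  refine ⟨k, ?_⟩
  have h0c : (n : ℂ) ≠ 0 := by exact_mod_cast hn.ne'
  push_cast
  field_simp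

theorem om_eq_iff (n : ℕ) (hn : 0 < n) (s t : ℝ) : om n s = om n t ↔ ∃ k : ℤ, s = t + 2 * n * k := by
  have h0 : (n : ℝ) ≠ 0 := by positivity
  constructor
  · intro h
    unfold om at h
    rw [Complex.exp_eq_exp_iff_exists_int] at h
    obtain ⟨k, hk⟩ := h
    refine ⟨k, ?_⟩
    have h1 : ((Real.pi * s / n : ℝ) : ℂ) * Complex.I = ((Real.pi * t / n + k * (2 * Real.pi) : ℝ) : ℂ) * Complex.I := by
      rw [hk]; push_cast; ring
    have h2 := mul_right_cancel₀ Complex.I_ne_zero h1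
    have h3 : Real.pi * s / n = Real.pi * t / n + k * (2 * Real.pi) := by exact_mod_cast h2
    have hpi := Real.pi_ne_zero
    field_simp at h3
    linarith
  · rintro ⟨k, rfl⟩
    exact om_add_2nk n hn t k

theorem om_int_eq_iff (n : ℕ) (hn : 0 < n) (a b : ℤ) :
    om n (a : ℝ) = om n (b : ℝ) ↔ (2 * (n : ℤ)) ∣ (a - b) := by
  rw [om_eq_iff n hn]
  constructor
  · rintro ⟨k, hk⟩
    refine ⟨k, ?_⟩
    have : (a : ℝ) = ((b + 2 * n * k : ℤ) : ℝ) := by push_cast; exact hk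
    have h2 : a = b + 2 * n * k := by exact_mod_cast this
    rw [h2]; ring
  · rintro ⟨k, hk⟩
    refine ⟨k, ?_⟩
    have : a = b + 2 * n * k := by linarith
    rw [this]; push_cast; ring

noncomputable def kap (n : ℕ) : ℝ := Real.cos (Real.pi / (2 * n))

noncomputable def gg (n : ℕ) (j : ℤ) : ℝ := kap n - Real.cos (Real.pi * ((j : ℝ) - 1 / 2) / n)

theorem gg_prod (n : ℕ) (hn : 0 < n) (j : ℤ) :
    gg n j = 2 * Real.sin (Real.pi * j / (2 * n)) * Real.sin (Real.pi * ((j : ℝ) - 1) / (2 * n)) := by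
  have h0 : (n : ℝ) ≠ 0 := by positivity
  unfold gg kap
  rw [Real.cos_sub_cos]
  have e1 : (Real.pi / (2 * n) + Real.pi * ((j : ℝ) - 1 / 2) / n) / 2 = Real.pi * j / (2 * n) := by
    field_simp; ring
  have e2 : (Real.pi / (2 * n) - Real.pi * ((j : ℝ) - 1 / 2) / n) / 2
      = -(Real.pi * ((j : ℝ) - 1) / (2 * n)) := by
    field_simp; ring
  rw [e1, e2, Real.sin_neg]; ring

theorem gg_periodic (n : ℕ) (hn : 0 < n) (j k : ℤ) : gg n (j + 2 * n * k) = gg n j := by
  have h0 : (n : ℝ) ≠ 0 := by positivity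
  unfold gg
  congr 1
  have : Real.pi * (((j + 2 * n * k : ℤ) : ℝ) - 1 / 2) / n
      = Real.pi * ((j : ℝ) - 1 / 2) / n + k * (2 * Real.pi) := by
    push_cast; field_simp; ring
  rw [this, Real.cos_add_int_mul_two_pi]

theorem gg_zero (n : ℕ) (hn : 0 < n) : gg n 0 = 0 := by
  rw [gg_prod n hn]; simp

theorem gg_one (n : ℕ) (hn : 0 < n) : gg n 1 = 0 := by
  rw [gg_prod n hn]; simp

theorem gg_pos_range (n : ℕ) (hn : 0 < n) (j : ℤ) (h2 : 2 ≤ j) (hj : j < 2 * n) : 0 < gg n j := by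
  have h0 : (0 : ℝ) < n := by positivity
  have h2' : (2 : ℝ) ≤ j := by exact_mod_cast h2
  have hj' : (j : ℝ) < 2 * n := by exact_mod_cast hj
  rw [gg_prod n hn]
  have hpi := Real.pi_pos
  have s1 : 0 < Real.sin (Real.pi * j / (2 * n)) := by
    apply Real.sin_pos_of_pos_of_lt_pi
    · positivity
    · rw [div_lt_iff₀ (by positivity)]
      exact mul_lt_mul_of_pos_left hj' hpi
  have s2 : 0 < Real.sin (Real.pi * ((j : ℝ) - 1) / (2 * n)) := by
    apply Real.sin_pos_of_pos_of_lt_pi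
    · apply div_pos (mul_pos hpi (by linarith)) (by positivity)
    · rw [div_lt_iff₀ (by positivity)]
      exact mul_lt_mul_of_pos_left (by linarith) hpi
  positivity

theorem gg_cases (n : ℕ) (hn : 0 < n) (j : ℤ) :
    (((2 * (n : ℤ)) ∣ j ∨ (2 * (n : ℤ)) ∣ (j - 1)) ∧ gg n j = 0) ∨
    (¬ ((2 * (n : ℤ)) ∣ j) ∧ ¬ ((2 * (n : ℤ)) ∣ (j - 1)) ∧ 0 < gg n j) := by
  have hn' : (0 : ℤ) < 2 * n := by positivity
  set r := j % (2 * n) with hr
  have hr0 : 0 ≤ r := Int.emod_nonneg _ (ne_of_gt hn')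
  have hr1 : r < 2 * n := Int.emod_lt_of_pos _ hn'
  have hjr : j = r + 2 * n * (j / (2 * n)) := by rw [hr]; exact (Int.emod_add_mul_ediv j (2 * n)).symm
  have hg : gg n j = gg n r := by
    conv_lhs => rw [hjr]
    exact gg_periodic n hn r _
  rcases eq_or_lt_of_le hr0 with h | h
  · left
    refine ⟨Or.inl (Int.dvd_of_emod_eq_zero (by rw [← hr, ← h])), ?_⟩
    rw [hg, ← h]; exact gg_zero n hn
  · rcases eq_or_lt_of_le (Int.add_one_le_iff.mpr h) with h1 | h1
    · left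
      refine ⟨Or.inr ⟨j / (2 * n), ?_⟩, ?_⟩
      · have : r = 1 := by omega
        rw [this] at hjr; linarith
      · rw [hg]
        have : r = 1 := by omega
        rw [this]; exact gg_one n hn
    · right
      refine ⟨?_, ?_, ?_⟩
      · intro hd
        have := Int.emod_eq_zero_of_dvd hd
        omega
      · rintro ⟨k, hk⟩
        have e : j = 1 + 2 * n * k := by linarith
        have : r = 1 := by
          rw [hr, e, Int.add_mul_emod_self_left]
          apply Int.emod_eq_of_lt (by norm_num)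
          omega
        omega
      · rw [hg]; exact gg_pos_range n hn r (by omega) hr1

theorem gg_nonneg (n : ℕ) (hn : 0 < n) (j : ℤ) : 0 ≤ gg n j := by
  rcases gg_cases n hn j with h | h
  · exact h.2.ge
  · exact h.2.2.le

theorem gg_eq_zero_iff (n : ℕ) (hn : 0 < n) (j : ℤ) :
    gg n j = 0 ↔ ((2 * (n : ℤ)) ∣ j ∨ (2 * (n : ℤ)) ∣ (j - 1)) := by
  rcases gg_cases n hn j with h | h
  · exact ⟨fun _ => h.1, fun _ => h.2⟩
  · constructor
    · intro h1; exact absurd h1 (ne_of_gt h.2.2)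
    · intro h1; rcases h1 with h1 | h1
      · exact absurd h1 h.1
      · exact absurd h1 h.2.1

theorem gg_pos_of (n : ℕ) (hn : 0 < n) (j : ℤ) (h1 : ¬ ((2 * (n : ℤ)) ∣ j))
    (h2 : ¬ ((2 * (n : ℤ)) ∣ (j - 1))) : 0 < gg n j := by
  rcases gg_cases n hn j with h | h
  · rcases h.1 with h | h
    · exact absurd h h1
    · exact absurd h h2
  · exact h.2.2

/-- the first degree factor with zeros at grid points `a` and `a+1` -/
noncomputable def sv (n : ℕ) (a : ℤ) : P1 := (kap n, - om n ((a : ℝ) + 1 / 2))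

theorem ev1_sv (n : ℕ) (a k : ℤ) : ev1 (sv n a) (om n k) = gg n (k - a) := by
  unfold ev1 sv gg
  simp only
  rw [om_conj, neg_mul, ← om_add, Complex.neg_re, om_re]
  rw [← Real.cos_neg (Real.pi * (((a : ℝ) + 1 / 2) + -(k : ℝ)) / n)]
  rw [show -(Real.pi * (((a : ℝ) + 1 / 2) + -(k : ℝ)) / n) = Real.pi * (((k - a : ℤ) : ℝ) - 1 / 2) / n by
    push_cast; ring]
  ring

/-- outer vertices -/
noncomputable def vv (n : ℕ) (a b : ℤ) : P2 := mul (sv n a) (sv n b)

theorem vv_comm (n : ℕ) (a b : ℤ) : vv n a b = vv n b a := mul_comm' _ _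

theorem sv_periodic (n : ℕ) (hn : 0 < n) (a k : ℤ) : sv n (a + 2 * n * k) = sv n a := by
  unfold sv
  have : (((a + 2 * n * k : ℤ) : ℝ) + 1 / 2) = ((a : ℝ) + 1 / 2) + 2 * n * k := by push_cast; ring
  rw [this, om_add_2nk n hn]

theorem vv_per_left (n : ℕ) (hn : 0 < n) (a b k : ℤ) : vv n (a + 2 * n * k) b = vv n a b := by
  unfold vv; rw [sv_periodic n hn]

theorem vv_per_right (n : ℕ) (hn : 0 < n) (a b k : ℤ) : vv n a (b + 2 * n * k) = vv n a b := by
  unfold vv; rw [sv_periodic n hn]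

theorem ev2_vv (n : ℕ) (a b k : ℤ) : ev2 (vv n a b) (om n k) = gg n (k - a) * gg n (k - b) := by
  unfold vv
  rw [ev2_mul _ _ _ (om_norm n k), ev1_sv, ev1_sv]

theorem ev2_vv_nonneg (n : ℕ) (hn : 0 < n) (a b k : ℤ) : 0 ≤ ev2 (vv n a b) (om n k) := by
  rw [ev2_vv]; exact mul_nonneg (gg_nonneg n hn _) (gg_nonneg n hn _)

theorem vv_fst (n : ℕ) (a b : ℤ) :
    (vv n a b).1 = kap n ^ 2 + (1 / 2) * Real.cos (Real.pi * ((a : ℝ) - b) / n) := by
  unfold vv mul sv
  simp only [map_neg, neg_mul_neg]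
  rw [om_conj, ← om_add, om_re]
  rw [show Real.pi * ((a:ℝ) + 1 / 2 + -((b:ℝ) + 1 / 2)) / n = Real.pi * ((a:ℝ) - b) / n by ring]
  ring

theorem vv_snd2 (n : ℕ) (a b : ℤ) :
    (vv n a b).2.2 = (1 / 2) * om n ((a : ℝ) + b + 1) := by
  unfold vv mul sv
  simp only [neg_mul_neg]
  rw [← om_add]
  congr 2; ring

theorem vv_snd1 (n : ℕ) (a b : ℤ) :
    (vv n a b).2.1 = - ((kap n : ℂ) * (om n ((a : ℝ) + 1 / 2) + om n ((b : ℝ) + 1 / 2))) := by
  unfold vv mul sv
  simp only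
  ring

end Pool.Agent.Helper576.VA
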