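import Pool.Agent.Helper576.VA2

set_option autoImplicit false

namespace Pool.Agent.Helper576.VA

section LP

variable {E : Type*} [AddCommGroup E] [Module ℝ E]

/-- one step inside the part of `P` where `B` is nonnegative -/
def Stp (P : Finset E) (Adj : E → E → Prop) (B : E →ₗ[ℝ] ℝ) (x y : E) : Prop :=
  Adj x y ∧ x ∈ P ∧ y ∈ P ∧ 0 ≤ B x ∧ 0 ≤ B y

theorem stp_symm (P : Finset E) (Adj : E → E → Prop) (hA : ∀ x y, Adj x y → Adj y x)
    (B : E →ₗ[ℝ] ℝ) (x y : E) (h : Stp P Adj B x y) : Stp P Adj B y x :=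
  ⟨hA _ _ h.1, h.2.2.1, h.2.1, h.2.2.2.2, h.2.2.2.1⟩

theorem rtg_symm (P : Finset E) (Adj : E → E → Prop) (hA : ∀ x y, Adj x y → Adj y x)
    (B : E →ₗ[ℝ] ℝ) (x y : E) (h : Relation.ReflTransGen (Stp P Adj B) x y) :
    Relation.ReflTransGen (Stp P Adj B) y x := by
  induction h with
  | refl => exact Relation.ReflTransGen.refl
  | tail _ h2 ih => exact Relation.ReflTransGen.head (stp_symm P Adj hA B _ _ h2) ih

theorem rtg_mem (P : Finset E) (Adj : E → E → Prop) (B : E →ₗ[ℝ] ℝ) (x y : E)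
    (h : Relation.ReflTransGen (Stp P Adj B) x y) (hx : x ∈ P) (hB : 0 ≤ B x) :
    y ∈ P ∧ 0 ≤ B y := by
  induction h with
  | refl => exact ⟨hx, hB⟩
  | tail _ h2 _ => exact ⟨h2.2.2.1, h2.2.2.2.2⟩

/-- simplex type argument: local optimality data at every vertex -/
def LocData (P : Finset E) (Adj : E → E → Prop) : Prop :=
  ∀ p ∈ P, ∀ q ∈ P, ∃ (N : Finset E) (c : E → ℝ) (c0 : ℝ),
    (∀ x ∈ N, x ∈ P ∧ Adj p x ∧ 0 ≤ c x) ∧ q = c0 • p + ∑ x ∈ N, c x • x

theorem lp_up (P : Finset E) (Adj : E → E → Prop) (T B : E →ₗ[ℝ] ℝ) (hT : ∀ p ∈ P, 0 < T p)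
    (hH : LocData P Adj) (p : E) (hp : p ∈ P) (hB : 0 ≤ B p) :
    ∃ s ∈ P, Relation.ReflTransGen (Stp P Adj B) p s ∧ 0 ≤ B s ∧
      ∀ q ∈ P, B q ≤ B s / T s * T q := by
  classical
  set S := P.filter (fun x => Relation.ReflTransGen (Stp P Adj B) p x) with hS
  have hne : S.Nonempty := ⟨p, by rw [hS, Finset.mem_filter]; exact ⟨hp, Relation.ReflTransGen.refl⟩⟩
  obtain ⟨s, hs, hmax⟩ := Finset.exists_max_image S (fun x => B x / T x) hne
  rw [hS, Finset.mem_filter] at hs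
  have hsB := (rtg_mem P Adj B p s hs.2 hp hB).2
  have hTs := hT s hs.1
  refine ⟨s, hs.1, hs.2, hsB, ?_⟩
  have hnb : ∀ x ∈ P, Adj s x → B x ≤ B s / T s * T x := by
    intro x hx hax
    by_cases h0 : 0 ≤ B x
    · have : x ∈ S := by
        rw [hS, Finset.mem_filter]
        exact ⟨hx, hs.2.tail ⟨hax, hs.1, hx, hsB, h0⟩⟩
      have h1 := hmax x this
      have h2 := hT x hx
      calc B x = B x / T x * T x := by field_simp
        _ ≤ B s / T s * T x := mul_le_mul_of_nonneg_right h1 h2.le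
    · push Not at h0
      have h2 := hT x hx
      have : 0 ≤ B s / T s * T x := by positivity
      linarith
  intro q hq
  obtain ⟨N, c, c0, hN, hqe⟩ := hH s hs.1 q hq
  have key : B q - B s / T s * T q ≤ 0 := by
    have e1 : B q - B s / T s * T q = ∑ x ∈ N, c x * (B x - B s / T s * T x) := by
      conv_lhs => rw [hqe]
      simp only [map_add, map_smul, map_sum, smul_eq_mul]
      have e2 : B s / T s * T s = B s := by field_simp
      simp only [mul_sub, Finset.sum_sub_distrib, mul_add, Finset.mul_sum]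
      have e3 : ∀ x, c x * (B s / T s * T x) = B s / T s * (c x * T x) := by intro x; ring
      simp only [e3]
      linear_combination (-c0) * e2
    rw [e1]
    apply Finset.sum_nonpos
    intro x hx
    obtain ⟨h1, h2, h3⟩ := hN x hx
    exact mul_nonpos_of_nonneg_of_nonpos h3 (by linarith [hnb x h1 h2])
  linarith

theorem lp_connected (P : Finset E) (Adj : E → E → Prop) (hA : ∀ x y, Adj x y → Adj y x)
    (T B : E →ₗ[ℝ] ℝ) (hT : ∀ p ∈ P, 0 < T p) (hH : LocData P Adj)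
    (hexp : ∀ w ∈ P, ∃ D : E →ₗ[ℝ] ℝ, D w = 0 ∧ ∀ q ∈ P, q ≠ w → D q < 0)
    (p w : E) (hp : p ∈ P) (hw : w ∈ P) (hBp : 0 ≤ B p) (hBw : 0 ≤ B w) :
    Relation.ReflTransGen (Stp P Adj B) p w := by
  classical
  obtain ⟨s, hs, hps, hBs, hsmax⟩ := lp_up P Adj T B hT hH p hp hBp
  obtain ⟨t, ht, hwt, hBt, htmax⟩ := lp_up P Adj T B hT hH w hw hBw
  have hTs := hT s hs
  have hTt := hT t ht
  set f := B s / T s with hf
  have hft : B t = f * T t := by
    apply le_antisymm (hsmax t ht)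
    have h1 := htmax s hs
    have h2 : f ≤ B t / T t := by
      rw [hf, div_le_iff₀ hTs]; exact h1
    calc f * T t ≤ B t / T t * T t := mul_le_mul_of_nonneg_right h2 hTt.le
      _ = B t := by field_simp
  have hfs : B s = f * T s := by rw [hf]; field_simp
  have hf0 : 0 ≤ f := by rw [hf]; positivity
  refine hps.trans (Relation.ReflTransGen.trans ?_ (rtg_symm P Adj hA B w t hwt))
  -- connect `s` and `t` inside the optimal face
  obtain ⟨D, hDt, hD⟩ := hexp t ht
  set R : E → E → Prop := fun x y => Stp P Adj B x y ∧ B x = f * T x ∧ B y = f * T y with hR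
  set S := P.filter (fun x => Relation.ReflTransGen R s x ∧ B x = f * T x) with hS
  have hne : S.Nonempty := ⟨s, by rw [hS, Finset.mem_filter]; exact ⟨hs, Relation.ReflTransGen.refl, hfs⟩⟩
  obtain ⟨r, hr, hmax⟩ := Finset.exists_max_image S (fun x => D x / T x) hne
  rw [hS, Finset.mem_filter] at hr
  obtain ⟨hrP, hsr, hrf⟩ := hr
  have hTr := hT r hrP
  have hrt : r = t := by
    by_contra hne'
    have hDr := hD r hrP hne'
    obtain ⟨N, c, c0, hN, hte⟩ := hH r hrP t ht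
    have hterm : ∀ x ∈ N, c x * (B x - f * T x) = 0 := by
      have e1 : ∑ x ∈ N, c x * (B x - f * T x) = 0 := by
        have e0 : B t - f * T t = 0 := by rw [hft]; ring
        rw [hte] at e0
        simp only [map_add, map_smul, map_sum, smul_eq_mul] at e0
        simp only [mul_sub, Finset.sum_sub_distrib]
        have e3 : ∀ x, c x * (f * T x) = f * (c x * T x) := by intro x; ring
        simp only [e3, ← Finset.mul_sum]
        linear_combination e0 - c0 * hrf
      have h2 : ∀ x ∈ N, c x * (B x - f * T x) ≤ 0 := by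
        intro x hx
        obtain ⟨h1, _, h3⟩ := hN x hx
        exact mul_nonpos_of_nonneg_of_nonpos h3 (by linarith [hsmax x h1])
      intro x hx
      exact (Finset.sum_eq_zero_iff_of_nonpos h2).mp e1 x hx
    have hle : ∀ x ∈ N, c x * (D x - D r / T r * T x) ≤ 0 := by
      intro x hx
      obtain ⟨h1, h2, h3⟩ := hN x hx
      rcases eq_or_lt_of_le h3 with h4 | h4
      · rw [← h4]; simp
      · have h5 : B x = f * T x := by
          have := hterm x hx
          rcases mul_eq_zero.mp this with h | h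
          · exact absurd h (ne_of_gt h4)
          · linarith
        have hTx := hT x h1
        have hBx : 0 ≤ B x := by rw [h5]; positivity
        have hBr : 0 ≤ B r := by rw [hrf]; positivity
        have h6 : x ∈ S := by
          rw [hS, Finset.mem_filter]
          exact ⟨h1, hsr.tail ⟨⟨h2, hrP, h1, hBr, hBx⟩, hrf, h5⟩, h5⟩
        have h7 := hmax x h6
        have h8 : D x ≤ D r / T r * T x := by
          calc D x = D x / T x * T x := by field_simp
            _ ≤ D r / T r * T x := mul_le_mul_of_nonneg_right h7 hTx.le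
        exact mul_nonpos_of_nonneg_of_nonpos h3 (by linarith)
    have e4 : D t - D r / T r * T t = ∑ x ∈ N, c x * (D x - D r / T r * T x) := by
      conv_lhs => rw [hte]
      simp only [map_add, map_smul, map_sum, smul_eq_mul]
      have e2 : D r / T r * T r = D r := by field_simp
      simp only [mul_sub, Finset.sum_sub_distrib, mul_add, Finset.mul_sum]
      have e3 : ∀ x, c x * (D r / T r * T x) = D r / T r * (c x * T x) := by intro x; ring
      simp only [e3]
      linear_combination (-c0) * e2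
    have h9 := Finset.sum_nonpos hle
    rw [← e4, hDt] at h9
    have : D r / T r * T t < 0 := mul_neg_of_neg_of_pos (div_neg_of_neg_of_pos hDr hTr) hTt
    linarith
  rw [← hrt]
  have hm : ∀ x y, R x y → Stp P Adj B x y := fun x y h => h.1
  exact Relation.ReflTransGen.mono hm _ _ hsr

end LP

/-- the local generation lemma for a simple vertex -/
theorem span5 (q v n1 n2 n3 n4 : P2) (u1 u2 u3 u4 u5 : ℂ)
    (hu : ‖u1‖ = 1 ∧ ‖u2‖ = 1 ∧ ‖u3‖ = 1 ∧ ‖u4‖ = 1 ∧ ‖u5‖ = 1)
    (hcard : ({u1, u2, u3, u4, u5} : Finset ℂ).card = 5)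
    (hv : ev2 v u1 = 0 ∧ ev2 v u2 = 0 ∧ ev2 v u3 = 0 ∧ ev2 v u4 = 0) (hv5 : ev2 v u5 ≠ 0)
    (h1 : 0 < ev2 n1 u1 ∧ ev2 n1 u2 = 0 ∧ ev2 n1 u3 = 0 ∧ ev2 n1 u4 = 0)
    (h2 : ev2 n2 u1 = 0 ∧ 0 < ev2 n2 u2 ∧ ev2 n2 u3 = 0 ∧ ev2 n2 u4 = 0)
    (h3 : ev2 n3 u1 = 0 ∧ ev2 n3 u2 = 0 ∧ 0 < ev2 n3 u3 ∧ ev2 n3 u4 = 0)
    (h4 : ev2 n4 u1 = 0 ∧ ev2 n4 u2 = 0 ∧ ev2 n4 u3 = 0 ∧ 0 < ev2 n4 u4)
    (hq : 0 ≤ ev2 q u1 ∧ 0 ≤ ev2 q u2 ∧ 0 ≤ ev2 q u3 ∧ 0 ≤ ev2 q u4) :
    ∃ c c1 c2 c3 c4 : ℝ, 0 ≤ c1 ∧ 0 ≤ c2 ∧ 0 ≤ c3 ∧ 0 ≤ c4 ∧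
      q = c • v + (c1 • n1 + (c2 • n2 + (c3 • n3 + c4 • n4))) := by
  classical
  set c1 := ev2 q u1 / ev2 n1 u1 with hc1
  set c2 := ev2 q u2 / ev2 n2 u2 with hc2
  set c3 := ev2 q u3 / ev2 n3 u3 with hc3
  set c4 := ev2 q u4 / ev2 n4 u4 with hc4
  set w := q - (c1 • n1 + (c2 • n2 + (c3 • n3 + c4 • n4))) with hw
  refine ⟨ev2 w u5 / ev2 v u5, c1, c2, c3, c4, div_nonneg hq.1 h1.1.le, div_nonneg hq.2.1 h2.2.1.le,
    div_nonneg hq.2.2.1 h3.2.2.1.le, div_nonneg hq.2.2.2 h4.2.2.2.le, ?_⟩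
  have hz : w - (ev2 w u5 / ev2 v u5) • v = 0 := by
    apply zero_of_five _ {u1, u2, u3, u4, u5}
    · intro u hu'
      simp only [Finset.mem_insert, Finset.mem_singleton] at hu'
      rcases hu' with rfl | rfl | rfl | rfl | rfl
      exacts [hu.1, hu.2.1, hu.2.2.1, hu.2.2.2.1, hu.2.2.2.2]
    · rw [hcard]; norm_num
    · intro u hu'
      simp only [Finset.mem_insert, Finset.mem_singleton] at hu'
      have lin : ∀ u, ev2 (w - (ev2 w u5 / ev2 v u5) • v) u
          = ev2 w u - (ev2 w u5 / ev2 v u5) * ev2 v u := by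
        intro u
        rw [← evL_apply, map_sub, map_smul]; rfl
      have linw : ∀ u, ev2 w u = ev2 q u - (c1 * ev2 n1 u + (c2 * ev2 n2 u
          + (c3 * ev2 n3 u + c4 * ev2 n4 u))) := by
        intro u
        rw [hw, ← evL_apply, map_sub, map_add, map_add, map_add, map_smul, map_smul, map_smul,
          map_smul]; rfl
      rcases hu' with rfl | rfl | rfl | rfl | rfl
      · rw [lin, hv.1, linw, h2.1, h3.1, h4.1, hc1]
        have := h1.1.ne'
        field_simp; ring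
      · rw [lin, hv.2.1, linw, h1.2.1, h3.2.1, h4.2.1, hc2]
        have := h2.2.1.ne'
        field_simp; ring
      · rw [lin, hv.2.2.1, linw, h1.2.2.1, h2.2.2.1, h4.2.2.1, hc3]
        have := h3.2.2.1.ne'
        field_simp; ring
      · rw [lin, hv.2.2.2, linw, h1.2.2.2, h2.2.2.2, h3.2.2.2, hc4]
        have := h4.2.2.2.ne'
        field_simp; ring
      · rw [lin]; field_simp; ring
  have : w = (ev2 w u5 / ev2 v u5) • v := sub_eq_zero.mp hz
  rw [← this, hw]; abel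

end Pool.Agent.Helper576.VA
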