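import Pool.Agent.Helper576.VA3

set_option autoImplicit false

namespace Pool.Agent.Helper576.VA

theorem nd (n : ℕ) (j : ℤ) (h0 : j ≠ 0) (h1 : -(2 * (n : ℤ)) < j) (h2 : j < 2 * n) :
    ¬ (2 * (n : ℤ)) ∣ j := by
  intro h
  apply h0
  apply Int.eq_zero_of_abs_lt_dvd h
  rw [abs_lt]; exact ⟨h1, h2⟩

theorem gg_pos' (n : ℕ) (hn : 0 < n) (j : ℤ) (h0 : j ≠ 0) (h1 : j ≠ 1) (h2 : -(2 * (n : ℤ)) + 1 < j)
    (h3 : j < 2 * n) : 0 < gg n j := by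
  apply gg_pos_of n hn
  · exact nd n j h0 (by omega) h3
  · exact nd n (j - 1) (by omega) (by omega) (by omega)

theorem gg_zero' (n : ℕ) (hn : 0 < n) (j : ℤ) (h : j = 0 ∨ j = 1) : gg n j = 0 := by
  rcases h with rfl | rfl
  · exact gg_zero n hn
  · exact gg_one n hn

theorem om_ne (n : ℕ) (hn : 0 < n) (a b : ℤ) (h : a ≠ b) (h1 : a - b < 2 * n) (h2 : b - a < 2 * n) :
    om n (a : ℝ) ≠ om n (b : ℝ) := by
  intro h3
  rw [om_int_eq_iff n hn] at h3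
  exact nd n (a - b) (by omega) (by omega) (by omega) h3

theorem card5 (n : ℕ) (hn : 0 < n) (k1 k2 k3 k4 k5 : ℤ)
    (h12 : k1 ≠ k2 ∧ k1 - k2 < 2 * n ∧ k2 - k1 < 2 * n)
    (h13 : k1 ≠ k3 ∧ k1 - k3 < 2 * n ∧ k3 - k1 < 2 * n)
    (h14 : k1 ≠ k4 ∧ k1 - k4 < 2 * n ∧ k4 - k1 < 2 * n)
    (h15 : k1 ≠ k5 ∧ k1 - k5 < 2 * n ∧ k5 - k1 < 2 * n)
    (h23 : k2 ≠ k3 ∧ k2 - k3 < 2 * n ∧ k3 - k2 < 2 * n)
    (h24 : k2 ≠ k4 ∧ k2 - k4 < 2 * n ∧ k4 - k2 < 2 * n)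
    (h25 : k2 ≠ k5 ∧ k2 - k5 < 2 * n ∧ k5 - k2 < 2 * n)
    (h34 : k3 ≠ k4 ∧ k3 - k4 < 2 * n ∧ k4 - k3 < 2 * n)
    (h35 : k3 ≠ k5 ∧ k3 - k5 < 2 * n ∧ k5 - k3 < 2 * n)
    (h45 : k4 ≠ k5 ∧ k4 - k5 < 2 * n ∧ k5 - k4 < 2 * n) :
    ({om n k1, om n k2, om n k3, om n k4, om n k5} : Finset ℂ).card = 5 := by
  have e12 := om_ne n hn k1 k2 h12.1 h12.2.1 h12.2.2
  have e13 := om_ne n hn k1 k3 h13.1 h13.2.1 h13.2.2
  have e14 := om_ne n hn k1 k4 h14.1 h14.2.1 h14.2.2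
  have e15 := om_ne n hn k1 k5 h15.1 h15.2.1 h15.2.2
  have e23 := om_ne n hn k2 k3 h23.1 h23.2.1 h23.2.2
  have e24 := om_ne n hn k2 k4 h24.1 h24.2.1 h24.2.2
  have e25 := om_ne n hn k2 k5 h25.1 h25.2.1 h25.2.2
  have e34 := om_ne n hn k3 k4 h34.1 h34.2.1 h34.2.2
  have e35 := om_ne n hn k3 k5 h35.1 h35.2.1 h35.2.2
  have e45 := om_ne n hn k4 k5 h45.1 h45.2.1 h45.2.2
  rw [Finset.card_insert_of_notMem, Finset.card_insert_of_notMem, Finset.card_insert_of_notMem,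
    Finset.card_insert_of_notMem, Finset.card_singleton]
  · simpa using e45
  · simp [e34, e35]
  · simp [e23, e24, e25]
  · simp [e12, e13, e14, e15]

/-- neighbouring index pairs -/
def AdjI (p q : ℤ × ℤ) : Prop :=
  (q.1 = p.1 + 1 ∧ q.2 = p.2) ∨ (q.1 = p.1 - 1 ∧ q.2 = p.2) ∨
  (q.1 = p.1 ∧ q.2 = p.2 + 1) ∨ (q.1 = p.1 ∧ q.2 = p.2 - 1) ∨
  (q.1 = p.1 + 1 ∧ q.2 = p.2 + 1) ∨ (q.1 = p.1 - 1 ∧ q.2 = p.2 - 1)

theorem adjI_mk (a b c d : ℤ) (h : (c = a + 1 ∧ d = b) ∨ (c = a - 1 ∧ d = b) ∨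
  (c = a ∧ d = b + 1) ∨ (c = a ∧ d = b - 1) ∨
  (c = a + 1 ∧ d = b + 1) ∨ (c = a - 1 ∧ d = b - 1)) : AdjI (a, b) (c, d) := h

/-- admissible index pairs -/
def Adm (n : ℕ) (p : ℤ × ℤ) : Prop := 2 ≤ p.2 - p.1 ∧ p.2 - p.1 ≤ 2 * n - 2

theorem outer_local (n : ℕ) (hn : 4 ≤ n) (a b : ℤ) (h : 2 ≤ b - a) (h' : b - a ≤ n) (q : P2)
    (hq : ∀ k : ℤ, 0 ≤ ev2 q (om n k)) :
    ∃ p1 p2 p3 p4 : ℤ × ℤ, (AdjI (a, b) p1 ∧ AdjI (a, b) p2 ∧ AdjI (a, b) p3 ∧ AdjI (a, b) p4) ∧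
      (Adm n p1 ∧ Adm n p2 ∧ Adm n p3 ∧ Adm n p4) ∧
      ∃ c c1 c2 c3 c4 : ℝ, 0 ≤ c1 ∧ 0 ≤ c2 ∧ 0 ≤ c3 ∧ 0 ≤ c4 ∧
      q = c • vv n a b + (c1 • vv n p1.1 p1.2 + (c2 • vv n p2.1 p2.2
        + (c3 • vv n p3.1 p3.2 + c4 • vv n p4.1 p4.2))) := by
  have hn0 : 0 < n := by omega
  have hn4 : (4 : ℤ) ≤ n := by exact_mod_cast hn
  rcases eq_or_lt_of_le h with h2 | h3
  · -- b = a + 2
    obtain rfl : b = a + 2 := by omega
    refine ⟨(a + 1, a + 3), (a - 1, a + 2), (a, a + 3), (a - 1, a + 1), ?_, ?_, ?_⟩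
    · refine ⟨?_, ?_, ?_, ?_⟩ <;> apply adjI_mk <;> omega
    · refine ⟨?_, ?_, ?_, ?_⟩ <;> unfold Adm <;> simp only <;> omega
    · apply span5 q (vv n a (a + 2)) (vv n (a + 1) (a + 3)) (vv n (a - 1) (a + 2)) (vv n a (a + 3))
        (vv n (a - 1) (a + 1)) (om n (a : ℤ)) (om n ((a + 1 : ℤ) : ℝ)) (om n ((a + 2 : ℤ) : ℝ))
        (om n ((a + 3 : ℤ) : ℝ)) (om n ((a + 4 : ℤ) : ℝ))
      · exact ⟨om_norm _ _, om_norm _ _, om_norm _ _, om_norm _ _, om_norm _ _⟩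
      · apply card5 n hn0 <;> omega
      · refine ⟨?_, ?_, ?_, ?_⟩ <;> rw [ev2_vv]
        · rw [gg_zero' n hn0 (a - a) (by omega)]; ring
        · rw [gg_zero' n hn0 (a + 1 - a) (by omega)]; ring
        · rw [gg_zero' n hn0 (a + 2 - (a + 2)) (by omega)]; ring
        · rw [gg_zero' n hn0 (a + 3 - (a + 2)) (by omega)]; ring
      · rw [ev2_vv]
        apply ne_of_gt
        apply mul_pos <;> apply gg_pos' n hn0 <;> omega
      · refine ⟨?_, ?_, ?_, ?_⟩ <;> rw [ev2_vv]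
        · apply mul_pos <;> apply gg_pos' n hn0 <;> omega
        · rw [gg_zero' n hn0 (a + 1 - (a + 1)) (by omega)]; ring
        · rw [gg_zero' n hn0 (a + 2 - (a + 1)) (by omega)]; ring
        · rw [gg_zero' n hn0 (a + 3 - (a + 3)) (by omega)]; ring
      · refine ⟨?_, ?_, ?_, ?_⟩ <;> rw [ev2_vv]
        · rw [gg_zero' n hn0 (a - (a - 1)) (by omega)]; ring
        · apply mul_pos <;> apply gg_pos' n hn0 <;> omega
        · rw [gg_zero' n hn0 (a + 2 - (a + 2)) (by omega)]; ring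
        · rw [gg_zero' n hn0 (a + 3 - (a + 2)) (by omega)]; ring
      · refine ⟨?_, ?_, ?_, ?_⟩ <;> rw [ev2_vv]
        · rw [gg_zero' n hn0 (a - a) (by omega)]; ring
        · rw [gg_zero' n hn0 (a + 1 - a) (by omega)]; ring
        · apply mul_pos <;> apply gg_pos' n hn0 <;> omega
        · rw [gg_zero' n hn0 (a + 3 - (a + 3)) (by omega)]; ring
      · refine ⟨?_, ?_, ?_, ?_⟩ <;> rw [ev2_vv]
        · rw [gg_zero' n hn0 (a - (a - 1)) (by omega)]; ring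
        · rw [gg_zero' n hn0 (a + 1 - (a + 1)) (by omega)]; ring
        · rw [gg_zero' n hn0 (a + 2 - (a + 1)) (by omega)]; ring
        · apply mul_pos <;> apply gg_pos' n hn0 <;> omega
      · exact ⟨hq _, hq _, hq _, hq _⟩
  · refine ⟨(a + 1, b), (a - 1, b), (a, b + 1), (a, b - 1), ?_, ?_, ?_⟩
    · refine ⟨?_, ?_, ?_, ?_⟩ <;> apply adjI_mk <;> omega
    · refine ⟨?_, ?_, ?_, ?_⟩ <;> unfold Adm <;> simp only <;> omega
    · apply span5 q (vv n a b) (vv n (a + 1) b) (vv n (a - 1) b) (vv n a (b + 1))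
        (vv n a (b - 1)) (om n (a : ℤ)) (om n ((a + 1 : ℤ) : ℝ)) (om n ((b : ℤ) : ℝ))
        (om n ((b + 1 : ℤ) : ℝ)) (om n ((a + 2 : ℤ) : ℝ))
      · exact ⟨om_norm _ _, om_norm _ _, om_norm _ _, om_norm _ _, om_norm _ _⟩
      · apply card5 n hn0 <;> omega
      · refine ⟨?_, ?_, ?_, ?_⟩ <;> rw [ev2_vv]
        · rw [gg_zero' n hn0 (a - a) (by omega)]; ring
        · rw [gg_zero' n hn0 (a + 1 - a) (by omega)]; ring
        · rw [gg_zero' n hn0 (b - b) (by omega)]; ring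
        · rw [gg_zero' n hn0 (b + 1 - b) (by omega)]; ring
      · rw [ev2_vv]
        apply ne_of_gt
        apply mul_pos <;> apply gg_pos' n hn0 <;> omega
      · refine ⟨?_, ?_, ?_, ?_⟩ <;> rw [ev2_vv]
        · apply mul_pos <;> apply gg_pos' n hn0 <;> omega
        · rw [gg_zero' n hn0 (a + 1 - (a + 1)) (by omega)]; ring
        · rw [gg_zero' n hn0 (b - b) (by omega)]; ring
        · rw [gg_zero' n hn0 (b + 1 - b) (by omega)]; ring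
      · refine ⟨?_, ?_, ?_, ?_⟩ <;> rw [ev2_vv]
        · rw [gg_zero' n hn0 (a - (a - 1)) (by omega)]; ring
        · apply mul_pos <;> apply gg_pos' n hn0 <;> omega
        · rw [gg_zero' n hn0 (b - b) (by omega)]; ring
        · rw [gg_zero' n hn0 (b + 1 - b) (by omega)]; ring
      · refine ⟨?_, ?_, ?_, ?_⟩ <;> rw [ev2_vv]
        · rw [gg_zero' n hn0 (a - a) (by omega)]; ring
        · rw [gg_zero' n hn0 (a + 1 - a) (by omega)]; ring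
        · apply mul_pos <;> apply gg_pos' n hn0 <;> omega
        · rw [gg_zero' n hn0 (b + 1 - (b + 1)) (by omega)]; ring
      · refine ⟨?_, ?_, ?_, ?_⟩ <;> rw [ev2_vv]
        · rw [gg_zero' n hn0 (a - a) (by omega)]; ring
        · rw [gg_zero' n hn0 (a + 1 - a) (by omega)]; ring
        · rw [gg_zero' n hn0 (b - (b - 1)) (by omega)]; ring
        · apply mul_pos <;> apply gg_pos' n hn0 <;> omega
      · exact ⟨hq _, hq _, hq _, hq _⟩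

end Pool.Agent.Helper576.VA
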