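import Pool.Agent.Helper576.VA4

set_option autoImplicit false

namespace Pool.Agent.Helper576.VA

open ComplexConjugate

theorem ring_w (c C M P Cm : ℝ) (hc0 : 1 / 2 < c) (hc1 : c < 1) (hM : 0 < M) (h1 : M < C)
    (h1' : C < Cm) (hd : P ≤ M ^ 2) (h2 : M ^ 2 - P < (C - M) * (Cm - M))
    (h3 : 1 + c < C * (M * (1 + 2 * c) - C)) :
    ∃ l0 lp lm : ℝ, 0 < l0 ∧ 0 < lp ∧ 0 < lm ∧ l0 * (2 * c ^ 2 - 1) + lp + lm = 1 ∧
      l0 * c * C + lp * M + lm * Cm = C ∧
      l0 * (1 / 2 + C ^ 2) + lp * (1 / 2 + P) + lm * (1 / 2 + Cm ^ 2) = 1 / 2 + C ^ 2 := by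
  have hC : 0 < C := by linarith
  set c2 := 2 * c ^ 2 - 1 with hc2
  have hcc : 0 < c - c2 := by rw [hc2]; nlinarith
  have hMm : 0 < Cm - M := by linarith
  set B := -C ^ 2 + C * (c - c2) * (Cm ^ 2 - P) / (Cm - M) - 1 / 2 + (C ^ 2 + 1 / 2) * c2 with hB
  set A := C ^ 3 + C * (c - c2) * (Cm * P - M * Cm ^ 2) / (Cm - M) + 1 / 2 * (C + C * (c - c2))
    - (C ^ 2 + 1 / 2) * (C * c) with hA
  have hhM : A + B * M < 0 := by
    have e : A + B * M = (1 - c) * (C - M) * (C * (C - (1 + 2 * c) * M) + (1 + c))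
        - C * (c - c2) * (M ^ 2 - P) := by
      rw [hA, hB, hc2]; field_simp; ring
    rw [e]
    have t1 : (1 - c) * (C - M) * (C * (C - (1 + 2 * c) * M) + (1 + c)) < 0 := by
      apply mul_neg_of_pos_of_neg
      · exact mul_pos (by linarith) (by linarith)
      · nlinarith
    have t2 : 0 ≤ C * (c - c2) * (M ^ 2 - P) := by
      apply mul_nonneg (mul_pos hC hcc).le; linarith
    linarith
  have hhC : 0 < A + B * C := by
    have e : A + B * C = C * (c - c2) * (Cm - C) * ((C - M) * (Cm - M) - (M ^ 2 - P)) / (Cm - M) := by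
      rw [hA, hB, hc2]; field_simp; ring
    rw [e]
    apply div_pos _ hMm
    apply mul_pos (mul_pos (mul_pos hC hcc) (by linarith)) (by linarith)
  have hBpos : 0 < B := by
    have : 0 < B * (C - M) := by linarith
    exact (pos_iff_pos_of_mul_pos this).mpr (by linarith)
  set E := -A / B with hE
  have hEM : M < E := by rw [hE, lt_div_iff₀ hBpos]; linarith
  have hEC : E < C := by rw [hE, div_lt_iff₀ hBpos]; linarith
  have hE0 : A + B * E = 0 := by rw [hE]; field_simp; ring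
  have hD : 0 < C * c - E * c2 := by
    have : 0 < E * (c - c2) := mul_pos (by linarith) hcc
    nlinarith
  refine ⟨(C - E) / (C * c - E * c2), C * (c - c2) / (C * c - E * c2) * ((Cm - E) / (Cm - M)),
    C * (c - c2) / (C * c - E * c2) * ((E - M) / (Cm - M)), ?_, ?_, ?_, ?_, ?_, ?_⟩
  · exact div_pos (by linarith) hD
  · exact mul_pos (div_pos (mul_pos hC hcc) hD) (div_pos (by linarith) hMm)
  · exact mul_pos (div_pos (mul_pos hC hcc) hD) (div_pos (by linarith) hMm)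
  · have := hD.ne'
    have := hMm.ne'
    field_simp; ring
  · have := hD.ne'
    have := hMm.ne'
    field_simp; ring
  · have hD' := hD.ne'
    have hMm' := hMm.ne'
    have e : (C - E) / (C * c - E * c2) * (1 / 2 + C ^ 2)
        + C * (c - c2) / (C * c - E * c2) * ((Cm - E) / (Cm - M)) * (1 / 2 + P)
        + C * (c - c2) / (C * c - E * c2) * ((E - M) / (Cm - M)) * (1 / 2 + Cm ^ 2)
        - (1 / 2 + C ^ 2) = (A + B * E) / (C * c - E * c2) := by
      rw [hA, hB]; field_simp; ring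
    rw [hE0, zero_div] at e
    linarith

theorem ring_last (c C M : ℝ) (hc0 : 1 / 2 < c) (hc1 : c < 1) (hM : 0 < M) (h1 : M < C)
    (h3 : 1 + c < C * (M * (1 + 2 * c) - C)) :
    ∃ l0 lp lm : ℝ, 0 < l0 ∧ 0 < lp ∧ 0 < lm ∧ l0 * (2 * c ^ 2 - 1) + lp = 1 ∧
      l0 * c * C + lp * M = C ∧
      l0 * (1 / 2 + C ^ 2) + lp * (1 / 2 + M ^ 2) + lm = 1 / 2 + C ^ 2 := by
  have hC : 0 < C := by linarith
  set c2 := 2 * c ^ 2 - 1 with hc2
  have hcc : 0 < c - c2 := by rw [hc2]; nlinarith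
  have hD : 0 < C * c - M * c2 := by
    have : 0 < M * (c - c2) := mul_pos (by linarith) hcc
    nlinarith
  have t1 : (1 - c) * (C - M) * (C * (C - (1 + 2 * c) * M) + (1 + c)) < 0 := by
    apply mul_neg_of_pos_of_neg
    · exact mul_pos (by linarith) (by linarith)
    · nlinarith
  refine ⟨(C - M) / (C * c - M * c2), C * (c - c2) / (C * c - M * c2),
    -((1 - c) * (C - M) * (C * (C - (1 + 2 * c) * M) + (1 + c))) / (C * c - M * c2), ?_, ?_, ?_, ?_,
    ?_, ?_⟩
  · exact div_pos (by linarith) hD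
  · exact div_pos (mul_pos hC hcc) hD
  · exact div_pos (by linarith) hD
  · have := hD.ne'
    field_simp; ring
  · have := hD.ne'
    field_simp; ring
  · have := hD.ne'
    field_simp
    rw [hc2]; ring

/-- reflection symmetric vectors at direction `w` -/
noncomputable def sy (s p : ℝ) (w : ℂ) : P2 := (1 / 2 + p, -((s : ℂ) * w), (1 / 2) * w ^ 2)

theorem sy_rel (c : ℝ) (e w : ℂ) (he : ‖e‖ = 1) (hc : e.re = c) (l0 lp lm C M P Cm : ℝ)
    (e1 : l0 * (2 * c ^ 2 - 1) + lp + lm = 1) (e2 : l0 * c * C + lp * M + lm * Cm = C)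
    (e3 : l0 * (1 / 2 + C ^ 2) + lp * (1 / 2 + P) + lm * (1 / 2 + Cm ^ 2) = 1 / 2 + C ^ 2) :
    sy (2 * C) (C ^ 2) w = (l0 / 2) • sy (2 * C) (C ^ 2) (w * e)
      + (l0 / 2) • sy (2 * C) (C ^ 2) (w * conj e) + lp • sy (2 * M) P w
      + lm • sy (2 * Cm) (Cm ^ 2) w := by
  have hs : e + conj e = 2 * (c : ℂ) := by
    rw [Complex.add_conj, hc]; push_cast; ring
  have hm : e * conj e = 1 := by
    rw [Complex.mul_conj, Complex.normSq_eq_norm_sq, he]; norm_num
  have h2 : e ^ 2 + conj e ^ 2 = 2 * (2 * (c : ℂ) ^ 2 - 1) := by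
    linear_combination (e + conj e + 2 * (c : ℂ)) * hs - 2 * hm
  have e1c : (l0 : ℂ) * (2 * c ^ 2 - 1) + lp + lm = 1 := by exact_mod_cast e1
  have e2c : (l0 : ℂ) * c * C + lp * M + lm * Cm = C := by exact_mod_cast e2
  refine Prod.ext ?_ (Prod.ext ?_ ?_)
  · simp only [sy, Prod.smul_fst, Prod.fst_add, smul_eq_mul]
    linear_combination -e3
  · simp only [sy, Prod.smul_fst, Prod.smul_snd, Prod.fst_add, Prod.snd_add, Complex.real_smul]
    push_cast
    linear_combination (2 * w) * e2c + (l0 : ℂ) * C * w * hs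
  · simp only [sy, Prod.smul_snd, Prod.snd_add, Complex.real_smul]
    push_cast
    linear_combination (-(1 / 2) * w ^ 2) * e1c - ((l0 : ℂ) / 4) * w ^ 2 * h2

theorem sy_rel_last (c : ℝ) (e w : ℂ) (he : ‖e‖ = 1) (hc : e.re = c) (l0 lp lm C M : ℝ)
    (e1 : l0 * (2 * c ^ 2 - 1) + lp = 1) (e2 : l0 * c * C + lp * M = C)
    (e3 : l0 * (1 / 2 + C ^ 2) + lp * (1 / 2 + M ^ 2) + lm = 1 / 2 + C ^ 2) :
    sy (2 * C) (C ^ 2) w = (l0 / 2) • sy (2 * C) (C ^ 2) (w * e)
      + (l0 / 2) • sy (2 * C) (C ^ 2) (w * conj e) + lp • sy (2 * M) (M ^ 2) w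
      + lm • ((1 : ℝ), (0 : ℂ), (0 : ℂ)) := by
  have hs : e + conj e = 2 * (c : ℂ) := by
    rw [Complex.add_conj, hc]; push_cast; ring
  have hm : e * conj e = 1 := by
    rw [Complex.mul_conj, Complex.normSq_eq_norm_sq, he]; norm_num
  have h2 : e ^ 2 + conj e ^ 2 = 2 * (2 * (c : ℂ) ^ 2 - 1) := by
    linear_combination (e + conj e + 2 * (c : ℂ)) * hs - 2 * hm
  have e1c : (l0 : ℂ) * (2 * c ^ 2 - 1) + lp = 1 := by exact_mod_cast e1
  have e2c : (l0 : ℂ) * c * C + lp * M = C := by exact_mod_cast e2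
  refine Prod.ext ?_ (Prod.ext ?_ ?_)
  · simp only [sy, Prod.smul_fst, Prod.fst_add, smul_eq_mul]
    linear_combination -e3
  · simp only [sy, Prod.smul_fst, Prod.smul_snd, Prod.fst_add, Prod.snd_add, Complex.real_smul,
      smul_zero, add_zero]
    push_cast
    linear_combination (2 * w) * e2c + (l0 : ℂ) * C * w * hs
  · simp only [sy, Prod.smul_snd, Prod.snd_add, Complex.real_smul, smul_zero, add_zero]
    push_cast
    linear_combination (-(1 / 2) * w ^ 2) * e1c - ((l0 : ℂ) / 4) * w ^ 2 * h2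

end Pool.Agent.Helper576.VA
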