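import Pool.Agent.Helper576.VA5

set_option autoImplicit false

namespace Pool.Agent.Helper576.VA

open ComplexConjugate

/-- numerical parameters: `n` half the number of directions, `N` the number of rings -/
structure Par where
  n : ℕ
  N : ℕ
  hN : 3 ≤ N
  hn : 8 ≤ n
  hk : 1 - kap n ≤ 1 / 250

namespace Par

variable (p : Par)

theorem n_pos : 0 < p.n := by have := p.hn; omega

noncomputable def k : ℝ := kap p.n
noncomputable def c : ℝ := 2 * p.k ^ 2 - 1
noncomputable def r1 : ℝ := 1 / (1 + 24 * (1 - p.k))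
noncomputable def rho (D : ℤ) : ℝ := p.r1 * ((p.N : ℝ) + D - 1) / p.N

theorem k_lt : p.k < 1 := by
  have hn : (8 : ℝ) ≤ p.n := by exact_mod_cast p.hn
  have hpi := Real.pi_pos
  unfold k kap
  rw [← Real.cos_zero]
  apply Real.cos_lt_cos_of_nonneg_of_le_pi_div_two (le_refl _)
  · rw [div_le_div_iff₀ (by positivity) (by norm_num)]
    nlinarith
  · positivity

theorem k_ge : 249 / 250 ≤ p.k := by have := p.hk; unfold k; linarith

theorem c_eq : p.c = Real.cos (Real.pi / p.n) := by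
  have h0 : (p.n : ℝ) ≠ 0 := by have := p.n_pos; positivity
  unfold c k kap
  rw [← Real.cos_two_mul]
  congr 1; field_simp

theorem c_lt : p.c < 1 := by
  have h1 := p.k_lt
  have h2 := p.k_ge
  unfold c; nlinarith

theorem c_ge : 49 / 50 ≤ p.c := by
  have h2 := p.k_ge
  unfold c; nlinarith

theorem om1_re : (om p.n 1).re = p.c := by
  rw [om_re, c_eq, mul_one]

theorem r1_pos : 0 < p.r1 := by
  have := p.k_lt
  unfold r1
  apply div_pos one_pos; linarith

theorem r1_sq : p.r1 ^ 2 < 1 - 2 * (1 - p.c) := by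
  have h1 := p.k_lt
  have h2 := p.k_ge
  unfold r1 c
  set y := 1 - p.k with hy
  have hk : p.k = 1 - y := by rw [hy]; ring
  have hy0 : 0 < y := by rw [hy]; linarith
  have hy1 : y ≤ 1 / 250 := by rw [hy]; linarith
  rw [hk, div_pow, one_pow, div_lt_iff₀ (by positivity)]
  nlinarith [mul_pos hy0 hy0, mul_pos (mul_pos hy0 hy0) hy0, mul_pos (mul_pos hy0 hy0) (mul_pos hy0 hy0)]

end Par

theorem h3_gen (c r j N : ℝ) (hc0 : 1 / 2 < c) (hc1 : c < 1) (hr : 0 < r)
    (hr2 : r ^ 2 < 1 - 2 * (1 - c)) (hj : 1 ≤ j) (hN : j + 1 ≤ N) :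
    1 + c < (N / (r * j)) * ((N / (r * (j + 1))) * (1 + 2 * c) - N / (r * j)) := by
  have hj0 : 0 < j := by linarith
  have hN0 : 0 < N := by linarith
  have e : (N / (r * j)) * ((N / (r * (j + 1))) * (1 + 2 * c) - N / (r * j))
      = N ^ 2 * (2 * c * j - 1) / (r ^ 2 * j ^ 2 * (j + 1)) := by
    field_simp; ring
  rw [e, lt_div_iff₀ (by positivity)]
  have h0 : 0 < 2 * c * j - 1 := by nlinarith
  have h1 : (1 + c) * r ^ 2 * j ^ 2 < (j + 1) * (2 * c * j - 1) := by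
    have a1 : (1 + c) * r ^ 2 * j ^ 2 < 2 * (1 - 2 * (1 - c)) * j ^ 2 := by
      have hj2 : 0 < j ^ 2 := by positivity
      have : (1 + c) * r ^ 2 < 2 * (1 - 2 * (1 - c)) := by
        have hr0 : 0 ≤ r ^ 2 := by positivity
        nlinarith
      nlinarith
    have a2 : 2 * (1 - 2 * (1 - c)) * j ^ 2 ≤ (j + 1) * (2 * c * j - 1) := by
      nlinarith [mul_nonneg (mul_nonneg hj0.le (sub_nonneg.mpr hj)) (sub_nonneg.mpr hc1.le)]
    linarith
  have h2 : (j + 1) ^ 2 * (2 * c * j - 1) ≤ N ^ 2 * (2 * c * j - 1) := by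
    apply mul_le_mul_of_nonneg_right _ h0.le
    nlinarith
  calc (1 + c) * (r ^ 2 * j ^ 2 * (j + 1)) = ((1 + c) * r ^ 2 * j ^ 2) * (j + 1) := by ring
    _ < ((j + 1) * (2 * c * j - 1)) * (j + 1) := by
        apply mul_lt_mul_of_pos_right h1; linarith
    _ = (j + 1) ^ 2 * (2 * c * j - 1) := by ring
    _ ≤ _ := h2

namespace Par

variable (p : Par)

/-- ring vertices -/
noncomputable def rr (X D : ℤ) : P2 := sq (1, -((p.rho D : ℂ) * om p.n ((X : ℝ) + 3 / 2)))

/-- all vertices -/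
noncomputable def vtx (X D : ℤ) : P2 := if 2 ≤ D then vv p.n X (X + D) else p.rr X D

theorem vtx_outer (X D : ℤ) (h : 2 ≤ D) : p.vtx X D = vv p.n X (X + D) := if_pos h
theorem vtx_inner (X D : ℤ) (h : D ≤ 1) : p.vtx X D = p.rr X D := if_neg (by omega)

theorem rr_eq (X D : ℤ) : p.rr X D = (1 + 1 / 2 * p.rho D ^ 2,
    -((2 * p.rho D : ℝ) * om p.n ((X : ℝ) + 3 / 2)),
    (1 / 2 * p.rho D ^ 2 : ℝ) * om p.n ((X : ℝ) + 3 / 2) ^ 2) := by
  unfold rr sq mul
  have hm : om p.n ((X : ℝ) + 3 / 2) * conj (om p.n ((X : ℝ) + 3 / 2)) = 1 := by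
    rw [Complex.mul_conj, Complex.normSq_eq_norm_sq, om_norm]; norm_num
  refine Prod.ext ?_ (Prod.ext ?_ ?_)
  · simp only [map_neg, map_mul, Complex.conj_ofReal, neg_mul_neg]
    have : (p.rho D : ℂ) * om p.n ((X : ℝ) + 3 / 2) * ((p.rho D : ℂ) * conj (om p.n ((X : ℝ) + 3 / 2)))
        = ((p.rho D ^ 2 : ℝ) : ℂ) := by
      push_cast
      linear_combination (p.rho D : ℂ) ^ 2 * hm
    rw [this, Complex.ofReal_re]; ring
  · simp only; push_cast; ring
  · simp only; push_cast; ring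

theorem rr_sy (X D : ℤ) (h : 0 < p.rho D) : p.rr X D
    = (p.rho D ^ 2) • sy (2 * (1 / p.rho D)) ((1 / p.rho D) ^ 2) (om p.n ((X : ℝ) + 3 / 2)) := by
  rw [rr_eq]
  have h' := h.ne'
  have h'' : (p.rho D : ℂ) ≠ 0 := by exact_mod_cast h'
  refine Prod.ext ?_ (Prod.ext ?_ ?_)
  · simp only [sy, Prod.smul_fst, smul_eq_mul]; field_simp; ring
  · simp only [sy, Prod.smul_fst, Prod.smul_snd, Complex.real_smul]; push_cast; field_simp
  · simp only [sy, Prod.smul_snd, Complex.real_smul]; push_cast; field_simp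

theorem vv2_sy (X : ℤ) : vv p.n X (X + 2)
    = sy (2 * (p.k * p.c)) (p.k ^ 2 + p.c ^ 2 - 1) (om p.n ((X : ℝ) + 3 / 2)) := by
  refine Prod.ext ?_ (Prod.ext ?_ ?_)
  · rw [vv_fst]
    simp only [sy]
    have : Real.cos (Real.pi * ((X : ℝ) - ((X + 2 : ℤ) : ℝ)) / p.n) = 2 * p.c ^ 2 - 1 := by
      rw [p.c_eq, ← Real.cos_two_mul, ← Real.cos_neg]
      congr 1; push_cast; ring
    rw [this]; unfold k; ring
  · rw [vv_snd1]
    simp only [sy]
    have e1 : om p.n ((X : ℝ) + 1 / 2) = om p.n ((X : ℝ) + 3 / 2) * conj (om p.n 1) := by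
      rw [om_conj, ← om_add]; congr 1; ring
    have e2 : om p.n (((X + 2 : ℤ) : ℝ) + 1 / 2) = om p.n ((X : ℝ) + 3 / 2) * om p.n 1 := by
      rw [← om_add]; congr 1; push_cast; ring
    have hs : om p.n 1 + conj (om p.n 1) = 2 * (p.c : ℂ) := by
      rw [Complex.add_conj, om1_re]; push_cast; ring
    rw [e1, e2]
    unfold k at *
    push_cast
    linear_combination (-(kap p.n : ℂ) * om p.n ((X : ℝ) + 3 / 2)) * hs
  · rw [vv_snd2]
    simp only [sy]
    rw [pow_two, ← om_add]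
    congr 2; push_cast; ring

theorem rho_pos (D : ℤ) (h : 2 - (p.N : ℤ) ≤ D) : 0 < p.rho D := by
  have hN := p.hN
  have hN0 : (0 : ℝ) < p.N := by positivity
  have : (0 : ℝ) < (p.N : ℝ) + D - 1 := by
    have h1 : (0 : ℤ) < p.N + D - 1 := by omega
    exact_mod_cast h1
  unfold rho
  exact div_pos (mul_pos p.r1_pos this) hN0

theorem rho_one : p.rho 1 = p.r1 := by
  have hN := p.hN
  have hN0 : (p.N : ℝ) ≠ 0 := by positivity
  unfold rho; push_cast; field_simp; ring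

theorem rho_center : p.rho (1 - p.N) = 0 := by
  unfold rho; push_cast; ring

theorem rr_center (X : ℤ) : p.rr X (1 - p.N) = (1, 0, 0) := by
  rw [rr_eq, rho_center]
  refine Prod.ext ?_ (Prod.ext ?_ ?_) <;> simp

end Par

end Pool.Agent.Helper576.VA
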