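import Pool.Agent.Helper576.VA6

set_option autoImplicit false

namespace Pool.Agent.Helper576.VA

open ComplexConjugate

/-- first ring inequality 1 -/
theorem fr1 (k c : ℝ) (hk0 : 0 ≤ k) (hk : k < 1) (hc0 : 0 ≤ c) (hc : c < 1) :
    k ^ 2 + c ^ 2 - 1 ≤ (k * c) ^ 2 := by
  have e : (k * c) ^ 2 - (k ^ 2 + c ^ 2 - 1) = (1 - k ^ 2) * (1 - c ^ 2) := by ring
  have h1 : 0 ≤ 1 - k ^ 2 := by nlinarith
  have h2 : 0 ≤ 1 - c ^ 2 := by nlinarith
  have := mul_nonneg h1 h2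
  linarith

theorem fr2 (y R : ℝ) (hy0 : 0 < y) (hy1 : y ≤ 1 / 250) (hR : 1 + 24 * y < R) :
    ((1 - y) * (1 - 4 * y + 2 * y ^ 2)) ^ 2 - ((1 - y) ^ 2 + (1 - 4 * y + 2 * y ^ 2) ^ 2 - 1)
      < (1 + 24 * y - (1 - y) * (1 - 4 * y + 2 * y ^ 2)) * (R - (1 - y) * (1 - 4 * y + 2 * y ^ 2)) := by
  have hy2 : 0 < y ^ 2 := by positivity
  have t0 : (1 - y) * (1 - 4 * y + 2 * y ^ 2) ≤ 1 := by nlinarith
  have t3 : (24 * y) * (24 * y) ≤ (1 + 24 * y - (1 - y) * (1 - 4 * y + 2 * y ^ 2)) *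
      (R - (1 - y) * (1 - 4 * y + 2 * y ^ 2)) := by
    apply mul_le_mul (by linarith) (by linarith) (by linarith) (by linarith)
  have e : ((1 - y) * (1 - 4 * y + 2 * y ^ 2)) ^ 2 - ((1 - y) ^ 2 + (1 - 4 * y + 2 * y ^ 2) ^ 2 - 1)
      = (y * (2 - y)) * (y * (8 - 20 * y + 16 * y ^ 2 - 4 * y ^ 3)) := by ring
  rw [e]
  have a1 : y * (2 - y) ≤ 2 * y := by nlinarith
  have a3 : 0 ≤ y * (2 - y) := mul_nonneg hy0.le (by linarith)
  have hy3 : 0 < y ^ 3 := by positivity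
  have hy3' : y ^ 3 ≤ y := by
    have : y ^ 3 = y * y ^ 2 := by ring
    rw [this]; nlinarith
  have hy2' : y ^ 2 ≤ y := by nlinarith
  have a4 : 0 ≤ y * (8 - 20 * y + 16 * y ^ 2 - 4 * y ^ 3) :=
    mul_nonneg hy0.le (by linarith)
  have a2 : y * (8 - 20 * y + 16 * y ^ 2 - 4 * y ^ 3) ≤ 8 * y := by
    have : 8 - 20 * y + 16 * y ^ 2 - 4 * y ^ 3 ≤ 8 := by linarith
    nlinarith
  have h5 : (y * (2 - y)) * (y * (8 - 20 * y + 16 * y ^ 2 - 4 * y ^ 3)) ≤ (2 * y) * (8 * y) :=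
    mul_le_mul a1 a2 a4 (by linarith)
  have h6 : (2 * y) * (8 * y) < (24 * y) * (24 * y) := by nlinarith
  linarith

theorem fr3 (y : ℝ) (hy0 : 0 < y) (hy1 : y ≤ 1 / 250) :
    1 + (1 - 4 * y + 2 * y ^ 2) < (1 + 24 * y) * ((1 - y) * (1 - 4 * y + 2 * y ^ 2) *
      (1 + 2 * (1 - 4 * y + 2 * y ^ 2)) - (1 + 24 * y)) := by
  have e : (1 + 24 * y) * ((1 - y) * (1 - 4 * y + 2 * y ^ 2) * (1 + 2 * (1 - 4 * y + 2 * y ^ 2))
      - (1 + 24 * y)) - (1 + (1 - 4 * y + 2 * y ^ 2))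
      = y * (5 - 1068 * y + y ^ 2 * (1414 - 1736 * y) + y ^ 4 * (952 - 192 * y)) := by ring
  have h1 : 0 ≤ y ^ 2 * (1414 - 1736 * y) := mul_nonneg (by positivity) (by linarith)
  have h2 : 0 ≤ y ^ 4 * (952 - 192 * y) := mul_nonneg (by positivity) (by linarith)
  have := mul_pos hy0 (show 0 < 5 - 1068 * y + y ^ 2 * (1414 - 1736 * y) + y ^ 4 * (952 - 192 * y) by
    linarith)
  linarith

namespace Par

variable (p : Par)

theorem inner_rel (X D : ℤ) (h : 2 - (p.N : ℤ) ≤ D) (h' : D ≤ 1) :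
    ∃ la lp lm : ℝ, 0 < la ∧ 0 < lp ∧ 0 < lm ∧
      p.vtx X D = la • p.vtx (X + 1) D + la • p.vtx (X - 1) D + lp • p.vtx X (D + 1)
        + lm • p.vtx X (D - 1) := by
  have hN := p.hN
  have hN0 : (0 : ℝ) < p.N := by positivity
  have hc0 := p.c_ge
  have hc1 := p.c_lt
  have hk0 := p.k_ge
  have hk1 := p.k_lt
  have hr1 := p.r1_pos
  have hr2 := p.r1_sq
  have hrho := p.rho_pos D h
  set w := om p.n ((X : ℝ) + 3 / 2) with hw
  have ew : om p.n (((X + 1 : ℤ) : ℝ) + 3 / 2) = w * om p.n 1 := by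
    rw [hw, ← om_add]; congr 1; push_cast; ring
  have ew' : om p.n (((X - 1 : ℤ) : ℝ) + 3 / 2) = w * conj (om p.n 1) := by
    rw [hw, om_conj, ← om_add]; congr 1; push_cast; ring
  have hn1 := om_norm p.n 1
  have hre := p.om1_re
  -- rewriting the vertices on this ring
  have r0 : p.vtx X D = (p.rho D ^ 2) • sy (2 * (1 / p.rho D)) ((1 / p.rho D) ^ 2) w := by
    rw [vtx_inner _ _ _ h', rr_sy _ _ _ hrho]
  have ra : p.vtx (X + 1) D = (p.rho D ^ 2) • sy (2 * (1 / p.rho D)) ((1 / p.rho D) ^ 2) (w * om p.n 1) := by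
    rw [vtx_inner _ _ _ h', rr_sy _ _ _ hrho, ew]
  have rb : p.vtx (X - 1) D = (p.rho D ^ 2) • sy (2 * (1 / p.rho D)) ((1 / p.rho D) ^ 2)
      (w * conj (om p.n 1)) := by
    rw [vtx_inner _ _ _ h', rr_sy _ _ _ hrho, ew']
  -- the value of j
  set j : ℝ := (p.N : ℝ) + D - 1 with hj
  have hj1 : 1 ≤ j := by
    have : (1 : ℤ) ≤ p.N + D - 1 := by omega
    rw [hj]; exact_mod_cast this
  have hrhoD : 1 / p.rho D = p.N / (p.r1 * j) := by
    unfold rho; rw [one_div_div]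
  rcases eq_or_lt_of_le h' with hD1 | hD1
  · -- first ring
    subst hD1
    have hjN : j = p.N := by rw [hj]; push_cast; ring
    have hC : 1 / p.rho 1 = 1 + 24 * (1 - p.k) := by
      rw [rho_one]; unfold r1; rw [one_div_one_div]
    have hrho0 := p.rho_pos 0 (by omega)
    have hCm : 1 + 24 * (1 - p.k) < 1 / p.rho 0 := by
      rw [← hC]
      apply one_div_lt_one_div_of_lt hrho0
      unfold rho
      apply div_lt_div_of_pos_right _ hN0
      push_cast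
      nlinarith
    have hcc : p.c = 1 - 4 * (1 - p.k) + 2 * (1 - p.k) ^ 2 := by unfold c; ring
    have hkk : p.k = 1 - (1 - p.k) := by ring
    have hy0 : 0 < 1 - p.k := by linarith
    have hy1 : 1 - p.k ≤ 1 / 250 := by linarith
    have q0 : p.k * p.c ≤ 1 := by nlinarith
    have q1 := fr1 p.k p.c (by linarith) hk1 (by linarith) hc1
    have q2 : (p.k * p.c) ^ 2 - (p.k ^ 2 + p.c ^ 2 - 1)
        < (1 / p.rho 1 - p.k * p.c) * (1 / p.rho 0 - p.k * p.c) := by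
      have := fr2 (1 - p.k) (1 / p.rho 0) hy0 hy1 hCm
      rw [← hcc, ← hkk] at this
      rw [hC]; exact this
    have q3 : 1 + p.c < (1 / p.rho 1) * ((p.k * p.c) * (1 + 2 * p.c) - 1 / p.rho 1) := by
      have := fr3 (1 - p.k) hy0 hy1
      rw [← hcc, ← hkk] at this
      rw [hC]; exact this
    obtain ⟨l0, lp, lm, h1, h2, h3, h4, h5, h6⟩ := ring_w p.c (1 / p.rho 1) (p.k * p.c)
      (p.k ^ 2 + p.c ^ 2 - 1) (1 / p.rho 0) (by linarith) hc1 (by positivity)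
      (by rw [hC]; linarith) (by rw [hC]; exact hCm) q1 q2 q3
    refine ⟨l0 / 2, lp * p.rho 1 ^ 2, lm * p.rho 1 ^ 2 / p.rho 0 ^ 2, by positivity, by positivity,
      by positivity, ?_⟩
    have key := sy_rel p.c (om p.n 1) w hn1 hre l0 lp lm (1 / p.rho 1) (p.k * p.c)
      (p.k ^ 2 + p.c ^ 2 - 1) (1 / p.rho 0) h4 h5 h6
    have ru : p.vtx X (1 + 1) = sy (2 * (p.k * p.c)) (p.k ^ 2 + p.c ^ 2 - 1) w := by
      rw [show (1 : ℤ) + 1 = 2 by norm_num, vtx_outer _ _ _ (le_refl 2), vv2_sy]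
    have rd : p.vtx X (1 - 1) = (p.rho 0 ^ 2) • sy (2 * (1 / p.rho 0)) ((1 / p.rho 0) ^ 2) w := by
      rw [show (1 : ℤ) - 1 = 0 by norm_num, vtx_inner _ _ _ (by norm_num), rr_sy _ _ _ hrho0]
    rw [r0, ra, rb, ru, rd]
    conv_lhs => rw [key]
    simp only [smul_add, smul_smul]
    have hq : lm * p.rho 1 ^ 2 / p.rho 0 ^ 2 * p.rho 0 ^ 2 = p.rho 1 ^ 2 * lm := by
      field_simp
    rw [hq, mul_comm (p.rho 1 ^ 2) (l0 / 2), mul_comm (p.rho 1 ^ 2) lp]
  · -- further rings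
    have hrhoP := p.rho_pos (D + 1) (by omega)
    have hjN : j + 1 ≤ p.N := by
      have : (p.N : ℤ) + D - 1 + 1 ≤ p.N := by omega
      rw [hj]; exact_mod_cast this
    have hrhoDp : 1 / p.rho (D + 1) = p.N / (p.r1 * (j + 1)) := by
      unfold rho; rw [one_div_div, hj]; push_cast; ring_nf
    have hlt : p.rho D < p.rho (D + 1) := by
      unfold rho
      apply div_lt_div_of_pos_right _ hN0
      push_cast
      nlinarith
    have h1' : 1 / p.rho (D + 1) < 1 / p.rho D := one_div_lt_one_div_of_lt hrho hlt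
    have h3' : 1 + p.c < (1 / p.rho D) * ((1 / p.rho (D + 1)) * (1 + 2 * p.c) - 1 / p.rho D) := by
      rw [hrhoD, hrhoDp]
      exact h3_gen p.c p.r1 j p.N (by linarith) hc1 hr1 hr2 hj1 hjN
    have ru : p.vtx X (D + 1) = (p.rho (D + 1) ^ 2) • sy (2 * (1 / p.rho (D + 1)))
        ((1 / p.rho (D + 1)) ^ 2) w := by
      rw [vtx_inner _ _ _ (by omega), rr_sy _ _ _ hrhoP]
    rcases eq_or_lt_of_le h with hlast | hmid
    · -- last ring
      obtain ⟨l0, lp, lm, h1, h2, h3, h4, h5, h6⟩ := ring_last p.c (1 / p.rho D) (1 / p.rho (D + 1))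
        (by linarith) hc1 (by positivity) h1' h3'
      refine ⟨l0 / 2, lp * p.rho D ^ 2 / p.rho (D + 1) ^ 2, lm * p.rho D ^ 2, by positivity,
        by positivity, by positivity, ?_⟩
      have key := sy_rel_last p.c (om p.n 1) w hn1 hre l0 lp lm (1 / p.rho D) (1 / p.rho (D + 1))
        h4 h5 h6
      have rd : p.vtx X (D - 1) = ((1 : ℝ), (0 : ℂ), (0 : ℂ)) := by
        rw [vtx_inner _ _ _ (by omega), show D - 1 = 1 - (p.N : ℤ) by omega, rr_center]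
      rw [r0, ra, rb, ru, rd]
      conv_lhs => rw [key]
      simp only [smul_add, smul_smul]
      have hq : lp * p.rho D ^ 2 / p.rho (D + 1) ^ 2 * p.rho (D + 1) ^ 2 = p.rho D ^ 2 * lp := by
        field_simp
      rw [hq, mul_comm (p.rho D ^ 2) (l0 / 2), mul_comm (p.rho D ^ 2) lm]
    · have hrhoM := p.rho_pos (D - 1) (by omega)
      have hlt' : p.rho (D - 1) < p.rho D := by
        unfold rho
        apply div_lt_div_of_pos_right _ hN0
        push_cast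
        nlinarith
      have h1'' : 1 / p.rho D < 1 / p.rho (D - 1) := one_div_lt_one_div_of_lt hrhoM hlt'
      obtain ⟨l0, lp, lm, h1, h2, h3, h4, h5, h6⟩ := ring_w p.c (1 / p.rho D) (1 / p.rho (D + 1))
        ((1 / p.rho (D + 1)) ^ 2) (1 / p.rho (D - 1)) (by linarith) hc1 (by positivity) h1' h1''
        (le_refl _) (by rw [sub_self]; apply mul_pos <;> linarith) h3'
      refine ⟨l0 / 2, lp * p.rho D ^ 2 / p.rho (D + 1) ^ 2, lm * p.rho D ^ 2 / p.rho (D - 1) ^ 2,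
        by positivity, by positivity, by positivity, ?_⟩
      have key := sy_rel p.c (om p.n 1) w hn1 hre l0 lp lm (1 / p.rho D) (1 / p.rho (D + 1))
        ((1 / p.rho (D + 1)) ^ 2) (1 / p.rho (D - 1)) h4 h5 h6
      have rd : p.vtx X (D - 1) = (p.rho (D - 1) ^ 2) • sy (2 * (1 / p.rho (D - 1)))
          ((1 / p.rho (D - 1)) ^ 2) w := by
        rw [vtx_inner _ _ _ (by omega), rr_sy _ _ _ hrhoM]
      rw [r0, ra, rb, ru, rd]
      conv_lhs => rw [key]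
      simp only [smul_add, smul_smul]
      have hq : lp * p.rho D ^ 2 / p.rho (D + 1) ^ 2 * p.rho (D + 1) ^ 2 = p.rho D ^ 2 * lp := by
        field_simp
      have hq' : lm * p.rho D ^ 2 / p.rho (D - 1) ^ 2 * p.rho (D - 1) ^ 2 = p.rho D ^ 2 * lm := by
        field_simp
      rw [hq, hq', mul_comm (p.rho D ^ 2) (l0 / 2)]

end Par

end Pool.Agent.Helper576.VA
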