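import Pool.Agent.Helper576.VI
import Pool.Agent.Helper576.VA6b

set_option autoImplicit false

namespace Pool.Agent.Helper576.VA

open ComplexConjugate

namespace Par

variable (p : Par)

theorem k_eq : p.k = kap p.n := rfl

theorem vv_fst_pos (a b : ℤ) : 0 < (vv p.n a b).1 := by
  rw [vv_fst]
  have h := p.k_ge
  rw [k_eq] at h
  have := Real.neg_one_le_cos (Real.pi * ((a : ℝ) - b) / p.n)
  nlinarith

theorem rr_fst_pos (X D : ℤ) : 0 < (p.rr X D).1 := by
  rw [rr_eq]; positivity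

theorem vtx_fst_pos (X D : ℤ) : 0 < (p.vtx X D).1 := by
  unfold vtx; split_ifs
  · exact p.vv_fst_pos _ _
  · exact p.rr_fst_pos _ _

theorem r1_lt : p.r1 < 1 := by
  have := p.k_lt
  unfold r1
  rw [div_lt_one (by linarith)]; linarith

theorem rho_nonneg (D : ℤ) (h : 1 - (p.N : ℤ) ≤ D) : 0 ≤ p.rho D := by
  rcases eq_or_lt_of_le h with h1 | h1
  · rw [← h1, rho_center]
  · exact (p.rho_pos D (by omega)).le

theorem rho_le (D : ℤ) (h' : D ≤ 1) : p.rho D ≤ p.r1 := by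
  have hN := p.hN
  have hN0 : (0 : ℝ) < p.N := by positivity
  have hD : (D : ℝ) ≤ 1 := by exact_mod_cast h'
  unfold rho
  rw [div_le_iff₀ hN0]
  have := p.r1_pos
  nlinarith

theorem rho_lt_one (D : ℤ) (h' : D ≤ 1) : p.rho D < 1 := lt_of_le_of_lt (p.rho_le D h') p.r1_lt

theorem rho_strict (D D' : ℤ) (h : D < D') : p.rho D < p.rho D' := by
  have hN := p.hN
  have hN0 : (0 : ℝ) < p.N := by positivity
  have hD : (D : ℝ) < D' := by exact_mod_cast h
  unfold rho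
  apply div_lt_div_of_pos_right _ hN0
  have := p.r1_pos
  nlinarith

theorem ev2_rr_pos (X D : ℤ) (h : 1 - (p.N : ℤ) ≤ D) (h' : D ≤ 1) (k : ℤ) :
    0 < ev2 (p.rr X D) (om p.n k) := by
  unfold rr
  unfold sq
  rw [ev2_mul _ _ _ (om_norm _ _)]
  have h0 := p.rho_nonneg D h
  have h1 := p.rho_lt_one D h'
  have : 0 < ev1 (1, -((p.rho D : ℂ) * om p.n ((X : ℝ) + 3 / 2))) (om p.n k) := by
    unfold ev1
    simp only
    rw [om_conj, neg_mul, mul_assoc, ← om_add, Complex.neg_re, Complex.re_ofReal_mul, om_re]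
    have := Real.cos_le_one (Real.pi * ((X : ℝ) + 3 / 2 + -(k : ℝ)) / p.n)
    nlinarith
  positivity

/-- same D, shift by 2n -/
theorem vtx_per (X D k : ℤ) : p.vtx (X + 2 * p.n * k) D = p.vtx X D := by
  have hn := p.n_pos
  unfold vtx
  split_ifs
  · have : X + 2 * (p.n : ℤ) * k + D = X + D + 2 * p.n * k := by ring
    rw [this, vv_per_right _ hn, vv_per_left _ hn]
  · unfold rr
    have : (((X + 2 * (p.n : ℤ) * k : ℤ) : ℝ) + 3 / 2) = ((X : ℝ) + 3 / 2) + 2 * p.n * k := by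
      push_cast; ring
    rw [this, om_add_2nk _ hn]

theorem vtx_n_shift (X : ℤ) : p.vtx (X + p.n) p.n = p.vtx X p.n := by
  have hn := p.hn
  have hn0 := p.n_pos
  rw [vtx_outer _ _ _ (by omega), vtx_outer _ _ _ (by omega), vv_comm p.n X]
  have : X + (p.n : ℤ) + p.n = X + 2 * p.n * 1 := by ring
  rw [this, vv_per_right _ hn0]

theorem vtx_n_shift' (X k : ℤ) : p.vtx (X + p.n * k) p.n = p.vtx X p.n := by
  rcases Int.even_or_odd k with ⟨j, hj⟩ | ⟨j, hj⟩
  · have : X + (p.n : ℤ) * k = X + 2 * p.n * j := by rw [hj]; ring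
    rw [this, vtx_per]
  · have : X + (p.n : ℤ) * k = (X + p.n) + 2 * p.n * j := by rw [hj]; ring
    rw [this, vtx_per, vtx_n_shift]

theorem vtx_center (X : ℤ) : p.vtx X (1 - p.N) = (1, 0, 0) := by
  have hN := p.hN
  rw [vtx_inner _ _ _ (by omega), rr_center]

theorem vtx_of_eqv (a b : ℤ × ℤ) (h : p.Eqv a b) : p.vtx a.1 a.2 = p.vtx b.1 b.2 := by
  obtain ⟨h1, h2⟩ := h
  rw [← h1]
  rcases h2 with h2 | ⟨k, hk⟩ | ⟨h2, k, hk⟩
  · rw [h2, vtx_center, vtx_center]
  · have : b.1 = a.1 + 2 * p.n * k := by linarith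
    rw [this, vtx_per]
  · have : b.1 = a.1 + p.n * k := by linarith
    rw [h2, this, vtx_n_shift']

theorem outer_zero (X D : ℤ) : ev2 (vv p.n X (X + D)) (om p.n X) = 0 := by
  rw [ev2_vv, sub_self, gg_zero _ p.n_pos, zero_mul]

theorem cos_D_inj (D D' : ℤ) (h : 0 ≤ D) (h' : D ≤ p.n) (k : 0 ≤ D') (k' : D' ≤ p.n)
    (e : Real.cos (Real.pi * ((D : ℝ)) / p.n) = Real.cos (Real.pi * ((D' : ℝ)) / p.n)) : D = D' := by
  have hn := p.n_pos
  have hn0 : (0 : ℝ) < p.n := by positivity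
  have hpi := Real.pi_pos
  have a1 : (0 : ℝ) ≤ D := by exact_mod_cast h
  have a2 : (D : ℝ) ≤ p.n := by exact_mod_cast h'
  have a3 : (0 : ℝ) ≤ D' := by exact_mod_cast k
  have a4 : (D' : ℝ) ≤ p.n := by exact_mod_cast k'
  have := Real.injOn_cos ⟨by positivity, by rw [div_le_iff₀ hn0]; nlinarith⟩
    ⟨by positivity, by rw [div_le_iff₀ hn0]; nlinarith⟩ e
  rw [div_left_inj' hn0.ne'] at this
  have := mul_left_cancel₀ hpi.ne' this
  exact_mod_cast this

theorem vv_snd1' (X D : ℤ) : (vv p.n X (X + D)).2.1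
    = -(((2 * p.k * Real.cos (Real.pi * D / (2 * p.n)) : ℝ) : ℂ) *
      om p.n ((X : ℝ) + 1 / 2 + D / 2)) := by
  have hn0 : (p.n : ℝ) ≠ 0 := by have := p.n_pos; positivity
  rw [vv_snd1]
  have e1 : om p.n ((X : ℝ) + 1 / 2) = om p.n ((X : ℝ) + 1 / 2 + D / 2) * conj (om p.n (D / 2)) := by
    rw [om_conj, ← om_add]; congr 1; ring
  have e2 : om p.n (((X + D : ℤ) : ℝ) + 1 / 2) = om p.n ((X : ℝ) + 1 / 2 + D / 2) * om p.n (D / 2) := by
    rw [← om_add]; congr 1; push_cast; ring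
  have hs : om p.n (D / 2) + conj (om p.n (D / 2))
      = 2 * ((Real.cos (Real.pi * D / (2 * p.n)) : ℝ) : ℂ) := by
    rw [Complex.add_conj, om_re]
    have : Real.pi * ((D : ℝ) / 2) / p.n = Real.pi * D / (2 * p.n) := by field_simp
    rw [this]; push_cast; ring
  rw [e1, e2]
  rw [k_eq]
  push_cast at hs ⊢
  linear_combination (-(kap p.n : ℂ) * om p.n ((X : ℝ) + 1 / 2 + D / 2)) * hs

theorem vv_inj (X D X' D' : ℤ) (h : 2 ≤ D) (h' : D ≤ p.n) (k : 2 ≤ D') (k' : D' ≤ p.n)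
    (e : vv p.n X (X + D) = vv p.n X' (X' + D')) : p.Eqv (X, D) (X', D') := by
  have hn := p.n_pos
  have hn0 : (0 : ℝ) < p.n := by positivity
  have hpi := Real.pi_pos
  have e1 : D = D' := by
    apply p.cos_D_inj D D' (by omega) h' (by omega) k'
    have := congrArg (fun v : P2 => v.1) e
    simp only [vv_fst] at this
    have h3 : Real.pi * ((X : ℝ) - ((X + D : ℤ) : ℝ)) / p.n = -(Real.pi * D / p.n) := by
      push_cast; ring
    have h4 : Real.pi * ((X' : ℝ) - ((X' + D' : ℤ) : ℝ)) / p.n = -(Real.pi * D' / p.n) := by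
      push_cast; ring
    rw [h3, h4, Real.cos_neg, Real.cos_neg] at this
    linarith
  subst e1
  refine ⟨rfl, ?_⟩
  rcases eq_or_lt_of_le h' with h5 | h5
  · right; right
    refine ⟨h5, ?_⟩
    have := congrArg (fun v : P2 => v.2.2) e
    simp only [vv_snd2] at this
    have h6 : om p.n ((X : ℝ) + ((X + D : ℤ) : ℝ) + 1) = om p.n ((X' : ℝ) + ((X' + D : ℤ) : ℝ) + 1) :=
      mul_left_cancel₀ (by norm_num) this
    rw [om_eq_iff _ hn] at h6
    obtain ⟨j, hj⟩ := h6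
    push_cast at hj
    refine ⟨-j, ?_⟩
    simp only
    have : ((X' - X : ℤ) : ℝ) = ((p.n * -j : ℤ) : ℝ) := by push_cast; linarith
    exact_mod_cast this
  · right; left
    have := congrArg (fun v : P2 => v.2.1) e
    simp only [vv_snd1'] at this
    have hcos : 0 < Real.cos (Real.pi * D / (2 * p.n)) := by
      apply Real.cos_pos_of_mem_Ioo
      have a1 : (2 : ℝ) ≤ D := by exact_mod_cast h
      have a2 : (D : ℝ) < p.n := by exact_mod_cast h5
      constructor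
      · have : 0 < Real.pi * D / (2 * p.n) := by positivity
        linarith
      · rw [div_lt_div_iff₀ (by positivity) (by norm_num)]
        nlinarith
    have hk := p.k_ge
    have hne : (((2 * p.k * Real.cos (Real.pi * D / (2 * p.n)) : ℝ) : ℂ)) ≠ 0 := by
      have : 0 < 2 * p.k * Real.cos (Real.pi * D / (2 * p.n)) := by positivity
      exact_mod_cast this.ne'
    have h6 := mul_left_cancel₀ hne (neg_injective this)
    rw [om_eq_iff _ hn] at h6
    obtain ⟨j, hj⟩ := h6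
    refine ⟨-j, ?_⟩
    simp only
    have : ((X' - X : ℤ) : ℝ) = ((2 * p.n * -j : ℤ) : ℝ) := by push_cast; linarith
    exact_mod_cast this

theorem rr_inj (X D X' D' : ℤ) (h : 1 - (p.N : ℤ) ≤ D) (k : 1 - (p.N : ℤ) ≤ D')
    (e : p.rr X D = p.rr X' D') : p.Eqv (X, D) (X', D') := by
  have hn := p.n_pos
  rw [rr_eq, rr_eq] at e
  have e1 := congrArg (fun v : P2 => v.1) e
  simp only at e1
  have h0 := p.rho_nonneg D h
  have h0' := p.rho_nonneg D' k
  have e2 : p.rho D = p.rho D' := by nlinarith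
  have e3 : D = D' := by
    rcases lt_trichotomy D D' with h1 | h1 | h1
    · exact absurd e2 (ne_of_lt (p.rho_strict _ _ h1))
    · exact h1
    · exact absurd e2 (ne_of_gt (p.rho_strict _ _ h1))
  subst e3
  refine ⟨rfl, ?_⟩
  rcases eq_or_lt_of_le h with h5 | h5
  · left; exact h5.symm
  · right; left
    have hp := p.rho_pos D (by omega)
    have := congrArg (fun v : P2 => v.2.1) e
    simp only at this
    have hne : (((2 * p.rho D : ℝ) : ℂ)) ≠ 0 := by
      have : 0 < 2 * p.rho D := by positivity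
      exact_mod_cast this.ne'
    have h6 := mul_left_cancel₀ hne (neg_injective this)
    rw [om_eq_iff _ hn] at h6
    obtain ⟨j, hj⟩ := h6
    refine ⟨-j, ?_⟩
    simp only
    have : ((X' - X : ℤ) : ℝ) = ((2 * p.n * -j : ℤ) : ℝ) := by push_cast; linarith
    exact_mod_cast this

theorem vtx_inj (a b : ℤ × ℤ) (ha : 1 - (p.N : ℤ) ≤ a.2) (ha' : a.2 ≤ p.n)
    (hb : 1 - (p.N : ℤ) ≤ b.2) (hb' : b.2 ≤ p.n) (h : p.vtx a.1 a.2 = p.vtx b.1 b.2) :
    p.Eqv a b := by
  obtain ⟨X, D⟩ := a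
  obtain ⟨X', D'⟩ := b
  simp only at *
  by_cases h1 : 2 ≤ D <;> by_cases h2 : 2 ≤ D'
  · rw [vtx_outer _ _ _ h1, vtx_outer _ _ _ h2] at h
    exact p.vv_inj X D X' D' h1 ha' h2 hb' h
  · exfalso
    rw [vtx_outer _ _ _ h1, vtx_inner _ _ _ (by omega)] at h
    have h3 := p.outer_zero X D
    rw [h] at h3
    exact absurd h3 (p.ev2_rr_pos X' D' hb (by omega) X).ne'
  · exfalso
    rw [vtx_outer _ _ _ h2, vtx_inner _ _ _ (by omega)] at h
    have h3 := p.outer_zero X' D'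
    rw [← h] at h3
    exact absurd h3 (p.ev2_rr_pos X D ha (by omega) X').ne'
  · rw [vtx_inner _ _ _ (by omega), vtx_inner _ _ _ (by omega)] at h
    exact p.rr_inj X D X' D' ha hb h

theorem U1_vtx_eq (a b : ℤ × ℤ) (ha : 1 - (p.N : ℤ) ≤ a.2) (ha' : a.2 ≤ p.n)
    (hb : 1 - (p.N : ℤ) ≤ b.2) (hb' : b.2 ≤ p.n) :
    p.vtx a.1 a.2 = p.vtx b.1 b.2 ↔ p.Eqv a b :=
  ⟨p.vtx_inj a b ha ha' hb hb', p.vtx_of_eqv a b⟩

end Par

end Pool.Agent.Helper576.VA
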