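import Pool.Agent.Helper576.VA7

set_option autoImplicit false

namespace Pool.Agent.Helper576.VA

open ComplexConjugate

theorem four_sum (v1 v2 v3 v4 : P2) (c1 c2 c3 c4 : ℝ) :
    ∑ x ∈ ({v1, v2, v3, v4} : Finset P2), ((if v1 = x then c1 else 0) + ((if v2 = x then c2 else 0)
      + ((if v3 = x then c3 else 0) + (if v4 = x then c4 else 0)))) • x
      = c1 • v1 + (c2 • v2 + (c3 • v3 + c4 • v4)) := by
  classical
  simp only [add_smul, Finset.sum_add_distrib, ite_smul, zero_smul, Finset.sum_ite_eq,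
    Finset.mem_insert, Finset.mem_singleton, true_or, or_true, if_true]

theorem sum_om_zero (n : ℕ) (hn : 0 < n) (j : ℤ) (t : ℝ) (hj : om n (j : ℝ) ≠ 1) :
    ∑ Y ∈ Finset.range (2 * n), om n (j * (Y : ℝ) + t) = 0 := by
  have h0 : (n : ℝ) ≠ 0 := by positivity
  have hpow : ∀ Y : ℕ, om n (j * (Y : ℝ)) = om n (j : ℝ) ^ Y := by
    intro Y
    induction Y with
    | zero => simp [om_zero]
    | succ Y ih =>
      rw [pow_succ, ← ih, ← om_add]; congr 1; push_cast; ring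
  have h1 : ∀ Y : ℕ, om n (j * (Y : ℝ) + t) = om n (j : ℝ) ^ Y * om n t := by
    intro Y; rw [om_add, hpow]
  simp only [h1]
  rw [← Finset.sum_mul, geom_sum_eq hj]
  have h2 : om n (j : ℝ) ^ (2 * n) = 1 := by
    rw [← hpow]
    have := om_add_2nk n hn 0 j
    rw [zero_add, om_zero] at this
    rw [← this]; congr 1; push_cast; ring
  rw [h2, sub_self, zero_div, zero_mul]

namespace Par

variable (p : Par)

/-- adjacency of vertices -/
def AdjT (x y : P2) : Prop := ∃ t, p.IsTri t ∧ x ∈ t ∧ y ∈ t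

theorem adjT_symm (x y : P2) (h : p.AdjT x y) : p.AdjT y x := by
  obtain ⟨t, h1, h2, h3⟩ := h
  exact ⟨t, h1, h3, h2⟩

theorem vv_swap (a b : ℤ) : vv p.n a b = vv p.n b (a + 2 * p.n) := by
  have : a + 2 * (p.n : ℤ) = a + 2 * p.n * 1 := by ring
  rw [this, vv_per_right _ p.n_pos, vv_comm]

theorem isTri_U (a b : ℤ) (h : 2 ≤ b - a) (h' : b - a ≤ 2 * p.n - 3) :
    p.IsTri {vv p.n a b, vv p.n (a + 1) (b + 1), vv p.n a (b + 1)} := by
  have hN := p.hN
  obtain ⟨D, rfl⟩ : ∃ D, b = a + D := ⟨b - a, by ring⟩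
  by_cases h1 : D ≤ p.n - 1
  · refine ⟨a, D, by omega, by omega, Or.inl ?_⟩
    rw [vtx_outer _ _ _ (by omega), vtx_outer _ _ _ (by omega), vtx_outer _ _ _ (by omega)]
    rw [show a + D + 1 = a + 1 + D by ring, show a + (D + 1) = a + 1 + D by ring]
  · refine ⟨a + D, 2 * p.n - D - 1, by omega, by omega, Or.inr ?_⟩
    rw [vtx_outer _ _ _ (by omega), vtx_outer _ _ _ (by omega), vtx_outer _ _ _ (by omega)]
    rw [show a + D + (2 * (p.n : ℤ) - D - 1 + 1) = a + 2 * p.n by ring,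
      show a + D + 1 + (2 * (p.n : ℤ) - D - 1) = a + 2 * p.n by ring,
      show a + D + 1 + (2 * (p.n : ℤ) - D - 1 + 1) = (a + 1) + 2 * p.n by ring]
    rw [← vv_swap, ← vv_swap, ← vv_swap]
    ext v; simp only [Finset.mem_insert, Finset.mem_singleton]; tauto

theorem isTri_L (a b : ℤ) (h : 3 ≤ b - a) (h' : b - a ≤ 2 * p.n - 2) :
    p.IsTri {vv p.n (a + 1) b, vv p.n a b, vv p.n (a + 1) (b + 1)} := by
  have hN := p.hN
  obtain ⟨D, rfl⟩ : ∃ D, b = a + D := ⟨b - a, by ring⟩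
  by_cases h1 : D ≤ p.n
  · refine ⟨a, D - 1, by omega, by omega, Or.inr ?_⟩
    rw [vtx_outer _ _ _ (by omega), vtx_outer _ _ _ (by omega), vtx_outer _ _ _ (by omega)]
    rw [show a + 1 + (D - 1) = a + D by ring, show a + (D - 1 + 1) = a + D by ring,
      show a + 1 + (D - 1 + 1) = a + D + 1 by ring]
  · refine ⟨a + D, 2 * p.n - D, by omega, by omega, Or.inl ?_⟩
    rw [vtx_outer _ _ _ (by omega), vtx_outer _ _ _ (by omega), vtx_outer _ _ _ (by omega)]
    rw [show a + D + (2 * (p.n : ℤ) - D) = a + 2 * p.n by ring,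
      show a + D + 1 + (2 * (p.n : ℤ) - D) = (a + 1) + 2 * p.n by ring,
      show a + D + (2 * (p.n : ℤ) - D + 1) = (a + 1) + 2 * p.n by ring]
    rw [← vv_swap, ← vv_swap, ← vv_swap]
    ext v; simp only [Finset.mem_insert, Finset.mem_singleton]; tauto

theorem adjT_a (a b : ℤ) (h : 3 ≤ b - a) (h' : b - a ≤ 2 * p.n - 2) :
    p.AdjT (vv p.n a b) (vv p.n (a + 1) b) :=
  ⟨_, p.isTri_L a b h h', by simp, by simp⟩

theorem adjT_b (a b : ℤ) (h : 2 ≤ b - a) (h' : b - a ≤ 2 * p.n - 3) :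
    p.AdjT (vv p.n a b) (vv p.n a (b + 1)) :=
  ⟨_, p.isTri_U a b h h', by simp, by simp⟩

theorem adjT_c (a b : ℤ) (h : 2 ≤ b - a) (h' : b - a ≤ 2 * p.n - 2) :
    p.AdjT (vv p.n a b) (vv p.n (a + 1) (b + 1)) := by
  have hn := p.hn
  by_cases h1 : b - a ≤ 2 * p.n - 3
  · exact ⟨_, p.isTri_U a b h h1, by simp, by simp⟩
  · exact ⟨_, p.isTri_L a b (by omega) h', by simp, by simp⟩

theorem adjT_of_adjI (q r : ℤ × ℤ) (hq : Adm p.n q) (hr : Adm p.n r) (h : AdjI q r) :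
    p.AdjT (vv p.n q.1 q.2) (vv p.n r.1 r.2) := by
  obtain ⟨a, b⟩ := q
  obtain ⟨c, d⟩ := r
  unfold Adm at hq hr
  simp only at hq hr ⊢
  rcases h with h | h | h | h | h | h
  · obtain ⟨h1, h2⟩ := h
    simp only at h1 h2
    rw [h1, h2]
    exact p.adjT_a a b (by omega) (by omega)
  · obtain ⟨h1, h2⟩ := h
    simp only at h1 h2
    rw [h1, h2]
    apply adjT_symm
    have := p.adjT_a (a - 1) b (by omega) (by omega)
    rwa [show a - 1 + 1 = a by ring] at this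
  · obtain ⟨h1, h2⟩ := h
    simp only at h1 h2
    rw [h1, h2]
    exact p.adjT_b a b (by omega) (by omega)
  · obtain ⟨h1, h2⟩ := h
    simp only at h1 h2
    rw [h1, h2]
    apply adjT_symm
    have := p.adjT_b a (b - 1) (by omega) (by omega)
    rwa [show b - 1 + 1 = b by ring] at this
  · obtain ⟨h1, h2⟩ := h
    simp only at h1 h2
    rw [h1, h2]
    exact p.adjT_c a b (by omega) (by omega)
  · obtain ⟨h1, h2⟩ := h
    simp only at h1 h2
    rw [h1, h2]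
    apply adjT_symm
    have := p.adjT_c (a - 1) (b - 1) (by omega) (by omega)
    rwa [show b - 1 + 1 = b by ring, show a - 1 + 1 = a by ring] at this

theorem vtx_mod (X D : ℤ) : ∃ X' : ℤ, 0 ≤ X' ∧ X' < 2 * p.n ∧ p.vtx X D = p.vtx X' D := by
  have hn := p.n_pos
  have hn' : (0 : ℤ) < 2 * p.n := by positivity
  refine ⟨X % (2 * p.n), Int.emod_nonneg _ (ne_of_gt hn'), Int.emod_lt_of_pos _ hn', ?_⟩
  have : X = X % (2 * p.n) + 2 * p.n * (X / (2 * p.n)) := (Int.emod_add_mul_ediv X (2 * p.n)).symm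
  conv_lhs => rw [this]
  exact p.vtx_per _ _ _

/-- outer vertices -/
noncomputable def outF : Finset P2 :=
  ((Finset.Icc 0 (2 * (p.n : ℤ))) ×ˢ (Finset.Icc 2 (p.n : ℤ))).image (fun a => p.vtx a.1 a.2)

theorem mem_outF (v : P2) : v ∈ p.outF ↔ ∃ X D : ℤ, 2 ≤ D ∧ D ≤ p.n ∧ v = p.vtx X D := by
  unfold outF
  simp only [Finset.mem_image, Finset.mem_product, Finset.mem_Icc, Prod.exists]
  constructor
  · rintro ⟨X, D, ⟨_, h⟩, rfl⟩
    exact ⟨X, D, h.1, h.2, rfl⟩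
  · rintro ⟨X, D, h1, h2, rfl⟩
    obtain ⟨X', h3, h4, h5⟩ := p.vtx_mod X D
    exact ⟨X', D, ⟨⟨h3, h4.le⟩, h1, h2⟩, h5.symm⟩

theorem adm_mem (q : ℤ × ℤ) (h : Adm p.n q) : vv p.n q.1 q.2 ∈ p.outF := by
  rw [mem_outF]
  obtain ⟨a, b⟩ := q
  unfold Adm at h
  simp only at h ⊢
  by_cases h1 : b - a ≤ p.n
  · refine ⟨a, b - a, h.1, h1, ?_⟩
    rw [vtx_outer _ _ _ h.1]; congr 1; ring
  · refine ⟨b, 2 * p.n - (b - a), by omega, by omega, ?_⟩
    rw [vtx_outer _ _ _ (by omega), vv_swap]; congr 1; ring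

theorem outF_fst_pos (v : P2) (h : v ∈ p.outF) : 0 < v.1 := by
  obtain ⟨X, D, _, _, rfl⟩ := (p.mem_outF v).mp h
  exact p.vtx_fst_pos X D

theorem outF_nonneg (v : P2) (h : v ∈ p.outF) (k : ℤ) : 0 ≤ ev2 v (om p.n k) := by
  obtain ⟨X, D, h1, _, rfl⟩ := (p.mem_outF v).mp h
  rw [vtx_outer _ _ _ h1]
  exact ev2_vv_nonneg _ p.n_pos _ _ _

theorem loc : LocData p.outF p.AdjT := by
  intro x hx y hy
  have hn := p.hn
  obtain ⟨X, D, h1, h2, rfl⟩ := (p.mem_outF x).mp hx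
  rw [vtx_outer _ _ _ h1]
  obtain ⟨p1, p2, p3, p4, ⟨a1, a2, a3, a4⟩, ⟨b1, b2, b3, b4⟩, c, c1, c2, c3, c4, e1, e2, e3, e4, e⟩ :=
    outer_local p.n (by omega) X (X + D) (by omega) (by omega) y (p.outF_nonneg y hy)
  have hA : Adm p.n (X, X + D) := by unfold Adm; simp only; omega
  refine ⟨{vv p.n p1.1 p1.2, vv p.n p2.1 p2.2, vv p.n p3.1 p3.2, vv p.n p4.1 p4.2},
    fun x => ((if vv p.n p1.1 p1.2 = x then c1 else 0) + ((if vv p.n p2.1 p2.2 = x then c2 else 0)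
      + ((if vv p.n p3.1 p3.2 = x then c3 else 0) + (if vv p.n p4.1 p4.2 = x then c4 else 0)))),
    c, ?_, ?_⟩
  · intro z hz
    simp only [Finset.mem_insert, Finset.mem_singleton] at hz
    refine ⟨?_, ?_, ?_⟩
    · rcases hz with rfl | rfl | rfl | rfl
      · exact p.adm_mem p1 b1
      · exact p.adm_mem p2 b2
      · exact p.adm_mem p3 b3
      · exact p.adm_mem p4 b4
    · rcases hz with rfl | rfl | rfl | rfl
      · exact p.adjT_of_adjI (X, X + D) p1 hA b1 a1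
      · exact p.adjT_of_adjI (X, X + D) p2 hA b2 a2
      · exact p.adjT_of_adjI (X, X + D) p3 hA b3 a3
      · exact p.adjT_of_adjI (X, X + D) p4 hA b4 a4
    · have t : ∀ (v : P2) (c : ℝ), 0 ≤ c → 0 ≤ (if v = z then c else 0) := by
        intro v c hc; split_ifs
        · exact hc
        · exact le_refl _
      have := t (vv p.n p1.1 p1.2) c1 e1
      have := t (vv p.n p2.1 p2.2) c2 e2
      have := t (vv p.n p3.1 p3.2) c3 e3
      have := t (vv p.n p4.1 p4.2) c4 e4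
      linarith
  · rw [four_sum]; exact e

/-- a vector vanishing at the four zeros of `vv a b` is a multiple of it -/
theorem four_zero (a b : ℤ) (h : 2 ≤ b - a) (h' : b - a ≤ p.n) (q : P2)
    (z1 : ev2 q (om p.n (a : ℤ)) = 0) (z2 : ev2 q (om p.n ((a + 1 : ℤ) : ℝ)) = 0)
    (z3 : ev2 q (om p.n (b : ℤ)) = 0) (z4 : ev2 q (om p.n ((b + 1 : ℤ) : ℝ)) = 0) :
    ∃ c : ℝ, q = c • vv p.n a b := by
  have hn0 := p.n_pos
  have hn8 := p.hn
  have lin : ∀ (c : ℝ) (w : P2) (u : ℂ), ev2 (q - c • w) u = ev2 q u - c * ev2 w u := by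
    intro c w u
    rw [← evL_apply, map_sub, map_smul]; rfl
  have w1 : ev2 (vv p.n a b) (om p.n (a : ℤ)) = 0 := by
    rw [ev2_vv, gg_zero' p.n hn0 (a - a) (by omega), zero_mul]
  have w2 : ev2 (vv p.n a b) (om p.n ((a + 1 : ℤ) : ℝ)) = 0 := by
    rw [ev2_vv, gg_zero' p.n hn0 (a + 1 - a) (by omega), zero_mul]
  have w3 : ev2 (vv p.n a b) (om p.n (b : ℤ)) = 0 := by
    rw [ev2_vv, gg_zero' p.n hn0 (b - b) (by omega), mul_zero]
  have w4 : ev2 (vv p.n a b) (om p.n ((b + 1 : ℤ) : ℝ)) = 0 := by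
    rw [ev2_vv, gg_zero' p.n hn0 (b + 1 - b) (by omega), mul_zero]
  rcases eq_or_lt_of_le h with h2 | h3
  · obtain rfl : b = a + 2 := by omega
    have h5 : 0 < ev2 (vv p.n a (a + 2)) (om p.n ((a + 4 : ℤ) : ℝ)) := by
      rw [ev2_vv]
      apply mul_pos <;> apply gg_pos' p.n hn0 <;> omega
    refine ⟨ev2 q (om p.n ((a + 4 : ℤ) : ℝ)) / ev2 (vv p.n a (a + 2)) (om p.n ((a + 4 : ℤ) : ℝ)), ?_⟩
    have := zero_of_five (q - (ev2 q (om p.n ((a + 4 : ℤ) : ℝ)) /
      ev2 (vv p.n a (a + 2)) (om p.n ((a + 4 : ℤ) : ℝ))) • vv p.n a (a + 2))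
      {om p.n (a : ℤ), om p.n ((a + 1 : ℤ) : ℝ), om p.n ((a + 2 : ℤ) : ℝ),
        om p.n ((a + 3 : ℤ) : ℝ), om p.n ((a + 4 : ℤ) : ℝ)} ?_ ?_ ?_
    · exact sub_eq_zero.mp this
    · intro u hu
      simp only [Finset.mem_insert, Finset.mem_singleton] at hu
      rcases hu with rfl | rfl | rfl | rfl | rfl <;> exact om_norm _ _
    · rw [card5 p.n hn0] <;> omega
    · intro u hu
      simp only [Finset.mem_insert, Finset.mem_singleton] at hu
      rcases hu with rfl | rfl | rfl | rfl | rfl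
      · rw [lin, z1, w1]; ring
      · rw [lin, z2, w2]; ring
      · rw [lin, z3, w3]; ring
      · rw [show a + 3 = a + 2 + 1 by ring, lin, z4, w4]; ring
      · rw [lin]; field_simp; ring
  · have h5 : 0 < ev2 (vv p.n a b) (om p.n ((a + 2 : ℤ) : ℝ)) := by
      rw [ev2_vv]
      apply mul_pos <;> apply gg_pos' p.n hn0 <;> omega
    refine ⟨ev2 q (om p.n ((a + 2 : ℤ) : ℝ)) / ev2 (vv p.n a b) (om p.n ((a + 2 : ℤ) : ℝ)), ?_⟩
    have := zero_of_five (q - (ev2 q (om p.n ((a + 2 : ℤ) : ℝ)) /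
      ev2 (vv p.n a b) (om p.n ((a + 2 : ℤ) : ℝ))) • vv p.n a b)
      {om p.n (a : ℤ), om p.n ((a + 1 : ℤ) : ℝ), om p.n (b : ℤ),
        om p.n ((b + 1 : ℤ) : ℝ), om p.n ((a + 2 : ℤ) : ℝ)} ?_ ?_ ?_
    · exact sub_eq_zero.mp this
    · intro u hu
      simp only [Finset.mem_insert, Finset.mem_singleton] at hu
      rcases hu with rfl | rfl | rfl | rfl | rfl <;> exact om_norm _ _
    · rw [card5 p.n hn0] <;> omega
    · intro u hu
      simp only [Finset.mem_insert, Finset.mem_singleton] at hu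
      rcases hu with rfl | rfl | rfl | rfl | rfl
      · rw [lin, z1, w1]; ring
      · rw [lin, z2, w2]; ring
      · rw [lin, z3, w3]; ring
      · rw [lin, z4, w4]; ring
      · rw [lin]; field_simp; ring

theorem outF_snd2 (v : P2) (h : v ∈ p.outF) : ‖v.2.2‖ = 1 / 2 := by
  obtain ⟨X, D, h1, _, rfl⟩ := (p.mem_outF v).mp h
  rw [vtx_outer _ _ _ h1, vv_snd2, norm_mul, om_norm]; norm_num

theorem outF_smul (v w : P2) (hv : v ∈ p.outF) (hw : w ∈ p.outF) (c : ℝ) (h : v = c • w) : v = w := by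
  have h1 := p.outF_fst_pos v hv
  have h2 := p.outF_fst_pos w hw
  have h3 := p.outF_snd2 v hv
  have h4 := p.outF_snd2 w hw
  rw [h] at h1 h3
  simp only [Prod.smul_fst, Prod.smul_snd, smul_eq_mul, norm_smul, h4] at h1 h3
  have hc : 0 < c := (pos_iff_pos_of_mul_pos h1).mpr h2
  have hc1 : c = 1 := by
    rw [Real.norm_of_nonneg hc.le] at h3
    linarith
  rw [h, hc1, one_smul]

theorem expo (w : P2) (hw : w ∈ p.outF) : ∃ D : P2 →ₗ[ℝ] ℝ, D w = 0 ∧ ∀ q ∈ p.outF, q ≠ w → D q < 0 := by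
  have hw' := hw
  obtain ⟨X, D, h1, h2, rfl⟩ := (p.mem_outF w).mp hw
  have hn0 := p.n_pos
  refine ⟨-(evL (om p.n (X : ℤ)) + evL (om p.n ((X + 1 : ℤ) : ℝ)) + evL (om p.n ((X + D : ℤ) : ℝ))
    + evL (om p.n ((X + D + 1 : ℤ) : ℝ))), ?_, ?_⟩
  · simp only [LinearMap.neg_apply, LinearMap.add_apply, evL_apply]
    rw [vtx_outer _ _ _ h1, ev2_vv, ev2_vv, ev2_vv, ev2_vv, gg_zero' p.n hn0 (X - X) (by omega),
      gg_zero' p.n hn0 (X + 1 - X) (by omega), gg_zero' p.n hn0 (X + D - (X + D)) (by omega),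
      gg_zero' p.n hn0 (X + D + 1 - (X + D)) (by omega)]
    ring
  · intro q hq hne
    simp only [LinearMap.neg_apply, LinearMap.add_apply, evL_apply]
    have z1 := p.outF_nonneg q hq X
    have z2 := p.outF_nonneg q hq (X + 1)
    have z3 := p.outF_nonneg q hq (X + D)
    have z4 := p.outF_nonneg q hq (X + D + 1)
    by_contra hcon
    push Not at hcon
    obtain ⟨c, hc⟩ := p.four_zero X (X + D) (by omega) (by omega) q (by linarith) (by linarith)
      (by linarith) (by linarith)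
    apply hne
    rw [← vtx_outer p X D h1] at hc
    exact p.outF_smul q _ hq hw' c hc

theorem outer_conn (B : P2 →ₗ[ℝ] ℝ) (x y : P2) (hx : x ∈ p.outF) (hy : y ∈ p.outF)
    (hx0 : 0 ≤ B x) (hy0 : 0 ≤ B y) :
    Relation.ReflTransGen (Stp p.outF p.AdjT B) x y :=
  lp_connected p.outF p.AdjT p.adjT_symm (LinearMap.fst ℝ ℝ (ℂ × ℂ)) B
    (fun v hv => p.outF_fst_pos v hv) p.loc p.expo x y hx hy hx0 hy0

theorem center_rel : ∃ la : ℝ, 0 < la ∧ ((1, 0, 0) : P2)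
    = la • ∑ Y ∈ Finset.range (2 * p.n), p.vtx (Y : ℤ) (2 - p.N) := by
  have hN := p.hN
  have hn0 := p.n_pos
  have hn8 := p.hn
  have hn : (0 : ℝ) < p.n := by positivity
  set r := p.rho (2 - p.N) with hr
  have hr0 : 0 < 1 + 1 / 2 * r ^ 2 := by positivity
  have h1 : ∑ Y ∈ Finset.range (2 * p.n), p.vtx (Y : ℤ) (2 - p.N)
      = (2 * p.n * (1 + 1 / 2 * r ^ 2), 0, 0) := by
    have e : ∀ Y : ℕ, p.vtx (Y : ℤ) (2 - p.N) = (1 + 1 / 2 * r ^ 2,
        -((2 * r : ℝ) * om p.n ((1 : ℤ) * (Y : ℝ) + 3 / 2)),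
        (1 / 2 * r ^ 2 : ℝ) * om p.n ((2 : ℤ) * (Y : ℝ) + 3)) := by
      intro Y
      rw [vtx_inner _ _ _ (by omega), rr_eq, pow_two (om p.n _), ← om_add]
      refine Prod.ext rfl (Prod.ext ?_ ?_)
      · simp only; congr 3; push_cast; ring
      · simp only; congr 2; push_cast; ring
    rw [Finset.sum_congr rfl (fun Y _ => e Y)]
    refine Prod.ext ?_ (Prod.ext ?_ ?_)
    · rw [Prod.fst_sum]; simp only [Finset.sum_const, Finset.card_range, nsmul_eq_mul]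
      push_cast; ring
    · rw [Prod.snd_sum, Prod.fst_sum]
      simp only
      rw [Finset.sum_neg_distrib, ← Finset.mul_sum, sum_om_zero p.n hn0 1, mul_zero, neg_zero]
      intro h
      rw [← om_zero p.n] at h
      have := (om_int_eq_iff p.n hn0 1 0).mp (by push_cast; push_cast at h; exact h)
      exact nd p.n (1 - 0) (by omega) (by omega) (by omega) this
    · rw [Prod.snd_sum, Prod.snd_sum]
      simp only
      rw [← Finset.mul_sum, sum_om_zero p.n hn0 2, mul_zero]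
      intro h
      rw [← om_zero p.n] at h
      have := (om_int_eq_iff p.n hn0 2 0).mp (by push_cast; push_cast at h; exact h)
      exact nd p.n (2 - 0) (by omega) (by omega) (by omega) this
  refine ⟨1 / (2 * p.n * (1 + 1 / 2 * r ^ 2)), by positivity, ?_⟩
  rw [h1]
  refine Prod.ext ?_ (Prod.ext ?_ ?_)
  · simp only [Prod.smul_fst, smul_eq_mul]; field_simp
  · simp
  · simp

theorem adj_ring (X D : ℤ) (h : 1 - (p.N : ℤ) ≤ D) (h' : D + 1 ≤ p.n) :
    p.AdjT (p.vtx X D) (p.vtx (X + 1) D) :=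
  ⟨_, ⟨X, D, h, h', Or.inl rfl⟩, by simp, by simp⟩

theorem adj_ring' (X D : ℤ) (h : 1 - (p.N : ℤ) ≤ D) (h' : D + 1 ≤ p.n) :
    p.AdjT (p.vtx X D) (p.vtx (X - 1) D) := by
  apply adjT_symm
  have := p.adj_ring (X - 1) D h h'
  rwa [sub_add_cancel] at this

theorem adj_out (X D : ℤ) (h : 1 - (p.N : ℤ) ≤ D) (h' : D + 1 ≤ p.n) :
    p.AdjT (p.vtx X D) (p.vtx X (D + 1)) :=
  ⟨_, ⟨X, D, h, h', Or.inl rfl⟩, by simp, by simp⟩

theorem adj_in (X D : ℤ) (h : 2 - (p.N : ℤ) ≤ D) (h' : D ≤ p.n) :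
    p.AdjT (p.vtx X D) (p.vtx X (D - 1)) := by
  apply adjT_symm
  have := p.adj_out X (D - 1) (by omega) (by omega)
  rwa [sub_add_cancel] at this

theorem to_outer (B : P2 →ₗ[ℝ] ℝ) (u : P2) (hu : p.IsVert u) (hu0 : 0 ≤ B u) :
    ∃ s ∈ p.outF, 0 ≤ B s ∧ Relation.ReflTransGen (fun x y => p.AdjT x y ∧ 0 ≤ B y) u s := by
  classical
  have hn8 := p.hn
  have hN := p.hN
  set Rg := Relation.ReflTransGen (fun x y => p.AdjT x y ∧ 0 ≤ B y) with hRg
  have hB : ∀ v, Rg u v → 0 ≤ B v := by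
    intro v hv
    rcases hv.cases_tail with h | ⟨c, _, h⟩
    · rw [h]; exact hu0
    · exact h.2
  set f : ℤ × ℤ → ℝ := fun a => B (p.vtx a.1 a.2) / (p.vtx a.1 a.2).1 with hf
  set J : Finset (ℤ × ℤ) := p.box.filter (fun a => Rg u (p.vtx a.1 a.2)) with hJ
  have hbox : ∀ X D : ℤ, 1 - (p.N : ℤ) ≤ D → D ≤ p.n → ∃ X' : ℤ, (X', D) ∈ p.box ∧
      p.vtx X D = p.vtx X' D := by
    intro X D h1 h2
    obtain ⟨X', h3, h4, h5⟩ := p.vtx_mod X D
    refine ⟨X', ?_, h5⟩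
    unfold box
    simp only [Finset.mem_product, Finset.mem_Icc]
    omega
  have hJne : J.Nonempty := by
    obtain ⟨X, D, h1, h2, h3⟩ := hu
    obtain ⟨X', h4, h5⟩ := hbox X D h1 h2
    refine ⟨(X', D), ?_⟩
    rw [hJ, Finset.mem_filter]
    refine ⟨h4, ?_⟩
    simp only
    rw [← h5, ← h3]
  obtain ⟨a0, ha0, hmax⟩ := Finset.exists_max_image J f hJne
  set M := f a0 with hM
  have hM0 : 0 ≤ M := by
    rw [hJ, Finset.mem_filter] at ha0
    exact div_nonneg (hB _ ha0.2) (p.vtx_fst_pos _ _).le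
  set J2 := J.filter (fun a => f a = M) with hJ2
  have hJ2ne : J2.Nonempty := ⟨a0, by rw [hJ2, Finset.mem_filter]; exact ⟨ha0, rfl⟩⟩
  obtain ⟨a, ha, hamax⟩ := Finset.exists_max_image J2 (fun a => a.2) hJ2ne
  have ha' := ha
  rw [hJ2, Finset.mem_filter, hJ, Finset.mem_filter] at ha'
  obtain ⟨⟨habox, haR⟩, hafM⟩ := ha'
  obtain ⟨X, D⟩ := a
  simp only at haR hafM
  have hD : 1 - (p.N : ℤ) ≤ D ∧ D ≤ p.n := by
    unfold box at habox
    simp only [Finset.mem_product, Finset.mem_Icc] at habox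
    exact habox.2
  have hBa := hB _ haR
  have hCa : B (p.vtx X D) - M * (p.vtx X D).1 = 0 := by
    have := p.vtx_fst_pos X D
    rw [hf] at hafM
    simp only at hafM
    rw [← hafM]; field_simp; ring
  -- neighbours
  have key : ∀ X' D' : ℤ, 1 - (p.N : ℤ) ≤ D' → D' ≤ p.n → p.AdjT (p.vtx X D) (p.vtx X' D') →
      B (p.vtx X' D') - M * (p.vtx X' D').1 ≤ 0 ∧
      (B (p.vtx X' D') - M * (p.vtx X' D').1 = 0 → D' ≤ D) := by
    intro X' D' h1 h2 h3
    obtain ⟨X'', h4, h5⟩ := hbox X' D' h1 h2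
    have hpos := p.vtx_fst_pos X' D'
    by_cases h0 : 0 ≤ B (p.vtx X' D')
    · have hr : Rg u (p.vtx X'' D') := by
        rw [← h5]; exact haR.tail ⟨h3, h0⟩
      have hmem : (X'', D') ∈ J := by rw [hJ, Finset.mem_filter]; exact ⟨h4, hr⟩
      have h6 := hmax _ hmem
      rw [hf] at h6
      simp only at h6
      rw [← h5, div_le_iff₀ hpos] at h6
      refine ⟨by linarith, ?_⟩
      intro h7
      have : (X'', D') ∈ J2 := by
        rw [hJ2, Finset.mem_filter]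
        refine ⟨hmem, ?_⟩
        rw [hf]; simp only
        rw [← h5, div_eq_iff hpos.ne']; linarith
      exact hamax _ this
    · push Not at h0
      have : 0 ≤ M * (p.vtx X' D').1 := by positivity
      refine ⟨by linarith, ?_⟩
      intro h7; linarith
  have h2D : 2 ≤ D := by
    by_contra hcon
    have hD1 : D ≤ 1 := by omega
    rcases eq_or_lt_of_le hD.1 with hc | hc
    · -- centre
      subst hc
      obtain ⟨la, hla, e⟩ := p.center_rel
      rw [vtx_center] at hCa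
      have hadj : ∀ Y : ℤ, p.AdjT (p.vtx X (1 - p.N)) (p.vtx Y (2 - p.N)) := by
        intro Y
        have := p.adj_out Y (1 - p.N) (le_refl _) (by omega)
        rw [vtx_center] at this ⊢
        rwa [show (1 : ℤ) - p.N + 1 = 2 - p.N by ring] at this
      have e2 : B (1, 0, 0) - M * ((1, 0, 0) : P2).1 = la * ∑ Y ∈ Finset.range (2 * p.n),
          (B (p.vtx (Y : ℤ) (2 - p.N)) - M * (p.vtx (Y : ℤ) (2 - p.N)).1) := by
        conv_lhs => rw [e]
        rw [map_smul, map_sum, Prod.smul_fst, Prod.fst_sum, Finset.sum_sub_distrib, ← Finset.mul_sum]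
        simp only [smul_eq_mul]; ring
      rw [hCa] at e2
      have e3 : ∑ Y ∈ Finset.range (2 * p.n),
          (B (p.vtx (Y : ℤ) (2 - p.N)) - M * (p.vtx (Y : ℤ) (2 - p.N)).1) = 0 := by
        rcases mul_eq_zero.mp e2.symm with h | h
        · exact absurd h hla.ne'
        · exact h
      have hle : ∀ Y ∈ Finset.range (2 * p.n),
          (B (p.vtx (Y : ℤ) (2 - p.N)) - M * (p.vtx (Y : ℤ) (2 - p.N)).1) ≤ 0 :=
        fun Y _ => (key (Y : ℤ) (2 - p.N) (by omega) (by omega) (hadj _)).1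
      have e4 := (Finset.sum_eq_zero_iff_of_nonpos hle).mp e3 0
        (Finset.mem_range.mpr (by omega))
      have := (key ((0 : ℕ) : ℤ) (2 - p.N) (by omega) (by omega) (hadj _)).2 e4
      omega
    · obtain ⟨la, lp, lm, h1, h2, h3, e⟩ := p.inner_rel X D (by omega) hD1
      obtain ⟨k1, _⟩ := key (X + 1) D hD.1 hD.2 (p.adj_ring X D hD.1 (by omega))
      obtain ⟨k2, _⟩ := key (X - 1) D hD.1 hD.2 (p.adj_ring' X D hD.1 (by omega))
      obtain ⟨k3, k3'⟩ := key X (D + 1) (by omega) (by omega) (p.adj_out X D hD.1 (by omega))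
      obtain ⟨k4, _⟩ := key X (D - 1) (by omega) (by omega) (p.adj_in X D (by omega) (by omega))
      have e2 : B (p.vtx X D) - M * (p.vtx X D).1
          = la * (B (p.vtx (X + 1) D) - M * (p.vtx (X + 1) D).1)
          + la * (B (p.vtx (X - 1) D) - M * (p.vtx (X - 1) D).1)
          + lp * (B (p.vtx X (D + 1)) - M * (p.vtx X (D + 1)).1)
          + lm * (B (p.vtx X (D - 1)) - M * (p.vtx X (D - 1)).1) := by
        conv_lhs => rw [e]
        simp only [map_add, map_smul, Prod.fst_add, Prod.smul_fst, smul_eq_mul]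
        ring
      rw [hCa] at e2
      have m1 := mul_nonpos_of_nonneg_of_nonpos h1.le k1
      have m2 := mul_nonpos_of_nonneg_of_nonpos h1.le k2
      have m3 := mul_nonpos_of_nonneg_of_nonpos h2.le k3
      have m4 := mul_nonpos_of_nonneg_of_nonpos h3.le k4
      have m5 : lp * (B (p.vtx X (D + 1)) - M * (p.vtx X (D + 1)).1) = 0 := by linarith
      rcases mul_eq_zero.mp m5 with h | h
      · exact absurd h h2.ne'
      · have := k3' h
        omega
  refine ⟨p.vtx X D, (p.mem_outF _).mpr ⟨X, D, h2D, hD.2, rfl⟩, hBa, haR⟩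

theorem rg_symm (B : P2 →ₗ[ℝ] ℝ) (x y : P2) (hx : 0 ≤ B x)
    (h : Relation.ReflTransGen (fun x y => p.AdjT x y ∧ 0 ≤ B y) x y) :
    Relation.ReflTransGen (fun x y => p.AdjT x y ∧ 0 ≤ B y) y x := by
  induction h with
  | refl => exact Relation.ReflTransGen.refl
  | @tail b c h1 h2 ih =>
    have hb : 0 ≤ B b := by
      rcases h1.cases_tail with h | ⟨d, _, h⟩
      · rw [h]; exact hx
      · exact h.2
    exact Relation.ReflTransGen.head ⟨p.adjT_symm _ _ h2.1, hb⟩ ih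

theorem U3_conn (B : P2 →ₗ[ℝ] ℝ) (u v : P2) (hu : p.IsVert u) (hv : p.IsVert v)
    (hu0 : 0 ≤ B u) (hv0 : 0 ≤ B v) :
    Relation.ReflTransGen (fun x y => (∃ t, p.IsTri t ∧ x ∈ t ∧ y ∈ t) ∧ 0 ≤ B y) u v := by
  obtain ⟨s, hs, hs0, hus⟩ := p.to_outer B u hu hu0
  obtain ⟨t, ht, ht0, hvt⟩ := p.to_outer B v hv hv0
  have h1 := p.outer_conn B s t hs ht hs0 ht0
  have h2 : Relation.ReflTransGen (fun x y => p.AdjT x y ∧ 0 ≤ B y) s t :=
    Relation.ReflTransGen.mono (fun x y h => ⟨h.1, h.2.2.2.2⟩) _ _ h1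
  exact hus.trans (h2.trans (p.rg_symm B v t hv0 hvt))

end Par

end Pool.Agent.Helper576.VA
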