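import Pool.Agent.Helper576.VA8

set_option autoImplicit false

namespace Pool.Agent.Helper576.VA

open ComplexConjugate

theorem sum_supp (w : P2 → ℝ) (s t : Finset P2) (hs : ∀ v ∉ s, w v = 0) (ht : ∀ v ∉ t, w v = 0) :
    ∑ v ∈ s, w v • v = ∑ v ∈ t, w v • v := by
  classical
  have h1 : ∑ v ∈ s, w v • v = ∑ v ∈ s ∪ t, w v • v := by
    apply Finset.sum_subset Finset.subset_union_left
    intro v _ hv; rw [hs v hv, zero_smul]
  have h2 : ∑ v ∈ t, w v • v = ∑ v ∈ s ∪ t, w v • v := by
    apply Finset.sum_subset Finset.subset_union_right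
    intro v _ hv; rw [ht v hv, zero_smul]
  rw [h1, h2]

namespace Par

variable (p : Par)

theorem vv_congr (a b c d : ℤ) (h1 : (2 * (p.n : ℤ)) ∣ (a - c)) (h2 : (2 * (p.n : ℤ)) ∣ (b - d)) :
    vv p.n c d = vv p.n a b := by
  obtain ⟨k, hk⟩ := h1
  obtain ⟨l, hl⟩ := h2
  have e1 : a = c + 2 * p.n * k := by linarith
  have e2 : b = d + 2 * p.n * l := by linarith
  rw [e1, e2, vv_per_left _ p.n_pos, vv_per_right _ p.n_pos]

theorem gg_zero_dvd (i c : ℤ) (h : gg p.n (i + 1 - c) = 0) :
    (2 * (p.n : ℤ)) ∣ (i - c) ∨ (2 * (p.n : ℤ)) ∣ (i + 1 - c) := by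
  rw [gg_eq_zero_iff _ p.n_pos] at h
  rcases h with h | h
  · exact Or.inr h
  · left; rwa [show i + 1 - c - 1 = i - c by ring] at h

/-- an outer vertex vanishing at two nodes lies in the corresponding quadrilateral -/
theorem quad_mem (a b : ℤ) (h : 2 ≤ b - a) (h' : b - a ≤ p.n) (v : P2) (hv : v ∈ p.outF)
    (z1 : ev2 v (om p.n ((a + 1 : ℤ) : ℝ)) = 0) (z2 : ev2 v (om p.n ((b + 1 : ℤ) : ℝ)) = 0) :
    v = vv p.n a b ∨ v = vv p.n (a + 1) (b + 1) ∨ v = vv p.n a (b + 1) ∨
      (3 ≤ b - a ∧ v = vv p.n (a + 1) b) := by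
  obtain ⟨c, D, h1, h2, rfl⟩ := (p.mem_outF v).mp hv
  have hn8 := p.hn
  rw [vtx_outer _ _ _ h1] at z1 z2 ⊢
  set d := c + D with hd
  rw [ev2_vv] at z1 z2
  have contra : ∀ x : ℤ, x ≠ 0 → -(2 * (p.n : ℤ)) < x → x < 2 * p.n → (2 * (p.n : ℤ)) ∣ x → False :=
    fun x h1 h2 h3 h4 => nd p.n x h1 h2 h3 h4
  have bad : ∀ e : ℤ, ((2 * (p.n : ℤ)) ∣ (a - e) ∨ (2 * (p.n : ℤ)) ∣ (a + 1 - e)) →
      ((2 * (p.n : ℤ)) ∣ (b - e) ∨ (2 * (p.n : ℤ)) ∣ (b + 1 - e)) → False := by
    intro e he1 he2
    rcases he1 with he1 | he1 <;> rcases he2 with he2 | he2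
    · have := dvd_sub he2 he1
      exact contra _ (by omega) (by omega) (by omega) this
    · have := dvd_sub he2 he1
      exact contra _ (by omega) (by omega) (by omega) this
    · have := dvd_sub he2 he1
      exact contra _ (by omega) (by omega) (by omega) this
    · have := dvd_sub he2 he1
      exact contra _ (by omega) (by omega) (by omega) this
  rcases mul_eq_zero.mp z1 with y1 | y1 <;> rcases mul_eq_zero.mp z2 with y2 | y2
  · exact (bad c (p.gg_zero_dvd _ _ y1) (p.gg_zero_dvd _ _ y2)).elim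
  · rcases p.gg_zero_dvd _ _ y1 with e1 | e1 <;> rcases p.gg_zero_dvd _ _ y2 with e2 | e2
    · exact Or.inl (p.vv_congr a b c d e1 e2)
    · exact Or.inr (Or.inr (Or.inl (p.vv_congr a (b + 1) c d e1 e2)))
    · refine Or.inr (Or.inr (Or.inr ⟨?_, p.vv_congr (a + 1) b c d e1 e2⟩))
      by_contra hcon
      have := dvd_sub e2 e1
      exact contra (D - 1) (by omega) (by omega) (by omega)
        (by have h5 := dvd_neg.mpr this; rwa [show -(b - d - (a + 1 - c)) = D - 1 by omega] at h5)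
    · exact Or.inr (Or.inl (p.vv_congr (a + 1) (b + 1) c d e1 e2))
  · rw [vv_comm]
    rcases p.gg_zero_dvd _ _ y1 with e1 | e1 <;> rcases p.gg_zero_dvd _ _ y2 with e2 | e2
    · exact Or.inl (p.vv_congr a b d c e1 e2)
    · exact Or.inr (Or.inr (Or.inl (p.vv_congr a (b + 1) d c e1 e2)))
    · refine Or.inr (Or.inr (Or.inr ⟨?_, p.vv_congr (a + 1) b d c e1 e2⟩))
      by_contra hcon
      have := dvd_sub e2 e1
      exact contra (D + 1) (by omega) (by omega) (by omega)
        (by rwa [show (b - c - (a + 1 - d)) = D + 1 by omega] at this)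
    · exact Or.inr (Or.inl (p.vv_congr (a + 1) (b + 1) d c e1 e2))
  · exact (bad d (p.gg_zero_dvd _ _ y1) (p.gg_zero_dvd _ _ y2)).elim

theorem ev2_sum (w : P2 → ℝ) (s : Finset P2) (u : ℂ) :
    ev2 (∑ v ∈ s, w v • v) u = ∑ v ∈ s, w v * ev2 v u := by
  rw [← evL_apply, map_sum]
  apply Finset.sum_congr rfl
  intro v _; rw [map_smul]; rfl

/-- uniqueness inside a generic quadrilateral, signed version -/
theorem quad_core (a b : ℤ) (h : 3 ≤ b - a) (h' : b - a ≤ p.n) (x1 x2 x3 x4 : ℝ)
    (e : x1 • vv p.n a b + x2 • vv p.n (a + 1) (b + 1) + x3 • vv p.n a (b + 1)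
      + x4 • vv p.n (a + 1) b = 0)
    (h34 : ¬ (0 < x3 ∧ 0 < x4)) (h34' : ¬ (x3 < 0 ∧ x4 < 0)) :
    x1 = 0 ∧ x2 = 0 ∧ x3 = 0 ∧ x4 = 0 := by
  have hn0 := p.n_pos
  have hn8 := p.hn
  have E : ∀ k : ℤ, x1 * (gg p.n (k - a) * gg p.n (k - b)) +
      x2 * (gg p.n (k - (a + 1)) * gg p.n (k - (b + 1))) +
      x3 * (gg p.n (k - a) * gg p.n (k - (b + 1))) +
      x4 * (gg p.n (k - (a + 1)) * gg p.n (k - b)) = 0 := by
    intro k
    have := congrArg (evL (om p.n k)) e
    simp only [map_add, map_smul, evL_apply, ev2_vv, smul_eq_mul, map_zero] at this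
    exact this
  -- evaluation at a + 2
  have E1 := E (a + 2)
  rw [gg_zero' p.n hn0 (a + 2 - (a + 1)) (by omega)] at E1
  have p1 : 0 < gg p.n (a + 2 - a) * gg p.n (a + 2 - b) := by
    apply mul_pos <;> apply gg_pos' p.n hn0 <;> omega
  have p2 : 0 < gg p.n (a + 2 - a) * gg p.n (a + 2 - (b + 1)) := by
    apply mul_pos <;> apply gg_pos' p.n hn0 <;> omega
  -- evaluation at b + 2
  have E2 := E (b + 2)
  rw [gg_zero' p.n hn0 (b + 2 - (b + 1)) (by omega)] at E2
  have p3 : 0 < gg p.n (b + 2 - a) * gg p.n (b + 2 - b) := by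
    apply mul_pos <;> apply gg_pos' p.n hn0 <;> omega
  have p4 : 0 < gg p.n (b + 2 - (a + 1)) * gg p.n (b + 2 - b) := by
    apply mul_pos <;> apply gg_pos' p.n hn0 <;> omega
  -- evaluation at a
  have E3 := E a
  rw [gg_zero' p.n hn0 (a - a) (by omega)] at E3
  have p5 : 0 < gg p.n (a - (a + 1)) * gg p.n (a - (b + 1)) := by
    apply mul_pos <;> apply gg_pos' p.n hn0 <;> omega
  have p6 : 0 < gg p.n (a - (a + 1)) * gg p.n (a - b) := by
    apply mul_pos <;> apply gg_pos' p.n hn0 <;> omega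
  set A := gg p.n (a + 2 - a) * gg p.n (a + 2 - b)
  set B := gg p.n (a + 2 - a) * gg p.n (a + 2 - (b + 1))
  set A' := gg p.n (b + 2 - a) * gg p.n (b + 2 - b)
  set B' := gg p.n (b + 2 - (a + 1)) * gg p.n (b + 2 - b)
  set A'' := gg p.n (a - (a + 1)) * gg p.n (a - (b + 1))
  set B'' := gg p.n (a - (a + 1)) * gg p.n (a - b)
  have F1 : x1 * A + x3 * B = 0 := by linarith
  have F2 : x1 * A' + x4 * B' = 0 := by linarith
  have F3 : x2 * A'' + x4 * B'' = 0 := by linarith
  have hx1 : x1 = 0 := by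
    rcases lt_trichotomy x1 0 with hx | hx | hx
    · exfalso; apply h34
      constructor
      · have : 0 < x3 * B := by nlinarith
        exact (pos_iff_pos_of_mul_pos this).mpr p2
      · have : 0 < x4 * B' := by nlinarith
        exact (pos_iff_pos_of_mul_pos this).mpr p4
    · exact hx
    · exfalso; apply h34'
      constructor
      · by_contra hc; push Not at hc
        have := mul_nonneg hc p2.le
        have := mul_pos hx p1
        linarith
      · by_contra hc; push Not at hc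
        have := mul_nonneg hc p4.le
        have := mul_pos hx p3
        linarith
  rw [hx1] at F1 F2
  have hx3 : x3 = 0 := by
    have : x3 * B = 0 := by linarith
    rcases mul_eq_zero.mp this with h | h
    · exact h
    · exact absurd h p2.ne'
  have hx4 : x4 = 0 := by
    have : x4 * B' = 0 := by linarith
    rcases mul_eq_zero.mp this with h | h
    · exact h
    · exact absurd h p4.ne'
  rw [hx4] at F3
  have hx2 : x2 = 0 := by
    have : x2 * A'' = 0 := by linarith
    rcases mul_eq_zero.mp this with h | h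
    · exact h
    · exact absurd h p5.ne'
  exact ⟨hx1, hx2, hx3, hx4⟩

theorem quad_core2 (a b : ℤ) (h : b - a = 2) (x1 x2 x3 : ℝ)
    (e : x1 • vv p.n a b + x2 • vv p.n (a + 1) (b + 1) + x3 • vv p.n a (b + 1) = 0) :
    x1 = 0 ∧ x2 = 0 ∧ x3 = 0 := by
  have hn0 := p.n_pos
  have hn8 := p.hn
  have E : ∀ k : ℤ, x1 * (gg p.n (k - a) * gg p.n (k - b)) +
      x2 * (gg p.n (k - (a + 1)) * gg p.n (k - (b + 1))) +
      x3 * (gg p.n (k - a) * gg p.n (k - (b + 1))) = 0 := by
    intro k
    have := congrArg (evL (om p.n k)) e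
    simp only [map_add, map_smul, evL_apply, ev2_vv, smul_eq_mul, map_zero] at this
    exact this
  have E1 := E (b + 2)
  rw [gg_zero' p.n hn0 (b + 2 - (b + 1)) (by omega)] at E1
  have p1 : 0 < gg p.n (b + 2 - a) * gg p.n (b + 2 - b) := by
    apply mul_pos <;> apply gg_pos' p.n hn0 <;> omega
  have E2 := E a
  rw [gg_zero' p.n hn0 (a - a) (by omega)] at E2
  have p2 : 0 < gg p.n (a - (a + 1)) * gg p.n (a - (b + 1)) := by
    apply mul_pos <;> apply gg_pos' p.n hn0 <;> omega
  have E3 := E (a + 2)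
  have p3 : 0 < gg p.n (a + 2 - a) * gg p.n (a + 2 - (b + 1)) := by
    apply mul_pos <;> apply gg_pos' p.n hn0 <;> omega
  have hx1 : x1 = 0 := by
    have : x1 * (gg p.n (b + 2 - a) * gg p.n (b + 2 - b)) = 0 := by linarith
    rcases mul_eq_zero.mp this with h | h
    · exact h
    · exact absurd h p1.ne'
  have hx2 : x2 = 0 := by
    have : x2 * (gg p.n (a - (a + 1)) * gg p.n (a - (b + 1))) = 0 := by linarith
    rcases mul_eq_zero.mp this with h | h
    · exact h
    · exact absurd h p2.ne'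
  rw [hx1, hx2] at E3
  have hx3 : x3 = 0 := by
    have : x3 * (gg p.n (a + 2 - a) * gg p.n (a + 2 - (b + 1))) = 0 := by linarith
    rcases mul_eq_zero.mp this with h | h
    · exact h
    · exact absurd h p3.ne'
  exact ⟨hx1, hx2, hx3⟩

/-- membership in the face `(a, b)` -/
def InQ (a b : ℤ) (v : P2) : Prop :=
  v = vv p.n a b ∨ v = vv p.n (a + 1) (b + 1) ∨ v = vv p.n a (b + 1) ∨
      (3 ≤ b - a ∧ v = vv p.n (a + 1) b)

theorem quad_uniq (a b : ℤ) (h : 2 ≤ b - a) (h' : b - a ≤ p.n) (t t' : Finset P2) (w w' : P2 → ℝ)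
    (hw : ∀ v, 0 ≤ w v) (hw' : ∀ v, 0 ≤ w' v) (h0 : ∀ v ∉ t, w v = 0) (h0' : ∀ v ∉ t', w' v = 0)
    (hs : ∑ v ∈ t, w v • v = ∑ v ∈ t', w' v • v)
    (hQ : ∀ v, w v ≠ 0 → p.InQ a b v) (hQ' : ∀ v, w' v ≠ 0 → p.InQ a b v)
    (hn : 3 ≤ b - a → ¬ (vv p.n a (b + 1) ∈ t ∧ vv p.n (a + 1) b ∈ t))
    (hn' : 3 ≤ b - a → ¬ (vv p.n a (b + 1) ∈ t' ∧ vv p.n (a + 1) b ∈ t')) : w = w' := by
  classical
  have hn0 := p.n_pos
  have hn8 := p.hn
  rcases eq_or_lt_of_le h with h2 | h3
  · -- b = a + 2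
    set Q : Finset P2 := {vv p.n a b, vv p.n (a + 1) (b + 1), vv p.n a (b + 1)} with hQd
    have m : ∀ v, p.InQ a b v → v ∈ Q := by
      intro v hv
      rw [hQd]; simp only [Finset.mem_insert, Finset.mem_singleton]
      rcases hv with hv | hv | hv | hv
      · exact Or.inl hv
      · exact Or.inr (Or.inl hv)
      · exact Or.inr (Or.inr hv)
      · omega
    have z : ∀ v ∉ Q, w v = 0 := fun v hv => by
      by_contra hc; exact hv (m v (hQ v hc))
    have z' : ∀ v ∉ Q, w' v = 0 := fun v hv => by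
      by_contra hc; exact hv (m v (hQ' v hc))
    rw [sum_supp w t Q h0 z, sum_supp w' t' Q h0' z'] at hs
    have d12 : vv p.n a b ≠ vv p.n (a + 1) (b + 1) := by
      intro hc
      obtain ⟨h5, _, _⟩ := p.quad_core2 a b h2.symm 1 (-1) 0 (by rw [hc]; simp)
      norm_num at h5
    have d13 : vv p.n a b ≠ vv p.n a (b + 1) := by
      intro hc
      obtain ⟨h5, _, _⟩ := p.quad_core2 a b h2.symm 1 0 (-1) (by rw [hc]; simp)
      norm_num at h5
    have d23 : vv p.n (a + 1) (b + 1) ≠ vv p.n a (b + 1) := by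
      intro hc
      obtain ⟨_, h5, _⟩ := p.quad_core2 a b h2.symm 0 1 (-1) (by rw [hc]; simp)
      norm_num at h5
    have s3 : ∀ g : P2 → ℝ, ∑ v ∈ Q, g v • v = g (vv p.n a b) • vv p.n a b
        + g (vv p.n (a + 1) (b + 1)) • vv p.n (a + 1) (b + 1)
        + g (vv p.n a (b + 1)) • vv p.n a (b + 1) := by
      intro g
      rw [hQd, Finset.sum_insert (by simp [d12, d13]), Finset.sum_insert (by simp [d23]),
        Finset.sum_singleton, add_assoc]
    rw [s3, s3] at hs
    have key := p.quad_core2 a b h2.symm (w (vv p.n a b) - w' (vv p.n a b))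
      (w (vv p.n (a + 1) (b + 1)) - w' (vv p.n (a + 1) (b + 1)))
      (w (vv p.n a (b + 1)) - w' (vv p.n a (b + 1))) (by
        rw [sub_smul, sub_smul, sub_smul]
        rw [← sub_eq_zero] at hs
        rw [← hs]; abel)
    funext v
    by_cases hv : v ∈ Q
    · rw [hQd] at hv; simp only [Finset.mem_insert, Finset.mem_singleton] at hv
      rcases hv with rfl | rfl | rfl
      · linarith [key.1]
      · linarith [key.2.1]
      · linarith [key.2.2]
    · rw [z v hv, z' v hv]
  · set Q : Finset P2 := {vv p.n a b, vv p.n (a + 1) (b + 1), vv p.n a (b + 1), vv p.n (a + 1) b}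
      with hQd
    have m : ∀ v, p.InQ a b v → v ∈ Q := by
      intro v hv
      rw [hQd]; simp only [Finset.mem_insert, Finset.mem_singleton]
      rcases hv with hv | hv | hv | hv
      · exact Or.inl hv
      · exact Or.inr (Or.inl hv)
      · exact Or.inr (Or.inr (Or.inl hv))
      · exact Or.inr (Or.inr (Or.inr hv.2))
    have z : ∀ v ∉ Q, w v = 0 := fun v hv => by
      by_contra hc; exact hv (m v (hQ v hc))
    have z' : ∀ v ∉ Q, w' v = 0 := fun v hv => by
      by_contra hc; exact hv (m v (hQ' v hc))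
    rw [sum_supp w t Q h0 z, sum_supp w' t' Q h0' z'] at hs
    have h3' : 3 ≤ b - a := by omega
    have d12 : vv p.n a b ≠ vv p.n (a + 1) (b + 1) := by
      intro hc
      obtain ⟨h5, _⟩ := p.quad_core a b h3' h' 1 (-1) 0 0 (by rw [hc]; simp) (by norm_num) (by norm_num)
      norm_num at h5
    have d13 : vv p.n a b ≠ vv p.n a (b + 1) := by
      intro hc
      obtain ⟨h5, _⟩ := p.quad_core a b h3' h' 1 0 (-1) 0 (by rw [hc]; simp) (by norm_num) (by norm_num)
      norm_num at h5
    have d14 : vv p.n a b ≠ vv p.n (a + 1) b := by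
      intro hc
      obtain ⟨h5, _⟩ := p.quad_core a b h3' h' 1 0 0 (-1) (by rw [hc]; simp) (by norm_num) (by norm_num)
      norm_num at h5
    have d23 : vv p.n (a + 1) (b + 1) ≠ vv p.n a (b + 1) := by
      intro hc
      obtain ⟨_, h5, _⟩ := p.quad_core a b h3' h' 0 1 (-1) 0 (by rw [hc]; simp) (by norm_num)
        (by norm_num)
      norm_num at h5
    have d24 : vv p.n (a + 1) (b + 1) ≠ vv p.n (a + 1) b := by
      intro hc
      obtain ⟨_, h5, _⟩ := p.quad_core a b h3' h' 0 1 0 (-1) (by rw [hc]; simp) (by norm_num)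
        (by norm_num)
      norm_num at h5
    have d34 : vv p.n a (b + 1) ≠ vv p.n (a + 1) b := by
      intro hc
      obtain ⟨_, _, h5, _⟩ := p.quad_core a b h3' h' 0 0 1 (-1) (by rw [hc]; simp) (by norm_num)
        (by norm_num)
      norm_num at h5
    have s4 : ∀ g : P2 → ℝ, ∑ v ∈ Q, g v • v = g (vv p.n a b) • vv p.n a b
        + g (vv p.n (a + 1) (b + 1)) • vv p.n (a + 1) (b + 1)
        + g (vv p.n a (b + 1)) • vv p.n a (b + 1) + g (vv p.n (a + 1) b) • vv p.n (a + 1) b := by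
      intro g
      rw [hQd, Finset.sum_insert (by simp [d12, d13, d14]), Finset.sum_insert (by simp [d23, d24]),
        Finset.sum_insert (by simp [d34]), Finset.sum_singleton, add_assoc, add_assoc]
    rw [s4, s4] at hs
    have key := p.quad_core a b h3' h' (w (vv p.n a b) - w' (vv p.n a b))
      (w (vv p.n (a + 1) (b + 1)) - w' (vv p.n (a + 1) (b + 1)))
      (w (vv p.n a (b + 1)) - w' (vv p.n a (b + 1)))
      (w (vv p.n (a + 1) b) - w' (vv p.n (a + 1) b)) (by
        rw [sub_smul, sub_smul, sub_smul, sub_smul]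
        rw [← sub_eq_zero] at hs
        rw [← hs]; abel)
      (by
        rintro ⟨g1, g2⟩
        apply hn h3'
        constructor
        · by_contra hc
          have := h0 _ hc
          have := hw' (vv p.n a (b + 1))
          linarith
        · by_contra hc
          have := h0 _ hc
          have := hw' (vv p.n (a + 1) b)
          linarith)
      (by
        rintro ⟨g1, g2⟩
        apply hn' h3'
        constructor
        · by_contra hc
          have := h0' _ hc
          have := hw (vv p.n a (b + 1))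
          linarith
        · by_contra hc
          have := h0' _ hc
          have := hw (vv p.n (a + 1) b)
          linarith)
    funext v
    by_cases hv : v ∈ Q
    · rw [hQd] at hv; simp only [Finset.mem_insert, Finset.mem_singleton] at hv
      rcases hv with rfl | rfl | rfl | rfl
      · linarith [key.1]
      · linarith [key.2.1]
      · linarith [key.2.2.1]
      · linarith [key.2.2.2]
    · rw [z v hv, z' v hv]

end Par

end Pool.Agent.Helper576.VA
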