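import Mathlib

set_option autoImplicit false

/-! Abstract assembly for MP_c8c16f_gt: complexes from unique convex combinations, the two piece
property of a complex from connectivity of vertices, gluing. -/

namespace Pool.Agent.Helper576.VBA

open Classical in
/-- extension by zero -/
noncomputable def extz {E : Type*} (t : Finset E) (s : Finset t) (f : t → ℝ) (v : E) : ℝ :=
  if h : v ∈ t then (if (⟨v, h⟩ : t) ∈ s then f ⟨v, h⟩ else 0) else 0

theorem extz_mem {E : Type*} (t : Finset E) (s : Finset t) (f : t → ℝ) (e : t) (he : e ∈ s) :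
    extz t s f (e : E) = f e := by
  simp only [extz, dif_pos e.2]
  exact if_pos he

theorem extz_out {E : Type*} (t : Finset E) (s : Finset t) (f : t → ℝ) (v : E) (hv : v ∉ t) :
    extz t s f v = 0 := by
  simp only [extz, dif_neg hv]

theorem extz_nonneg {E : Type*} (t : Finset E) (s : Finset t) (f : t → ℝ) (hf : ∀ e, 0 ≤ f e)
    (v : E) : 0 ≤ extz t s f v := by
  unfold extz
  split_ifs
  · exact hf _
  · exact le_rfl
  · exact le_rfl

theorem extz_sumv {E F : Type*} [AddCommGroup F] [Module ℝ F] (t : Finset E) (s : Finset t)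
    (f : t → ℝ) (G : E → F) :
    ∑ v ∈ t, extz t s f v • G v = ∑ e ∈ s, f e • G (e : E) := by
  classical
  rw [← Finset.sum_coe_sort t (fun v => extz t s f v • G v)]
  have h1 : ∀ e : t, extz t s f (e : E) • G (e : E) = if e ∈ s then f e • G (e : E) else 0 := by
    intro e
    split_ifs with h
    · rw [extz_mem t s f e h]
    · have : extz t s f (e : E) = 0 := by
        simp only [extz, dif_pos e.2]
        exact if_neg h
      rw [this, zero_smul]
  rw [Finset.sum_congr rfl fun e _ => h1 e, Finset.sum_ite_mem, Finset.univ_inter]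

theorem extz_sum {E : Type*} (t : Finset E) (s : Finset t) (f : t → ℝ) :
    ∑ v ∈ t, extz t s f v = ∑ e ∈ s, f e := by
  have := extz_sumv t s f (fun _ => (1 : ℝ))
  simpa using this

theorem affInd_of_uniq {E : Type*} [NormedAddCommGroup E] [NormedSpace ℝ E] (t : Finset E)
    (huniq : ∀ w w' : E → ℝ, (∀ v, 0 ≤ w v) → (∀ v, 0 ≤ w' v) →
      (∀ v ∉ t, w v = 0) → (∀ v ∉ t, w' v = 0) → ∑ v ∈ t, w v = 1 → ∑ v ∈ t, w' v = 1 →
      ∑ v ∈ t, w v • v = ∑ v ∈ t, w' v • v → w = w') :
    AffineIndependent ℝ ((↑) : t → E) := by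
  classical
  rw [affineIndependent_iff]
  intro s w h0 h1
  have hdiff : ∀ r : ℝ, max r 0 - max (-r) 0 = r := by
    intro r
    rcases le_total r 0 with h | h
    · rw [max_eq_right h, max_eq_left (by linarith)]; ring
    · rw [max_eq_left h, max_eq_right (by linarith)]; ring
  obtain ⟨S, hS⟩ : ∃ S : ℝ, S = ∑ e ∈ s, max (w e) 0 := ⟨_, rfl⟩
  have hS' : ∑ e ∈ s, max (-(w e)) 0 = S := by
    have h2 : ∑ e ∈ s, (max (w e) 0 - max (-(w e)) 0) = ∑ e ∈ s, w e :=
      Finset.sum_congr rfl fun e _ => hdiff _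
    rw [Finset.sum_sub_distrib, ← hS, h0] at h2
    linarith
  have hS0 : 0 ≤ S := by rw [hS]; exact Finset.sum_nonneg fun _ _ => le_max_right _ _
  rcases hS0.eq_or_lt with hz | hpos
  · intro e he
    rw [← hz] at hS hS'
    have h2 := (Finset.sum_eq_zero_iff_of_nonneg (fun _ _ => le_max_right _ _)).1 hS.symm e he
    have h3 := (Finset.sum_eq_zero_iff_of_nonneg (fun _ _ => le_max_right _ _)).1 hS' e he
    have h4 := hdiff (w e)
    rw [h2, h3] at h4
    linarith
  · have key := huniq (extz t s (fun e => max (w e) 0 / S)) (extz t s (fun e => max (-(w e)) 0 / S))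
      (extz_nonneg _ _ _ fun e => div_nonneg (le_max_right _ _) hS0)
      (extz_nonneg _ _ _ fun e => div_nonneg (le_max_right _ _) hS0)
      (extz_out _ _ _) (extz_out _ _ _)
      (by rw [extz_sum, ← Finset.sum_div, ← hS, div_self hpos.ne'])
      (by rw [extz_sum, ← Finset.sum_div, hS', div_self hpos.ne'])
      (by
        rw [extz_sumv t s _ (fun v => v), extz_sumv t s _ (fun v => v), ← sub_eq_zero,
          ← Finset.sum_sub_distrib]
        have h2 : ∀ e ∈ s, (max (w e) 0 / S) • (e : E) - (max (-(w e)) 0 / S) • (e : E)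
            = S⁻¹ • (w e • (e : E)) := by
          intro e _
          rw [← sub_smul, smul_smul, ← sub_div, hdiff]
          congr 1
          field_simp
        rw [Finset.sum_congr rfl h2, ← Finset.smul_sum, h1, smul_zero])
    intro e he
    have h2 := congrFun key (e : E)
    rw [extz_mem _ _ _ e he, extz_mem _ _ _ e he] at h2
    have h3 : max (w e) 0 = max (-(w e)) 0 := by
      field_simp at h2
      exact h2
    have h4 := hdiff (w e)
    rw [h3, sub_self] at h4
    exact h4.symm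

theorem A1_exists_complex {E : Type*} [NormedAddCommGroup E] [NormedSpace ℝ E]
    (Tri : Set (Finset E)) (hfin : Tri.Finite)
    (huniq : ∀ t ∈ Tri, ∀ t' ∈ Tri, ∀ w w' : E → ℝ, (∀ v, 0 ≤ w v) → (∀ v, 0 ≤ w' v) →
      (∀ v ∉ t, w v = 0) → (∀ v ∉ t', w' v = 0) → ∑ v ∈ t, w v = 1 → ∑ v ∈ t', w' v = 1 →
      ∑ v ∈ t, w v • v = ∑ v ∈ t', w' v • v → w = w') :
    ∃ K : Geometry.SimplicialComplex ℝ E, K.faces = {s | s.Nonempty ∧ ∃ t ∈ Tri, s ⊆ t} ∧
      K.faces.Finite ∧ K.space = ⋃ t ∈ Tri, convexHull ℝ (t : Set E) := by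
  classical
  have hind : ∀ s ∈ {s : Finset E | ∃ t ∈ Tri, s ⊆ t}, AffineIndependent ℝ ((↑) : s → E) := by
    rintro s ⟨t, ht, hst⟩
    have h1 := affInd_of_uniq t (fun w w' => huniq t ht t ht w w')
    exact h1.mono hst
  have hdown : IsLowerSet {s : Finset E | ∃ t ∈ Tri, s ⊆ t} := by
    rintro s s' hs's ⟨t, ht, hst⟩
    exact ⟨t, ht, (show s' ⊆ s from hs's).trans hst⟩
  have hinter : ∀ᵉ (s ∈ {s : Finset E | ∃ t ∈ Tri, s ⊆ t}) (s' ∈ {s : Finset E | ∃ t ∈ Tri, s ⊆ t}),
      convexHull ℝ (s : Set E) ∩ convexHull ℝ (s' : Set E) ⊆ convexHull ℝ (s ∩ s' : Set E) := by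
    rintro s ⟨t, ht, hst⟩ s' ⟨t', ht', hst'⟩ x ⟨hx, hx'⟩
    obtain ⟨w, hw0, hw1, hwx⟩ := Finset.mem_convexHull'.1 hx
    obtain ⟨w', hw0', hw1', hwx'⟩ := Finset.mem_convexHull'.1 hx'
    have e1 : ∀ (s t : Finset E) (w : E → ℝ), s ⊆ t →
        ∑ v ∈ t, (if v ∈ s then w v else 0) = ∑ v ∈ s, w v := by
      intro s t w h
      rw [Finset.sum_ite_mem, Finset.inter_eq_right.2 h]
    have e2 : ∀ (s t : Finset E) (w : E → ℝ), s ⊆ t →
        ∑ v ∈ t, (if v ∈ s then w v else 0) • v = ∑ v ∈ s, w v • v := by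
      intro s t w h
      simp only [ite_smul, zero_smul]
      rw [Finset.sum_ite_mem, Finset.inter_eq_right.2 h]
    have key := huniq t ht t' ht' (fun v => if v ∈ s then w v else 0)
      (fun v => if v ∈ s' then w' v else 0)
      (by intro v; split_ifs with h; exacts [hw0 v h, le_rfl])
      (by intro v; split_ifs with h; exacts [hw0' v h, le_rfl])
      (by intro v hv; rw [if_neg fun h => hv (hst h)])
      (by intro v hv; rw [if_neg fun h => hv (hst' h)])
      (by rw [e1 s t w hst, hw1]) (by rw [e1 s' t' w' hst', hw1'])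
      (by rw [e2 s t w hst, e2 s' t' w' hst', hwx, hwx'])
    have hz : ∀ v ∈ s, v ∉ s' → w v = 0 := by
      intro v hv hv'
      have := congrFun key v
      simp only [if_pos hv, if_neg hv'] at this
      exact this
    rw [← Finset.coe_inter, Finset.mem_convexHull']
    refine ⟨w, fun y hy => hw0 y (Finset.mem_inter.1 hy).1, ?_, ?_⟩
    · rw [← hw1]
      refine Finset.sum_subset Finset.inter_subset_left fun v hv hv' => ?_
      exact hz v hv fun h => hv' (Finset.mem_inter.2 ⟨hv, h⟩)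
    · rw [← hwx]
      refine Finset.sum_subset Finset.inter_subset_left fun v hv hv' => ?_
      rw [hz v hv fun h => hv' (Finset.mem_inter.2 ⟨hv, h⟩), zero_smul]
  let K := Geometry.SimplicialComplex.ofErase _ hind hdown hinter
  have hK : K.faces = {s | s.Nonempty ∧ ∃ t ∈ Tri, s ⊆ t} := by
    ext s
    show s ∈ {s : Finset E | ∃ t ∈ Tri, s ⊆ t} \ {∅} ↔ _
    constructor
    · rintro ⟨h1, h2⟩
      exact ⟨Finset.nonempty_iff_ne_empty.2 h2, h1⟩
    · rintro ⟨h1, h2⟩
      exact ⟨h2, Finset.nonempty_iff_ne_empty.1 h1⟩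
  refine ⟨K, hK, ?_, ?_⟩
  · rw [hK]
    have : {s : Finset E | s.Nonempty ∧ ∃ t ∈ Tri, s ⊆ t} ⊆ ⋃ t ∈ Tri, (t.powerset : Set (Finset E)) := by
      rintro s ⟨-, t, ht, hst⟩
      exact Set.mem_biUnion ht (by simpa using hst)
    exact (hfin.biUnion fun t _ => Finset.finite_toSet _).subset this
  · apply Set.Subset.antisymm
    · intro x hx
      rw [Geometry.SimplicialComplex.mem_space_iff] at hx
      obtain ⟨s, hs, hxs⟩ := hx
      rw [hK] at hs
      obtain ⟨-, t, ht, hst⟩ := hs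
      exact Set.mem_biUnion ht (convexHull_mono (by exact_mod_cast hst) hxs)
    · intro x hx
      rw [Set.mem_iUnion₂] at hx
      obtain ⟨t, ht, hxt⟩ := hx
      rw [Geometry.SimplicialComplex.mem_space_iff]
      refine ⟨t, ?_, hxt⟩
      rw [hK]
      refine ⟨?_, t, ht, subset_rfl⟩
      have : (t : Set E).Nonempty := convexHull_nonempty_iff.1 ⟨x, hxt⟩
      exact_mod_cast this

theorem A2_tpp {E : Type*} [NormedAddCommGroup E] [NormedSpace ℝ E]
    (Tri : Set (Finset E)) (u : E →ₗ[ℝ] ℝ) (c : ℝ)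
    (hconn : ∀ x y, (∃ t ∈ Tri, x ∈ t) → (∃ t ∈ Tri, y ∈ t) → c ≤ u x → c ≤ u y →
      Relation.ReflTransGen (fun x y => (∃ t ∈ Tri, x ∈ t ∧ y ∈ t) ∧ c ≤ u y) x y) :
    IsPreconnected {y | y ∈ (⋃ t ∈ Tri, convexHull ℝ (t : Set E)) ∧ c ≤ u y} := by
  classical
  set S : Set E := {y | y ∈ (⋃ t ∈ Tri, convexHull ℝ (t : Set E)) ∧ c ≤ u y} with hS
  have hseg : ∀ t ∈ Tri, ∀ x ∈ convexHull ℝ (t : Set E), ∀ y ∈ convexHull ℝ (t : Set E),
      c ≤ u x → c ≤ u y → JoinedIn S x y := by
    intro t ht x hx y hy hcx hcy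
    have h1 : segment ℝ x y ⊆ S := by
      intro z hz
      refine ⟨Set.mem_biUnion ht ((convex_convexHull ℝ (t : Set E)).segment_subset hx hy hz), ?_⟩
      obtain ⟨a, b, ha, hb, hab, rfl⟩ := hz
      rw [map_add, map_smul, map_smul, smul_eq_mul, smul_eq_mul]
      have e1 := mul_le_mul_of_nonneg_left hcx ha
      have e2 := mul_le_mul_of_nonneg_left hcy hb
      have e3 : a * c + b * c = c := by rw [← add_mul, hab, one_mul]
      linarith
    have h2 : IsPathConnected (segment ℝ x y) :=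
      (convex_segment x y).isPathConnected ⟨x, left_mem_segment ℝ x y⟩
    exact (h2.joinedIn x (left_mem_segment ℝ x y) y (right_mem_segment ℝ x y)).mono h1
  have hvert : ∀ x ∈ S, ∃ v, (∃ t ∈ Tri, v ∈ t) ∧ c ≤ u v ∧ JoinedIn S x v := by
    rintro x ⟨hx, hcx⟩
    rw [Set.mem_iUnion₂] at hx
    obtain ⟨t, ht, hxt⟩ := hx
    obtain ⟨w, hw0, hw1, hwx⟩ := Finset.mem_convexHull'.1 hxt
    have hex : ∃ v ∈ t, c ≤ u v := by
      by_contra hcon
      push Not at hcon
      have h1 : u x = ∑ v ∈ t, w v * u v := by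
        rw [← hwx, map_sum]
        exact Finset.sum_congr rfl fun v _ => by rw [map_smul, smul_eq_mul]
      have h2 : ∑ v ∈ t, w v * u v < ∑ v ∈ t, w v * c := by
        have hne : ∃ v ∈ t, 0 < w v := by
          by_contra hn
          push Not at hn
          have : ∑ v ∈ t, w v ≤ 0 := Finset.sum_nonpos hn
          linarith
        obtain ⟨v0, hv0, hv0w⟩ := hne
        refine Finset.sum_lt_sum (fun v hv => mul_le_mul_of_nonneg_left (hcon v hv).le (hw0 v hv))
          ⟨v0, hv0, mul_lt_mul_of_pos_left (hcon v0 hv0) hv0w⟩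
      rw [← Finset.sum_mul, hw1, one_mul] at h2
      linarith
    obtain ⟨v, hv, hcv⟩ := hex
    exact ⟨v, ⟨t, ht, hv⟩, hcv, hseg t ht x hxt v (subset_convexHull ℝ _ hv) hcx hcv⟩
  rcases S.eq_empty_or_nonempty with he | ⟨x0, hx0⟩
  · rw [he]; exact isPreconnected_empty
  · obtain ⟨v0, hv0, hcv0, hj0⟩ := hvert x0 hx0
    have hpc : IsPathConnected S := by
      refine ⟨x0, hx0, fun {y} hy => ?_⟩
      obtain ⟨v, hv, hcv, hj⟩ := hvert y hy
      refine hj0.trans (JoinedIn.trans ?_ hj.symm)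
      have hrt := hconn v0 v hv0 hv hcv0 hcv
      have hmem : v0 ∈ S := hj0.target_mem
      have : ∀ y, Relation.ReflTransGen (fun x y => (∃ t ∈ Tri, x ∈ t ∧ y ∈ t) ∧ c ≤ u y) v0 y →
          c ≤ u y ∧ JoinedIn S v0 y := by
        intro y hy
        induction hy with
        | refl => exact ⟨hcv0, JoinedIn.refl hmem⟩
        | tail _ hbc ih =>
          obtain ⟨⟨t, ht, hb, hc'⟩, hcc⟩ := hbc
          exact ⟨hcc, ih.2.trans (hseg t ht _ (subset_convexHull ℝ _ hb) _
            (subset_convexHull ℝ _ hc') ih.1 hcc)⟩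
      exact (this v hrt).2
    exact hpc.isConnected.isPreconnected

theorem A3_glue {Z Y E : Type*} [TopologicalSpace Z] [CompactSpace Z] [TopologicalSpace Y]
    [T2Space Y] [TopologicalSpace E] [T2Space E] (q : Z → Y) (hq : Continuous q)
    (hqs : Function.Surjective q) (F : Z → E) (hF : Continuous F)
    (hker : ∀ z z', q z = q z' ↔ F z = F z') :
    ∃ g : Y → E, Continuous g ∧ Function.Injective g ∧ (∀ z, g (q z) = F z) ∧
      Set.range g = Set.range F ∧
      ∀ S : Set E, IsPreconnected (Set.range F ∩ S) → IsPreconnected (g ⁻¹' S) := by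
  have hquot : Topology.IsQuotientMap q := hq.isClosedMap.isQuotientMap hq hqs
  let g : Y → E := fun y => F (Function.surjInv hqs y)
  have hg : ∀ z, g (q z) = F z := by
    intro z
    exact (hker _ _).1 (Function.surjInv_eq hqs (q z))
  have hgc : Continuous g := by
    rw [hquot.continuous_iff]
    have : g ∘ q = F := funext hg
    rw [this]; exact hF
  have hgi : Function.Injective g := by
    intro y y' h
    obtain ⟨z, rfl⟩ := hqs y
    obtain ⟨z', rfl⟩ := hqs y'
    rw [hg, hg] at h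
    exact (hker z z').2 h
  have hr : Set.range g = Set.range F := by
    ext x
    constructor
    · rintro ⟨y, rfl⟩
      obtain ⟨z, rfl⟩ := hqs y
      exact ⟨z, (hg z).symm⟩
    · rintro ⟨z, rfl⟩
      exact ⟨q z, hg z⟩
  refine ⟨g, hgc, hgi, hg, hr, fun S hS => ?_⟩
  have : CompactSpace Y := ⟨by
    rw [← hqs.range_eq]
    exact isCompact_range hq⟩
  have hemb : Topology.IsClosedEmbedding g := hgc.isClosedEmbedding hgi
  rw [← hemb.isInducing.isPreconnected_image, Set.image_preimage_eq_range_inter, hr]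
  exact hS

end Pool.Agent.Helper576.VBA
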