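import Pool.Agent.Helper576.VBQ

set_option autoImplicit false

/-! Closeness of vertices to the Veronese surface (MP_c8c16f_gt). -/

namespace Pool.Agent.Helper576.VA

open ComplexConjugate

theorem kap_est (n : ℕ) (hn : 0 < n) : 1 - kap n ≤ 2 / (n : ℝ) ^ 2 := by
  have hn' : (0 : ℝ) < n := by exact_mod_cast hn
  have h1 := Real.one_sub_sq_div_two_le_cos (x := Real.pi / (2 * n))
  have hpi : Real.pi < 4 := by have := Real.pi_lt_d2; linarith
  have hpi0 := Real.pi_pos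
  unfold kap
  have h2 : (Real.pi / (2 * n)) ^ 2 / 2 ≤ 2 / (n : ℝ) ^ 2 := by
    rw [div_pow, div_div, div_le_div_iff₀ (by positivity) (by positivity)]
    nlinarith [mul_pos hn' hn', mul_pos (sub_pos.2 hpi) (mul_pos hn' hn'),
      mul_pos hpi0 (mul_pos hn' hn')]
  linarith

theorem C0_exists_par (n0 N0 : ℕ) : ∃ p : Par, n0 ≤ p.n ∧ N0 ≤ p.N := by
  refine ⟨⟨max n0 100, max N0 3, le_max_right _ _, (by norm_num : 8 ≤ 100).trans (le_max_right _ _),
    ?_⟩, le_max_left _ _, le_max_left _ _⟩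
  have h1 : 100 ≤ max n0 100 := le_max_right _ _
  have h2 : (100 : ℝ) ≤ ((max n0 100 : ℕ) : ℝ) := by exact_mod_cast h1
  refine (kap_est _ (by omega)).trans ?_
  rw [div_le_div_iff₀ (by positivity) (by norm_num)]
  nlinarith

/-- homogeneous quotients are uniformly continuous near compact sets -/
theorem quot_close {V E : Type*} [NormedAddCommGroup V] [NormedSpace ℝ V] [FiniteDimensional ℝ V]
    [NormedAddCommGroup E] [NormedSpace ℝ E]
    (b : V →ₗ[ℝ] E) (T : V →ₗ[ℝ] ℝ) (K : Set V) (hK : IsCompact K) (hT : ∀ y ∈ K, 0 < T y)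
    (ε : ℝ) (hε : 0 < ε) :
    ∃ δ : ℝ, 0 < δ ∧ ∀ y ∈ K, ∀ x, ‖x - y‖ < δ →
      0 < T x ∧ ‖(T x)⁻¹ • b x - (T y)⁻¹ • b y‖ ≤ ε := by
  have hbc : Continuous b := LinearMap.continuous_of_finiteDimensional b
  have hTc : Continuous T := LinearMap.continuous_of_finiteDimensional T
  have hopen : IsOpen {x | 0 < T x} := isOpen_lt continuous_const hTc
  have hφ : ContinuousOn (fun x => (T x)⁻¹ • b x) {x | 0 < T x} :=
    (hTc.continuousOn.inv₀ fun x hx => (ne_of_gt hx)).smul hbc.continuousOn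
  by_contra hcon
  push Not at hcon
  -- sequences
  have hseq : ∀ k : ℕ, ∃ y ∈ K, ∃ x, ‖x - y‖ < 1 / ((k : ℝ) + 1) ∧
      (0 < T x → ε < ‖(T x)⁻¹ • b x - (T y)⁻¹ • b y‖) := fun k =>
    hcon (1 / ((k : ℝ) + 1)) (by positivity)
  choose y hy x hxy hbad using hseq
  obtain ⟨a, ha, φ, hφm, hφt⟩ := hK.tendsto_subseq hy
  have hx : Filter.Tendsto (fun k => x (φ k)) Filter.atTop (nhds a) := by
    have h1 : Filter.Tendsto (fun k => x (φ k) - y (φ k)) Filter.atTop (nhds 0) := by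
      rw [tendsto_zero_iff_norm_tendsto_zero]
      have h2 : Filter.Tendsto (fun k : ℕ => 1 / (((φ k : ℕ) : ℝ) + 1)) Filter.atTop (nhds 0) :=
        tendsto_one_div_add_atTop_nhds_zero_nat.comp hφm.tendsto_atTop
      exact squeeze_zero (fun _ => norm_nonneg _) (fun k => (hxy (φ k)).le) h2
    have h3 := h1.add hφt
    simpa using h3
  have haT : a ∈ {x | 0 < T x} := hT a ha
  have hca := hφ.continuousAt (hopen.mem_nhds haT)
  have h1 := hca.tendsto.comp hx
  have h2 := hca.tendsto.comp hφt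
  have h3 := (h1.sub h2).norm
  rw [sub_self, norm_zero] at h3
  have h4 := h3.eventually (gt_mem_nhds hε)
  have h5 := hx.eventually (hopen.mem_nhds haT)
  obtain ⟨k, hk4, hk5⟩ := (h4.and h5).exists
  have := hbad (φ k) hk5
  simp only [Function.comp] at hk4
  linarith

theorem mul_continuous : Continuous (fun q : P1 × P1 => mul q.1 q.2) := by
  unfold mul
  fun_prop

theorem sq_continuous : Continuous (sq : P1 → P2) := by
  have h : (sq : P1 → P2) = fun L => mul L L := rfl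
  rw [h]
  exact mul_continuous.comp (continuous_id.prodMk continuous_id)

theorem sq_smul (c : ℝ) (L : P1) : sq (c • L) = (c ^ 2) • sq L := by
  unfold sq mul
  refine Prod.ext ?_ (Prod.ext ?_ ?_)
  · simp only [Prod.smul_fst, Prod.smul_snd, Complex.real_smul, smul_eq_mul, map_mul,
      Complex.conj_ofReal]
    have : (c : ℂ) * L.2 * ((c : ℂ) * conj L.2) = ((c ^ 2 : ℝ) : ℂ) * (L.2 * conj L.2) := by
      push_cast; ring
    rw [this, Complex.re_ofReal_mul]
    ring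
  · simp only [Prod.smul_fst, Prod.smul_snd, Complex.real_smul, smul_eq_mul]
    push_cast; ring
  · simp only [Prod.smul_snd, Complex.real_smul]
    push_cast; ring

theorem om_lip (n : ℕ) (s t : ℝ) : ‖om n s - om n t‖ ≤ Real.pi / n * |s - t| := by
  have h1 : om n s - om n t = om n t * (om n (s - t) - 1) := by
    rw [mul_sub, ← om_add]
    ring_nf
  rw [h1, norm_mul, om_norm, one_mul]
  have h2 : om n (s - t) = Complex.exp (Complex.I * ((Real.pi * (s - t) / n : ℝ) : ℂ)) := by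
    unfold om; rw [mul_comm]
  rw [h2]
  refine Real.norm_exp_I_mul_ofReal_sub_one_le.trans (le_of_eq ?_)
  rw [Real.norm_eq_abs, abs_div, abs_mul, abs_of_pos Real.pi_pos, Nat.abs_cast]
  ring

namespace Par

variable (p : Par)

theorem A_est : 1 - p.c * p.r1 ≤ 56 / p.n := by
  have hn := p.q_n_ge
  have h1 := kap_est p.n p.n_pos
  have h2 : (2 : ℝ) / (p.n : ℝ) ^ 2 ≤ 2 / p.n := by
    apply div_le_div_of_nonneg_left (by norm_num) (by positivity)
    nlinarith
  set y := 1 - p.k with hy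
  have hk : p.k = 1 - y := by rw [hy]; ring
  have hy0 : 0 < y := by have := p.k_lt; rw [hy]; linarith
  have hy1 : y ≤ 1 / 250 := by have := p.k_ge; rw [hy]; linarith
  have hyn : y ≤ 2 / p.n := by
    have : y = 1 - kap p.n := rfl
    rw [this]; linarith
  have h3 : 1 - p.c * p.r1 ≤ 28 * y := by
    unfold c r1
    rw [← hy, hk]
    have h4 : 0 < 1 + 24 * y := by positivity
    have h5 : 1 - (2 * (1 - y) ^ 2 - 1) * (1 / (1 + 24 * y))
        = (1 + 24 * y - (2 * (1 - y) ^ 2 - 1)) / (1 + 24 * y) := by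
      field_simp
    rw [h5, div_le_iff₀ h4]
    nlinarith [mul_pos hy0 hy0]
  calc 1 - p.c * p.r1 ≤ 28 * y := h3
    _ ≤ 28 * (2 / p.n) := by linarith
    _ = 56 / p.n := by ring

theorem rad_lip (d d' : ℝ) (h : |d - d'| ≤ 1) : |p.rad d - p.rad d'| ≤ 1 / p.N + 56 / p.n := by
  have hN : (0 : ℝ) < p.N := by have := p.q_N_ge; linarith
  have hA := p.q_A_pos
  have hA1 := p.q_A_lt
  have h1 : |min d 1 - min d' 1| ≤ 1 := (abs_min_sub_min_le_max d 1 d' 1).trans (by simpa using h)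
  have h2 : |min 1 (max 0 (d - 1)) - min 1 (max 0 (d' - 1))| ≤ 1 := by
    refine (abs_min_sub_min_le_max _ _ _ _).trans ?_
    rw [sub_self, abs_zero]
    refine max_le (by norm_num) ?_
    refine (abs_max_sub_max_le_max _ _ _ _).trans ?_
    rw [sub_self, abs_zero]
    refine max_le (by norm_num) ?_
    rw [show d - 1 - (d' - 1) = d - d' by ring]
    exact h
  have h3 : p.rad d - p.rad d' = p.c * p.r1 * (min d 1 - min d' 1) / p.N
      + (1 - p.c * p.r1) * (min 1 (max 0 (d - 1)) - min 1 (max 0 (d' - 1))) := by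
    unfold rad; field_simp; ring
  rw [h3]
  refine (abs_add_le _ _).trans (add_le_add ?_ ?_)
  · rw [abs_div, abs_mul, abs_of_pos hA, abs_of_pos hN]
    apply div_le_div_of_nonneg_right _ hN.le
    nlinarith [abs_nonneg (min d 1 - min d' 1)]
  · rw [abs_mul, abs_of_pos (by linarith : 0 < 1 - p.c * p.r1)]
    have h4 := p.A_est
    nlinarith [abs_nonneg (min 1 (max 0 (d - 1)) - min 1 (max 0 (d' - 1)))]

theorem wd_lip (d d' : ℝ) (h : |d - d'| ≤ 1) : |p.wd d - p.wd d'| ≤ 2 / p.n := by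
  have hn := p.q_n_pos
  unfold wd
  refine (Real.abs_cos_sub_cos_le _ _).trans ?_
  have h1 : |max d 2 - max d' 2| ≤ 1 := (abs_max_sub_max_le_max d 2 d' 2).trans (by simpa using h)
  have h2 : max d 2 * Real.pi / (2 * p.n) - max d' 2 * Real.pi / (2 * p.n)
      = (max d 2 - max d' 2) * (Real.pi / (2 * p.n)) := by ring
  rw [h2, abs_mul, abs_of_pos (by have := Real.pi_pos; positivity : 0 < Real.pi / (2 * p.n))]
  have hpi : Real.pi < 4 := by have := Real.pi_lt_d2; linarith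
  have h3 : Real.pi / (2 * p.n) ≤ 2 / p.n := by
    rw [div_le_div_iff₀ (by positivity) (by positivity)]
    nlinarith
  have h4 : 0 < Real.pi / (2 * p.n) := by have := Real.pi_pos; positivity
  nlinarith [abs_nonneg (max d 2 - max d' 2)]

theorem rad_le_one (d : ℝ) : p.rad d ≤ 1 := by
  rw [← p.rad_ge_two (max d 2) (le_max_right _ _)]
  exact p.rad_mono _ _ (le_max_left _ _)

theorem Qp_lip (z z' : ℝ × ℝ) (h' : 1 - (p.N : ℝ) ≤ z'.2) (h1 : |z.1 - z'.1| ≤ 1)
    (h2 : |z.2 - z'.2| ≤ 1) : ‖p.Qp z - p.Qp z'‖ ≤ 1 / p.N + 62 / p.n := by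
  have hn := p.q_n_pos
  have hN : (0 : ℝ) < p.N := by have := p.q_N_ge; linarith
  unfold Qp
  rw [Prod.mk_sub_mk, Prod.norm_mk]
  refine max_le ?_ ?_
  · rw [Real.norm_eq_abs]
    refine (p.wd_lip _ _ h2).trans ?_
    have : (2 : ℝ) / p.n ≤ 62 / p.n := by
      apply div_le_div_of_nonneg_right _ hn.le; norm_num
    have : (0 : ℝ) ≤ 1 / p.N := by positivity
    linarith
  · set A := om p.n (z.1 + 1 / 2 + max z.2 2 / 2) with hA
    set B := om p.n (z'.1 + 1 / 2 + max z'.2 2 / 2) with hB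
    have e : -((p.rad z.2 : ℂ) * A) - -((p.rad z'.2 : ℂ) * B)
        = -(((p.rad z.2 - p.rad z'.2 : ℝ) : ℂ) * A + (p.rad z'.2 : ℂ) * (A - B)) := by
      push_cast; ring
    rw [e, norm_neg]
    refine (norm_add_le _ _).trans ?_
    rw [norm_mul, norm_mul, hA, om_norm, mul_one, Complex.norm_real, Complex.norm_real,
      Real.norm_eq_abs, Real.norm_eq_abs, abs_of_nonneg (p.rad_nonneg _ h')]
    have h3 := p.rad_lip _ _ h2
    have h4 : ‖om p.n (z.1 + 1 / 2 + max z.2 2 / 2) - B‖ ≤ 6 / p.n := by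
      rw [hB]
      refine (om_lip _ _ _).trans ?_
      have h5 : |z.1 + 1 / 2 + max z.2 2 / 2 - (z'.1 + 1 / 2 + max z'.2 2 / 2)| ≤ 3 / 2 := by
        have h6 : |max z.2 2 - max z'.2 2| ≤ 1 :=
          (abs_max_sub_max_le_max z.2 2 z'.2 2).trans (by simpa using h2)
        rw [abs_le] at h1 h6 ⊢
        constructor <;> linarith [h1.1, h1.2, h6.1, h6.2]
      have hpi : Real.pi < 4 := by have := Real.pi_lt_d2; linarith
      have h7 : Real.pi / p.n ≤ 4 / p.n := by
        apply div_le_div_of_nonneg_right hpi.le hn.le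
      have h8 : 0 < Real.pi / p.n := by have := Real.pi_pos; positivity
      calc Real.pi / p.n * |z.1 + 1 / 2 + max z.2 2 / 2 - (z'.1 + 1 / 2 + max z'.2 2 / 2)|
          ≤ Real.pi / p.n * (3 / 2) := mul_le_mul_of_nonneg_left h5 h8.le
        _ ≤ 4 / p.n * (3 / 2) := mul_le_mul_of_nonneg_right h7 (by norm_num)
        _ = 6 / p.n := by ring
    have h9 := p.rad_le_one z'.2
    have h10 := p.rad_nonneg _ h'
    have h11 : p.rad z'.2 * ‖om p.n (z.1 + 1 / 2 + max z.2 2 / 2) - B‖ ≤ 6 / p.n := by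
      refine le_trans ?_ h4
      exact mul_le_of_le_one_left (norm_nonneg _) h9
    have h12 : (62 : ℝ) / p.n = 56 / p.n + 6 / p.n := by ring
    rw [h12]
    linarith

theorem Qp_norm_le (z : ℝ × ℝ) (h : 1 - (p.N : ℝ) ≤ z.2) : ‖p.Qp z‖ ≤ 1 := by
  unfold Qp
  rw [Prod.norm_mk]
  refine max_le ?_ ?_
  · rw [Real.norm_eq_abs]; unfold wd; exact Real.abs_cos_le_one _
  · rw [norm_neg, norm_mul, om_norm, mul_one, Complex.norm_real, Real.norm_eq_abs,
      abs_of_nonneg (p.rad_nonneg _ h)]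
    exact p.rad_le_one _

theorem Qp_norm_ge (z : ℝ × ℝ) : 1 / 2 ≤ ‖p.Qp z‖ := by
  by_cases h2 : z.2 ≤ 2
  · refine le_trans ?_ (norm_fst_le _)
    show 1 / 2 ≤ ‖p.wd z.2‖
    rw [p.wd_le_two _ h2]
    have := p.c_ge
    rw [Real.norm_eq_abs]
    exact le_trans (by linarith) (le_abs_self _)
  · push Not at h2
    refine le_trans ?_ (norm_snd_le _)
    show 1 / 2 ≤ ‖-((p.rad z.2 : ℂ) * om p.n (z.1 + 1 / 2 + max z.2 2 / 2))‖
    rw [norm_neg, norm_mul, om_norm, mul_one, p.rad_ge_two _ h2.le]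
    norm_num

/-- scaling factor -/
noncomputable def sc (D : ℤ) : ℝ := if 2 ≤ D then 1 else p.c ^ 2

theorem sc_pos (D : ℤ) : 0 < p.sc D := by
  unfold sc
  split_ifs
  · norm_num
  · have := p.c_ge; positivity

theorem vtx_close (X D : ℤ) (hD : 1 - (p.N : ℤ) ≤ D) :
    ‖p.sc D • p.vtx X D - sq (p.Qp ((X : ℝ), (D : ℝ)))‖ ≤ 4 / p.n := by
  have hn := p.q_n_pos
  have hn8 := p.q_n_ge
  by_cases h : 2 ≤ D
  · have h' : (2 : ℝ) ≤ (D : ℝ) := by exact_mod_cast h
    rw [p.vtx_outer X D h, sc, if_pos h, one_smul]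
    have hQ : p.Qp ((X : ℝ), (D : ℝ)) = (Real.cos ((D : ℝ) * Real.pi / (2 * p.n)),
        -(om p.n ((X : ℝ) + 1 / 2 + (D : ℝ) / 2))) := by
      unfold Qp wd
      simp only
      rw [p.rad_ge_two _ h', max_eq_left h']
      simp
    rw [hQ]
    set w := Real.cos ((D : ℝ) * Real.pi / (2 * p.n)) with hw
    set u := om p.n ((X : ℝ) + 1 / 2 + (D : ℝ) / 2) with hu
    have hk0 := p.k_lt
    have hk1 := p.k_ge
    have hy : 1 - p.k ≤ 2 / p.n := by
      have h1 := kap_est p.n p.n_pos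
      have h2 : (2 : ℝ) / (p.n : ℝ) ^ 2 ≤ 2 / p.n := by
        apply div_le_div_of_nonneg_left (by norm_num) (by positivity)
        nlinarith
      have : 1 - p.k = 1 - kap p.n := rfl
      rw [this]; linarith
    have hm : u * conj u = 1 := by
      rw [Complex.mul_conj, Complex.normSq_eq_norm_sq, hu, om_norm]; norm_num
    have e1 : (vv p.n X (X + D)).1 - (sq ((w, -u) : P1)).1 = p.k ^ 2 - 1 := by
      rw [vv_fst]
      have h3 : Real.cos (Real.pi * ((X : ℝ) - ((X + D : ℤ) : ℝ)) / p.n) = 2 * w ^ 2 - 1 := by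
        rw [hw, ← Real.cos_two_mul, ← Real.cos_neg]
        congr 1; push_cast; field_simp; ring
      rw [h3]
      have h4 : (sq ((w, -u) : P1)).1 = w ^ 2 + 1 / 2 := by
        show w * w + (1 / 2) * (-u * conj (-u)).re = _
        rw [map_neg, neg_mul_neg, hm, Complex.one_re]; ring
      rw [h4]
      unfold k; ring
    have e2 : (vv p.n X (X + D)).2.1 - (sq ((w, -u) : P1)).2.1
        = (((1 - p.k) * (2 * w) : ℝ) : ℂ) * u := by
      rw [vv_snd1]
      have h5 : om p.n ((X : ℝ) + 1 / 2) = u * conj (om p.n ((D : ℝ) / 2)) := by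
        rw [om_conj, hu, ← om_add]; congr 1; ring
      have h6 : om p.n (((X + D : ℤ) : ℝ) + 1 / 2) = u * om p.n ((D : ℝ) / 2) := by
        rw [hu, ← om_add]; congr 1; push_cast; ring
      have h7 : om p.n ((D : ℝ) / 2) + conj (om p.n ((D : ℝ) / 2)) = 2 * (w : ℂ) := by
        rw [Complex.add_conj, om_re, hw]
        have : Real.pi * ((D : ℝ) / 2) / p.n = (D : ℝ) * Real.pi / (2 * p.n) := by
          field_simp
        rw [this]; push_cast; ring
      have h8 : (sq ((w, -u) : P1)).2.1 = -(2 * (w : ℂ) * u) := by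
        show (w : ℂ) * (-u) + (w : ℂ) * (-u) = _
        ring
      rw [h5, h6, h8]
      unfold k
      push_cast
      linear_combination (-(kap p.n : ℂ) * u) * h7
    have e3 : (vv p.n X (X + D)).2.2 - (sq ((w, -u) : P1)).2.2 = 0 := by
      rw [vv_snd2]
      have h9 : (sq ((w, -u) : P1)).2.2 = (1 / 2) * (u * u) := by
        show (1 / 2) * (-u * -u) = _
        ring
      rw [h9, hu, ← om_add, sub_eq_zero]
      congr 2; push_cast; ring
    have hw1 : |w| ≤ 1 := Real.abs_cos_le_one _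
    have hd4 : (4 : ℝ) / p.n = 2 * (2 / p.n) := by ring
    rw [Prod.norm_def, Prod.norm_def]
    refine max_le ?_ (max_le ?_ ?_)
    · show ‖(vv p.n X (X + D)).1 - (sq ((w, -u) : P1)).1‖ ≤ _
      rw [e1, Real.norm_eq_abs, abs_le, hd4]
      constructor <;> nlinarith
    · show ‖(vv p.n X (X + D)).2.1 - (sq ((w, -u) : P1)).2.1‖ ≤ _
      rw [e2, norm_mul, hu, om_norm, mul_one, Complex.norm_real, Real.norm_eq_abs, abs_mul, abs_mul,
        abs_of_pos (by linarith : 0 < 1 - p.k), hd4]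
      have : |(2 : ℝ)| = 2 := by norm_num
      rw [this]
      nlinarith [abs_nonneg w]
    · show ‖(vv p.n X (X + D)).2.2 - (sq ((w, -u) : P1)).2.2‖ ≤ _
      rw [e3, norm_zero]; positivity
  · push Not at h
    have h1 : D ≤ 1 := by omega
    have h1' : (D : ℝ) ≤ 1 := by exact_mod_cast h1
    rw [p.vtx_inner X D h1, sc, if_neg (by omega)]
    have hQ : p.Qp ((X : ℝ), (D : ℝ)) = p.c • ((1, -((p.rho D : ℂ) * om p.n ((X : ℝ) + 3 / 2))) : P1) := by
      unfold Qp
      refine Prod.ext ?_ ?_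
      · simp only [Prod.smul_fst, smul_eq_mul, mul_one]
        exact p.wd_le_two _ (by linarith)
      · simp only [Prod.smul_snd, Complex.real_smul]
        have h2 : p.rad (D : ℝ) = p.c * p.rho D := by
          unfold rad rho
          rw [min_eq_left h1', max_eq_left (by linarith : (D : ℝ) - 1 ≤ 0),
            min_eq_right (by norm_num : (0 : ℝ) ≤ 1)]
          ring
        rw [h2, max_eq_right (by linarith : (D : ℝ) ≤ 2)]
        rw [show (X : ℝ) + 1 / 2 + 2 / 2 = (X : ℝ) + 3 / 2 by ring]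
        push_cast; ring
    rw [hQ, sq_smul]
    have : p.rr X D = sq ((1, -((p.rho D : ℂ) * om p.n ((X : ℝ) + 3 / 2))) : P1) := rfl
    rw [this, sub_self, norm_zero]
    positivity

theorem wt_near (z : ℝ × ℝ) (a : ℤ × ℤ) (h : p.wt z a ≠ 0) :
    |z.1 - a.1| ≤ 1 ∧ |z.2 - a.2| ≤ 1 := by
  unfold wt at h
  split_ifs at h with h1
  · unfold hat at h
    have h2 : 0 < min (min (1 - |z.1 - a.1|) (1 - |z.2 - a.2|)) (1 - |z.1 - a.1 + (z.2 - a.2)|) := by
      by_contra hcon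
      push Not at hcon
      exact h (max_eq_left hcon)
    have h3 := (lt_min_iff.1 (lt_min_iff.1 h2).1)
    exact ⟨by linarith [h3.1], by linarith [h3.2]⟩
  · have h4 := mul_ne_zero_iff.1 h
    have h5 : ∀ t : ℝ, tent t ≠ 0 → |t| ≤ 1 := by
      intro t ht
      unfold tent at ht
      by_contra hcon
      push Not at hcon
      exact ht (max_eq_left (by linarith))
    exact ⟨h5 _ h4.1, h5 _ h4.2⟩

end Par

theorem C1_close {E : Type*} [NormedAddCommGroup E] [NormedSpace ℝ E] [FiniteDimensional ℝ E]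
    (b : P2 →ₗ[ℝ] E) (T : P2 →ₗ[ℝ] ℝ)
    (hpos : ∀ L : P1, L ≠ 0 → 0 < T (sq L)) (ε : ℝ) (hε : 0 < ε) :
    ∃ n0 N0 : ℕ, ∀ p : Par, n0 ≤ p.n → N0 ≤ p.N →
      (∀ v, p.IsVert v → 0 < T v) ∧
      ∀ z ∈ p.Z, ∀ a ∈ p.box, p.wt z a ≠ 0 →
        ‖(T (p.vtx a.1 a.2))⁻¹ • b (p.vtx a.1 a.2) - (T (sq (p.Qp z)))⁻¹ • b (sq (p.Qp z))‖ ≤ ε := by
  -- the compact annulus
  set K0 : Set P1 := {L | 1 / 2 ≤ ‖L‖ ∧ ‖L‖ ≤ 1} with hK0
  have hK0c : IsCompact K0 := by
    have h1 : K0 = Metric.closedBall 0 1 ∩ {L | 1 / 2 ≤ ‖L‖} := by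
      ext L
      simp only [hK0, Set.mem_inter_iff, Metric.mem_closedBall, dist_zero_right]
      exact And.comm
    rw [h1]
    exact (isCompact_closedBall 0 1).inter_right (isClosed_le continuous_const continuous_norm)
  have hKc : IsCompact (sq '' K0) := hK0c.image sq_continuous
  have hKT : ∀ y ∈ sq '' K0, 0 < T y := by
    rintro _ ⟨L, hL, rfl⟩
    apply hpos
    rintro rfl
    have := hL.1
    rw [norm_zero] at this
    norm_num at this
  obtain ⟨δ, hδ, hclose⟩ := quot_close b T _ hKc hKT ε hε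
  have huc : UniformContinuousOn (sq : P1 → P2) (Metric.closedBall 0 1) :=
    (isCompact_closedBall 0 1).uniformContinuousOn_of_continuous sq_continuous.continuousOn
  rw [Metric.uniformContinuousOn_iff] at huc
  obtain ⟨δ', hδ', huc'⟩ := huc (δ / 2) (by positivity)
  obtain ⟨n0, hn0⟩ := exists_nat_gt (max (8 / δ) (124 / δ'))
  obtain ⟨N0, hN0⟩ := exists_nat_gt (2 / δ')
  refine ⟨n0, N0, fun p hpn hpN => ?_⟩
  have hn := p.q_n_pos
  have hN : (0 : ℝ) < p.N := by have := p.q_N_ge; linarith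
  have hn1 : (4 : ℝ) / p.n < δ / 2 := by
    have h1 : 8 / δ < p.n := by
      have : (n0 : ℝ) ≤ p.n := by exact_mod_cast hpn
      exact ((le_max_left _ _).trans_lt hn0).trans_le this
    rw [div_lt_iff₀ hδ] at h1
    rw [div_lt_div_iff₀ hn (by norm_num)]
    linarith
  have hn2 : 1 / (p.N : ℝ) + 62 / p.n < δ' := by
    have h1 : 124 / δ' < p.n := by
      have : (n0 : ℝ) ≤ p.n := by exact_mod_cast hpn
      exact ((le_max_right _ _).trans_lt hn0).trans_le this
    have h2 : 2 / δ' < p.N := by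
      have : (N0 : ℝ) ≤ p.N := by exact_mod_cast hpN
      exact hN0.trans_le this
    rw [div_lt_iff₀ hδ'] at h1 h2
    have h3 : 1 / (p.N : ℝ) < δ' / 2 := by
      rw [div_lt_div_iff₀ hN (by norm_num)]; linarith
    have h4 : 62 / (p.n : ℝ) < δ' / 2 := by
      rw [div_lt_div_iff₀ hn (by norm_num)]; linarith
    linarith
  have hmem : ∀ z : ℝ × ℝ, 1 - (p.N : ℝ) ≤ z.2 → sq (p.Qp z) ∈ sq '' K0 := fun z hz =>
    ⟨p.Qp z, ⟨p.Qp_norm_ge z, p.Qp_norm_le z hz⟩, rfl⟩
  have key : ∀ (z : ℝ × ℝ) (X D : ℤ), 1 - (p.N : ℝ) ≤ z.2 → 1 - (p.N : ℤ) ≤ D →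
      |z.1 - X| ≤ 1 → |z.2 - D| ≤ 1 → 0 < T (p.vtx X D) ∧
      ‖(T (p.vtx X D))⁻¹ • b (p.vtx X D) - (T (sq (p.Qp z)))⁻¹ • b (sq (p.Qp z))‖ ≤ ε := by
    intro z X D hz hD h1 h2
    have hD' : 1 - (p.N : ℝ) ≤ (D : ℝ) := by exact_mod_cast hD
    have h3 := p.vtx_close X D hD
    have h4 := p.Qp_lip z ((X : ℝ), (D : ℝ)) hD' h1 h2
    have h5 := huc' (p.Qp z) (by
      rw [Metric.mem_closedBall, dist_zero_right]; exact p.Qp_norm_le z hz)
      (p.Qp ((X : ℝ), (D : ℝ))) (by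
      rw [Metric.mem_closedBall, dist_zero_right]; exact p.Qp_norm_le _ hD')
      (by rw [dist_eq_norm]; exact h4.trans_lt hn2)
    rw [dist_eq_norm, norm_sub_rev] at h5
    have h6 : ‖p.sc D • p.vtx X D - sq (p.Qp z)‖ < δ := by
      have e : p.sc D • p.vtx X D - sq (p.Qp z) = (p.sc D • p.vtx X D - sq (p.Qp ((X : ℝ), (D : ℝ))))
          + (sq (p.Qp ((X : ℝ), (D : ℝ))) - sq (p.Qp z)) := by abel
      rw [e]
      refine (norm_add_le _ _).trans_lt ?_
      linarith
    obtain ⟨h7, h8⟩ := hclose _ (hmem z hz) _ h6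
    have hs := p.sc_pos D
    rw [map_smul, smul_eq_mul] at h7
    have h9 : 0 < T (p.vtx X D) := (pos_iff_pos_of_mul_pos h7).1 hs
    refine ⟨h9, ?_⟩
    rw [map_smul, map_smul, smul_eq_mul, smul_smul] at h8
    have e : (p.sc D * T (p.vtx X D))⁻¹ * p.sc D = (T (p.vtx X D))⁻¹ := by
      field_simp
    rwa [e] at h8
  constructor
  · rintro v ⟨X, D, hD, -, rfl⟩
    have hD' : 1 - (p.N : ℝ) ≤ (D : ℝ) := by exact_mod_cast hD
    exact (key ((X : ℝ), (D : ℝ)) X D hD' hD (by simp) (by simp)).1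
  · intro z hz a ha hw
    obtain ⟨h1, h2⟩ := p.wt_near z a hw
    have ha' : 1 - (p.N : ℤ) ≤ a.2 := by
      unfold Par.box at ha
      rw [Finset.mem_product, Finset.mem_Icc, Finset.mem_Icc] at ha
      exact ha.2.1
    exact (key z a.1 a.2 hz.2.2.1 ha' h1 h2).2

end Pool.Agent.Helper576.VA
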