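import Pool.Agent.Helper576.VI

set_option autoImplicit false

/-! Lattice hat weights for MP_c8c16f_gt: stubs P1..P8. -/

namespace Pool.Agent.Helper576.VBP

open Pool.Agent.Helper576.VA

theorem tent_nonneg (t : ℝ) : 0 ≤ tent t := le_max_left _ _

theorem hat_nonneg (s t : ℝ) : 0 ≤ hat s t := le_max_left _ _

theorem tent_ne {t : ℝ} (h : tent t ≠ 0) : |t| < 1 := by
  by_contra hc
  push Not at hc
  exact h (max_eq_left (by linarith))

theorem hat_ne {s t : ℝ} (h : hat s t ≠ 0) : |s| < 1 ∧ |t| < 1 ∧ |s + t| < 1 := by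
  refine ⟨?_, ?_, ?_⟩ <;>
  · by_contra hc
    push Not at hc
    apply h
    apply max_eq_left
    first
      | exact (min_le_left _ _).trans ((min_le_left _ _).trans (by linarith))
      | exact (min_le_left _ _).trans ((min_le_right _ _).trans (by linarith))
      | exact (min_le_right _ _).trans (by linarith)

theorem tent0 {s : ℝ} (h0 : 0 ≤ s) (h1 : s ≤ 1) : tent s = 1 - s := by
  unfold tent
  rw [abs_of_nonneg h0, max_eq_right (by linarith)]

theorem tent1 {s : ℝ} (h0 : 0 ≤ s) (h1 : s ≤ 1) : tent (s - 1) = s := by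
  unfold tent
  rw [abs_of_nonpos (by linarith), max_eq_right (by linarith)]; ring

theorem hat00 {s t : ℝ} (h0 : 0 ≤ s) (h1 : s ≤ 1) (g0 : 0 ≤ t) (g1 : t ≤ 1) :
    hat s t = max 0 (1 - s - t) := by
  unfold hat
  rw [abs_of_nonneg h0, abs_of_nonneg g0, abs_of_nonneg (by linarith : (0:ℝ) ≤ s + t),
    min_eq_right (a := min (1 - s) (1 - t)) (le_min (by linarith) (by linarith))]
  congr 1; ring

theorem hat11 {s t : ℝ} (h0 : 0 ≤ s) (h1 : s ≤ 1) (g0 : 0 ≤ t) (g1 : t ≤ 1) :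
    hat (s - 1) (t - 1) = max 0 (s + t - 1) := by
  unfold hat
  rw [abs_of_nonpos (by linarith : s - 1 ≤ 0), abs_of_nonpos (by linarith : t - 1 ≤ 0),
    abs_of_nonpos (by linarith : s - 1 + (t - 1) ≤ 0),
    min_eq_right (a := min _ _) (le_min (by linarith) (by linarith))]
  congr 1; ring

theorem hat10 {s t : ℝ} (h0 : 0 ≤ s) (h1 : s ≤ 1) (g0 : 0 ≤ t) (g1 : t ≤ 1) :
    hat (s - 1) t = min s (1 - t) := by
  unfold hat
  rw [abs_of_nonpos (by linarith : s - 1 ≤ 0), abs_of_nonneg g0]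
  have e : min (min (1 - -(s - 1)) (1 - t)) (1 - |s - 1 + t|) = min s (1 - t) := by
    rw [show 1 - -(s - 1) = s by ring]
    apply min_eq_left
    rcases le_total (s - 1 + t) 0 with h | h
    · rw [abs_of_nonpos h]
      exact (min_le_left _ _).trans (by linarith)
    · rw [abs_of_nonneg h]
      exact (min_le_right _ _).trans (by linarith)
  rw [e, max_eq_right (le_min h0 (by linarith))]

theorem hat01 {s t : ℝ} (h0 : 0 ≤ s) (h1 : s ≤ 1) (g0 : 0 ≤ t) (g1 : t ≤ 1) :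
    hat s (t - 1) = min t (1 - s) := by
  unfold hat
  rw [abs_of_nonpos (by linarith : t - 1 ≤ 0), abs_of_nonneg h0]
  have e : min (min (1 - s) (1 - -(t - 1))) (1 - |s + (t - 1)|) = min t (1 - s) := by
    rw [show 1 - -(t - 1) = t by ring, min_comm (1 - s) t]
    apply min_eq_left
    rcases le_total (s + (t - 1)) 0 with h | h
    · rw [abs_of_nonpos h]
      exact (min_le_left _ _).trans (by linarith)
    · rw [abs_of_nonneg h]
      exact (min_le_right _ _).trans (by linarith)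
  rw [e, max_eq_right (le_min g0 (by linarith))]

variable (p : Par)

theorem P1_wt_nonneg (z : ℝ × ℝ) (a : ℤ × ℤ) : 0 ≤ p.wt z a := by
  unfold Par.wt
  split_ifs
  · exact hat_nonneg _ _
  · exact mul_nonneg (tent_nonneg _) (tent_nonneg _)

theorem wt_ne {z : ℝ × ℝ} {a : ℤ × ℤ} (h : p.wt z a ≠ 0) : |z.1 - a.1| < 1 ∧ |z.2 - a.2| < 1 := by
  unfold Par.wt at h
  split_ifs at h
  · exact ⟨(hat_ne h).1, (hat_ne h).2.1⟩
  · exact ⟨tent_ne (left_ne_zero_of_mul h), tent_ne (right_ne_zero_of_mul h)⟩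

theorem P3_wt_box (z : ℝ × ℝ) (hz : z ∈ p.Z) (a : ℤ × ℤ) (ha : p.wt z a ≠ 0) :
    a ∈ p.box := by
  obtain ⟨h1, h2, h3, h4⟩ := hz
  obtain ⟨g1, g2⟩ := wt_ne p ha
  rw [abs_lt] at g1 g2
  unfold Par.box
  rw [Finset.mem_product, Finset.mem_Icc, Finset.mem_Icc]
  refine ⟨⟨?_, ?_⟩, ?_, ?_⟩
  · have : (-1 : ℝ) < a.1 := by linarith
    have : (-1 : ℤ) < a.1 := by exact_mod_cast this
    omega
  · have : (a.1 : ℝ) < 2 * p.n + 1 := by linarith
    have : a.1 < 2 * (p.n : ℤ) + 1 := by exact_mod_cast this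
    omega
  · have : (-(p.N : ℝ)) < a.2 := by linarith
    have : (-(p.N : ℤ)) < a.2 := by exact_mod_cast this
    omega
  · have : (a.2 : ℝ) < p.n + 1 := by linarith
    have : a.2 < (p.n : ℤ) + 1 := by exact_mod_cast this
    omega

theorem near {x : ℝ} {X a : ℤ} (h0 : (X : ℝ) ≤ x) (h1 : x ≤ X + 1) (h : |x - a| < 1) :
    a = X ∨ a = X + 1 := by
  rw [abs_lt] at h
  have h2 : ((X - 1 : ℤ) : ℝ) < a := by push_cast; linarith
  have h3 : (a : ℝ) < ((X + 2 : ℤ) : ℝ) := by push_cast; linarith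
  have h2' : X - 1 < a := by exact_mod_cast h2
  have h3' : a < X + 2 := by exact_mod_cast h3
  omega

/-- local formula for the weighted sum -/
theorem loc {E : Type*} [AddCommGroup E] [Module ℝ E] (F : ℤ × ℤ → E) (z : ℝ × ℝ) (hz : z ∈ p.Z)
    (X D : ℤ) (hX : (X : ℝ) ≤ z.1) (hX' : z.1 ≤ X + 1) (hD : (D : ℝ) ≤ z.2) (hD' : z.2 ≤ D + 1) :
    ∑ a ∈ p.box, p.wt z a • F a = p.wt z (X, D) • F (X, D) + p.wt z (X + 1, D) • F (X + 1, D)
      + p.wt z (X, D + 1) • F (X, D + 1) + p.wt z (X + 1, D + 1) • F (X + 1, D + 1) := by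
  classical
  set S : Finset (ℤ × ℤ) := {(X, D), (X + 1, D), (X, D + 1), (X + 1, D + 1)} with hS
  have hsupp : ∀ a, p.wt z a ≠ 0 → a ∈ S := by
    intro a ha
    obtain ⟨g1, g2⟩ := wt_ne p ha
    obtain ⟨a1, a2⟩ := a
    rw [hS]
    simp only [Finset.mem_insert, Finset.mem_singleton, Prod.mk.injEq]
    rcases near hX hX' g1 with h | h <;> rcases near hD hD' g2 with h' | h' <;>
      simp only at h h' <;> simp [h, h']
  have e1 : ∑ a ∈ p.box, p.wt z a • F a = ∑ a ∈ p.box ∪ S, p.wt z a • F a := by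
    apply Finset.sum_subset Finset.subset_union_left
    intro a _ ha
    by_cases h : p.wt z a = 0
    · rw [h, zero_smul]
    · exact absurd (P3_wt_box p z hz a h) ha
  have e2 : ∑ a ∈ S, p.wt z a • F a = ∑ a ∈ p.box ∪ S, p.wt z a • F a := by
    apply Finset.sum_subset Finset.subset_union_right
    intro a _ ha
    by_cases h : p.wt z a = 0
    · rw [h, zero_smul]
    · exact absurd (hsupp a h) ha
  rw [e1, ← e2, hS, Finset.sum_insert, Finset.sum_insert, Finset.sum_insert, Finset.sum_singleton]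
  · abel
  · simp
  · simp
  · simp

/-- weights in the triangulated part -/
theorem wt_hi (z : ℝ × ℝ) (X D : ℤ) (hX : (X : ℝ) ≤ z.1) (hX' : z.1 ≤ X + 1)
    (hD : (D : ℝ) ≤ z.2) (hD' : z.2 ≤ D + 1) (h : 2 - (p.N : ℝ) ≤ z.2) :
    p.wt z (X, D) = max 0 (1 - (z.1 - X) - (z.2 - D)) ∧
    p.wt z (X + 1, D) = min (z.1 - X) (1 - (z.2 - D)) ∧
    p.wt z (X, D + 1) = min (z.2 - D) (1 - (z.1 - X)) ∧
    p.wt z (X + 1, D + 1) = max 0 ((z.1 - X) + (z.2 - D) - 1) := by
  have a1 : (0:ℝ) ≤ z.1 - X := by linarith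
  have a2 : z.1 - X ≤ 1 := by linarith
  have a3 : (0:ℝ) ≤ z.2 - D := by linarith
  have a4 : z.2 - D ≤ 1 := by linarith
  unfold Par.wt
  rw [if_pos h, if_pos h, if_pos h, if_pos h]
  push_cast
  rw [← sub_sub z.1, ← sub_sub z.2]
  exact ⟨hat00 a1 a2 a3 a4, hat10 a1 a2 a3 a4, hat01 a1 a2 a3 a4, hat11 a1 a2 a3 a4⟩

/-- weights in the innermost part -/
theorem wt_lo (z : ℝ × ℝ) (X D : ℤ) (hX : (X : ℝ) ≤ z.1) (hX' : z.1 ≤ X + 1)
    (hD : (D : ℝ) ≤ z.2) (hD' : z.2 ≤ D + 1) (h : z.2 < 2 - (p.N : ℝ)) :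
    p.wt z (X, D) = (1 - (z.1 - X)) * (1 - (z.2 - D)) ∧
    p.wt z (X + 1, D) = (z.1 - X) * (1 - (z.2 - D)) ∧
    p.wt z (X, D + 1) = (1 - (z.1 - X)) * (z.2 - D) ∧
    p.wt z (X + 1, D + 1) = (z.1 - X) * (z.2 - D) := by
  have a1 : (0:ℝ) ≤ z.1 - X := by linarith
  have a2 : z.1 - X ≤ 1 := by linarith
  have a3 : (0:ℝ) ≤ z.2 - D := by linarith
  have a4 : z.2 - D ≤ 1 := by linarith
  unfold Par.wt
  rw [if_neg (not_le.mpr h), if_neg (not_le.mpr h), if_neg (not_le.mpr h), if_neg (not_le.mpr h)]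
  push_cast
  rw [← sub_sub z.1, ← sub_sub z.2, tent0 a1 a2, tent0 a3 a4, tent1 a1 a2, tent1 a3 a4]
  exact ⟨rfl, rfl, rfl, rfl⟩

/-- a cell containing `z` -/
theorem exists_cell (z : ℝ × ℝ) (hz : z ∈ p.Z) : ∃ X D : ℤ, (X : ℝ) ≤ z.1 ∧ z.1 ≤ X + 1 ∧
    (D : ℝ) ≤ z.2 ∧ z.2 ≤ D + 1 ∧ 1 - (p.N : ℤ) ≤ D ∧ D + 1 ≤ p.n ∧
    (2 - (p.N : ℝ) ≤ z.2 ∨ D = 1 - (p.N : ℤ)) := by
  obtain ⟨h1, h2, h3, h4⟩ := hz
  by_cases h : z.2 = p.n
  · refine ⟨⌊z.1⌋, p.n - 1, Int.floor_le _, (Int.lt_floor_add_one _).le, ?_, ?_, ?_, ?_, ?_⟩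
    · push_cast; linarith
    · push_cast; linarith
    · have := p.hn; have := p.hN; omega
    · omega
    · left
      have a : (8 : ℝ) ≤ p.n := by exact_mod_cast p.hn
      have b : (3 : ℝ) ≤ p.N := by exact_mod_cast p.hN
      linarith
  · refine ⟨⌊z.1⌋, ⌊z.2⌋, Int.floor_le _, (Int.lt_floor_add_one _).le, Int.floor_le _,
      (Int.lt_floor_add_one _).le, ?_, ?_, ?_⟩
    · apply Int.le_floor.mpr; push_cast; exact h3
    · have : z.2 < p.n := lt_of_le_of_ne h4 h
      have : ⌊z.2⌋ < (p.n : ℤ) := Int.floor_lt.mpr (by exact_mod_cast this)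
      omega
    · by_cases hh : 2 - (p.N : ℝ) ≤ z.2
      · left; exact hh
      · right
        push Not at hh
        apply Int.floor_eq_iff.mpr
        push_cast
        exact ⟨h3, by linarith⟩

theorem P2_wt_supp (z : ℝ × ℝ) (hz : z ∈ p.Z) : ∃ X D : ℤ, 1 - (p.N : ℤ) ≤ D ∧ D + 1 ≤ p.n ∧
    ((∀ a, p.wt z a ≠ 0 → a = (X, D) ∨ a = (X + 1, D) ∨ a = (X, D + 1)) ∨
      (∀ a, p.wt z a ≠ 0 → a = (X + 1, D) ∨ a = (X, D + 1) ∨ a = (X + 1, D + 1)) ∨
      (D = 1 - (p.N : ℤ) ∧ ∀ a, p.wt z a ≠ 0 → a = (X, D) ∨ a = (X + 1, D) ∨ a = (X, D + 1) ∨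
        a = (X + 1, D + 1))) := by
  obtain ⟨X, D, hX, hX', hD, hD', hD1, hD2, hc⟩ := exists_cell p z hz
  have hs : ∀ a, p.wt z a ≠ 0 → a = (X, D) ∨ a = (X + 1, D) ∨ a = (X, D + 1) ∨
        a = (X + 1, D + 1) := by
    intro a ha
    obtain ⟨g1, g2⟩ := wt_ne p ha
    obtain ⟨a1, a2⟩ := a
    simp only [Prod.mk.injEq]
    rcases near hX hX' g1 with h | h <;> rcases near hD hD' g2 with h' | h' <;>
      simp only at h h' <;> simp [h, h']
  refine ⟨X, D, hD1, hD2, ?_⟩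
  rcases hc with hc | hc
  · obtain ⟨w1, w2, w3, w4⟩ := wt_hi p z X D hX hX' hD hD' hc
    rcases le_total ((z.1 - X) + (z.2 - D)) 1 with h | h
    · left
      intro a ha
      rcases hs a ha with e | e | e | e
      · exact Or.inl e
      · exact Or.inr (Or.inl e)
      · exact Or.inr (Or.inr e)
      · exfalso; apply ha; rw [e, w4]; exact max_eq_left (by linarith)
    · right; left
      intro a ha
      rcases hs a ha with e | e | e | e
      · exfalso; apply ha; rw [e, w1]; exact max_eq_left (by linarith)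
      · exact Or.inl e
      · exact Or.inr (Or.inl e)
      · exact Or.inr (Or.inr e)
  · right; right
    exact ⟨hc, hs⟩

/-- row masses and linear precision in one cell -/
theorem cell_rows (z : ℝ × ℝ) (X D : ℤ) (hX : (X : ℝ) ≤ z.1) (hX' : z.1 ≤ X + 1)
    (hD : (D : ℝ) ≤ z.2) (hD' : z.2 ≤ D + 1) :
    p.wt z (X, D) + p.wt z (X + 1, D) = 1 - (z.2 - D) ∧
    p.wt z (X, D + 1) + p.wt z (X + 1, D + 1) = z.2 - D ∧
    p.wt z (X + 1, D) + p.wt z (X + 1, D + 1) = z.1 - X := by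
  rcases le_or_gt (2 - (p.N : ℝ)) z.2 with h | h
  · obtain ⟨w1, w2, w3, w4⟩ := wt_hi p z X D hX hX' hD hD' h
    rw [w1, w2, w3, w4]
    rcases le_total ((z.1 - X) + (z.2 - D)) 1 with h | h
    · rw [max_eq_right (by linarith), min_eq_left (by linarith), min_eq_left (by linarith),
        max_eq_left (by linarith)]
      refine ⟨by ring, by ring, by ring⟩
    · rw [max_eq_left (by linarith), min_eq_right (by linarith), min_eq_right (by linarith),
        max_eq_right (by linarith)]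
      refine ⟨by ring, by ring, by ring⟩
  · obtain ⟨w1, w2, w3, w4⟩ := wt_lo p z X D hX hX' hD hD' h
    rw [w1, w2, w3, w4]
    refine ⟨by ring, by ring, by ring⟩

theorem P4_wt_sum (z : ℝ × ℝ) (hz : z ∈ p.Z) : ∑ a ∈ p.box, p.wt z a = 1 := by
  obtain ⟨X, D, hX, hX', hD, hD', hD1, hD2, hc⟩ := exists_cell p z hz
  have e := loc p (fun _ => (1 : ℝ)) z hz X D hX hX' hD hD'
  simp only [smul_eq_mul, mul_one] at e
  obtain ⟨r1, r2, r3⟩ := cell_rows p z X D hX hX' hD hD'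
  rw [e]; linarith

theorem tent_continuous : Continuous tent := by
  unfold tent; fun_prop

theorem hat_continuous : Continuous (fun z : ℝ × ℝ => hat z.1 z.2) := by
  unfold hat; fun_prop

theorem hat_int (s : ℝ) (k : ℤ) : hat s k = tent s * tent k := by
  rcases lt_trichotomy k 0 with h | h | h
  · have h1 : (k : ℝ) ≤ -1 := by
      have : k ≤ -1 := by omega
      exact_mod_cast this
    have h2 : tent (k : ℝ) = 0 := by
      unfold tent; rw [abs_of_nonpos (by linarith)]; exact max_eq_left (by linarith)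
    rw [h2, mul_zero]
    unfold hat
    apply max_eq_left
    refine (min_le_left _ _).trans ((min_le_right _ _).trans ?_)
    rw [abs_of_nonpos (by linarith : (k:ℝ) ≤ 0)]; linarith
  · subst h
    unfold hat tent
    simp only [Int.cast_zero, abs_zero, add_zero, sub_zero, mul_one]
    rw [min_eq_left (a := 1 - |s|) (b := 1) (by linarith [abs_nonneg s]), min_self,
      max_eq_right (a := (0:ℝ)) (b := 1) zero_le_one, mul_one]
  · have h1 : (1 : ℝ) ≤ k := by
      have : 1 ≤ k := by omega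
      exact_mod_cast this
    have h2 : tent (k : ℝ) = 0 := by
      unfold tent; rw [abs_of_nonneg (by linarith)]; exact max_eq_left (by linarith)
    rw [h2, mul_zero]
    unfold hat
    apply max_eq_left
    refine (min_le_left _ _).trans ((min_le_right _ _).trans ?_)
    rw [abs_of_nonneg (by linarith : (0:ℝ) ≤ k)]; linarith

theorem wt_continuous (a : ℤ × ℤ) : Continuous (fun z => p.wt z a) := by
  unfold Par.wt
  apply Continuous.if_le
  · exact hat_continuous.comp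
      ((continuous_fst.sub continuous_const).prodMk (continuous_snd.sub continuous_const))
  · exact (tent_continuous.comp (continuous_fst.sub continuous_const)).mul
      (tent_continuous.comp (continuous_snd.sub continuous_const))
  · exact continuous_const
  · exact continuous_snd
  · intro z hz
    rw [← hz]
    have : (2 - (p.N : ℝ) - a.2) = ((2 - (p.N : ℤ) - a.2 : ℤ) : ℝ) := by push_cast; ring
    rw [this, hat_int]

theorem P5_continuous {E : Type*} [NormedAddCommGroup E] [NormedSpace ℝ E] (F : ℤ × ℤ → E) :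
    ContinuousOn (fun z => ∑ a ∈ p.box, p.wt z a • F a) p.Z := by
  apply Continuous.continuousOn
  exact continuous_finsetSum _ (fun a _ => (wt_continuous p a).smul continuous_const)

end Pool.Agent.Helper576.VBP
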