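import Pool.Agent.Helper576.VBP

set_option autoImplicit false

/-! Lattice hat weights for MP_c8c16f_gt: P6, P7, P8. -/

namespace Pool.Agent.Helper576.VBP

open Pool.Agent.Helper576.VA

variable (p : Par)

theorem wt_shift (z z' : ℝ × ℝ) (a b : ℤ × ℤ) (h2 : z.2 = z'.2) (hb : a.2 = b.2)
    (h1 : z'.1 - b.1 = z.1 - a.1) : p.wt z a = p.wt z' b := by
  unfold Par.wt
  rw [h1, ← h2, hb]

theorem P6_periodic {E : Type*} [AddCommGroup E] [Module ℝ E] (F : ℤ × ℤ → E)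
    (hF : ∀ a b, p.Eqv a b → F a = F b) (z z' : ℝ × ℝ) (hz : z ∈ p.Z) (hz' : z' ∈ p.Z)
    (h : p.ZEqv z z') : ∑ a ∈ p.box, p.wt z a • F a = ∑ a ∈ p.box, p.wt z' a • F a := by
  obtain ⟨h2, h⟩ := h
  rcases h with h | ⟨k, hk⟩ | ⟨hn, k, hk⟩
  · -- centre
    have key : ∀ y : ℝ × ℝ, y ∈ p.Z → y.2 = 1 - (p.N : ℝ) →
        ∑ a ∈ p.box, p.wt y a • F a = F (0, 1 - (p.N : ℤ)) := by
      intro y hy hy2
      have hX : ((⌊y.1⌋ : ℤ) : ℝ) ≤ y.1 := Int.floor_le _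
      have hX' : y.1 ≤ (⌊y.1⌋ : ℤ) + 1 := (Int.lt_floor_add_one _).le
      have hD : ((1 - (p.N : ℤ) : ℤ) : ℝ) ≤ y.2 := by push_cast; linarith
      have hD' : y.2 ≤ ((1 - (p.N : ℤ) : ℤ) : ℝ) + 1 := by push_cast; linarith
      rw [loc p F y hy _ _ hX hX' hD hD']
      obtain ⟨r1, r2, r3⟩ := cell_rows p y _ _ hX hX' hD hD'
      have n3 := P1_wt_nonneg p y (⌊y.1⌋, 1 - (p.N : ℤ) + 1)
      have n4 := P1_wt_nonneg p y (⌊y.1⌋ + 1, 1 - (p.N : ℤ) + 1)
      have e0 : y.2 - ((1 - (p.N : ℤ) : ℤ) : ℝ) = 0 := by push_cast; linarith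
      rw [e0] at r1 r2
      have z3 : p.wt y (⌊y.1⌋, 1 - (p.N : ℤ) + 1) = 0 := by linarith
      have z4 : p.wt y (⌊y.1⌋ + 1, 1 - (p.N : ℤ) + 1) = 0 := by linarith
      rw [z3, z4, zero_smul, zero_smul, add_zero, add_zero,
        hF (⌊y.1⌋, 1 - (p.N : ℤ)) (0, 1 - (p.N : ℤ)) ⟨rfl, Or.inl rfl⟩,
        hF (⌊y.1⌋ + 1, 1 - (p.N : ℤ)) (0, 1 - (p.N : ℤ)) ⟨rfl, Or.inl rfl⟩, ← add_smul, r1,
        sub_zero, one_smul]
    rw [key z hz h, key z' hz' (h2 ▸ h)]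
  · obtain ⟨X, D, hX, hX', hD, hD', hD1, hD2, hc⟩ := exists_cell p z hz
    have e : z'.1 = z.1 + 2 * p.n * k := by linarith
    rw [loc p F z hz X D hX hX' hD hD', loc p F z' hz' (X + 2 * p.n * k) D
      (by push_cast; linarith) (by push_cast; linarith) (h2 ▸ hD) (h2 ▸ hD')]
    have hf : ∀ R : ℤ, ∀ i : ℤ, F (X + i, R) = F (X + 2 * p.n * k + i, R) := by
      intro R i
      refine hF _ _ ⟨rfl, Or.inr (Or.inl ⟨k, ?_⟩)⟩
      simp only; ring
    have f0 := hf D 0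
    have f1 := hf D 1
    have f2 := hf (D + 1) 0
    have f3 := hf (D + 1) 1
    rw [add_zero, add_zero] at f0 f2
    rw [f0, f1, f2, f3,
      wt_shift p z z' (X, D) (X + 2 * p.n * k, D) h2 rfl (by push_cast; linarith),
      wt_shift p z z' (X + 1, D) (X + 2 * p.n * k + 1, D) h2 rfl (by push_cast; linarith),
      wt_shift p z z' (X, D + 1) (X + 2 * p.n * k, D + 1) h2 rfl (by push_cast; linarith),
      wt_shift p z z' (X + 1, D + 1) (X + 2 * p.n * k + 1, D + 1) h2 rfl (by push_cast; linarith)]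
  · have e : z'.1 = z.1 + p.n * k := by linarith
    have hX : ((⌊z.1⌋ : ℤ) : ℝ) ≤ z.1 := Int.floor_le _
    have hX' : z.1 ≤ (⌊z.1⌋ : ℤ) + 1 := (Int.lt_floor_add_one _).le
    have hD : (((p.n : ℤ) - 1 : ℤ) : ℝ) ≤ z.2 := by push_cast; linarith
    have hD' : z.2 ≤ (((p.n : ℤ) - 1 : ℤ) : ℝ) + 1 := by push_cast; linarith
    generalize ⌊z.1⌋ = X at hX hX'
    have gX : ((X + p.n * k : ℤ) : ℝ) ≤ z'.1 := by push_cast; linarith
    have gX' : z'.1 ≤ ((X + p.n * k : ℤ) : ℝ) + 1 := by push_cast; linarith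
    have gD : (((p.n : ℤ) - 1 : ℤ) : ℝ) ≤ z'.2 := h2 ▸ hD
    have gD' : z'.2 ≤ (((p.n : ℤ) - 1 : ℤ) : ℝ) + 1 := h2 ▸ hD'
    rw [loc p F z hz X _ hX hX' hD hD', loc p F z' hz' _ _ gX gX' gD gD']
    obtain ⟨r1, r2, r3⟩ := cell_rows p z _ _ hX hX' hD hD'
    obtain ⟨s1, s2, s3⟩ := cell_rows p z' _ _ gX gX' gD gD'
    have n1 := P1_wt_nonneg p z (X, (p.n : ℤ) - 1)
    have n2 := P1_wt_nonneg p z (X + 1, (p.n : ℤ) - 1)
    have m1 := P1_wt_nonneg p z' (X + p.n * k, (p.n : ℤ) - 1)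
    have m2 := P1_wt_nonneg p z' (X + p.n * k + 1, (p.n : ℤ) - 1)
    have e0 : z.2 - (((p.n : ℤ) - 1 : ℤ) : ℝ) = 1 := by push_cast; linarith
    have e0' : z'.2 - (((p.n : ℤ) - 1 : ℤ) : ℝ) = 1 := by rw [← h2]; exact e0
    rw [e0] at r1
    rw [e0'] at s1
    have z1 : p.wt z (X, (p.n : ℤ) - 1) = 0 := by linarith
    have z2 : p.wt z (X + 1, (p.n : ℤ) - 1) = 0 := by linarith
    have z3 : p.wt z' (X + p.n * k, (p.n : ℤ) - 1) = 0 := by linarith
    have z4 : p.wt z' (X + p.n * k + 1, (p.n : ℤ) - 1) = 0 := by linarith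
    rw [z1, z2, z3, z4]
    simp only [zero_smul, zero_add]
    have hf : ∀ i : ℤ, F (X + i, (p.n : ℤ) - 1 + 1) = F (X + p.n * k + i, (p.n : ℤ) - 1 + 1) := by
      intro i
      refine hF _ _ ⟨rfl, Or.inr (Or.inr ⟨by simp, ⟨k, ?_⟩⟩)⟩
      simp only; ring
    have f0 := hf 0
    have f1 := hf 1
    rw [add_zero, add_zero] at f0
    rw [f0, f1,
      wt_shift p z z' (X, (p.n : ℤ) - 1 + 1) (X + p.n * k, (p.n : ℤ) - 1 + 1) h2 rfl
        (by push_cast; linarith),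
      wt_shift p z z' (X + 1, (p.n : ℤ) - 1 + 1) (X + p.n * k + 1, (p.n : ℤ) - 1 + 1) h2 rfl
        (by push_cast; linarith)]

/-- a measure on two consecutive classes modulo `m ≥ 3` determines its barycentre modulo `m` -/
theorem row_lemma (m : ℤ) (hm : 3 ≤ m) (X X' : ℤ) (α β α' β' μ : ℝ)
    (hα : 0 ≤ α) (hβ : 0 ≤ β) (hα' : 0 ≤ α') (hβ' : 0 ≤ β') (hμ : 0 < μ) (h1 : α + β = μ)
    (h2 : α' + β' = μ)
    (h : ∀ G : ℤ → ℝ, (∀ a b : ℤ, m ∣ b - a → G a = G b) →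
      α * G X + β * G (X + 1) = α' * G X' + β' * G (X' + 1)) :
    ∃ k : ℤ, μ * ((X' : ℝ) - X - m * k) = β - β' := by
  classical
  have per : ∀ Y : ℤ, ∀ a b : ℤ, m ∣ b - a →
      (if m ∣ a - Y then (1:ℝ) else 0) = (if m ∣ b - Y then (1:ℝ) else 0) := by
    intro Y a b hab
    have : m ∣ a - Y ↔ m ∣ b - Y := by
      constructor
      · intro hh
        have := dvd_add hab hh
        rwa [show b - a + (a - Y) = b - Y by ring] at this
      · intro hh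
        have := dvd_sub hh hab
        rwa [show b - Y - (b - a) = a - Y by ring] at this
    simp only [this]
  have G1 := h (fun a => if m ∣ a - X then (1:ℝ) else 0) (per X)
  have G2 := h (fun a => if m ∣ a - (X + 1) then (1:ℝ) else 0) (per (X + 1))
  have nd1 : ¬ m ∣ 1 := fun hh => by have := Int.le_of_dvd one_pos hh; omega
  have nd2 : ¬ m ∣ 2 := fun hh => by have := Int.le_of_dvd two_pos hh; omega
  have d0 : m ∣ X - X := by simp
  have d1 : ¬ m ∣ X + 1 - X := by rwa [show X + 1 - X = 1 by ring]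
  have d2 : ¬ m ∣ X - (X + 1) := by
    rw [show X - (X + 1) = -1 by ring, dvd_neg]; exact nd1
  have d3 : m ∣ X + 1 - (X + 1) := by simp
  rw [if_pos d0, if_neg d1] at G1
  rw [if_neg d2, if_pos d3] at G2
  by_cases ha : m ∣ X' - X
  · have hb : ¬ m ∣ X' + 1 - X := fun hh => nd1 (by
      have := dvd_sub hh ha
      rwa [show X' + 1 - X - (X' - X) = 1 by ring] at this)
    have hc : ¬ m ∣ X' - (X + 1) := fun hh => nd1 (by
      have := dvd_sub ha hh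
      rwa [show X' - X - (X' - (X + 1)) = 1 by ring] at this)
    have hd : m ∣ X' + 1 - (X + 1) := by rwa [show X' + 1 - (X + 1) = X' - X by ring]
    rw [if_pos ha, if_neg hb] at G1
    rw [if_neg hc, if_pos hd] at G2
    obtain ⟨k, hk⟩ := ha
    refine ⟨k, ?_⟩
    have : (X' : ℝ) - X = m * k := by exact_mod_cast hk
    rw [this]; linarith
  · have hd : ¬ m ∣ X' + 1 - (X + 1) := by rwa [show X' + 1 - (X + 1) = X' - X by ring]
    rw [if_neg ha] at G1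
    rw [if_neg hd] at G2
    by_cases hb : m ∣ X' + 1 - X
    · have hc : ¬ m ∣ X' - (X + 1) := fun hh => nd2 (by
        have := dvd_sub hb hh
        rwa [show X' + 1 - X - (X' - (X + 1)) = 2 by ring] at this)
      rw [if_pos hb] at G1
      rw [if_neg hc] at G2
      obtain ⟨k, hk⟩ := hb
      refine ⟨k, ?_⟩
      have : (X' : ℝ) + 1 - X = m * k := by exact_mod_cast hk
      have e : (X' : ℝ) - X - m * k = -1 := by linarith
      rw [e]; linarith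
    · rw [if_neg hb] at G1
      by_cases hc : m ∣ X' - (X + 1)
      · rw [if_pos hc] at G2
        obtain ⟨k, hk⟩ := hc
        refine ⟨k, ?_⟩
        have : (X' : ℝ) - (X + 1) = m * k := by exact_mod_cast hk
        have e : (X' : ℝ) - X - m * k = 1 := by linarith
        rw [e]; linarith
      · rw [if_neg hc] at G2
        exfalso; linarith

theorem P7_ker (z z' : ℝ × ℝ) (hz : z ∈ p.Z) (hz' : z' ∈ p.Z)
    (h : ∀ F : ℤ × ℤ → ℝ, (∀ a b, p.Eqv a b → F a = F b) →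
      ∑ a ∈ p.box, p.wt z a • F a = ∑ a ∈ p.box, p.wt z' a • F a) : p.ZEqv z z' := by
  classical
  have hn8 : (8 : ℝ) ≤ p.n := by exact_mod_cast p.hn
  have hN3 : (3 : ℝ) ≤ p.N := by exact_mod_cast p.hN
  have hn8' : 8 ≤ p.n := p.hn
  have hN3' : 3 ≤ p.N := p.hN
  -- second coordinate
  have h2 : z.2 = z'.2 := by
    have hsnd : ∀ y : ℝ × ℝ, y ∈ p.Z → ∑ a ∈ p.box, p.wt y a • ((a.2 : ℤ) : ℝ) = y.2 := by
      intro y hy
      obtain ⟨X, D, hX, hX', hD, hD', hD1, hD2, hc⟩ := exists_cell p y hy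
      rw [loc p (fun a => ((a.2 : ℤ) : ℝ)) y hy X D hX hX' hD hD']
      obtain ⟨r1, r2, r3⟩ := cell_rows p y X D hX hX' hD hD'
      simp only [smul_eq_mul]
      push_cast
      linear_combination (D : ℝ) * r1 + ((D : ℝ) + 1) * r2
    have := h (fun a => ((a.2 : ℤ) : ℝ)) (fun a b hab => by simp only [hab.1])
    rw [hsnd z hz, hsnd z' hz'] at this
    exact this
  refine ⟨h2, ?_⟩
  obtain ⟨z11, z12, z21, z22⟩ := hz
  have hz : z ∈ p.Z := ⟨z11, z12, z21, z22⟩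
  by_cases hc : z.2 = 1 - (p.N : ℝ)
  · exact Or.inl hc
  right
  have hgt : 1 - (p.N : ℝ) < z.2 := lt_of_le_of_ne z21 (Ne.symm hc)
  have hX : ((⌊z.1⌋ : ℤ) : ℝ) ≤ z.1 := Int.floor_le _
  have hX' : z.1 ≤ (⌊z.1⌋ : ℤ) + 1 := (Int.lt_floor_add_one _).le
  have gX : ((⌊z'.1⌋ : ℤ) : ℝ) ≤ z'.1 := Int.floor_le _
  have gX' : z'.1 ≤ (⌊z'.1⌋ : ℤ) + 1 := (Int.lt_floor_add_one _).le
  generalize ⌊z.1⌋ = X at hX hX'
  generalize ⌊z'.1⌋ = X' at gX gX'
  -- row functionals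
  have row : ∀ D : ℤ, (D : ℝ) ≤ z.2 → z.2 ≤ D + 1 → ∀ R : ℤ, (R = D ∨ R = D + 1) →
      R ≠ 1 - (p.N : ℤ) → ∀ m : ℤ, (m ∣ 2 * p.n) → (R = p.n → m ∣ p.n) →
      ∀ G : ℤ → ℝ, (∀ a b : ℤ, m ∣ b - a → G a = G b) →
      p.wt z (X, R) * G X + p.wt z (X + 1, R) * G (X + 1)
        = p.wt z' (X', R) * G X' + p.wt z' (X' + 1, R) * G (X' + 1) := by
    intro D hD hD' R hR hR0 m hm2 hmn G hG
    have e := h (fun a => if a.2 = R then G a.1 else 0) (by
      intro a b hab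
      obtain ⟨h12, hab⟩ := hab
      rw [← h12]
      by_cases ha : a.2 = R
      · rw [if_pos ha, if_pos ha]
        rcases hab with h' | h' | h'
        · exact absurd (ha.symm.trans h') hR0
        · exact hG _ _ (hm2.trans h')
        · exact hG _ _ ((hmn (ha.symm.trans h'.1)).trans h'.2)
      · rw [if_neg ha, if_neg ha])
    rw [loc p _ z hz X D hX hX' hD hD', loc p _ z' hz' X' D gX gX' (h2 ▸ hD) (h2 ▸ hD')] at e
    simp only [smul_eq_mul] at e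
    rcases hR with hR | hR
    · subst hR
      have n1 : ¬ (R + 1 = R) := by omega
      simp only [if_true, if_neg n1, mul_zero, add_zero] at e
      exact e
    · subst hR
      have n1 : ¬ (D = D + 1) := by omega
      simp only [if_true, if_neg n1, mul_zero, zero_add] at e
      exact e
  by_cases hlo : z.2 < 2 - (p.N : ℝ)
  · -- innermost strip
    left
    have hD : ((1 - (p.N : ℤ) : ℤ) : ℝ) ≤ z.2 := by push_cast; linarith
    have hD' : z.2 ≤ ((1 - (p.N : ℤ) : ℤ) : ℝ) + 1 := by push_cast; linarith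
    obtain ⟨w1, w2, w3, w4⟩ := wt_lo p z X (1 - (p.N : ℤ)) hX hX' hD hD' hlo
    obtain ⟨v1, v2, v3, v4⟩ := wt_lo p z' X' (1 - (p.N : ℤ)) gX gX' (h2 ▸ hD) (h2 ▸ hD')
      (h2 ▸ hlo)
    obtain ⟨r1, r2, r3⟩ := cell_rows p z X _ hX hX' hD hD'
    obtain ⟨s1, s2, s3⟩ := cell_rows p z' X' _ gX gX' (h2 ▸ hD) (h2 ▸ hD')
    have hμ : 0 < z.2 - ((1 - (p.N : ℤ) : ℤ) : ℝ) := by push_cast; linarith
    obtain ⟨k, hk⟩ := row_lemma (2 * p.n) (by omega) X X' _ _ _ _ _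
      (P1_wt_nonneg p z (X, 1 - (p.N : ℤ) + 1)) (P1_wt_nonneg p z (X + 1, 1 - (p.N : ℤ) + 1))
      (P1_wt_nonneg p z' (X', 1 - (p.N : ℤ) + 1)) (P1_wt_nonneg p z' (X' + 1, 1 - (p.N : ℤ) + 1))
      hμ r2 (by rw [s2, h2])
      (row (1 - (p.N : ℤ)) hD hD' (1 - (p.N : ℤ) + 1) (Or.inr rfl) (by omega) (2 * p.n)
        (dvd_refl _) (fun hh => by omega))
    refine ⟨k, ?_⟩
    rw [w4, v4, ← h2] at hk
    have e : (z.2 - ((1 - (p.N : ℤ) : ℤ) : ℝ)) * ((X' : ℝ) - X - ((2 * p.n : ℤ) : ℝ) * k)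
        = (z.2 - ((1 - (p.N : ℤ) : ℤ) : ℝ)) * ((z.1 - X) - (z'.1 - X')) := by
      rw [hk]; ring
    have e2 := mul_left_cancel₀ hμ.ne' e
    push_cast at e2
    linarith
  push Not at hlo
  by_cases hn : z.2 = p.n
  · right
    refine ⟨hn, ?_⟩
    have hD : (((p.n : ℤ) - 1 : ℤ) : ℝ) ≤ z.2 := by push_cast; linarith
    have hD' : z.2 ≤ (((p.n : ℤ) - 1 : ℤ) : ℝ) + 1 := by push_cast; linarith
    obtain ⟨w1, w2, w3, w4⟩ := wt_hi p z X _ hX hX' hD hD' hlo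
    obtain ⟨v1, v2, v3, v4⟩ := wt_hi p z' X' _ gX gX' (h2 ▸ hD) (h2 ▸ hD') (h2 ▸ hlo)
    obtain ⟨r1, r2, r3⟩ := cell_rows p z X _ hX hX' hD hD'
    obtain ⟨s1, s2, s3⟩ := cell_rows p z' X' _ gX gX' (h2 ▸ hD) (h2 ▸ hD')
    have e0 : z.2 - (((p.n : ℤ) - 1 : ℤ) : ℝ) = 1 := by push_cast; linarith
    rw [← h2] at s2 v4
    rw [e0] at r2 s2 w4 v4
    obtain ⟨k, hk⟩ := row_lemma (p.n) (by omega) X X' _ _ _ _ _
      (P1_wt_nonneg p z (X, (p.n : ℤ) - 1 + 1)) (P1_wt_nonneg p z (X + 1, (p.n : ℤ) - 1 + 1))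
      (P1_wt_nonneg p z' (X', (p.n : ℤ) - 1 + 1)) (P1_wt_nonneg p z' (X' + 1, (p.n : ℤ) - 1 + 1))
      one_pos r2 s2
      (row ((p.n : ℤ) - 1) hD hD' ((p.n : ℤ) - 1 + 1) (Or.inr rfl) (by omega) (p.n)
        ⟨2, by ring⟩ (fun _ => dvd_refl _))
    refine ⟨k, ?_⟩
    rw [w4, v4, max_eq_right (by linarith), max_eq_right (by linarith)] at hk
    push_cast at hk
    linarith
  · left
    have hlt : z.2 < p.n := lt_of_le_of_ne z22 hn
    have hD : ((⌊z.2⌋ : ℤ) : ℝ) ≤ z.2 := Int.floor_le _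
    have hD' : z.2 < (⌊z.2⌋ : ℤ) + 1 := Int.lt_floor_add_one _
    have hD1 : 2 - (p.N : ℤ) ≤ ⌊z.2⌋ := Int.le_floor.mpr (by push_cast; exact hlo)
    have hD2 : ⌊z.2⌋ < (p.n : ℤ) := Int.floor_lt.mpr (by exact_mod_cast hlt)
    generalize ⌊z.2⌋ = D at hD hD' hD1 hD2
    obtain ⟨r1, r2, r3⟩ := cell_rows p z X D hX hX' hD hD'.le
    obtain ⟨s1, s2, s3⟩ := cell_rows p z' X' D gX gX' (h2 ▸ hD) (h2 ▸ hD'.le)
    rw [← h2] at s1 s2
    have a1 := P1_wt_nonneg p z (X, D)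
    have a2 := P1_wt_nonneg p z (X + 1, D)
    have a3 := P1_wt_nonneg p z (X, D + 1)
    have a4 := P1_wt_nonneg p z (X + 1, D + 1)
    have b1 := P1_wt_nonneg p z' (X', D)
    have b2 := P1_wt_nonneg p z' (X' + 1, D)
    have b3 := P1_wt_nonneg p z' (X', D + 1)
    have b4 := P1_wt_nonneg p z' (X' + 1, D + 1)
    obtain ⟨k, hk⟩ := row_lemma (2 * p.n) (by omega) X X' _ _ _ _ _ a1 a2 b1 b2
      (by linarith : (0:ℝ) < 1 - (z.2 - D)) r1 s1
      (row D hD hD'.le D (Or.inl rfl) (by omega) (2 * p.n) (dvd_refl _) (fun hh => by omega))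
    refine ⟨k, ?_⟩
    rcases eq_or_lt_of_le hD with ht | ht
    · have : z.2 - D = 0 := by linarith
      rw [this] at hk r2 s2
      push_cast at hk
      linarith
    · obtain ⟨k2, hk2⟩ := row_lemma (p.n) (by omega) X X' _ _ _ _ _ a3 a4 b3 b4
        (by linarith : (0:ℝ) < z.2 - D) r2 s2
        (row D hD hD'.le (D + 1) (Or.inr rfl) (by omega) (p.n) ⟨2, by ring⟩
          (fun _ => dvd_refl _))
      push_cast at hk hk2
      set t := z.2 - D with htdef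
      have t1 : 0 < t := by linarith
      have t2 : t < 1 := by linarith
      -- |δ| ≤ 1 with δ = X' - X - 2nk
      have d1 : ((X' : ℝ) - X - 2 * p.n * k) ≤ 1 := by
        by_contra hcon
        push Not at hcon
        have : (1 - t) * 1 < (1 - t) * ((X' : ℝ) - X - 2 * p.n * k) :=
          mul_lt_mul_of_pos_left hcon (by linarith)
        linarith
      have d2 : -1 ≤ ((X' : ℝ) - X - 2 * p.n * k) := by
        by_contra hcon
        push Not at hcon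
        have : (1 - t) * ((X' : ℝ) - X - 2 * p.n * k) < (1 - t) * (-1) :=
          mul_lt_mul_of_pos_left hcon (by linarith)
        linarith
      have d3 : ((X' : ℝ) - X - p.n * k2) ≤ 1 := by
        by_contra hcon
        push Not at hcon
        have : t * 1 < t * ((X' : ℝ) - X - p.n * k2) :=
          mul_lt_mul_of_pos_left hcon (by linarith)
        linarith
      have d4 : -1 ≤ ((X' : ℝ) - X - p.n * k2) := by
        by_contra hcon
        push Not at hcon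
        have : t * ((X' : ℝ) - X - p.n * k2) < t * (-1) :=
          mul_lt_mul_of_pos_left hcon (by linarith)
        linarith
      have hj : k2 = 2 * k := by
        have e1 : (p.n : ℝ) * (k2 - 2 * k) ≤ 2 := by linarith
        have e2 : -2 ≤ (p.n : ℝ) * (k2 - 2 * k) := by linarith
        have e1' : (p.n : ℤ) * (k2 - 2 * k) ≤ 2 := by exact_mod_cast e1
        have e2' : -2 ≤ (p.n : ℤ) * (k2 - 2 * k) := by exact_mod_cast e2
        have hn' : (8 : ℤ) ≤ p.n := by exact_mod_cast p.hn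
        by_contra hne
        rcases lt_or_gt_of_ne hne with hl | hl
        · have : k2 - 2 * k ≤ -1 := by omega
          nlinarith
        · have : 1 ≤ k2 - 2 * k := by omega
          nlinarith
      rw [hj] at hk2
      push_cast at hk2
      linarith

end Pool.Agent.Helper576.VBP
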