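import Pool.Agent.Helper576.VBP

set_option autoImplicit false

/-! Lattice hat weights for MP_c8c16f_gt: P8. -/

namespace Pool.Agent.Helper576.VBP

open Pool.Agent.Helper576.VA

variable (p : Par)

theorem exists_rep (X : ℤ) : ∃ X0 : ℤ, 0 ≤ X0 ∧ X0 + 1 ≤ 2 * p.n ∧ ∃ k : ℤ, X = X0 + 2 * p.n * k := by
  have hn : (0 : ℤ) < 2 * p.n := by have := p.hn; omega
  refine ⟨X % (2 * p.n), Int.emod_nonneg _ hn.ne', ?_, X / (2 * p.n), ?_⟩
  · have := Int.emod_lt_of_pos X hn; omega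
  · exact (Int.emod_add_mul_ediv X (2 * p.n)).symm

theorem F_rep {E : Type*} (F : ℤ × ℤ → E)
    (hF : ∀ a b, p.Eqv a b → F a = F b) (X0 k i R : ℤ) :
    F (X0 + 2 * p.n * k + i, R) = F (X0 + i, R) := by
  refine hF _ _ ⟨rfl, Or.inr (Or.inl ⟨-k, ?_⟩)⟩
  simp only; ring

theorem mk_mem {x d : ℝ} {X0 D : ℤ} (h0 : 0 ≤ X0) (h1 : X0 + 1 ≤ 2 * p.n)
    (hD : 1 - (p.N : ℤ) ≤ D) (hD' : D + 1 ≤ p.n) (hx : (X0 : ℝ) ≤ x) (hx' : x ≤ X0 + 1)
    (hd : (D : ℝ) ≤ d) (hd' : d ≤ D + 1) : (x, d) ∈ p.Z := by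
  have a0 : (0 : ℝ) ≤ X0 := by exact_mod_cast h0
  have a1 : (X0 : ℝ) + 1 ≤ 2 * p.n := by exact_mod_cast h1
  have a2 : 1 - (p.N : ℝ) ≤ D := by exact_mod_cast hD
  have a3 : (D : ℝ) + 1 ≤ p.n := by exact_mod_cast hD'
  exact ⟨by simp only; linarith, by simp only; linarith, by simp only; linarith,
    by simp only; linarith⟩

theorem P8_range1 {E : Type*} [AddCommGroup E] [Module ℝ E] (F : ℤ × ℤ → E)
    (hF : ∀ a b, p.Eqv a b → F a = F b) (X D : ℤ) (hD : 1 - (p.N : ℤ) ≤ D) (hD' : D + 1 ≤ p.n)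
    (s t r : ℝ) (hs : 0 ≤ s) (ht : 0 ≤ t) (hr : 0 ≤ r) (h1 : s + t + r = 1) :
    ∃ z ∈ p.Z, ∑ a ∈ p.box, p.wt z a • F a
      = s • F (X, D) + t • F (X + 1, D) + r • F (X, D + 1) := by
  obtain ⟨X0, h0, h0', k, rfl⟩ := exists_rep p X
  have e0 := F_rep p F hF X0 k 0
  have e1 := F_rep p F hF X0 k 1
  simp only [add_zero] at e0
  rw [e0, e1, e0]
  by_cases hc : D = 1 - (p.N : ℤ)
  · -- innermost strip
    have hcc : F (X0 + 1, D) = F (X0, D) := hF _ _ ⟨rfl, Or.inl hc⟩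
    have b1 : (X0 : ℝ) ≤ (X0 : ℝ) := le_refl _
    have b2 : (X0 : ℝ) ≤ X0 + 1 := by linarith
    have b3 : (D : ℝ) ≤ D + r := by linarith
    have b4 : (D : ℝ) + r ≤ D + 1 := by linarith
    refine ⟨(X0, D + r), mk_mem p h0 h0' hD hD' b1 b2 b3 b4, ?_⟩
    rw [loc p F _ (mk_mem p h0 h0' hD hD' b1 b2 b3 b4) X0 D b1 b2 b3 b4, hcc]
    obtain ⟨r1, r2, r3⟩ := cell_rows p ((X0 : ℝ), (D : ℝ) + r) X0 D b1 b2 b3 b4
    have n2 := P1_wt_nonneg p ((X0 : ℝ), (D : ℝ) + r) (X0 + 1, D)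
    have n4 := P1_wt_nonneg p ((X0 : ℝ), (D : ℝ) + r) (X0 + 1, D + 1)
    simp only [sub_self, add_sub_cancel_left] at r1 r2 r3
    have z2 : p.wt ((X0 : ℝ), (D : ℝ) + r) (X0 + 1, D) = 0 := by linarith
    have z4 : p.wt ((X0 : ℝ), (D : ℝ) + r) (X0 + 1, D + 1) = 0 := by linarith
    rw [z2, add_zero] at r1
    rw [z4, add_zero] at r2
    rw [z2, z4, r1, r2, zero_smul, zero_smul, add_zero, add_zero, ← add_smul]
    congr 2; linarith
  · have hD2 : 2 - (p.N : ℤ) ≤ D := by omega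
    have hD3 : 2 - (p.N : ℝ) ≤ D := by exact_mod_cast hD2
    have b1 : (X0 : ℝ) ≤ X0 + t := by linarith
    have b2 : (X0 : ℝ) + t ≤ X0 + 1 := by linarith
    have b3 : (D : ℝ) ≤ D + r := by linarith
    have b4 : (D : ℝ) + r ≤ D + 1 := by linarith
    refine ⟨(X0 + t, D + r), mk_mem p h0 h0' hD hD' b1 b2 b3 b4, ?_⟩
    rw [loc p F _ (mk_mem p h0 h0' hD hD' b1 b2 b3 b4) X0 D b1 b2 b3 b4]
    obtain ⟨w1, w2, w3, w4⟩ := wt_hi p ((X0 : ℝ) + t, (D : ℝ) + r) X0 D b1 b2 b3 b4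
      (by simp only; linarith)
    simp only [add_sub_cancel_left] at w1 w2 w3 w4
    rw [max_eq_right (by linarith)] at w1
    rw [min_eq_left (by linarith)] at w2
    rw [min_eq_left (by linarith)] at w3
    rw [max_eq_left (by linarith)] at w4
    rw [w1, w2, w3, w4, zero_smul, add_zero]
    congr 3; linarith

theorem P8_range2 {E : Type*} [AddCommGroup E] [Module ℝ E] (F : ℤ × ℤ → E)
    (hF : ∀ a b, p.Eqv a b → F a = F b) (X D : ℤ) (hD : 1 - (p.N : ℤ) ≤ D) (hD' : D + 1 ≤ p.n)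
    (s t r : ℝ) (hs : 0 ≤ s) (ht : 0 ≤ t) (hr : 0 ≤ r) (h1 : s + t + r = 1) :
    ∃ z ∈ p.Z, ∑ a ∈ p.box, p.wt z a • F a
      = s • F (X + 1, D) + t • F (X, D + 1) + r • F (X + 1, D + 1) := by
  obtain ⟨X0, h0, h0', k, rfl⟩ := exists_rep p X
  have e0 := F_rep p F hF X0 k 0
  have e1 := F_rep p F hF X0 k 1
  simp only [add_zero] at e0
  rw [e1, e0, e1]
  by_cases hc : D = 1 - (p.N : ℤ)
  · -- innermost strip
    have hcc : F (X0 + 1, D) = F (X0, D) := hF _ _ ⟨rfl, Or.inl hc⟩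
    have hDc : (D : ℝ) = 1 - (p.N : ℝ) := by exact_mod_cast hc
    rcases eq_or_lt_of_le (add_nonneg ht hr) with htr | htr
    · have ht0 : t = 0 := by linarith
      have hr0 : r = 0 := by linarith
      have hs1 : s = 1 := by linarith
      have b1 : (X0 : ℝ) ≤ (X0 : ℝ) := le_refl _
      have b2 : (X0 : ℝ) ≤ X0 + 1 := by linarith
      have b3 : (D : ℝ) ≤ D := le_refl _
      have b4 : (D : ℝ) ≤ D + 1 := by linarith
      refine ⟨(X0, D), mk_mem p h0 h0' hD hD' b1 b2 b3 b4, ?_⟩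
      rw [loc p F _ (mk_mem p h0 h0' hD hD' b1 b2 b3 b4) X0 D b1 b2 b3 b4, hcc]
      obtain ⟨r1, r2, r3⟩ := cell_rows p ((X0 : ℝ), (D : ℝ)) X0 D b1 b2 b3 b4
      have n3 := P1_wt_nonneg p ((X0 : ℝ), (D : ℝ)) (X0, D + 1)
      have n4 := P1_wt_nonneg p ((X0 : ℝ), (D : ℝ)) (X0 + 1, D + 1)
      simp only [sub_self, sub_zero] at r1 r2 r3
      have z3 : p.wt ((X0 : ℝ), (D : ℝ)) (X0, D + 1) = 0 := by linarith
      have z4 : p.wt ((X0 : ℝ), (D : ℝ)) (X0 + 1, D + 1) = 0 := by linarith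
      rw [z3, z4, ← add_smul, r1, ht0, hr0, hs1]
    · set x : ℝ := r / (t + r) with hx
      have x0 : 0 ≤ x := div_nonneg hr htr.le
      have x1 : x ≤ 1 := (div_le_one htr).mpr (by linarith)
      have hxr : x * (t + r) = r := div_mul_cancel₀ _ htr.ne'
      have b1 : (X0 : ℝ) ≤ X0 + x := by linarith
      have b2 : (X0 : ℝ) + x ≤ X0 + 1 := by linarith
      have b3 : (D : ℝ) ≤ D + (t + r) := by linarith
      have b4 : (D : ℝ) + (t + r) ≤ D + 1 := by linarith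
      refine ⟨(X0 + x, D + (t + r)), mk_mem p h0 h0' hD hD' b1 b2 b3 b4, ?_⟩
      rw [loc p F _ (mk_mem p h0 h0' hD hD' b1 b2 b3 b4) X0 D b1 b2 b3 b4, hcc]
      obtain ⟨r1, r2, r3⟩ := cell_rows p ((X0 : ℝ) + x, (D : ℝ) + (t + r)) X0 D b1 b2 b3 b4
      simp only [add_sub_cancel_left] at r1 r2 r3
      have key : p.wt ((X0 : ℝ) + x, (D : ℝ) + (t + r)) (X0 + 1, D + 1) = r := by
        rcases lt_or_ge (t + r) 1 with hl | hl
        · obtain ⟨w1, w2, w3, w4⟩ := wt_lo p ((X0 : ℝ) + x, (D : ℝ) + (t + r)) X0 D b1 b2 b3 b4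
            (by simp only; linarith)
          simp only [add_sub_cancel_left] at w4
          rw [w4, hxr]
        · have htr1 : t + r = 1 := by linarith
          obtain ⟨w1, w2, w3, w4⟩ := wt_hi p ((X0 : ℝ) + x, (D : ℝ) + (t + r)) X0 D b1 b2 b3 b4
            (by simp only; linarith)
          simp only [add_sub_cancel_left] at w4
          rw [w4, htr1, max_eq_right (by linarith)]
          rw [htr1] at hxr
          linarith
      rw [← add_smul, r1, key]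
      have key2 : p.wt ((X0 : ℝ) + x, (D : ℝ) + (t + r)) (X0, D + 1) = t := by linarith
      rw [key2]
      congr 3; linarith
  · have hD2 : 2 - (p.N : ℤ) ≤ D := by omega
    have hD3 : 2 - (p.N : ℝ) ≤ D := by exact_mod_cast hD2
    have b1 : (X0 : ℝ) ≤ X0 + (s + r) := by linarith
    have b2 : (X0 : ℝ) + (s + r) ≤ X0 + 1 := by linarith
    have b3 : (D : ℝ) ≤ D + (t + r) := by linarith
    have b4 : (D : ℝ) + (t + r) ≤ D + 1 := by linarith
    refine ⟨(X0 + (s + r), D + (t + r)), mk_mem p h0 h0' hD hD' b1 b2 b3 b4, ?_⟩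
    rw [loc p F _ (mk_mem p h0 h0' hD hD' b1 b2 b3 b4) X0 D b1 b2 b3 b4]
    obtain ⟨w1, w2, w3, w4⟩ := wt_hi p ((X0 : ℝ) + (s + r), (D : ℝ) + (t + r)) X0 D b1 b2 b3 b4
      (by simp only; linarith)
    simp only [add_sub_cancel_left] at w1 w2 w3 w4
    rw [max_eq_left (by linarith)] at w1
    rw [min_eq_right (by linarith)] at w2
    rw [min_eq_right (by linarith)] at w3
    rw [max_eq_right (by linarith)] at w4
    rw [w1, w2, w3, w4, zero_smul, zero_add]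
    congr 3
    · linarith
    · linarith
    · linarith

end Pool.Agent.Helper576.VBP
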