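import Pool.Agent.Helper576.VI

set_option autoImplicit false

/-! The parametrisation of the projective plane (MP_c8c16f_gt). -/

namespace Pool.Agent.Helper576.VA

open ComplexConjugate

namespace Par

variable (p : Par)

theorem q_n_pos : (0 : ℝ) < p.n := by exact_mod_cast p.n_pos

theorem q_n_ge : (8 : ℝ) ≤ p.n := by exact_mod_cast p.hn

theorem q_N_ge : (3 : ℝ) ≤ p.N := by exact_mod_cast p.hN

theorem q_r1_le : p.r1 ≤ 1 := by
  have h := p.k_lt
  unfold r1
  rw [div_le_one (by linarith)]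
  linarith

theorem q_A_pos : 0 < p.c * p.r1 := mul_pos (by have := p.c_ge; linarith) p.r1_pos

theorem q_A_lt : p.c * p.r1 < 1 := by
  have h1 := p.c_lt
  have h2 := p.r1_pos
  have h3 := p.q_r1_le
  nlinarith

theorem wd_le_two (d : ℝ) (h : d ≤ 2) : p.wd d = p.c := by
  unfold wd
  rw [max_eq_right h, c_eq]
  congr 1
  have := p.q_n_pos
  field_simp

theorem wd_n : p.wd p.n = 0 := by
  unfold wd
  have h := p.q_n_ge
  rw [max_eq_left (by linarith)]
  have : (p.n : ℝ) * Real.pi / (2 * p.n) = Real.pi / 2 := by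
    have := p.q_n_pos
    field_simp
  rw [this, Real.cos_pi_div_two]

theorem wd_strictAnti (d d' : ℝ) (h2 : 2 ≤ d) (h : d < d') (hn : d' ≤ p.n) : p.wd d' < p.wd d := by
  unfold wd
  have hn0 := p.q_n_pos
  rw [max_eq_left h2, max_eq_left (by linarith : (2 : ℝ) ≤ d')]
  have hpi := Real.pi_pos
  apply Real.cos_lt_cos_of_nonneg_of_le_pi_div_two
  · positivity
  · rw [div_le_div_iff₀ (by positivity) (by norm_num)]
    nlinarith
  · apply div_lt_div_of_pos_right _ (by positivity)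
    exact mul_lt_mul_of_pos_right h hpi

theorem wd_anti (d d' : ℝ) (h : d ≤ d') (hn : d' ≤ p.n) : p.wd d' ≤ p.wd d := by
  rcases eq_or_lt_of_le h with rfl | h
  · exact le_rfl
  by_cases h2 : 2 ≤ d
  · exact (p.wd_strictAnti d d' h2 h hn).le
  · push Not at h2
    rw [p.wd_le_two d h2.le]
    by_cases h3 : d' ≤ 2
    · rw [p.wd_le_two d' h3]
    · push Not at h3
      rw [← p.wd_le_two 2 le_rfl]
      exact (p.wd_strictAnti 2 d' le_rfl h3 hn).le

theorem wd_nonneg (d : ℝ) (hn : d ≤ p.n) : 0 ≤ p.wd d := by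
  rw [← p.wd_n]; exact p.wd_anti d p.n hn le_rfl

theorem wd_pos (d : ℝ) (hn : d < p.n) : 0 < p.wd d := by
  by_cases h2 : 2 ≤ d
  · rw [← p.wd_n]; exact p.wd_strictAnti d p.n h2 hn le_rfl
  · push Not at h2
    rw [p.wd_le_two d h2.le]
    have := p.c_ge; linarith

theorem rad_ge_two (d : ℝ) (h : 2 ≤ d) : p.rad d = 1 := by
  unfold rad
  have hN := p.q_N_ge
  rw [min_eq_right (by linarith : (1 : ℝ) ≤ d), max_eq_right (by linarith : (0 : ℝ) ≤ d - 1),
    min_eq_left (by linarith : (1 : ℝ) ≤ d - 1)]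
  have : (p.N : ℝ) ≠ 0 := by positivity
  field_simp
  ring

theorem rad_center : p.rad (1 - (p.N : ℝ)) = 0 := by
  unfold rad
  have hN := p.q_N_ge
  rw [min_eq_left (by linarith : 1 - (p.N : ℝ) ≤ 1), max_eq_left (by linarith : 1 - (p.N : ℝ) - 1 ≤ 0),
    min_eq_right (by norm_num : (0 : ℝ) ≤ 1)]
  have : (p.N : ℝ) ≠ 0 := by positivity
  field_simp
  ring

theorem rad_strictMono (d d' : ℝ) (h : d < d') (h2 : d < 2) : p.rad d < p.rad d' := by
  unfold rad
  have hA := p.q_A_pos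
  have hA1 := p.q_A_lt
  have hN : (0 : ℝ) < p.N := by have := p.q_N_ge; linarith
  by_cases h1 : d < 1
  · have e1 : min d 1 < min d' 1 := by
      rw [min_eq_left h1.le]
      exact lt_min h h1
    have e2 : min 1 (max 0 (d - 1)) ≤ min 1 (max 0 (d' - 1)) :=
      min_le_min le_rfl (max_le_max le_rfl (by linarith))
    have e3 : p.c * p.r1 * (p.N + min d 1 - 1) / p.N < p.c * p.r1 * (p.N + min d' 1 - 1) / p.N := by
      apply div_lt_div_of_pos_right _ hN
      apply mul_lt_mul_of_pos_left _ hA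
      linarith
    have e4 := mul_le_mul_of_nonneg_left e2 (by linarith : 0 ≤ 1 - p.c * p.r1)
    linarith
  · push Not at h1
    rw [min_eq_right h1, min_eq_right (by linarith : (1 : ℝ) ≤ d')]
    have e2 : min 1 (max 0 (d - 1)) < min 1 (max 0 (d' - 1)) := by
      rw [max_eq_right (by linarith : (0 : ℝ) ≤ d - 1), max_eq_right (by linarith : (0 : ℝ) ≤ d' - 1),
        min_eq_right (by linarith : d - 1 ≤ 1)]
      exact lt_min (by linarith) (by linarith)
    have e4 := mul_lt_mul_of_pos_left e2 (by linarith : 0 < 1 - p.c * p.r1)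
    linarith

theorem rad_mono (d d' : ℝ) (h : d ≤ d') : p.rad d ≤ p.rad d' := by
  rcases eq_or_lt_of_le h with rfl | h
  · exact le_rfl
  by_cases h2 : d < 2
  · exact (p.rad_strictMono d d' h h2).le
  · push Not at h2
    rw [p.rad_ge_two d h2, p.rad_ge_two d' (by linarith)]

theorem rad_nonneg (d : ℝ) (h : 1 - (p.N : ℝ) ≤ d) : 0 ≤ p.rad d := by
  rw [← p.rad_center]; exact p.rad_mono _ _ h

theorem rad_pos (d : ℝ) (h : 1 - (p.N : ℝ) < d) : 0 < p.rad d := by
  rw [← p.rad_center]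
  apply p.rad_strictMono _ _ h
  have := p.q_N_ge; linarith

theorem rad_continuous : Continuous p.rad := by
  unfold rad
  fun_prop

theorem wd_continuous : Continuous p.wd := by
  unfold wd
  fun_prop

theorem om_continuous (n : ℕ) : Continuous (om n) := by
  unfold om
  fun_prop

theorem ratio_lt (d d' : ℝ) (h0 : 1 - (p.N : ℝ) ≤ d) (h : d < d') (hn : d' < p.n) :
    p.rad d * p.wd d' < p.rad d' * p.wd d := by
  have hw' := p.wd_pos d' hn
  have hw := p.wd_pos d (h.trans hn)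
  have hanti := p.wd_anti d d' h.le hn.le
  have hr := p.rad_nonneg d h0
  by_cases h2 : d < 2
  · have h3 := p.rad_strictMono d d' h h2
    calc p.rad d * p.wd d' ≤ p.rad d * p.wd d := mul_le_mul_of_nonneg_left hanti hr
      _ < p.rad d' * p.wd d := mul_lt_mul_of_pos_right h3 hw
  · push Not at h2
    rw [p.rad_ge_two d h2, p.rad_ge_two d' (by linarith), one_mul, one_mul]
    exact p.wd_strictAnti d d' h2 h hn.le

theorem Q1_ne_zero (z : ℝ × ℝ) (hz : z ∈ p.Z) : p.Qp z ≠ 0 := by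
  intro h
  obtain ⟨-, -, h1, h2⟩ := hz
  have e1 : p.wd z.2 = 0 := congrArg Prod.fst h
  have e2 : -((p.rad z.2 : ℂ) * om p.n (z.1 + 1 / 2 + max z.2 2 / 2)) = 0 := congrArg Prod.snd h
  rcases lt_or_eq_of_le h2 with h3 | h3
  · exact (p.wd_pos z.2 h3).ne' e1
  · have h4 : p.rad z.2 = 1 := p.rad_ge_two _ (by rw [h3]; have := p.q_n_ge; linarith)
    rw [h4] at e2
    have h5 := congrArg norm e2
    rw [norm_neg, norm_mul, om_norm] at h5
    simp at h5

theorem Q2_continuous : Continuous p.Qp := by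
  unfold Qp
  have h1 := p.rad_continuous
  have h2 := p.wd_continuous
  have h3 := om_continuous p.n
  refine Continuous.prodMk (h2.comp continuous_snd) ?_
  refine Continuous.neg (Continuous.mul ?_ ?_)
  · exact Complex.continuous_ofReal.comp (h1.comp continuous_snd)
  · refine h3.comp ?_
    fun_prop

theorem om_add_nk (n : ℕ) (hn : 0 < n) (t : ℝ) (k : ℤ) :
    om n (t + n * k) = ((-1 : ℝ) ^ k : ℝ) * om n t := by
  rcases Int.even_or_odd' k with ⟨l, rfl | rfl⟩
  · rw [show t + (n : ℝ) * ((2 * l : ℤ) : ℝ) = t + 2 * n * l by push_cast; ring, om_add_2nk n hn]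
    rw [zpow_mul]
    norm_num
  · rw [show t + (n : ℝ) * ((2 * l + 1 : ℤ) : ℝ) = (t + n) + 2 * n * l by push_cast; ring,
      om_add_2nk n hn, om_add_n n hn]
    rw [zpow_add₀ (by norm_num), zpow_mul]
    norm_num

theorem Q3_ker (z z' : ℝ × ℝ) (hz : z ∈ p.Z) (hz' : z' ∈ p.Z) :
    (∃ c : ℝ, p.Qp z' = c • p.Qp z) ↔ p.ZEqv z z' := by
  have hne' := p.Q1_ne_zero z' hz'
  obtain ⟨-, -, h1, h2⟩ := hz
  obtain ⟨-, -, h1', h2'⟩ := hz'
  constructor
  · rintro ⟨c, hc⟩
    have hc0 : c ≠ 0 := by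
      rintro rfl
      rw [zero_smul] at hc
      exact hne' hc
    have e1 : p.wd z'.2 = c * p.wd z.2 := congrArg Prod.fst hc
    have e2 : -((p.rad z'.2 : ℂ) * om p.n (z'.1 + 1 / 2 + max z'.2 2 / 2))
        = c • (-((p.rad z.2 : ℂ) * om p.n (z.1 + 1 / 2 + max z.2 2 / 2))) := congrArg Prod.snd hc
    rw [Complex.real_smul] at e2
    have e3 : p.rad z'.2 = |c| * p.rad z.2 := by
      have h3 := congrArg norm e2
      rw [norm_neg, norm_mul, norm_mul, norm_neg, norm_mul, om_norm, om_norm, Complex.norm_real,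
        Complex.norm_real, Complex.norm_real, Real.norm_eq_abs, Real.norm_eq_abs, Real.norm_eq_abs,
        abs_of_nonneg (p.rad_nonneg _ h1), abs_of_nonneg (p.rad_nonneg _ h1')] at h3
      linarith
    rcases lt_or_eq_of_le h2 with h3 | h3
    · have hw := p.wd_pos z.2 h3
      have hw' := p.wd_nonneg z'.2 h2'
      have hcpos : 0 < c := by
        rcases lt_or_gt_of_ne hc0 with h4 | h4
        · exfalso
          have : c * p.wd z.2 < 0 := mul_neg_of_neg_of_pos h4 hw
          linarith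
        · exact h4
      have hw'pos : 0 < p.wd z'.2 := by rw [e1]; exact mul_pos hcpos hw
      have h3' : z'.2 < p.n := by
        rcases lt_or_eq_of_le h2' with h4 | h4
        · exact h4
        · exfalso; rw [h4, p.wd_n] at hw'pos; exact lt_irrefl _ hw'pos
      rw [abs_of_pos hcpos] at e3
      have hd : z.2 = z'.2 := by
        rcases lt_trichotomy z.2 z'.2 with h4 | h4 | h4
        · have := p.ratio_lt _ _ h1 h4 h3'
          rw [e1, e3] at this
          exfalso; linarith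
        · exact h4
        · have := p.ratio_lt _ _ h1' h4 h3
          rw [e1, e3] at this
          exfalso; linarith
      have hc1 : c = 1 := by
        rw [← hd] at e1
        have : (c - 1) * p.wd z.2 = 0 := by linarith
        rcases mul_eq_zero.1 this with h4 | h4
        · linarith
        · exact absurd h4 hw.ne'
      refine ⟨hd, ?_⟩
      rcases eq_or_lt_of_le h1 with h4 | h4
      · left; exact h4.symm
      · right; left
        have hr := p.rad_pos _ h4
        rw [hc1, ← hd, Complex.ofReal_one, one_mul, neg_inj] at e2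
        have hr' : (p.rad z.2 : ℂ) ≠ 0 := by exact_mod_cast hr.ne'
        have e4 := mul_left_cancel₀ hr' e2
        rw [om_eq_iff p.n p.n_pos] at e4
        obtain ⟨k, hk⟩ := e4
        exact ⟨k, by linarith⟩
    · have hw : p.wd z.2 = 0 := by rw [h3, p.wd_n]
      rw [hw, mul_zero] at e1
      have h3' : z'.2 = p.n := by
        rcases lt_or_eq_of_le h2' with h4 | h4
        · exact absurd e1 (p.wd_pos _ h4).ne'
        · exact h4
      have hn := p.q_n_ge
      have hr : p.rad z.2 = 1 := p.rad_ge_two _ (by rw [h3]; linarith)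
      have hr' : p.rad z'.2 = 1 := p.rad_ge_two _ (by rw [h3']; linarith)
      rw [hr, hr', mul_one] at e3
      rw [hr, hr', h3, h3', Complex.ofReal_one, one_mul, one_mul] at e2
      refine ⟨by rw [h3, h3'], Or.inr (Or.inr ⟨h3, ?_⟩)⟩
      rcases (abs_eq (by norm_num : (0 : ℝ) ≤ 1)).1 e3.symm with hc1 | hc1
      · rw [hc1, Complex.ofReal_one, one_mul, neg_inj, om_eq_iff p.n p.n_pos] at e2
        obtain ⟨k, hk⟩ := e2
        exact ⟨2 * k, by push_cast; linarith⟩
      · rw [hc1] at e2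
        push_cast at e2
        rw [neg_one_mul, neg_inj, ← om_add_n p.n p.n_pos, om_eq_iff p.n p.n_pos] at e2
        obtain ⟨k, hk⟩ := e2
        exact ⟨2 * k + 1, by push_cast; linarith⟩
  · rintro ⟨hd, h | ⟨k, hk⟩ | ⟨hn, k, hk⟩⟩
    · refine ⟨1, ?_⟩
      rw [one_smul]
      unfold Qp
      rw [← hd, h, p.rad_center]
      simp
    · refine ⟨1, ?_⟩
      rw [one_smul]
      unfold Qp
      rw [← hd]
      congr 3
      rw [om_eq_iff p.n p.n_pos]
      exact ⟨k, by linarith⟩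
    · refine ⟨(-1 : ℝ) ^ k, ?_⟩
      unfold Qp
      rw [← hd, hn, p.wd_n]
      refine Prod.ext ?_ ?_
      · simp
      · simp only [Prod.smul_snd]
        have e : z'.1 + 1 / 2 + max (p.n : ℝ) 2 / 2 = (z.1 + 1 / 2 + max (p.n : ℝ) 2 / 2) + p.n * k := by
          linarith
        rw [e, om_add_nk p.n p.n_pos, Complex.real_smul]
        ring

theorem om_surj (n : ℕ) (hn : 0 < n) (u : ℂ) (hu : ‖u‖ = 1) (a : ℝ) :
    ∃ x : ℝ, 0 ≤ x ∧ x ≤ 2 * n ∧ om n (x + a) = u := by
  have hn' : (0 : ℝ) < n := by exact_mod_cast hn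
  have hpi := Real.pi_pos
  set t : ℝ := u.arg * n / Real.pi with ht
  have h1 : om n t = u := by
    unfold om
    have e1 : Real.pi * t / n = u.arg := by
      rw [ht]; field_simp
    rw [e1]
    have := Complex.norm_mul_exp_arg_mul_I u
    rw [hu, Complex.ofReal_one, one_mul] at this
    exact this
  set k : ℤ := ⌊(t - a) / (2 * n)⌋ with hk
  have h2 := Int.floor_le ((t - a) / (2 * n))
  have h3 := Int.lt_floor_add_one ((t - a) / (2 * n))
  rw [← hk] at h2 h3
  rw [le_div_iff₀ (by positivity)] at h2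
  rw [div_lt_iff₀ (by positivity)] at h3
  refine ⟨t - a - 2 * n * k, by linarith, by linarith, ?_⟩
  rw [← h1, om_eq_iff n hn]
  exact ⟨-k, by push_cast; ring⟩

theorem exists_unit (ζ : ℂ) : ∃ u : ℂ, ‖u‖ = 1 ∧ ζ = (‖ζ‖ : ℂ) * u := by
  refine ⟨Complex.exp (ζ.arg * Complex.I), ?_, ?_⟩
  · exact Complex.norm_exp_ofReal_mul_I _
  · exact (Complex.norm_mul_exp_arg_mul_I ζ).symm

theorem Q4_surj_pos (L : P1) (hL : 0 < L.1) : ∃ z ∈ p.Z, ∃ c : ℝ, c ≠ 0 ∧ p.Qp z = c • L := by
  have hN := p.q_N_ge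
  have hn := p.q_n_ge
  have hcont : ContinuousOn (fun d => p.rad d * L.1 - p.wd d * ‖L.2‖)
      (Set.Icc (1 - (p.N : ℝ)) p.n) := by
    have h1 := p.rad_continuous
    have h2 := p.wd_continuous
    exact (Continuous.continuousOn (by fun_prop))
  have hle : 1 - (p.N : ℝ) ≤ p.n := by linarith
  have hivt := intermediate_value_Icc hle hcont
  have h0 : (0 : ℝ) ∈ Set.Icc (p.rad (1 - (p.N : ℝ)) * L.1 - p.wd (1 - (p.N : ℝ)) * ‖L.2‖)
      (p.rad p.n * L.1 - p.wd p.n * ‖L.2‖) := by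
    rw [p.rad_center, p.wd_n, p.rad_ge_two _ (by linarith)]
    constructor
    · have := mul_nonneg (p.wd_nonneg (1 - (p.N : ℝ)) hle) (norm_nonneg L.2)
      linarith
    · linarith
  obtain ⟨d, ⟨hd1, hd2⟩, hd⟩ := hivt h0
  simp only at hd
  have hdn : d < p.n := by
    rcases lt_or_eq_of_le hd2 with h | h
    · exact h
    · exfalso
      rw [h, p.wd_n, p.rad_ge_two _ (by linarith)] at hd
      linarith
  have hw := p.wd_pos d hdn
  obtain ⟨u, hu, hζ⟩ := exists_unit L.2
  obtain ⟨x, hx0, hx1, hx⟩ := om_surj p.n p.n_pos (-u) (by rw [norm_neg, hu]) (1 / 2 + max d 2 / 2)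
  refine ⟨(x, d), ⟨hx0, hx1, hd1, hd2⟩, p.wd d / L.1, (div_pos hw hL).ne', ?_⟩
  unfold Qp
  refine Prod.ext ?_ ?_
  · simp only [Prod.smul_fst, smul_eq_mul]
    field_simp
  · simp only [Prod.smul_snd]
    rw [show x + 1 / 2 + max d 2 / 2 = x + (1 / 2 + max d 2 / 2) by ring, hx, Complex.real_smul, hζ]
    have h5 : p.rad d = p.wd d / L.1 * ‖L.2‖ := by
      field_simp
      linarith
    rw [h5]
    push_cast
    ring

theorem Q4_surj (L : P1) (hL : L ≠ 0) : ∃ z ∈ p.Z, ∃ c : ℝ, c ≠ 0 ∧ p.Qp z = c • L := by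
  have hN := p.q_N_ge
  have hn := p.q_n_ge
  rcases lt_trichotomy L.1 0 with h | h | h
  · obtain ⟨z, hz, c, hc, hQ⟩ := p.Q4_surj_pos (-L) (by simpa using h)
    exact ⟨z, hz, -c, neg_ne_zero.2 hc, by rw [hQ]; simp⟩
  · have hζ : L.2 ≠ 0 := by
      intro h2
      exact hL (Prod.ext h h2)
    obtain ⟨u, hu, hζu⟩ := exists_unit L.2
    obtain ⟨x, hx0, hx1, hx⟩ := om_surj p.n p.n_pos (-u) (by rw [norm_neg, hu])
      (1 / 2 + max (p.n : ℝ) 2 / 2)
    refine ⟨(x, p.n), ⟨hx0, hx1, by simp only; linarith, le_rfl⟩, ‖L.2‖⁻¹,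
      inv_ne_zero (norm_ne_zero_iff.2 hζ), ?_⟩
    unfold Qp
    refine Prod.ext ?_ ?_
    · simp only [Prod.smul_fst, smul_eq_mul]
      rw [h, p.wd_n, mul_zero]
    · simp only [Prod.smul_snd]
      rw [show x + 1 / 2 + max (p.n : ℝ) 2 / 2 = x + (1 / 2 + max (p.n : ℝ) 2 / 2) by ring, hx,
        Complex.real_smul, p.rad_ge_two _ (by linarith)]
      have h6 : (‖L.2‖ : ℂ) ≠ 0 := by exact_mod_cast norm_ne_zero_iff.2 hζ
      conv_rhs => rw [hζu]
      push_cast
      simp only [norm_mul, hu, mul_one, Complex.norm_real, norm_norm]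
      field_simp
  · exact p.Q4_surj_pos L h

end Par

end Pool.Agent.Helper576.VA
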