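import Pool.Agent.Helper576.VA12
import Pool.Agent.Helper576.VBA
import Pool.Agent.Helper576.VBC
import Pool.Agent.Helper576.VBP2
import Pool.Agent.Helper576.VBP3

set_option autoImplicit false

namespace Pool.Agent.Helper576.VA

open ComplexConjugate

theorem hull3 {E : Type*} [AddCommGroup E] [Module ℝ E] (x y z v : E)
    (h : v ∈ convexHull ℝ ({x, y, z} : Set E)) :
    ∃ s t r : ℝ, 0 ≤ s ∧ 0 ≤ t ∧ 0 ≤ r ∧ s + t + r = 1 ∧ v = s • x + t • y + r • z := by
  have hC : Convex ℝ {v : E | ∃ s t r : ℝ, 0 ≤ s ∧ 0 ≤ t ∧ 0 ≤ r ∧ s + t + r = 1 ∧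
      v = s • x + t • y + r • z} := by
    rintro a ⟨s, t, r, h1, h2, h3, h4, rfl⟩ b ⟨s', t', r', h1', h2', h3', h4', rfl⟩ m m' hm hm' hmm
    refine ⟨m * s + m' * s', m * t + m' * t', m * r + m' * r', by positivity, by positivity,
      by positivity, ?_, ?_⟩
    · have : m * s + m' * s' + (m * t + m' * t') + (m * r + m' * r')
          = m * (s + t + r) + m' * (s' + t' + r') := by ring
      rw [this, h4, h4', mul_one, mul_one, hmm]
    · module
  have hsub : ({x, y, z} : Set E) ⊆ {v : E | ∃ s t r : ℝ, 0 ≤ s ∧ 0 ≤ t ∧ 0 ≤ r ∧ s + t + r = 1 ∧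
      v = s • x + t • y + r • z} := by
    intro a ha
    simp only [Set.mem_insert_iff, Set.mem_singleton_iff] at ha
    rcases ha with rfl | rfl | rfl
    · exact ⟨1, 0, 0, by norm_num, by norm_num, by norm_num, by norm_num, by simp⟩
    · exact ⟨0, 1, 0, by norm_num, by norm_num, by norm_num, by norm_num, by simp⟩
    · exact ⟨0, 0, 1, by norm_num, by norm_num, by norm_num, by norm_num, by simp⟩
  exact convexHull_min hsub hC h

namespace Par

variable (p : Par)

noncomputable def Vset : Finset P2 := p.box.image (fun a => p.vtx a.1 a.2)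

theorem mem_Vset (v : P2) : v ∈ p.Vset ↔ p.IsVert v := by
  classical
  unfold Vset box
  simp only [Finset.mem_image, Finset.mem_product, Finset.mem_Icc, Prod.exists]
  constructor
  · rintro ⟨X, D, ⟨_, h⟩, rfl⟩
    exact ⟨X, D, h.1, h.2, rfl⟩
  · rintro ⟨X, D, h1, h2, rfl⟩
    obtain ⟨X', h3, h4, h5⟩ := p.vtx_mod X D
    exact ⟨X', D, ⟨⟨h3, h4.le⟩, h1, h2⟩, h5.symm⟩

theorem tri_finite : {t : Finset P2 | p.IsTri t}.Finite := by
  apply Set.Finite.subset (p.Vset.powerset.finite_toSet)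
  intro t ht
  simp only [Finset.coe_powerset, Set.mem_preimage, Set.mem_powerset_iff, Finset.coe_subset]
  intro v hv
  exact (p.mem_Vset v).mpr (p.tri_vert t ht v hv)

/-- support of the weights lies in a triangle -/
theorem tri_supp (z : ℝ × ℝ) (hz : z ∈ p.Z) :
    ∃ t, p.IsTri t ∧ ∀ a : ℤ × ℤ, p.wt z a ≠ 0 → p.vtx a.1 a.2 ∈ t := by
  obtain ⟨X, D, h1, h2, h | h | ⟨hD, h⟩⟩ := Helper576.VBP.P2_wt_supp p z hz
  · refine ⟨_, ⟨X, D, h1, h2, Or.inl rfl⟩, ?_⟩
    intro a ha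
    rcases h a ha with rfl | rfl | rfl <;> simp
  · refine ⟨_, ⟨X, D, h1, h2, Or.inr rfl⟩, ?_⟩
    intro a ha
    rcases h a ha with rfl | rfl | rfl <;> simp
  · refine ⟨_, ⟨X, D, h1, h2, Or.inr rfl⟩, ?_⟩
    intro a ha
    rcases h a ha with rfl | rfl | rfl | rfl
    · simp only [Finset.mem_insert, Finset.mem_singleton]
      left; rw [hD, vtx_center, vtx_center]
    · simp
    · simp
    · simp

section

variable {E : Type*} [NormedAddCommGroup E] [NormedSpace ℝ E] (b : P2 →ₗ[ℝ] E) (T : P2 →ₗ[ℝ] ℝ)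

/-- normalised vertex -/
noncomputable def nv (v : P2) : E := (T v)⁻¹ • b v

theorem nv_inj (hinj : ∀ v, b v = 0 → T v = 0 → v = 0) (hT : ∀ v, p.IsVert v → 0 < T v)
    (t t' : Finset P2) (ht : p.IsTri t) (ht' : p.IsTri t') (v v' : P2) (hv : v ∈ t) (hv' : v' ∈ t')
    (h : nv b T v = nv b T v') : v = v' := by
  classical
  have h1 := hT v (p.tri_vert t ht v hv)
  have h2 := hT v' (p.tri_vert t' ht' v' hv')
  have e : (T v)⁻¹ • v = (T v')⁻¹ • v' := by
    apply sub_eq_zero.mp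
    apply hinj
    · rw [map_sub, map_smul, map_smul]
      exact sub_eq_zero.mpr h
    · rw [map_sub, map_smul, map_smul, smul_eq_mul, smul_eq_mul, inv_mul_cancel₀ h1.ne',
        inv_mul_cancel₀ h2.ne', sub_self]
  have key : (fun x : P2 => if x = v then (T v)⁻¹ else 0)
      = (fun x : P2 => if x = v' then (T v')⁻¹ else 0) := by
    apply p.U2_uniq t t' ht ht'
    · intro x; split_ifs
      · exact (inv_pos.mpr h1).le
      · exact le_refl _
    · intro x; split_ifs
      · exact (inv_pos.mpr h2).le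
      · exact le_refl _
    · intro x hx; apply if_neg; intro h; rw [h] at hx; exact hx hv
    · intro x hx; apply if_neg; intro h; rw [h] at hx; exact hx hv'
    · simp only [ite_smul, zero_smul, Finset.sum_ite_eq', hv, hv', if_true]
      exact e
  have := congrFun key v
  simp only [if_true] at this
  by_contra hne
  rw [if_neg hne] at this
  exact absurd this (inv_pos.mpr h1).ne'

/-- the triangles in `E` -/
def TriE : Set (Finset E) := {s | ∃ t, p.IsTri t ∧ (s : Set E) = nv b T '' (t : Set P2)}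

theorem mem_TriE [DecidableEq E] (s : Finset E) :
    s ∈ p.TriE b T ↔ ∃ t, p.IsTri t ∧ s = t.image (nv b T) := by
  constructor
  · rintro ⟨t, h1, h2⟩
    refine ⟨t, h1, ?_⟩
    rw [← Finset.coe_inj, Finset.coe_image]
    exact h2
  · rintro ⟨t, h1, h2⟩
    refine ⟨t, h1, ?_⟩
    rw [h2, Finset.coe_image]

theorem TriE_finite : (p.TriE b T).Finite := by
  classical
  have : p.TriE b T = (fun t : Finset P2 => t.image (nv b T)) '' {t | p.IsTri t} := by
    ext s
    rw [mem_TriE]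
    constructor
    · rintro ⟨t, h1, h2⟩; exact ⟨t, h1, h2.symm⟩
    · rintro ⟨t, h1, h2⟩; exact ⟨t, h1, h2.symm⟩
  rw [this]
  exact p.tri_finite.image _

theorem TriE_uniq (hinj : ∀ v, b v = 0 → T v = 0 → v = 0) (hT : ∀ v, p.IsVert v → 0 < T v) :
    ∀ t ∈ p.TriE b T, ∀ t' ∈ p.TriE b T, ∀ w w' : E → ℝ, (∀ v, 0 ≤ w v) → (∀ v, 0 ≤ w' v) →
      (∀ v ∉ t, w v = 0) → (∀ v ∉ t', w' v = 0) → ∑ v ∈ t, w v = 1 → ∑ v ∈ t', w' v = 1 →
      ∑ v ∈ t, w v • v = ∑ v ∈ t', w' v • v → w = w' := by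
  classical
  intro s hs s' hs' w w' hw hw' h0 h0' h1 h1' he
  obtain ⟨t, ht, rfl⟩ := (p.mem_TriE b T s).mp hs
  obtain ⟨t', ht', rfl⟩ := (p.mem_TriE b T s').mp hs'
  have inj : Set.InjOn (nv b T) (t : Set P2) := fun x hx y hy h =>
    p.nv_inj b T hinj hT t t ht ht x y hx hy h
  have inj' : Set.InjOn (nv b T) (t' : Set P2) := fun x hx y hy h =>
    p.nv_inj b T hinj hT t' t' ht' ht' x y hx hy h
  rw [Finset.sum_image inj] at h1 he
  rw [Finset.sum_image inj'] at h1' he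
  set W : P2 → ℝ := fun v => if v ∈ t then w (nv b T v) * (T v)⁻¹ else 0 with hW
  set W' : P2 → ℝ := fun v => if v ∈ t' then w' (nv b T v) * (T v)⁻¹ else 0 with hW'
  have b1 : b (∑ v ∈ t, W v • v) = ∑ v ∈ t, w (nv b T v) • nv b T v := by
    rw [map_sum]
    apply Finset.sum_congr rfl
    intro v hv
    rw [map_smul, hW]; simp only
    rw [if_pos hv, mul_smul]; rfl
  have b1' : b (∑ v ∈ t', W' v • v) = ∑ v ∈ t', w' (nv b T v) • nv b T v := by
    rw [map_sum]
    apply Finset.sum_congr rfl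
    intro v hv
    rw [map_smul, hW']; simp only
    rw [if_pos hv, mul_smul]; rfl
  have t1 : T (∑ v ∈ t, W v • v) = ∑ v ∈ t, w (nv b T v) := by
    rw [map_sum]
    apply Finset.sum_congr rfl
    intro v hv
    have := hT v (p.tri_vert t ht v hv)
    rw [map_smul, hW]; simp only
    rw [if_pos hv, smul_eq_mul, mul_assoc, inv_mul_cancel₀ this.ne', mul_one]
  have t1' : T (∑ v ∈ t', W' v • v) = ∑ v ∈ t', w' (nv b T v) := by
    rw [map_sum]
    apply Finset.sum_congr rfl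
    intro v hv
    have := hT v (p.tri_vert t' ht' v hv)
    rw [map_smul, hW']; simp only
    rw [if_pos hv, smul_eq_mul, mul_assoc, inv_mul_cancel₀ this.ne', mul_one]
  have eY : ∑ v ∈ t, W v • v = ∑ v ∈ t', W' v • v := by
    apply sub_eq_zero.mp
    apply hinj
    · rw [map_sub, b1, b1', he, sub_self]
    · rw [map_sub, t1, t1', h1, h1', sub_self]
  have hWW : W = W' := by
    apply p.U2_uniq t t' ht ht' W W' _ _ _ _ eY
    · intro v; rw [hW]; simp only
      split_ifs with hv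
      · exact mul_nonneg (hw _) (inv_pos.mpr (hT v (p.tri_vert t ht v hv))).le
      · exact le_refl _
    · intro v; rw [hW']; simp only
      split_ifs with hv
      · exact mul_nonneg (hw' _) (inv_pos.mpr (hT v (p.tri_vert t' ht' v hv))).le
      · exact le_refl _
    · intro v hv; rw [hW]; simp only; rw [if_neg hv]
    · intro v hv; rw [hW']; simp only; rw [if_neg hv]
  funext x
  by_cases hx : x ∈ t.image (nv b T)
  · obtain ⟨v, hv, rfl⟩ := Finset.mem_image.mp hx
    have hTv := hT v (p.tri_vert t ht v hv)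
    have e1 := congrFun hWW v
    rw [hW, hW'] at e1
    simp only [if_pos hv] at e1
    by_cases hv' : v ∈ t'
    · rw [if_pos hv'] at e1
      exact mul_right_cancel₀ (inv_pos.mpr hTv).ne' e1
    · rw [if_neg hv'] at e1
      rw [(mul_eq_zero.mp e1).resolve_right (inv_pos.mpr hTv).ne']
      symm
      apply h0'
      intro hc
      obtain ⟨v', hv1, hv2⟩ := Finset.mem_image.mp hc
      have := p.nv_inj b T hinj hT t' t ht' ht v' v hv1 hv hv2
      exact hv' (this ▸ hv1)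
  · rw [h0 x hx]
    by_cases hx' : x ∈ t'.image (nv b T)
    · obtain ⟨v, hv, rfl⟩ := Finset.mem_image.mp hx'
      have hTv := hT v (p.tri_vert t' ht' v hv)
      have hvt : v ∉ t := fun hc => hx (Finset.mem_image_of_mem _ hc)
      have e1 := congrFun hWW v
      rw [hW, hW'] at e1
      simp only [if_pos hv, if_neg hvt] at e1
      exact ((mul_eq_zero.mp e1.symm).resolve_right (inv_pos.mpr hTv).ne').symm
    · rw [h0' x hx']

/-- parametrisation in `E` -/
noncomputable def Fh (z : ℝ × ℝ) : E := ∑ a ∈ p.box, p.wt z a • nv b T (p.vtx a.1 a.2)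

theorem Fh_hull (z : ℝ × ℝ) (hz : z ∈ p.Z) (S : Set E) (hS : Convex ℝ S)
    (h : ∀ a ∈ p.box, p.wt z a ≠ 0 → nv b T (p.vtx a.1 a.2) ∈ S) : p.Fh b T z ∈ S := by
  classical
  have e1 : p.Fh b T z = ∑ a ∈ p.box.filter (fun a => p.wt z a ≠ 0),
      p.wt z a • nv b T (p.vtx a.1 a.2) := by
    unfold Fh
    symm
    apply Finset.sum_subset (Finset.filter_subset _ _)
    intro a ha hna
    rw [Finset.mem_filter, not_and, not_not] at hna
    rw [hna ha, zero_smul]
  have e2 : ∑ a ∈ p.box.filter (fun a => p.wt z a ≠ 0), p.wt z a = 1 := by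
    rw [← Helper576.VBP.P4_wt_sum p z hz]
    apply Finset.sum_subset (Finset.filter_subset _ _)
    intro a ha hna
    rw [Finset.mem_filter, not_and, not_not] at hna
    exact hna ha
  rw [e1]
  apply hS.sum_mem (fun a _ => Helper576.VBP.P1_wt_nonneg p z a) e2
  intro a ha
  rw [Finset.mem_filter] at ha
  exact h a ha.1 ha.2

theorem Fh_range : p.Fh b T '' p.Z = ⋃ t ∈ p.TriE b T, convexHull ℝ (t : Set E) := by
  classical
  have hresp : ∀ a a' : ℤ × ℤ, p.Eqv a a' → nv b T (p.vtx a.1 a.2) = nv b T (p.vtx a'.1 a'.2) := by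
    intro a a' h; rw [p.vtx_of_eqv a a' h]
  ext x
  simp only [Set.mem_image, Set.mem_iUnion]
  constructor
  · rintro ⟨z, hz, rfl⟩
    obtain ⟨t, ht, hs⟩ := p.tri_supp z hz
    refine ⟨t.image (nv b T), (p.mem_TriE b T _).mpr ⟨t, ht, rfl⟩, ?_⟩
    apply p.Fh_hull b T z hz _ (convex_convexHull ℝ _)
    intro a _ ha
    apply subset_convexHull
    exact Finset.mem_coe.mpr (Finset.mem_image_of_mem _ (hs a ha))
  · rintro ⟨s, hs, hx⟩
    obtain ⟨t, ⟨X, D, h1, h2, rfl | rfl⟩, rfl⟩ := (p.mem_TriE b T _).mp hs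
    · simp only [Finset.image_insert, Finset.image_singleton, Finset.coe_insert,
        Finset.coe_singleton] at hx
      obtain ⟨s, t, r, a1, a2, a3, a4, rfl⟩ := hull3 _ _ _ _ hx
      obtain ⟨z, hz, e⟩ := Helper576.VBP.P8_range1 p (fun a => nv b T (p.vtx a.1 a.2)) hresp X D h1 h2
        s t r a1 a2 a3 a4
      exact ⟨z, hz, e⟩
    · simp only [Finset.image_insert, Finset.image_singleton, Finset.coe_insert,
        Finset.coe_singleton] at hx
      obtain ⟨s, t, r, a1, a2, a3, a4, rfl⟩ := hull3 _ _ _ _ hx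
      obtain ⟨z, hz, e⟩ := Helper576.VBP.P8_range2 p (fun a => nv b T (p.vtx a.1 a.2)) hresp X D h1 h2
        s t r a1 a2 a3 a4
      exact ⟨z, hz, e⟩

theorem Fh_ker (hinj : ∀ v, b v = 0 → T v = 0 → v = 0) (hT : ∀ v, p.IsVert v → 0 < T v)
    (z z' : ℝ × ℝ) (hz : z ∈ p.Z) (hz' : z' ∈ p.Z) :
    p.Fh b T z = p.Fh b T z' ↔ p.ZEqv z z' := by
  classical
  have hresp : ∀ a a' : ℤ × ℤ, p.Eqv a a' → nv b T (p.vtx a.1 a.2) = nv b T (p.vtx a'.1 a'.2) := by
    intro a a' h; rw [p.vtx_of_eqv a a' h]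
  constructor
  swap
  · intro h
    exact Helper576.VBP.P6_periodic p (fun a => nv b T (p.vtx a.1 a.2)) hresp z z' hz hz' h
  intro h
  have hv : ∀ a ∈ p.box, p.IsVert (p.vtx a.1 a.2) := by
    intro a ha
    rw [← mem_Vset]
    unfold Vset
    exact Finset.mem_image_of_mem (fun a : ℤ × ℤ => p.vtx a.1 a.2) ha
  -- class weights
  set W : ℝ × ℝ → P2 → ℝ := fun z v =>
    (∑ a ∈ p.box.filter (fun a => p.vtx a.1 a.2 = v), p.wt z a) * (T v)⁻¹ with hW
  have hsum : ∀ z : ℝ × ℝ, z ∈ p.Z → ∀ t, p.IsTri t →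
      (∀ a : ℤ × ℤ, p.wt z a ≠ 0 → p.vtx a.1 a.2 ∈ t) →
      (∀ v ∉ t, W z v = 0) ∧ b (∑ v ∈ t, W z v • v) = p.Fh b T z ∧ T (∑ v ∈ t, W z v • v) = 1 := by
    intro z hz t ht hs
    refine ⟨?_, ?_, ?_⟩
    · intro v hv
      rw [hW]; simp only
      rw [Finset.sum_eq_zero, zero_mul]
      intro a ha
      rw [Finset.mem_filter] at ha
      by_contra hc
      exact hv (ha.2 ▸ hs a hc)
    · rw [map_sum]
      have e1 : ∀ v ∈ t, b (W z v • v) = ∑ a ∈ p.box.filter (fun a => p.vtx a.1 a.2 = v),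
          p.wt z a • nv b T (p.vtx a.1 a.2) := by
        intro v _
        rw [map_smul, hW]; simp only
        rw [mul_smul, Finset.sum_smul]
        apply Finset.sum_congr rfl
        intro a ha
        rw [Finset.mem_filter] at ha
        rw [ha.2]; rfl
      rw [Finset.sum_congr rfl e1]
      unfold Fh
      have e2 : ∑ a ∈ p.box, p.wt z a • nv b T (p.vtx a.1 a.2)
          = ∑ a ∈ p.box.filter (fun a => p.vtx a.1 a.2 ∈ t), p.wt z a • nv b T (p.vtx a.1 a.2) := by
        symm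
        apply Finset.sum_subset (Finset.filter_subset _ _)
        intro a ha hna
        rw [Finset.mem_filter, not_and] at hna
        have : p.wt z a = 0 := by
          by_contra hc
          exact hna ha (hs a hc)
        rw [this, zero_smul]
      rw [e2, ← Finset.sum_fiberwise_of_maps_to (s := p.box.filter (fun a => p.vtx a.1 a.2 ∈ t))
        (t := t) (g := fun a => p.vtx a.1 a.2) (fun a ha => (Finset.mem_filter.mp ha).2)]
      apply Finset.sum_congr rfl
      intro v hv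
      apply Finset.sum_congr _ (fun _ _ => rfl)
      ext a
      simp only [Finset.mem_filter]
      constructor
      · rintro ⟨g1, g2⟩; exact ⟨⟨g1, g2 ▸ hv⟩, g2⟩
      · rintro ⟨⟨g1, _⟩, g2⟩; exact ⟨g1, g2⟩
    · rw [map_sum]
      have e1 : ∀ v ∈ t, T (W z v • v) = ∑ a ∈ p.box.filter (fun a => p.vtx a.1 a.2 = v),
          p.wt z a := by
        intro v hvt
        have := hT v (p.tri_vert t ht v hvt)
        rw [map_smul, hW]; simp only
        rw [smul_eq_mul, mul_assoc, inv_mul_cancel₀ this.ne', mul_one]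
      rw [Finset.sum_congr rfl e1, ← Helper576.VBP.P4_wt_sum p z hz]
      have e2 : ∑ a ∈ p.box, p.wt z a
          = ∑ a ∈ p.box.filter (fun a => p.vtx a.1 a.2 ∈ t), p.wt z a := by
        symm
        apply Finset.sum_subset (Finset.filter_subset _ _)
        intro a ha hna
        rw [Finset.mem_filter, not_and] at hna
        by_contra hc
        exact hna ha (hs a hc)
      rw [e2, ← Finset.sum_fiberwise_of_maps_to (s := p.box.filter (fun a => p.vtx a.1 a.2 ∈ t))
        (t := t) (g := fun a => p.vtx a.1 a.2) (fun a ha => (Finset.mem_filter.mp ha).2)]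
      apply Finset.sum_congr rfl
      intro v hv
      apply Finset.sum_congr _ (fun _ _ => rfl)
      ext a
      simp only [Finset.mem_filter]
      constructor
      · rintro ⟨g1, g2⟩; exact ⟨⟨g1, g2 ▸ hv⟩, g2⟩
      · rintro ⟨⟨g1, _⟩, g2⟩; exact ⟨g1, g2⟩
  obtain ⟨t, ht, hst⟩ := p.tri_supp z hz
  obtain ⟨t', ht', hst'⟩ := p.tri_supp z' hz'
  obtain ⟨a1, a2, a3⟩ := hsum z hz t ht hst
  obtain ⟨a1', a2', a3'⟩ := hsum z' hz' t' ht' hst'
  have eY : ∑ v ∈ t, W z v • v = ∑ v ∈ t', W z' v • v := by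
    apply sub_eq_zero.mp
    apply hinj
    · rw [map_sub, a2, a2', h, sub_self]
    · rw [map_sub, a3, a3', sub_self]
  have wnn : ∀ z : ℝ × ℝ, ∀ t, p.IsTri t → (∀ v ∉ t, W z v = 0) → ∀ v, 0 ≤ W z v := by
    intro z t ht h0 v
    by_cases hv : v ∈ t
    · rw [hW]; simp only
      apply mul_nonneg
      · apply Finset.sum_nonneg; intro a _; exact Helper576.VBP.P1_wt_nonneg p z a
      · exact (inv_pos.mpr (hT v (p.tri_vert t ht v hv))).le
    · rw [h0 v hv]
  have hWW := p.U2_uniq t t' ht ht' (W z) (W z') (wnn z t ht a1) (wnn z' t' ht' a1') a1 a1' eY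
  apply Helper576.VBP.P7_ker p z z' hz hz'
  intro F hF
  -- factor `F` through the vertices
  have hG : ∃ G : P2 → ℝ, ∀ a ∈ p.box, G (p.vtx a.1 a.2) = F a := by
    refine ⟨fun v => if h : ∃ a ∈ p.box, p.vtx a.1 a.2 = v then F h.choose else 0, ?_⟩
    intro a ha
    have hex : ∃ a' ∈ p.box, p.vtx a'.1 a'.2 = p.vtx a.1 a.2 := ⟨a, ha, rfl⟩
    simp only
    rw [dif_pos hex]
    have hc := hex.choose_spec
    generalize hex.choose = a' at hc ⊢
    apply hF
    have hb1 := hc.1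
    have hb2 := ha
    unfold box at hb1 hb2
    simp only [Finset.mem_product, Finset.mem_Icc] at hb1 hb2
    exact p.vtx_inj a' a hb1.2.1 hb1.2.2 hb2.2.1 hb2.2.2 hc.2
  obtain ⟨G, hG⟩ := hG
  have key : ∀ z, ∑ a ∈ p.box, p.wt z a • F a
      = ∑ v ∈ p.Vset, (∑ a ∈ p.box.filter (fun a => p.vtx a.1 a.2 = v), p.wt z a) * G v := by
    intro z
    rw [← Finset.sum_fiberwise_of_maps_to (s := p.box) (t := p.Vset)
      (g := fun a => p.vtx a.1 a.2) (fun a ha => (p.mem_Vset _).mpr (hv a ha))]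
    apply Finset.sum_congr rfl
    intro v _
    rw [Finset.sum_mul]
    apply Finset.sum_congr rfl
    intro a ha
    rw [Finset.mem_filter] at ha
    rw [← hG a ha.1, ha.2, smul_eq_mul]
  rw [key, key]
  apply Finset.sum_congr rfl
  intro v hvV
  have hTv := hT v ((p.mem_Vset v).mp hvV)
  have := congrFun hWW v
  rw [hW] at this
  simp only at this
  rw [mul_right_cancel₀ (inv_pos.mpr hTv).ne' this]

theorem TriE_conn (hT : ∀ v, p.IsVert v → 0 < T v) (u : E →ₗ[ℝ] ℝ) (c : ℝ) :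
    ∀ x y, (∃ t ∈ p.TriE b T, x ∈ t) → (∃ t ∈ p.TriE b T, y ∈ t) → c ≤ u x → c ≤ u y →
      Relation.ReflTransGen (fun x y => (∃ t ∈ p.TriE b T, x ∈ t ∧ y ∈ t) ∧ c ≤ u y) x y := by
  classical
  rintro x y ⟨s, hs, hx⟩ ⟨s', hs', hy⟩ hcx hcy
  obtain ⟨t, ht, rfl⟩ := (p.mem_TriE b T _).mp hs
  obtain ⟨t', ht', rfl⟩ := (p.mem_TriE b T _).mp hs'
  obtain ⟨v, hv, rfl⟩ := Finset.mem_image.mp hx
  obtain ⟨v', hv', rfl⟩ := Finset.mem_image.mp hy
  have hvv := p.tri_vert t ht v hv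
  have hvv' := p.tri_vert t' ht' v' hv'
  set B : P2 →ₗ[ℝ] ℝ := u.comp b - c • T with hB
  have hBv : ∀ x, p.IsVert x → (0 ≤ B x ↔ c ≤ u (nv b T x)) := by
    intro x hx
    have hTx := hT x hx
    have e : B x = T x * (u (nv b T x) - c) := by
      rw [hB]; unfold nv
      rw [LinearMap.sub_apply, LinearMap.comp_apply, LinearMap.smul_apply, map_smul, smul_eq_mul,
        smul_eq_mul]
      field_simp
    rw [e]
    constructor
    · intro h
      have := (mul_nonneg_iff_of_pos_left hTx).mp h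
      linarith
    · intro h
      exact mul_nonneg hTx.le (by linarith)
  have h3 := p.U3_conn B v v' hvv hvv' ((hBv v hvv).mpr hcx) ((hBv v' hvv').mpr hcy)
  refine Relation.ReflTransGen.lift (nv b T) ?_ _ _ h3
  rintro x y ⟨⟨t, ht, hx, hy⟩, hy0⟩
  refine ⟨⟨t.image (nv b T), (p.mem_TriE b T _).mpr ⟨t, ht, rfl⟩, Finset.mem_image_of_mem _ hx,
    Finset.mem_image_of_mem _ hy⟩, (hBv y (p.tri_vert t ht y hy)).mp hy0⟩

end

theorem Z_compact : IsCompact p.Z := by
  have : p.Z = Set.Icc (0 : ℝ) (2 * p.n) ×ˢ Set.Icc (1 - (p.N : ℝ)) p.n := by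
    ext z
    unfold Z
    simp only [Set.mem_ofPred_eq, Set.mem_prod, Set.mem_Icc]
    tauto
  rw [this]
  exact isCompact_Icc.prod isCompact_Icc

end Par

theorem core {Y : Type} [TopologicalSpace Y] [T2Space Y] (pi : {L : P1 // L ≠ 0} → Y)
    (hpi : Continuous pi) (hsurj : Function.Surjective pi)
    (hfib : ∀ L L', pi L = pi L' ↔ ∃ c : ℝ, L'.1 = c • L.1)
    (b : P2 →ₗ[ℝ] EuclideanSpace ℝ (Fin 4)) (T : P2 →ₗ[ℝ] ℝ)
    (hinj : ∀ v, b v = 0 → T v = 0 → v = 0) (hpos : ∀ L : P1, L ≠ 0 → 0 < T (sq L))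
    (ε : ℝ) (hε : 0 < ε) :
    ∃ (g : Y → EuclideanSpace ℝ (Fin 4))
      (K : Geometry.SimplicialComplex ℝ (EuclideanSpace ℝ (Fin 4))),
      K.faces.Finite ∧ Continuous g ∧ Function.Injective g ∧ Set.range g = K.space ∧
      (∀ (u : EuclideanSpace ℝ (Fin 4)) (c : ℝ), IsPreconnected {y | c ≤ inner ℝ u (g y)}) ∧
      ∀ L : {L : P1 // L ≠ 0}, ‖g (pi L) - (T (sq L.1))⁻¹ • b (sq L.1)‖ ≤ ε := by
  classical
  obtain ⟨n0, N0, hclose⟩ := C1_close b T hpos ε hε
  obtain ⟨p, hn0, hN0⟩ := C0_exists_par n0 N0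
  obtain ⟨hT, hcl⟩ := hclose p hn0 hN0
  obtain ⟨K, hK1, hK2, hK3⟩ := Helper576.VBA.A1_exists_complex (p.TriE b T) (p.TriE_finite b T)
    (p.TriE_uniq b T hinj hT)
  have : CompactSpace p.Z := isCompact_iff_compactSpace.mp p.Z_compact
  set q : p.Z → Y := fun z => pi ⟨p.Qp z.1, p.Q1_ne_zero z.1 z.2⟩ with hq
  have hqc : Continuous q := by
    apply hpi.comp
    exact Continuous.subtype_mk (p.Q2_continuous.comp continuous_subtype_val) _
  have hqs : Function.Surjective q := by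
    intro y
    obtain ⟨L, rfl⟩ := hsurj y
    obtain ⟨z, hz, c, hc, e⟩ := p.Q4_surj L.1 L.2
    refine ⟨⟨z, hz⟩, ?_⟩
    rw [hq]
    symm
    exact (hfib _ _).mpr ⟨c, e⟩
  set F : p.Z → EuclideanSpace ℝ (Fin 4) := fun z => p.Fh b T z.1 with hF
  have hFc : Continuous F := by
    have := Helper576.VBP.P5_continuous p (fun a => Par.nv b T (p.vtx a.1 a.2))
    exact continuousOn_iff_continuous_domRestrict.mp this
  have hker : ∀ z z', q z = q z' ↔ F z = F z' := by
    intro z z'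
    rw [hq, hF]
    simp only
    rw [hfib, p.Q3_ker z.1 z'.1 z.2 z'.2, p.Fh_ker b T hinj hT z.1 z'.1 z.2 z'.2]
  obtain ⟨g, hg1, hg2, hg3, hg4, hg5⟩ := Helper576.VBA.A3_glue q hqc hqs F hFc hker
  have hrange : Set.range F = ⋃ t ∈ p.TriE b T, convexHull ℝ (t : Set (EuclideanSpace ℝ (Fin 4))) := by
    rw [← p.Fh_range b T]
    ext x
    constructor
    · rintro ⟨z, rfl⟩; exact ⟨z.1, z.2, rfl⟩
    · rintro ⟨z, hz, rfl⟩; exact ⟨⟨z, hz⟩, rfl⟩
  refine ⟨g, K, hK2, hg1, hg2, ?_, ?_, ?_⟩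
  · rw [hg4, hK3, hrange]
  · intro u c
    have h1 := Helper576.VBA.A2_tpp (p.TriE b T) ((innerSL ℝ u).toLinearMap) c
      (p.TriE_conn b T hT _ c)
    have h2 := hg5 {x | c ≤ inner ℝ u x} (by
      rw [hrange]
      exact h1)
    exact h2
  · intro L
    obtain ⟨z, hz⟩ := hqs (pi L)
    rw [← hz, hg3]
    have hz' := (hfib _ _).mp hz
    obtain ⟨c, hc⟩ := hz'
    have hc0 : c ≠ 0 := by
      intro h; rw [h, zero_smul] at hc; exact L.2 hc
    have e : (T (sq L.1))⁻¹ • b (sq L.1) = (T (sq (p.Qp z.1)))⁻¹ • b (sq (p.Qp z.1)) := by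
      simp only at hc
      rw [hc, sq_smul, map_smul, map_smul, smul_smul, smul_eq_mul]
      congr 1
      have := (hpos (p.Qp z.1) (p.Q1_ne_zero z.1 z.2)).ne'
      field_simp
    rw [e]
    have hball := p.Fh_hull b T z.1 z.2 (Metric.closedBall
      ((T (sq (p.Qp z.1)))⁻¹ • b (sq (p.Qp z.1))) ε) (convex_closedBall _ _) (by
        intro a ha hne
        rw [Metric.mem_closedBall, dist_eq_norm]
        exact hcl z.1 z.2 a ha hne)
    rw [Metric.mem_closedBall, dist_eq_norm] at hball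
    exact hball

end Pool.Agent.Helper576.VA
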