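import Pool.Agent.Helper576.VCore

set_option autoImplicit false

namespace Pool.Agent.Helper576.VFin

open Pool.Agent.Helper576.VA

/-- Euclidean `n`-space. -/
abbrev E (n : ℕ) : Type := EuclideanSpace ℝ (Fin n)

/-- The unit sphere in Euclidean three-space. -/
abbrev S2 : Type := Metric.sphere (0 : E 3) 1

/-- Two points of the sphere are equivalent if they are equal or antipodal. -/
def antipodal : Setoid S2 where
  r x y := x = y ∨ x = -y
  iseqv :=
    { refl := fun _ => Or.inl rfl
      symm := by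
        rintro x y (h | h)
        · exact Or.inl h.symm
        · exact Or.inr (by rw [h, neg_neg])
      trans := by
        rintro x y z (rfl | rfl) (rfl | rfl)
        · exact Or.inl rfl
        · exact Or.inr rfl
        · exact Or.inr rfl
        · exact Or.inl (neg_neg _) }

/-- The real projective plane, with the quotient topology. -/
abbrev RP2 : Type := Quotient antipodal

/-- The class of a point of the sphere in the projective plane. -/
def cls (x : S2) : RP2 := Quotient.mk antipodal x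

theorem cls_eq_iff (x y : S2) : cls x = cls y ↔ x = y ∨ x = -y := by
  unfold cls
  rw [Quotient.eq]; rfl

theorem cls_continuous : Continuous cls := continuous_quotient_mk'

/-- the squares `x_i x_j` separate the points of the projective plane -/
noncomputable def xx (x : S2) : Fin 3 → Fin 3 → ℝ := fun i j => (x : E 3) i * (x : E 3) j

theorem xx_eq (x y : S2) (h : xx x = xx y) : x = y ∨ x = -y := by
  have hx : ∑ i, (x : E 3) i ^ 2 = 1 := by
    have := x.2
    rw [mem_sphere_zero_iff_norm, EuclideanSpace.norm_eq, Real.sqrt_eq_one] at this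
    simpa using this
  have hy : ∑ i, (y : E 3) i ^ 2 = 1 := by
    have := y.2
    rw [mem_sphere_zero_iff_norm, EuclideanSpace.norm_eq, Real.sqrt_eq_one] at this
    simpa using this
  have h' : ∀ i j, (x : E 3) i * (x : E 3) j = (y : E 3) i * (y : E 3) j := fun i j =>
    congrFun (congrFun h i) j
  -- `c = <x, y>` satisfies `c y = x` and `c ^ 2 = 1`
  set c : ℝ := ∑ i, (x : E 3) i * (y : E 3) i with hc
  have e1 : ∀ i, (x : E 3) i = c * (y : E 3) i := by
    intro i
    have e2 : c * (y : E 3) i = ∑ j, (x : E 3) j * ((y : E 3) j * (y : E 3) i) := by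
      rw [hc, Finset.sum_mul]
      apply Finset.sum_congr rfl
      intro j _; ring
    rw [e2]
    have e3 : ∀ j, (x : E 3) j * ((y : E 3) j * (y : E 3) i) = (x : E 3) i * (x : E 3) j ^ 2 := by
      intro j
      rw [← h' j i]; ring
    simp only [e3]
    rw [← Finset.mul_sum, hx, mul_one]
  have e4 : c ^ 2 = 1 := by
    have : ∑ i, (x : E 3) i ^ 2 = c ^ 2 * ∑ i, (y : E 3) i ^ 2 := by
      rw [Finset.mul_sum]
      apply Finset.sum_congr rfl
      intro i _; rw [e1 i]; ring
    rw [hx, hy, mul_one] at this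
    exact this.symm
  have h1 : c = 1 ∨ c = -1 := by
    rcases mul_eq_zero.mp (show (c - 1) * (c + 1) = 0 by linear_combination e4) with h | h
    · left; linarith
    · right; linarith
  rcases h1 with h1 | h1
  · left
    apply Subtype.ext
    ext i
    rw [e1 i, h1, one_mul]
  · right
    apply Subtype.ext
    ext i
    rw [e1 i, h1]
    show -1 * (y : E 3) i = (-(y : E 3)) i
    simp

theorem xx_continuous : Continuous xx := by
  unfold xx
  apply continuous_pi; intro i
  apply continuous_pi; intro j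
  have h : ∀ i : Fin 3, Continuous (fun x : S2 => (x : E 3) i) := by
    intro i
    exact (EuclideanSpace.proj i : E 3 →L[ℝ] ℝ).continuous.comp continuous_subtype_val
  exact (h i).mul (h j)

noncomputable def xxq : RP2 → (Fin 3 → Fin 3 → ℝ) := Quotient.lift xx (by
  rintro x y (h | h)
  · rw [h]
  · rw [h]; funext i j
    show (-(y : E 3)) i * (-(y : E 3)) j = (y : E 3) i * (y : E 3) j
    simp)

theorem xxq_inj : Function.Injective xxq := by
  intro a b h
  induction a using Quotient.ind with | _ x => ?_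
  induction b using Quotient.ind with | _ y => ?_
  exact (cls_eq_iff x y).mpr (xx_eq x y h)

theorem xxq_continuous : Continuous xxq := xx_continuous.quotient_lift _

instance : T2Space RP2 := T2Space.of_injective_continuous xxq_inj xxq_continuous

/-- the map from the nonzero vectors of `P1` onto the projective plane -/
noncomputable def pj (M : E 3 ≃ₗ[ℝ] P1) (L : {L : P1 // L ≠ 0}) : RP2 :=
  cls ⟨‖M.symm L.1‖⁻¹ • M.symm L.1, by
    have : M.symm L.1 ≠ 0 := by
      intro h; apply L.2
      exact (LinearEquiv.map_eq_zero_iff M.symm).mp h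
    rw [mem_sphere_zero_iff_norm, norm_smul, norm_inv, norm_norm,
      inv_mul_cancel₀ (norm_ne_zero_iff.mpr this)]⟩

theorem pj_ne (M : E 3 ≃ₗ[ℝ] P1) (L : {L : P1 // L ≠ 0}) : M.symm L.1 ≠ 0 := by
  intro h; apply L.2
  exact (LinearEquiv.map_eq_zero_iff M.symm).mp h

theorem pj_continuous (M : E 3 ≃ₗ[ℝ] P1) : Continuous (pj M) := by
  unfold pj
  apply cls_continuous.comp
  apply Continuous.subtype_mk
  have h1 : Continuous (fun L : {L : P1 // L ≠ 0} => M.symm L.1) :=
    (LinearMap.continuous_of_finiteDimensional (M.symm : P1 →ₗ[ℝ] E 3)).comp continuous_subtype_val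
  have h2 : Continuous (fun L : {L : P1 // L ≠ 0} => ‖M.symm L.1‖⁻¹) :=
    h1.norm.inv₀ (fun L => norm_ne_zero_iff.mpr (pj_ne M L))
  exact h2.smul h1

theorem pj_of (M : E 3 ≃ₗ[ℝ] P1) (x : S2) : ∃ h : M (x : E 3) ≠ 0, pj M ⟨M x, h⟩ = cls x := by
  have hx : ‖(x : E 3)‖ = 1 := by have := x.2; rwa [mem_sphere_zero_iff_norm] at this
  have hne : M (x : E 3) ≠ 0 := by
    intro h
    have := (LinearEquiv.map_eq_zero_iff M).mp h
    rw [this] at hx; simp at hx
  refine ⟨hne, ?_⟩
  unfold pj
  congr 1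
  apply Subtype.ext
  simp only [LinearEquiv.symm_apply_apply]
  rw [hx, inv_one, one_smul]

theorem pj_surj (M : E 3 ≃ₗ[ℝ] P1) : Function.Surjective (pj M) := by
  intro y
  induction y using Quotient.ind with | _ x => ?_
  obtain ⟨h, e⟩ := pj_of M x
  exact ⟨_, e⟩

theorem pj_fib (M : E 3 ≃ₗ[ℝ] P1) (L L' : {L : P1 // L ≠ 0}) :
    pj M L = pj M L' ↔ ∃ c : ℝ, L'.1 = c • L.1 := by
  have hL := pj_ne M L
  have hL' := pj_ne M L'
  have nL : ‖M.symm L.1‖ ≠ 0 := norm_ne_zero_iff.mpr hL
  have nL' : ‖M.symm L'.1‖ ≠ 0 := norm_ne_zero_iff.mpr hL'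
  unfold pj
  rw [cls_eq_iff]
  constructor
  · rintro (h | h)
    · have h1 := congrArg Subtype.val h
      simp only at h1
      refine ⟨‖M.symm L'.1‖ * ‖M.symm L.1‖⁻¹, ?_⟩
      apply M.symm.injective
      rw [map_smul, mul_smul, h1, smul_smul, mul_inv_cancel₀ nL', one_smul]
    · have h1 := congrArg Subtype.val h
      have h2 : ‖M.symm L.1‖⁻¹ • M.symm L.1 = -(‖M.symm L'.1‖⁻¹ • M.symm L'.1) := h1
      refine ⟨-(‖M.symm L'.1‖ * ‖M.symm L.1‖⁻¹), ?_⟩
      apply M.symm.injective
      rw [map_smul, neg_smul, mul_smul, h2, smul_neg, neg_neg, smul_smul, mul_inv_cancel₀ nL', one_smul]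
  · rintro ⟨c, hc⟩
    have hc0 : c ≠ 0 := by
      intro h; rw [h, zero_smul] at hc; exact L'.2 hc
    have e : M.symm L'.1 = c • M.symm L.1 := by rw [hc, map_smul]
    rcases lt_or_gt_of_ne hc0 with h | h
    · right
      apply Subtype.ext
      show ‖M.symm L.1‖⁻¹ • M.symm L.1 = -(‖M.symm L'.1‖⁻¹ • M.symm L'.1)
      rw [e, norm_smul, Real.norm_of_nonpos h.le, smul_smul, ← neg_smul]
      congr 1
      field_simp
    · left
      apply Subtype.ext
      show ‖M.symm L.1‖⁻¹ • M.symm L.1 = ‖M.symm L'.1‖⁻¹ • M.symm L'.1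
      rw [e, norm_smul, Real.norm_of_nonneg h.le, smul_smul]
      congr 1
      field_simp

theorem assemble (f : RP2 → E 4) (M : E 3 ≃ₗ[ℝ] P1) (b : P2 →ₗ[ℝ] E 4) (T : P2 →ₗ[ℝ] ℝ)
    (hinj : ∀ v, b v = 0 → T v = 0 → v = 0) (hT : ∀ x, T (sq (M x)) = ‖x‖ ^ 2)
    (hb : ∀ x : S2, b (sq (M x)) = f (cls x)) (ε : ℝ) (hε : 0 < ε) :
    ∃ (g : RP2 → E 4) (K : Geometry.SimplicialComplex ℝ (E 4)),
      K.faces.Finite ∧ Continuous g ∧ Function.Injective g ∧ Set.range g = K.space ∧
      (∀ (u : E 4) (c : ℝ), IsPreconnected {y | c ≤ inner ℝ u (g y)}) ∧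
      ∀ y, ‖g y - f y‖ ≤ ε := by
  obtain ⟨g, K, h1, h2, h3, h4, h5, h6⟩ := core (pj M) (pj_continuous M) (pj_surj M) (pj_fib M) b T
    hinj (by
      intro L hL
      have := hT (M.symm L)
      rw [LinearEquiv.apply_symm_apply] at this
      rw [this]
      have : M.symm L ≠ 0 := by
        intro h; apply hL
        exact (LinearEquiv.map_eq_zero_iff M.symm).mp h
      have := norm_pos_iff.mpr this
      positivity) ε hε
  refine ⟨g, K, h1, h2, h3, h4, h5, ?_⟩
  intro y
  induction y using Quotient.ind with | _ x => ?_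
  obtain ⟨h, e⟩ := pj_of M x
  have := h6 ⟨M x, h⟩
  rw [e] at this
  simp only at this
  have hx : ‖(x : E 3)‖ = 1 := by have := x.2; rwa [mem_sphere_zero_iff_norm] at this
  rw [hT, hx, hb x, one_pow, inv_one, one_smul] at this
  exact this

end Pool.Agent.Helper576.VFin
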