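import Pool.Agent.Helper576.VA6

set_option autoImplicit false

/-! Interface: definitions shared by all modules of MP_c8c16f_gt. -/

namespace Pool.Agent.Helper576.VA

open ComplexConjugate

/-- one dimensional tent -/
noncomputable def tent (t : ℝ) : ℝ := max 0 (1 - |t|)

/-- hat function of the lattice vertex `0` for the triangulation with triangles
`{(X,D),(X+1,D),(X,D+1)}` and `{(X+1,D),(X,D+1),(X+1,D+1)}` -/
noncomputable def hat (s t : ℝ) : ℝ := max 0 (min (min (1 - |s|) (1 - |t|)) (1 - |s + t|))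

namespace Par

variable (p : Par)

/-- triangles, as finsets of vectors of `P2` -/
def IsTri (t : Finset P2) : Prop :=
  ∃ X D : ℤ, 1 - (p.N : ℤ) ≤ D ∧ D + 1 ≤ p.n ∧
    (t = {p.vtx X D, p.vtx (X + 1) D, p.vtx X (D + 1)} ∨
      t = {p.vtx (X + 1) D, p.vtx X (D + 1), p.vtx (X + 1) (D + 1)})

/-- vertices -/
def IsVert (v : P2) : Prop := ∃ X D : ℤ, 1 - (p.N : ℤ) ≤ D ∧ D ≤ p.n ∧ v = p.vtx X D

/-- equivalence of lattice points `(X, D)` -/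
def Eqv (a b : ℤ × ℤ) : Prop :=
  a.2 = b.2 ∧ (a.2 = 1 - (p.N : ℤ) ∨ (2 * (p.n : ℤ)) ∣ (b.1 - a.1) ∨
    (a.2 = p.n ∧ (p.n : ℤ) ∣ (b.1 - a.1)))

/-- the parameter rectangle `[0,2n] x [1-N,n]` -/
def Z : Set (ℝ × ℝ) := {z | 0 ≤ z.1 ∧ z.1 ≤ 2 * p.n ∧ 1 - (p.N : ℝ) ≤ z.2 ∧ z.2 ≤ p.n}

/-- the lattice box `[0,2n] x [1-N,n]` -/
noncomputable def box : Finset (ℤ × ℤ) := (Finset.Icc 0 (2 * (p.n : ℤ))) ×ˢ (Finset.Icc (1 - (p.N : ℤ)) p.n)

/-- weight of the lattice vertex `a = (X, D)` at the point `z = (x, d)` -/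
noncomputable def wt (z : ℝ × ℝ) (a : ℤ × ℤ) : ℝ :=
  if 2 - (p.N : ℝ) ≤ z.2 then hat (z.1 - a.1) (z.2 - a.2)
  else tent (z.1 - a.1) * tent (z.2 - a.2)

/-- equivalence of points of `Z` -/
def ZEqv (z z' : ℝ × ℝ) : Prop :=
  z.2 = z'.2 ∧ (z.2 = 1 - (p.N : ℝ) ∨ (∃ k : ℤ, z'.1 - z.1 = 2 * p.n * k) ∨
    (z.2 = p.n ∧ ∃ k : ℤ, z'.1 - z.1 = p.n * k))

/-- radius -/
noncomputable def rad (d : ℝ) : ℝ :=
  p.c * p.r1 * (p.N + min d 1 - 1) / p.N + (1 - p.c * p.r1) * min 1 (max 0 (d - 1))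

/-- height -/
noncomputable def wd (d : ℝ) : ℝ := Real.cos (max d 2 * Real.pi / (2 * p.n))

/-- the point of `P1` (up to scaling a point of the projective plane) of the parameter `z` -/
noncomputable def Qp (z : ℝ × ℝ) : P1 :=
  (p.wd z.2, -((p.rad z.2 : ℂ) * om p.n (z.1 + 1 / 2 + max z.2 2 / 2)))

end Par

end Pool.Agent.Helper576.VA
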