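import Pool.Agent.Helper576.VFin

set_option autoImplicit false

namespace Pool.Agent.Helper576.VLin

open Pool.Agent.Helper576.VA Pool.Agent.Helper576.VFin

/-- The Veronese map. -/
noncomputable def veronese (x : E 3) : E 6 :=
  !₂[x 0 ^ 2, x 1 ^ 2, x 2 ^ 2, Real.sqrt 2 * (x 0 * x 1), Real.sqrt 2 * (x 0 * x 2),
    Real.sqrt 2 * (x 1 * x 2)]

/-- polarised Veronese map -/
noncomputable def V (x y : E 3) : E 6 :=
  !₂[x 0 * y 0, x 1 * y 1, x 2 * y 2, Real.sqrt 2 / 2 * (x 0 * y 1 + x 1 * y 0),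
    Real.sqrt 2 / 2 * (x 0 * y 2 + x 2 * y 0), Real.sqrt 2 / 2 * (x 1 * y 2 + x 2 * y 1)]

theorem V_self (x : E 3) : V x x = veronese x := by
  unfold V veronese
  ext i; fin_cases i <;> simp <;> ring

theorem V_comm (x y : E 3) : V x y = V y x := by
  unfold V
  ext i; fin_cases i <;> simp <;> ring

theorem V_add_left (x x' y : E 3) : V (x + x') y = V x y + V x' y := by
  unfold V
  ext i; fin_cases i <;> simp <;> ring

theorem V_smul_left (c : ℝ) (x y : E 3) : V (c • x) y = c • V x y := by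
  unfold V
  ext i; fin_cases i <;> simp <;> ring

theorem V_add_right (x y y' : E 3) : V x (y + y') = V x y + V x y' := by
  rw [V_comm, V_add_left, V_comm y x, V_comm y' x]

theorem V_smul_right (c : ℝ) (x y : E 3) : V x (c • y) = c • V x y := by
  rw [V_comm, V_smul_left, V_comm y x]

theorem inner3 (x y : E 3) : inner ℝ x y = x 0 * y 0 + x 1 * y 1 + x 2 * y 2 := by
  simp only [PiLp.inner_apply, RCLike.inner_apply, conj_trivial, Fin.sum_univ_three]
  ring

theorem inner6 (x y : E 6) : inner ℝ x y = x 0 * y 0 + x 1 * y 1 + x 2 * y 2 + x 3 * y 3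
    + x 4 * y 4 + x 5 * y 5 := by
  simp only [PiLp.inner_apply, RCLike.inner_apply, conj_trivial, Fin.sum_univ_six]
  ring

theorem V_inner (x y x' y' : E 3) : inner ℝ (V x y) (V x' y')
    = 1 / 2 * (inner ℝ x x' * inner ℝ y y' + inner ℝ x y' * inner ℝ y x') := by
  rw [inner6, inner3, inner3, inner3, inner3]
  unfold V
  simp
  have h2 : Real.sqrt 2 * Real.sqrt 2 = 2 := Real.mul_self_sqrt (by norm_num)
  linear_combination (1 / 4 * ((x 0 * y 1 + x 1 * y 0) * (x' 0 * y' 1 + x' 1 * y' 0)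
    + (x 0 * y 2 + x 2 * y 0) * (x' 0 * y' 2 + x' 2 * y' 0)
    + (x 1 * y 2 + x 2 * y 1) * (x' 1 * y' 2 + x' 2 * y' 1))) * h2

/-- trace functional -/
noncomputable def nn : E 6 →ₗ[ℝ] ℝ where
  toFun y := y 0 + y 1 + y 2
  map_add' a b := by simp; ring
  map_smul' c a := by simp; ring

theorem nn_apply (y : E 6) : nn y = y 0 + y 1 + y 2 := rfl

theorem nn_V (x y : E 3) : nn (V x y) = inner ℝ x y := by
  rw [nn_apply, inner3]; unfold V; simp

theorem spec (a : E 6) : ∃ (b : OrthonormalBasis (Fin 3) ℝ (E 3)) (l : Fin 3 → ℝ),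
    a = ∑ i, l i • V (b i) (b i) := by
  set r := Real.sqrt 2 / 2 with hr
  have hr2 : Real.sqrt 2 * r = 1 := by
    rw [hr]
    have h2 : Real.sqrt 2 * Real.sqrt 2 = 2 := Real.mul_self_sqrt (by norm_num)
    linarith
  set A : Matrix (Fin 3) (Fin 3) ℝ :=
    !![a 0, r * a 3, r * a 4; r * a 3, a 1, r * a 5; r * a 4, r * a 5, a 2] with hAd
  have hA : A.IsHermitian := by
    ext i j
    fin_cases i <;> fin_cases j <;> simp [hAd]
  have key : ∀ j k, A j k = ∑ i, hA.eigenvalues i * ((hA.eigenvectorBasis i) j *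
      (hA.eigenvectorBasis i) k) := by
    intro j k
    have h := congrFun (congrFun hA.spectral_theorem j) k
    rw [Unitary.conjStarAlgAut_apply] at h
    rw [h, Matrix.mul_apply]
    apply Finset.sum_congr rfl
    intro i _
    rw [Matrix.mul_diagonal, Matrix.star_apply]
    simp only [Function.comp_apply, Matrix.IsHermitian.eigenvectorUnitary_apply]
    simp
    ring
  refine ⟨hA.eigenvectorBasis, hA.eigenvalues, ?_⟩
  set b := hA.eigenvectorBasis
  set l := hA.eigenvalues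
  have k00 := key 0 0
  have k11 := key 1 1
  have k22 := key 2 2
  have k01 := key 0 1
  have k02 := key 0 2
  have k12 := key 1 2
  simp only [Fin.sum_univ_three] at k00 k11 k22 k01 k02 k12
  simp [hAd] at k00 k11 k22 k01 k02 k12
  have m : ∀ s t : ℝ, r * s = t → s = Real.sqrt 2 * t := by
    intro s t h
    rw [← h, ← mul_assoc, hr2, one_mul]
  rw [Fin.sum_univ_three]
  unfold V
  ext i
  fin_cases i
  · simp; linarith
  · simp; linarith
  · simp; linarith
  · simp
    rw [m _ _ k01]; ring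
  · simp
    rw [m _ _ k02]; ring
  · simp
    rw [m _ _ k12]; ring


/-- `L : F → G` is the orthogonal projection of `F` onto its linear subspace `K` followed by a
linear isometry of `K` onto `G`. -/
def IsOrthogonalProjection {F G : Type} [NormedAddCommGroup F] [InnerProductSpace ℝ F]
    [NormedAddCommGroup G] [InnerProductSpace ℝ G] (K : Submodule ℝ F) (L : F →L[ℝ] G) : Prop :=
  (∀ x ∈ Kᗮ, L x = 0) ∧ (∀ x ∈ K, ‖L x‖ = ‖x‖) ∧ Function.Surjective L

theorem kerL (K : Submodule ℝ (E 6)) (L : E 6 →L[ℝ] E 4) (hK : ∀ x ∈ K, x 0 + x 1 + x 2 = 0)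
    (hL : IsOrthogonalProjection K L) :
    ∃ a : E 6, a ≠ 0 ∧ L a = 0 ∧ nn a = 0 ∧ ∀ y, L y = 0 → nn y = 0 → ∃ c : ℝ, y = c • a := by
  obtain ⟨h1, h2, h3⟩ := hL
  have dec : ∀ y : E 6, ∃ k ∈ K, ∃ k' ∈ Kᗮ, y = k + k' := by
    intro y
    have := K.exists_add_mem_mem_orthogonal y
    obtain ⟨k, hk, k', hk', e⟩ := this
    exact ⟨k, hk, k', hk', e⟩
  have hker : ∀ y, L y = 0 → y ∈ Kᗮ := by
    intro y hy
    obtain ⟨k, hk, k', hk', rfl⟩ := dec y
    rw [map_add, h1 k' hk', add_zero] at hy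
    have := h2 k hk
    rw [hy, norm_zero] at this
    have hk0 : k = 0 := norm_eq_zero.mp this.symm
    rw [hk0, zero_add]; exact hk'
  -- dimensions
  have hinj : Function.Injective (L.toLinearMap.domRestrict K) := by
    rw [← LinearMap.ker_eq_bot, LinearMap.ker_eq_bot']
    intro k hk
    have h4 : L (k : E 6) = 0 := hk
    have := h2 k k.2
    rw [h4, norm_zero] at this
    exact Subtype.ext (norm_eq_zero.mp this.symm)
  have hsurj : Function.Surjective (L.toLinearMap.domRestrict K) := by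
    intro z
    obtain ⟨y, rfl⟩ := h3 z
    obtain ⟨k, hk, k', hk', rfl⟩ := dec y
    refine ⟨⟨k, hk⟩, ?_⟩
    show L k = L (k + k')
    rw [map_add, h1 k' hk', add_zero]
  have d4 : Module.finrank ℝ K = 4 := by
    have := (LinearEquiv.ofBijective _ ⟨hinj, hsurj⟩).finrank_eq
    rw [this]; simp
  have d2 : Module.finrank ℝ Kᗮ = 2 := by
    have := Submodule.finrank_add_finrank_orthogonal K
    rw [d4] at this
    simp at this
    omega
  -- the functional on the orthogonal complement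
  have he : (!₂[1, 1, 1, 0, 0, 0] : E 6) ∈ Kᗮ := by
    rw [Submodule.mem_orthogonal]
    intro u hu
    rw [inner6]
    simp
    exact hK u hu
  set f : Kᗮ →ₗ[ℝ] ℝ := nn.domRestrict Kᗮ with hf
  have hfe : f ⟨_, he⟩ = 3 := by
    show nn (!₂[1, 1, 1, 0, 0, 0] : E 6) = 3
    rw [nn_apply]; simp; norm_num
  have hfs : Function.Surjective f := by
    intro c
    refine ⟨(c / 3) • ⟨_, he⟩, ?_⟩
    rw [map_smul, hfe, smul_eq_mul]; ring
  have dk : Module.finrank ℝ (LinearMap.ker f) = 1 := by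
    have := LinearMap.finrank_range_add_finrank_ker f
    rw [LinearMap.range_eq_top.mpr hfs, d2, finrank_top] at this
    simp at this
    omega
  have : Nontrivial (LinearMap.ker f) := Module.nontrivial_of_finrank_pos (R := ℝ) (by omega)
  obtain ⟨a, ha⟩ := exists_ne (0 : LinearMap.ker f)
  have hspan := (finrank_eq_one_iff_of_nonzero' a ha).mp dk
  refine ⟨((a : Kᗮ) : E 6), ?_, ?_, ?_, ?_⟩
  · intro h; apply ha
    apply Subtype.ext; apply Subtype.ext
    exact h
  · exact h1 _ (a : Kᗮ).2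
  · exact a.2
  · intro y hy1 hy2
    have hy := hker y hy1
    obtain ⟨c, hc⟩ := hspan ⟨⟨y, hy⟩, hy2⟩
    refine ⟨c, ?_⟩
    have := congrArg (fun z : LinearMap.ker f => ((z : Kᗮ) : E 6)) hc
    exact this.symm

theorem veronese_differentiable : Differentiable ℝ veronese := by
  intro x
  rw [differentiableAt_euclidean]
  have h : ∀ i : Fin 3, DifferentiableAt ℝ (fun x : E 3 => x i) x := by
    intro i
    exact (EuclideanSpace.proj i : E 3 →L[ℝ] ℝ).differentiableAt
  intro i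
  unfold veronese
  fin_cases i
  · simpa using (h 0).fun_pow 2
  · simpa using (h 1).fun_pow 2
  · simpa using (h 2).fun_pow 2
  · simpa using ((h 0).mul (h 1)).const_mul (Real.sqrt 2)
  · simpa using ((h 0).mul (h 2)).const_mul (Real.sqrt 2)
  · simpa using ((h 1).mul (h 2)).const_mul (Real.sqrt 2)

theorem fderiv_ver (L : E 6 →L[ℝ] E 4) (x w : E 3) :
    fderiv ℝ (fun y => L (veronese y)) x w = (2 : ℝ) • L (V x w) := by
  have hd : DifferentiableAt ℝ (fun y => L (veronese y)) x :=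
    L.differentiableAt.comp x (veronese_differentiable x)
  rw [← hd.lineDeriv_eq_fderiv]
  unfold lineDeriv
  have e : (fun t : ℝ => L (veronese (x + t • w)))
      = fun t : ℝ => L (V x x) + (t • ((2 : ℝ) • L (V x w)) + (t ^ 2) • L (V w w)) := by
    funext t
    rw [← V_self, V_add_left, V_add_right, V_add_right, V_smul_left, V_smul_right, V_smul_left,
      V_smul_right, V_comm w x]
    simp only [map_add, map_smul]
    module
  rw [e]
  have h1 : HasDerivAt (fun t : ℝ => L (V x x) + (t • ((2 : ℝ) • L (V x w)) + (t ^ 2) • L (V w w)))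
      ((1 : ℝ) • ((2 : ℝ) • L (V x w)) + ((2 : ℕ) * (0 : ℝ) ^ (2 - 1)) • L (V w w)) 0 := by
    apply HasDerivAt.const_add
    apply HasDerivAt.add
    · exact (hasDerivAt_id (0 : ℝ)).smul_const _
    · exact (hasDerivAt_pow 2 (0 : ℝ)).smul_const _
  rw [h1.deriv]
  simp

/-- an eigenvalue zero contradicts the immersion property -/
theorem eig_ne (L : E 6 →L[ℝ] E 4)
    (himm : ∀ x w : E 3, ‖x‖ = 1 → inner ℝ x w = 0 → fderiv ℝ (fun y => L (veronese y)) x w = 0 →
      w = 0) (a : E 6) (ha : a ≠ 0) (hLa : L a = 0) (hna : nn a = 0) (u v w : E 3) (hu : ‖u‖ = 1)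
    (hv : ‖v‖ = 1) (hw : ‖w‖ = 1) (huv : inner ℝ u v = 0) (l m k : ℝ)
    (e : a = l • V u u + m • V v v + k • V w w) : k ≠ 0 := by
  intro hk
  rw [hk, zero_smul, add_zero] at e
  have h1 : ∀ x : E 3, ‖x‖ = 1 → nn (V x x) = 1 := by
    intro x hx
    rw [nn_V, real_inner_self_eq_norm_sq, hx, one_pow]
  have h2 : l + m = 0 := by
    rw [e, map_add, map_smul, map_smul, h1 u hu, h1 v hv] at hna
    simpa using hna
  have hm : m = -l := by linarith
  have hl : l ≠ 0 := by
    intro h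
    apply ha
    rw [e, hm, h]; simp
  have e2 : a = l • (V u u - V v v) := by
    rw [e, hm]; module
  have h3 : L (V u u - V v v) = 0 := by
    rw [e2, map_smul] at hLa
    exact (smul_eq_zero.mp hLa).resolve_left hl
  have hs : Real.sqrt 2 * Real.sqrt 2 = 2 := Real.mul_self_sqrt (by norm_num)
  have hnorm : ‖(Real.sqrt 2 / 2) • (u + v)‖ = 1 := by
    have h4 : ‖(Real.sqrt 2 / 2) • (u + v)‖ ^ 2 = 1 := by
      rw [← real_inner_self_eq_norm_sq, inner_smul_left, inner_smul_right, inner_add_left,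
        inner_add_right, inner_add_right, real_inner_self_eq_norm_sq, real_inner_self_eq_norm_sq,
        hu, hv, huv, real_inner_comm, huv]
      simp
      linear_combination (1 / 2) * hs
    have h5 := norm_nonneg ((Real.sqrt 2 / 2) • (u + v))
    nlinarith
  have := himm ((Real.sqrt 2 / 2) • (u + v)) (u - v) hnorm (by
    rw [inner_smul_left, inner_add_left, inner_sub_right, inner_sub_right,
      real_inner_self_eq_norm_sq, real_inner_self_eq_norm_sq, hu, hv, huv, real_inner_comm, huv]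
    simp) (by
    rw [fderiv_ver]
    have e3 : V ((Real.sqrt 2 / 2) • (u + v)) (u - v) = (Real.sqrt 2 / 2) • (V u u - V v v) := by
      rw [sub_eq_add_neg, ← neg_one_smul ℝ v, V_smul_left, V_add_left, V_add_right, V_add_right,
        V_smul_right, V_smul_right, V_comm v u]
      module
    rw [e3, map_smul, h3, smul_zero, smul_zero])
  have huv' : u = v := sub_eq_zero.mp this
  rw [huv', real_inner_self_eq_norm_sq, hv] at huv
  norm_num at huv

/-- parametrisation of space by `P1` -/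
noncomputable def Mi (w0 w1 w2 : E 3) : P1 →ₗ[ℝ] E 3 where
  toFun q := q.2.re • w0 + q.2.im • w1 + q.1 • w2
  map_add' a b := by
    simp only [Prod.fst_add, Prod.snd_add, Complex.add_re, Complex.add_im]; module
  map_smul' c a := by
    simp only [Prod.smul_fst, Prod.smul_snd, Complex.real_smul, Complex.re_ofReal_mul,
      Complex.im_ofReal_mul, smul_eq_mul, RingHom.id_apply]; module

noncomputable def Yl (w0 w1 w2 : E 3) : P2 →ₗ[ℝ] E 6 where
  toFun q := q.1 • V w2 w2 + q.2.1.re • V w0 w2 + q.2.1.im • V w1 w2 + (2 * q.2.2.im) • V w0 w1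
    + q.2.2.re • (V w0 w0 - V w1 w1)
  map_add' a b := by
    simp only [Prod.fst_add, Prod.snd_add, Complex.add_re, Complex.add_im]; module
  map_smul' c a := by
    simp only [Prod.smul_fst, Prod.smul_snd, Complex.real_smul, Complex.re_ofReal_mul,
      Complex.im_ofReal_mul, smul_eq_mul, RingHom.id_apply]; module

theorem sq_comp (w : ℝ) (z : ℂ) : (VA.sq (w, z)).1 = w * w + 1 / 2 * (z.re ^ 2 + z.im ^ 2) ∧
    (VA.sq (w, z)).2.1.re = 2 * w * z.re ∧ (VA.sq (w, z)).2.1.im = 2 * w * z.im ∧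
    (VA.sq (w, z)).2.2.re = 1 / 2 * (z.re ^ 2 - z.im ^ 2) ∧
    (VA.sq (w, z)).2.2.im = z.re * z.im := by
  unfold VA.sq mul
  simp only [Complex.mul_re, Complex.mul_im, Complex.conj_re, Complex.conj_im, Complex.add_re,
    Complex.add_im, Complex.ofReal_re, Complex.ofReal_im]
  norm_num
  refine ⟨by ring, by ring, by ring, by ring, by ring⟩

theorem Yl_sq (w0 w1 w2 : E 3) (q : P1) : V (Mi w0 w1 w2 q) (Mi w0 w1 w2 q)
    = Yl w0 w1 w2 (VA.sq q) + (1 / 2 * (q.2.re ^ 2 + q.2.im ^ 2)) • (V w0 w0 + V w1 w1 - V w2 w2) := by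
  obtain ⟨w, z⟩ := q
  obtain ⟨c1, c2, c3, c4, c5⟩ := sq_comp w z
  show V (z.re • w0 + z.im • w1 + w • w2) (z.re • w0 + z.im • w1 + w • w2)
    = ((VA.sq (w, z)).1 • V w2 w2 + (VA.sq (w, z)).2.1.re • V w0 w2 + (VA.sq (w, z)).2.1.im • V w1 w2
      + (2 * (VA.sq (w, z)).2.2.im) • V w0 w1 + (VA.sq (w, z)).2.2.re • (V w0 w0 - V w1 w1))
      + (1 / 2 * (z.re ^ 2 + z.im ^ 2)) • (V w0 w0 + V w1 w1 - V w2 w2)
  rw [c1, c2, c3, c4, c5]
  generalize z.re = a
  generalize z.im = b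
  simp only [V_add_left, V_add_right, V_smul_left, V_smul_right]
  rw [V_comm w1 w0, V_comm w2 w0, V_comm w2 w1]
  generalize V w0 w0 = v00
  generalize V w1 w1 = v11
  generalize V w2 w2 = v22
  generalize V w0 w1 = v01
  generalize V w0 w2 = v02
  generalize V w1 w2 = v12
  module

theorem normal_form (L : E 6 →L[ℝ] E 4) (w0 w1 w2 : E 3) (h0 : w0 ≠ 0) (h1 : w1 ≠ 0) (h2 : w2 ≠ 0)
    (h01 : inner ℝ w0 w1 = 0) (h02 : inner ℝ w0 w2 = 0) (h12 : inner ℝ w1 w2 = 0)
    (hLa : L (V w0 w0 + V w1 w1 - V w2 w2) = 0) (hna : nn (V w0 w0 + V w1 w1 - V w2 w2) = 0)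
    (hker : ∀ y, L y = 0 → nn y = 0 → ∃ c : ℝ, y = c • (V w0 w0 + V w1 w1 - V w2 w2)) :
    ∃ (M : E 3 ≃ₗ[ℝ] P1) (b : P2 →ₗ[ℝ] E 4) (T : P2 →ₗ[ℝ] ℝ),
      (∀ v, b v = 0 → T v = 0 → v = 0) ∧ (∀ x, b (sq (M x)) = L (veronese x)) ∧
      (∀ x, T (sq (M x)) = ‖x‖ ^ 2) := by
  have n0 : inner ℝ w0 w0 ≠ 0 := inner_self_ne_zero.mpr h0
  have n1 : inner ℝ w1 w1 ≠ 0 := inner_self_ne_zero.mpr h1
  have n2 : inner ℝ w2 w2 ≠ 0 := inner_self_ne_zero.mpr h2
  have h10 : inner ℝ w1 w0 = 0 := by rw [real_inner_comm]; exact h01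
  have h20 : inner ℝ w2 w0 = 0 := by rw [real_inner_comm]; exact h02
  have h21 : inner ℝ w2 w1 = 0 := by rw [real_inner_comm]; exact h12
  have hMi : Function.Injective (Mi w0 w1 w2) := by
    rw [← LinearMap.ker_eq_bot, LinearMap.ker_eq_bot']
    intro q hq
    have hq' : q.2.re • w0 + q.2.im • w1 + q.1 • w2 = 0 := hq
    have g0 := congrArg (fun v => inner ℝ w0 v) hq'
    have g1 := congrArg (fun v => inner ℝ w1 v) hq'
    have g2 := congrArg (fun v => inner ℝ w2 v) hq'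
    simp only [inner_add_right, inner_smul_right, inner_zero_right, h01, h02, h12, h10, h20, h21,
      mul_zero, add_zero, zero_add] at g0 g1 g2
    refine Prod.ext ?_ (Complex.ext ?_ ?_)
    · exact (mul_eq_zero.mp g2).resolve_right n2
    · exact (mul_eq_zero.mp g0).resolve_right n0
    · exact (mul_eq_zero.mp g1).resolve_right n1
  have hdim : Module.finrank ℝ P1 = Module.finrank ℝ (E 3) := by
    rw [Module.finrank_prod, Complex.finrank_real_complex]; simp
  set Me := LinearMap.linearEquivOfInjective (Mi w0 w1 w2) hMi hdim with hMe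
  have hMe' : ∀ q, Me q = Mi w0 w1 w2 q := fun q => rfl
  refine ⟨Me.symm, L.toLinearMap.comp (Yl w0 w1 w2), nn.comp (Yl w0 w1 w2), ?_, ?_, ?_⟩
  · intro v hv1 hv2
    obtain ⟨c, hc⟩ := hker (Yl w0 w1 w2 v) hv1 hv2
    have hc' : v.1 • V w2 w2 + v.2.1.re • V w0 w2 + v.2.1.im • V w1 w2 + (2 * v.2.2.im) • V w0 w1
      + v.2.2.re • (V w0 w0 - V w1 w1) = c • (V w0 w0 + V w1 w1 - V w2 w2) := hc
    have g00 := congrArg (fun v => inner ℝ (V w0 w0) v) hc'
    have g11 := congrArg (fun v => inner ℝ (V w1 w1) v) hc'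
    have g22 := congrArg (fun v => inner ℝ (V w2 w2) v) hc'
    have g01 := congrArg (fun v => inner ℝ (V w0 w1) v) hc'
    have g02 := congrArg (fun v => inner ℝ (V w0 w2) v) hc'
    have g12 := congrArg (fun v => inner ℝ (V w1 w2) v) hc'
    simp only [inner_add_right, inner_smul_right, inner_sub_right, V_inner, h01, h02, h12, h10,
      h20, h21, mul_zero, zero_mul, add_zero, zero_add, sub_zero, zero_sub] at g00 g11 g22 g01 g02 g12
    set N0 := inner ℝ w0 w0
    set N1 := inner ℝ w1 w1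
    set N2 := inner ℝ w2 w2
    have m00 : N0 * N0 ≠ 0 := mul_ne_zero n0 n0
    have m11 : N1 * N1 ≠ 0 := mul_ne_zero n1 n1
    have m22 : N2 * N2 ≠ 0 := mul_ne_zero n2 n2
    have m01 : N0 * N1 ≠ 0 := mul_ne_zero n0 n1
    have m02 : N0 * N2 ≠ 0 := mul_ne_zero n0 n2
    have m12 : N1 * N2 ≠ 0 := mul_ne_zero n1 n2
    have r1 : (v.2.2.re - c) * (N0 * N0) = 0 := by linear_combination g00
    have r2 : (v.2.2.re + c) * (N1 * N1) = 0 := by linear_combination -g11
    have r3 : (v.1 + c) * (N2 * N2) = 0 := by linear_combination g22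
    have r4 : v.2.2.im * (N0 * N1) = 0 := by linear_combination g01
    have r5 : v.2.1.re * (N0 * N2) = 0 := by linear_combination 2 * g02
    have r6 : v.2.1.im * (N1 * N2) = 0 := by linear_combination 2 * g12
    have s1 := (mul_eq_zero.mp r1).resolve_right m00
    have s2 := (mul_eq_zero.mp r2).resolve_right m11
    have s3 := (mul_eq_zero.mp r3).resolve_right m22
    have s4 := (mul_eq_zero.mp r4).resolve_right m01
    have s5 := (mul_eq_zero.mp r5).resolve_right m02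
    have s6 := (mul_eq_zero.mp r6).resolve_right m12
    refine Prod.ext ?_ (Prod.ext (Complex.ext ?_ ?_) (Complex.ext ?_ ?_))
    · show v.1 = 0
      linarith
    · exact s5
    · exact s6
    · show v.2.2.re = 0
      linarith
    · exact s4
  · intro x
    have e := Yl_sq w0 w1 w2 (Me.symm x)
    rw [← hMe', LinearEquiv.apply_symm_apply, V_self] at e
    rw [e, map_add, map_smul, hLa, smul_zero, add_zero]
    rfl
  · intro x
    have e := Yl_sq w0 w1 w2 (Me.symm x)
    rw [← hMe', LinearEquiv.apply_symm_apply] at e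
    have e2 := congrArg nn e
    rw [map_add, map_smul, hna, smul_zero, add_zero, nn_V, real_inner_self_eq_norm_sq] at e2
    rw [e2]
    rfl

theorem nf_signs (L : E 6 →L[ℝ] E 4) (a : E 6) (hLa : L a = 0) (hna : nn a = 0)
    (hker : ∀ y, L y = 0 → nn y = 0 → ∃ c : ℝ, y = c • a) (u v w : E 3) (hu : ‖u‖ = 1)
    (hv : ‖v‖ = 1) (hw : ‖w‖ = 1) (huv : inner ℝ u v = 0) (huw : inner ℝ u w = 0)
    (hvw : inner ℝ v w = 0) (l m k : ℝ) (hl : 0 < l) (hm : 0 < m) (hk : k < 0)
    (e : a = l • V u u + m • V v v + k • V w w) :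
    ∃ (M : E 3 ≃ₗ[ℝ] P1) (b : P2 →ₗ[ℝ] E 4) (T : P2 →ₗ[ℝ] ℝ),
      (∀ v, b v = 0 → T v = 0 → v = 0) ∧ (∀ x, b (sq (M x)) = L (veronese x)) ∧
      (∀ x, T (sq (M x)) = ‖x‖ ^ 2) := by
  have e' : V (Real.sqrt l • u) (Real.sqrt l • u) + V (Real.sqrt m • v) (Real.sqrt m • v)
      - V (Real.sqrt (-k) • w) (Real.sqrt (-k) • w) = a := by
    rw [V_smul_left, V_smul_right, V_smul_left, V_smul_right, V_smul_left, V_smul_right,
      smul_smul, smul_smul, smul_smul, Real.mul_self_sqrt hl.le, Real.mul_self_sqrt hm.le,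
      Real.mul_self_sqrt (by linarith), e]
    module
  have ne : ∀ (x : E 3), ‖x‖ = 1 → ∀ s : ℝ, 0 < s → Real.sqrt s • x ≠ 0 := by
    intro x hx s hs h
    rcases smul_eq_zero.mp h with h | h
    · exact absurd h (Real.sqrt_pos.mpr hs).ne'
    · rw [h, norm_zero] at hx; norm_num at hx
  apply normal_form L (Real.sqrt l • u) (Real.sqrt m • v) (Real.sqrt (-k) • w)
    (ne u hu l hl) (ne v hv m hm) (ne w hw (-k) (by linarith))
  · rw [inner_smul_left, inner_smul_right, huv]; simp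
  · rw [inner_smul_left, inner_smul_right, huw]; simp
  · rw [inner_smul_left, inner_smul_right, hvw]; simp
  · rw [e']; exact hLa
  · rw [e']; exact hna
  · rw [e']; exact hker

theorem linalg (K : Submodule ℝ (E 6)) (L : E 6 →L[ℝ] E 4) (hK : ∀ x ∈ K, x 0 + x 1 + x 2 = 0)
    (hL : IsOrthogonalProjection K L)
    (himm : ∀ x w : E 3, ‖x‖ = 1 → inner ℝ x w = 0 → fderiv ℝ (fun y => L (veronese y)) x w = 0 →
      w = 0) :
    ∃ (M : E 3 ≃ₗ[ℝ] P1) (b : P2 →ₗ[ℝ] E 4) (T : P2 →ₗ[ℝ] ℝ),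
      (∀ v, b v = 0 → T v = 0 → v = 0) ∧ (∀ x, b (sq (M x)) = L (veronese x)) ∧
      (∀ x, T (sq (M x)) = ‖x‖ ^ 2) := by
  obtain ⟨a, ha, hLa, hna, hker⟩ := kerL K L hK hL
  obtain ⟨b, l, e⟩ := spec a
  rw [Fin.sum_univ_three] at e
  have nb : ∀ i, ‖b i‖ = 1 := fun i => b.orthonormal.1 i
  have ob : ∀ i j, i ≠ j → inner ℝ (b i) (b j) = 0 := fun i j h => b.orthonormal.2 h
  have hsum : l 0 + l 1 + l 2 = 0 := by
    have h1 : ∀ i, nn (V (b i) (b i)) = 1 := by
      intro i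
      rw [nn_V, real_inner_self_eq_norm_sq, nb, one_pow]
    rw [e, map_add, map_add, map_smul, map_smul, map_smul, h1, h1, h1] at hna
    simpa using hna
  have l2 : l 2 ≠ 0 := eig_ne L himm a ha hLa hna (b 0) (b 1) (b 2) (nb 0) (nb 1) (nb 2)
    (ob 0 1 (by decide)) (l 0) (l 1) (l 2) e
  have l1 : l 1 ≠ 0 := eig_ne L himm a ha hLa hna (b 0) (b 2) (b 1) (nb 0) (nb 2) (nb 1)
    (ob 0 2 (by decide)) (l 0) (l 2) (l 1) (by rw [e]; module)
  have l0 : l 0 ≠ 0 := eig_ne L himm a ha hLa hna (b 1) (b 2) (b 0) (nb 1) (nb 2) (nb 0)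
    (ob 1 2 (by decide)) (l 1) (l 2) (l 0) (by rw [e]; module)
  -- negated data
  have hLa' : L (-a) = 0 := by rw [map_neg, hLa, neg_zero]
  have hna' : nn (-a) = 0 := by rw [map_neg, hna, neg_zero]
  have hker' : ∀ y, L y = 0 → nn y = 0 → ∃ c : ℝ, y = c • (-a) := by
    intro y h1 h2
    obtain ⟨c, hc⟩ := hker y h1 h2
    exact ⟨-c, by rw [hc]; module⟩
  rcases lt_or_gt_of_ne l0 with g0 | g0 <;> rcases lt_or_gt_of_ne l1 with g1 | g1 <;>
    rcases lt_or_gt_of_ne l2 with g2 | g2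
  · exfalso; linarith
  · exact nf_signs L (-a) hLa' hna' hker' (b 0) (b 1) (b 2) (nb 0) (nb 1) (nb 2)
      (ob 0 1 (by decide)) (ob 0 2 (by decide)) (ob 1 2 (by decide)) (-l 0) (-l 1) (-l 2)
      (by linarith) (by linarith) (by linarith) (by rw [e]; module)
  · exact nf_signs L (-a) hLa' hna' hker' (b 0) (b 2) (b 1) (nb 0) (nb 2) (nb 1)
      (ob 0 2 (by decide)) (ob 0 1 (by decide)) (ob 2 1 (by decide)) (-l 0) (-l 2) (-l 1)
      (by linarith) (by linarith) (by linarith) (by rw [e]; module)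
  · exact nf_signs L a hLa hna hker (b 1) (b 2) (b 0) (nb 1) (nb 2) (nb 0)
      (ob 1 2 (by decide)) (ob 1 0 (by decide)) (ob 2 0 (by decide)) (l 1) (l 2) (l 0)
      g1 g2 g0 (by rw [e]; module)
  · exact nf_signs L (-a) hLa' hna' hker' (b 1) (b 2) (b 0) (nb 1) (nb 2) (nb 0)
      (ob 1 2 (by decide)) (ob 1 0 (by decide)) (ob 2 0 (by decide)) (-l 1) (-l 2) (-l 0)
      (by linarith) (by linarith) (by linarith) (by rw [e]; module)
  · exact nf_signs L a hLa hna hker (b 0) (b 2) (b 1) (nb 0) (nb 2) (nb 1)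
      (ob 0 2 (by decide)) (ob 0 1 (by decide)) (ob 2 1 (by decide)) (l 0) (l 2) (l 1)
      g0 g2 g1 (by rw [e]; module)
  · exact nf_signs L a hLa hna hker (b 0) (b 1) (b 2) (nb 0) (nb 1) (nb 2)
      (ob 0 1 (by decide)) (ob 0 2 (by decide)) (ob 1 2 (by decide)) (l 0) (l 1) (l 2)
      g0 g1 g2 (by rw [e])
  · exfalso; linarith

end Pool.Agent.Helper576.VLin
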